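import Pool.Agent.H72.NM.Ls

/-!
# [H95 RO BLK] MP_8923e7_nt, THEOREM R: one block of shifts, with a weight `R`, at a fixed `x`
-/

set_option autoImplicit false

namespace Pool.Agent.H95.RO

open Finset Pool.Agent.H21.MT Pool.Agent.H92.MM Pool.Agent.H21.CP

open Classical in
/-- a block with a prime, with a weight -/
theorem block_primeR {T : Finset ℕ} {μ : ℕ → ℝ} (hμ : ∀ N, 0 ≤ μ N) (h1 : ∑ N ∈ T, μ N = 1)
    {B : Finset ℕ} {g : ℕ → ℕ → ℝ} {e C1 P0 c : ℝ} (he : 0 ≤ e) (hC : 0 ≤ C1) (hP0 : 0 < P0)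
    (h : Mom T μ B g e C1 P0) (pr : ℕ → ℕ → Prop)
    (hg : ∀ x ∈ B, ∀ N ∈ T, 0 ≤ g x N ∧ (pr x N → 1 ≤ g x N))
    (R : ℕ → ℝ) {C0 κ : ℝ} (hR : ∀ N ∈ T, 0 ≤ R N ∧ R N ≤ C0) (hC0 : 0 ≤ C0) (hκ : 0 ≤ κ)
    (hp : ∀ x ∈ B, c * Ex T μ (g x) - κ ≤ ∑ N ∈ T.filter (fun N => pr x N), μ N * R N) :
    c - B.card * κ / P0 - C0 * Real.sqrt (e + C1 / P0) ≤
      ∑ N ∈ T.filter (fun N => ∃ x ∈ B, pr x N), μ N * R N := by
  have hv := var_block h1 he h
  set m : ℝ := ∑ x ∈ B, Ex T μ (g x) with hm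
  have hmP : P0 ≤ m := h.2.2.2
  have hm0 : 0 < m := lt_of_lt_of_le hP0 hmP
  set Z : ℕ → ℝ := fun N => ∑ x ∈ B, g x N with hZ
  set X : ℕ → ℝ := fun N => ((B.filter (fun x => pr x N)).card : ℝ) with hX
  set E : ℕ → Prop := fun N => ∃ x ∈ B, pr x N with hE
  -- the number of primes
  have hXE : c * m - B.card * κ ≤ ∑ N ∈ T, μ N * R N * X N := by
    have h2 : ∑ N ∈ T, μ N * R N * X N = ∑ x ∈ B, ∑ N ∈ T.filter (fun N => pr x N), μ N * R N := by
      have h3 : ∀ N, μ N * R N * X N = ∑ x ∈ B, if pr x N then μ N * R N else 0 := by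
        intro N
        rw [hX]
        simp only [card_filter]
        push_cast
        rw [mul_sum]
        apply sum_congr rfl
        intro x _
        split_ifs <;> simp
      simp_rw [h3]
      rw [sum_comm]
      apply sum_congr rfl
      intro x _
      rw [sum_filter]
    rw [h2, hm, mul_sum]
    have h4 : ∑ x ∈ B, c * Ex T μ (g x) - B.card * κ = ∑ x ∈ B, (c * Ex T μ (g x) - κ) := by
      rw [sum_sub_distrib, sum_const, nsmul_eq_mul]
    rw [h4]
    exact sum_le_sum hp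
  -- comparison with Z on the event
  have hXZ : ∀ N ∈ T, X N ≤ (if E N then m else 0) + |Z N - m| := by
    intro N hN
    split_ifs with hEN
    · have h3 : X N ≤ Z N := by
        rw [hX, hZ]
        simp only [card_filter]
        push_cast
        apply sum_le_sum
        intro x hx
        have h4 := hg x hx N hN
        split_ifs with h5
        · exact h4.2 h5
        · exact h4.1
      have h4 := le_abs_self (Z N - m)
      linarith
    · have h3 : X N = 0 := by
        rw [hX]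
        simp only [Nat.cast_eq_zero, card_eq_zero]
        rw [filter_eq_empty_iff]
        intro x hx hpx
        exact hEN ⟨x, hx, hpx⟩
      rw [h3]
      positivity
  have hEX : ∑ N ∈ T, μ N * R N * X N ≤ m * ∑ N ∈ T.filter E, μ N * R N +
      C0 * Ex T μ (fun N => |Z N - m|) := by
    unfold Ex
    calc ∑ N ∈ T, μ N * R N * X N ≤
          ∑ N ∈ T, (μ N * R N * (if E N then m else 0) + C0 * (μ N * |Z N - m|)) := by
          refine sum_le_sum fun N hN => ?_
          have h2 := hR N hN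
          have h3 := mul_le_mul_of_nonneg_left (hXZ N hN) (mul_nonneg (hμ N) h2.1)
          have h4 : μ N * R N * |Z N - m| ≤ C0 * (μ N * |Z N - m|) := by
            have h5 : R N * (μ N * |Z N - m|) ≤ C0 * (μ N * |Z N - m|) :=
              mul_le_mul_of_nonneg_right h2.2 (mul_nonneg (hμ N) (abs_nonneg _))
            linarith
          linarith
      _ = ∑ N ∈ T, (m * (if E N then μ N * R N else 0) + C0 * (μ N * |Z N - m|)) := by
          apply sum_congr rfl
          intro N _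
          split_ifs <;> ring
      _ = _ := by
          rw [sum_add_distrib, ← mul_sum, ← sum_filter, ← mul_sum]
  -- Cauchy-Schwarz
  have hCS : Ex T μ (fun N => |Z N - m|) ≤ m * Real.sqrt (e + C1 / P0) := by
    have h3 : (Ex T μ (fun N => |Z N - m|)) ^ 2 ≤ Ex T μ (fun N => (Z N - m) ^ 2) := by
      unfold Ex
      have h4 := sum_mul_sq_le_sq_mul_sq T (fun N => Real.sqrt (μ N))
        (fun N => Real.sqrt (μ N) * |Z N - m|)
      have h5 : ∑ N ∈ T, Real.sqrt (μ N) * (Real.sqrt (μ N) * |Z N - m|) =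
          ∑ N ∈ T, μ N * |Z N - m| := by
        apply sum_congr rfl
        intro N _
        rw [← mul_assoc, Real.mul_self_sqrt (hμ N)]
      have h6 : ∑ N ∈ T, (Real.sqrt (μ N)) ^ 2 = 1 := by
        rw [← h1]
        apply sum_congr rfl
        intro N _
        rw [Real.sq_sqrt (hμ N)]
      have h7 : ∑ N ∈ T, (Real.sqrt (μ N) * |Z N - m|) ^ 2 = ∑ N ∈ T, μ N * (Z N - m) ^ 2 := by
        apply sum_congr rfl
        intro N _
        rw [mul_pow, Real.sq_sqrt (hμ N), sq_abs]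
      rw [h5, h6, h7, one_mul] at h4
      exact h4
    have h4 : Ex T μ (fun N => (Z N - m) ^ 2) ≤ m ^ 2 * (e + C1 / P0) := by
      refine hv.trans ?_
      have h5 : C1 * m ≤ m ^ 2 * (C1 / P0) := by
        have h6 : m * P0 ≤ m * m := mul_le_mul_of_nonneg_left hmP hm0.le
        have h7 : C1 * m = C1 / P0 * (m * P0) := by field_simp
        rw [h7]
        have h8 : 0 ≤ C1 / P0 := by positivity
        nlinarith
      nlinarith
    have h5 : 0 ≤ e + C1 / P0 := by positivity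
    have h6 : (Ex T μ (fun N => |Z N - m|)) ^ 2 ≤ (m * Real.sqrt (e + C1 / P0)) ^ 2 := by
      rw [mul_pow, Real.sq_sqrt h5]
      exact h3.trans h4
    exact le_of_sq_le_sq h6 (by positivity)
  have hB : (B.card : ℝ) * κ ≤ m * (B.card * κ / P0) := by
    have h2 : 0 ≤ (B.card : ℝ) * κ := by positivity
    have h3 : P0 * (B.card * κ / P0) ≤ m * (B.card * κ / P0) :=
      mul_le_mul_of_nonneg_right hmP (by positivity)
    have h4 : P0 * (B.card * κ / P0) = B.card * κ := by field_simp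
    linarith
  have hC2 := mul_le_mul_of_nonneg_left hCS hC0
  have hfin : m * (c - B.card * κ / P0 - C0 * Real.sqrt (e + C1 / P0)) ≤
      m * ∑ N ∈ T.filter E, μ N * R N := by
    have h2 : m * (c - B.card * κ / P0 - C0 * Real.sqrt (e + C1 / P0)) =
        c * m - m * (B.card * κ / P0) - C0 * (m * Real.sqrt (e + C1 / P0)) := by ring
    rw [h2]
    linarith
  exact le_of_mul_le_mul_left hfin hm0

/-- functions with mean `0` -/
theorem av_small {ι : Type} [Fintype ι] [DecidableEq ι] {T : Finset ℕ} {ω : ℕ → ℝ}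
    {L l b : ℕ} {bi : Fin L → ℕ} {a B η ϖ ε Δ κ : ℝ} {m : ι → Fin L → ℕ → ℕ}
    (hS : St (Fintype.card ι) L l b bi a B η ϖ ε Δ κ) {Φ : ℕ → ℝ}
    (h : AppT T ω m a η ϖ Φ 0) : |AvT T ω (fun N => sg b l B m N ^ 2 * Φ N)| ≤ κ := by
  have h2 := fa_main hS h (fun _ _ _ => 1) (fun _ _ => 0) (fun _ _ => dg_const 0 1)
    (fun _ _ t => by
      rw [abs_one]
      exact one_le_pow₀ one_le_two) (fun i => by simp)
  simp only [Finset.prod_const_one, mul_one, mul_zero, sub_zero] at h2
  exact h2.trans (fa_kap hS).1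

open Classical in
/-- one block contains a prime, with respect to `R μ` -/
theorem block_stepR {ι : Type} [Fintype ι] [DecidableEq ι] [Nonempty ι] (h : ι → ℕ) (idx : ℕ → ι)
    (T : Finset ℕ) (ω : ℕ → ℝ) {L l b : ℕ} {bi : Fin L → ℕ} {a B η ϖ ε Δ κ : ℝ}
    (m : ι → Fin L → ℕ → ℕ) (hS : St (Fintype.card ι) L l b bi a B η ϖ ε Δ κ)
    (hω : ∀ N, 0 ≤ ω N) (h1 : AppT T ω m a η ϖ (fun _ => 1) 1)
    (G : ℕ → ℝ) {EG c C : ℝ} (hG : Lg T ω m a η ϖ ε Δ κ c C (fun x N => G (N + h x)) EG)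
    (hG0 : ∀ n, 0 ≤ G n)
    (hprime : ∀ x : ι, ∀ N ∈ T, (N + h x).Prime → (∀ i, m x i N = 0) ∧ 1 ≤ G (N + h x)) {pr : ℝ}
    (hlaw : ∀ x : ι, ∀ A : ι → Fin L → ℕ, (∀ i, A x i = 0) → sl a L A ≤ η →
      |AvT T ω (fun N => mon m A N * (if (N + h x).Prime then 1 else 0)) - sv L A * pr| ≤ ϖ)
    {cc : ℝ} (hcc : 1 / 10 ≤ cc) (hcc1 : cc ≤ 1)
    (hpr : cc * EG ≤ (1 + ε) ^ 2 * (2 ^ L * pr)) (e P0 : ℝ) (he : 40 * ε ≤ e) (hP : 0 < P0)
    (V : Finset ℕ) (hV : ∀ y ∈ V, h (idx y) = y) (hP0 : P0 ≤ V.card * (c / 4 * AA b l L))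
    (R : ℕ → ℝ) {C0 : ℝ} (hR : ∀ N ∈ T, 0 ≤ R N ∧ R N ≤ C0) (hC0 : 0 ≤ C0)
    (hz2 : 1 / 2 ≤ AvT T ω (fun N => sg b l B m N ^ 2)) (hκ : 0 ≤ κ)
    (hR2 : ∀ x : ι, AppT T ω m a η ϖ (fun N => if (N + h x).Prime then R N - 1 else 0) 0) :
    (1 - e) * cc - V.card * (2 * κ) / P0 - C0 * Real.sqrt (e + 4 * C ^ 2 / c / P0) ≤
      ∑ N ∈ T.filter (fun N => ∃ y ∈ V, (N + y).Prime),
        ω N * sg b l B m N ^ 2 / AvT T ω (fun N => sg b l B m N ^ 2) * R N := by
  have hz : 0 < AvT T ω (fun N => sg b l B m N ^ 2) := by linarith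
  have hAA : 0 ≤ AA b l L := AA_nonneg hS.hb hS.ht l L
  have hε := hS.hε
  have hc0 := hG.c0
  obtain ⟨μ, hμd⟩ : ∃ μ : ℕ → ℝ, μ = fun N => ω N * sg b l B m N ^ 2 /
    AvT T ω (fun N => sg b l B m N ^ 2) := ⟨_, rfl⟩
  obtain ⟨g, hg⟩ : ∃ g : ℕ → ℕ → ℝ, g = fun y N => G (N + y) * r0 m (idx y) N := ⟨_, rfl⟩
  have hgy : ∀ y ∈ V, g y = fun N => (fun x N => G (N + h x)) (idx y) N * r0 m (idx y) N := by
    intro y hy
    rw [hg]
    funext N
    show G (N + y) * r0 m (idx y) N = G (N + h (idx y)) * r0 m (idx y) N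
    rw [hV y hy]
  have hμ0 : ∀ N, 0 ≤ μ N := by
    intro N
    rw [hμd]
    have := hω N
    positivity
  have hμ1 : ∑ N ∈ T, μ N = 1 := by
    rw [hμd, ← sum_div]
    exact div_self hz.ne'
  have hEx : ∀ f : ℕ → ℝ, Pool.Agent.H21.CP.Ex T μ f = emu b l B T ω m f := by
    intro f
    rw [hμd]
    exact ex_emu b l B T ω m f
  have hm : ∀ y ∈ V, c / 4 * AA b l L ≤ Pool.Agent.H21.CP.Ex T μ (g y) := by
    intro y hy
    rw [hEx, hgy y hy]
    exact co_mean hS hω h1 hG (idx y)
  have hm0 : 0 ≤ c / 4 * AA b l L := by positivity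
  have hMom : Pool.Agent.H21.CP.Mom T μ V g e (4 * C ^ 2 / c) P0 := by
    refine ⟨fun y hy => hm0.trans (hm y hy), fun y hy => ?_, fun y hy z hz' hyz => ?_, ?_⟩
    · rw [hEx, hEx, hgy y hy]
      exact co_sq hS hω h1 hG (idx y)
    · have hne : idx y ≠ idx z := by
        intro h2
        apply hyz
        rw [← hV y hy, ← hV z hz', h2]
      have h3 := co_pair hS hω h1 hG hne
      have h4 := hm y hy
      have h5 := hm z hz'
      rw [hEx] at h4 h5
      rw [hEx, hEx, hEx]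
      rw [hgy y hy] at h4 ⊢
      rw [hgy z hz'] at h5 ⊢
      refine h3.trans ?_
      apply mul_le_mul_of_nonneg_right (by linarith)
      exact mul_nonneg (hm0.trans h4) (hm0.trans h5)
    · refine hP0.trans ?_
      rw [← nsmul_eq_mul, ← sum_const]
      exact sum_le_sum fun y hy => hm y hy
  have hgp : ∀ y ∈ V, ∀ N ∈ T, 0 ≤ g y N ∧ ((N + y).Prime → 1 ≤ g y N) := by
    intro y hy N hN
    rw [hg]
    refine ⟨mul_nonneg (hG0 _) (r0_nonneg _ _), fun hp => ?_⟩
    have h2 := hprime (idx y) N hN (by rw [hV y hy]; exact hp)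
    rw [hV y hy] at h2
    show 1 ≤ G (N + y) * r0 m (idx y) N
    rw [r0, if_pos h2.1, mul_one]
    exact h2.2
  have hpp : ∀ y ∈ V, (1 - e) * cc * Pool.Agent.H21.CP.Ex T μ (g y) ≤
      ∑ N ∈ T.filter (fun N => (N + y).Prime), μ N := by
    intro y hy
    have h10 := co_primeC hS hω h1 hG (idx y) (fun N _ => hG0 _)
      (fun N => (N + y).Prime) (pr := pr)
      (fun N hN hp => (hprime (idx y) N hN (by rw [hV y hy]; exact hp)).1)
      (fun A hA hA2 => by
        have h11 := hlaw (idx y) A hA hA2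
        rw [hV y hy] at h11
        refine le_trans (le_of_eq ?_) h11
        congr 3
        funext N
        congr) hcc hcc1 hpr
    have h12 : ∑ N ∈ T.filter (fun N => (N + y).Prime), μ N =
        emu b l B T ω m (fun N => if (N + y).Prime then 1 else 0) := by
      rw [← hEx, Pool.Agent.H21.CP.Ex, sum_filter]
      refine sum_congr rfl fun N _ => ?_
      split_ifs <;> ring
    rw [h12, hEx, hgy y hy]
    have h13 : (1 - e) * cc ≤ (1 - 10 * ε) * cc :=
      mul_le_mul_of_nonneg_right (by linarith) (by linarith)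
    have h14 : 0 ≤ emu b l B T ω m
        (fun N => (fun x N => G (N + h x)) (idx y) N * r0 m (idx y) N) := by
      rw [← hgy y hy, ← hEx]
      exact hm0.trans (hm y hy)
    refine (mul_le_mul_of_nonneg_right h13 h14).trans (h10.trans (le_of_eq ?_))
    congr 1
    funext N
    congr
  have he0 : 0 ≤ e := by linarith
  have hC1 : 0 ≤ 4 * C ^ 2 / c := by positivity
  -- the weight
  have hpR : ∀ y ∈ V, (1 - e) * cc * Pool.Agent.H21.CP.Ex T μ (g y) - 2 * κ ≤
      ∑ N ∈ T.filter (fun N => (N + y).Prime), μ N * R N := by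
    intro y hy
    have h2 := hR2 (idx y)
    rw [hV y hy] at h2
    have h3 := av_small hS h2
    have h4 : ∑ N ∈ T.filter (fun N => (N + y).Prime), μ N * R N =
        ∑ N ∈ T.filter (fun N => (N + y).Prime), μ N +
          AvT T ω (fun N => sg b l B m N ^ 2 * (if (N + y).Prime then R N - 1 else 0)) /
            AvT T ω (fun N => sg b l B m N ^ 2) := by
      have h5 : AvT T ω (fun N => sg b l B m N ^ 2 * (if (N + y).Prime then R N - 1 else 0)) /
          AvT T ω (fun N => sg b l B m N ^ 2) =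
          ∑ N ∈ T.filter (fun N => (N + y).Prime), μ N * (R N - 1) := by
        have e1 : ∀ N, μ N = ω N * sg b l B m N ^ 2 / AvT T ω (fun N => sg b l B m N ^ 2) := by
          intro N
          rw [hμd]
        rw [sum_filter]
        simp only [e1]
        generalize AvT T ω (fun N => sg b l B m N ^ 2) = z
        unfold AvT
        rw [sum_div]
        refine sum_congr rfl fun N _ => ?_
        by_cases hpr : (N + y).Prime
        · simp only [hpr, if_true]
          ring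
        · simp only [hpr, if_false]
          ring
      rw [h5, ← sum_add_distrib]
      refine sum_congr rfl fun N _ => ?_
      ring
    rw [h4]
    have h5 : -(2 * κ) ≤
        AvT T ω (fun N => sg b l B m N ^ 2 * (if (N + y).Prime then R N - 1 else 0)) /
            AvT T ω (fun N => sg b l B m N ^ 2) := by
      rw [le_div_iff₀ hz]
      have h6 := (abs_le.1 h3).1
      have h7 : κ ≤ 2 * κ * AvT T ω (fun N => sg b l B m N ^ 2) := by nlinarith
      linarith
    have h8 := hpp y hy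
    linarith
  have hfin := block_primeR hμ0 hμ1 he0 hC1 hP hMom (fun y N => (N + y).Prime) hgp R hR hC0
    (by linarith : 0 ≤ 2 * κ) (fun y hy => by
      refine (hpR y hy).trans (le_of_eq ?_)
      congr)
  refine hfin.trans (le_of_eq ?_)
  rw [hμd]
  congr

end Pool.Agent.H95.RO
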