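import Mathlib
import Pool.Agent.H21.WP.Str

/-!
# [H95 RO CMB] The two cuts

Four groups of `84 (k + 1)` blocks of `s` positions; a set `A` of positions which meets more than `0.259` of all the blocks.  Then the increasing enumeration of `A` has a cut `c`, with `k + 1` elements on both sides,
such that near the cut the elements before it are those of the first two groups, or those of the groups `0` and `2`.
-/

namespace Pool.Agent.H95.RO

open Finset Pool.Agent.H21.WP

private theorem cmb0 (k s R : ℕ) (hR : R = 84 * (k + 1)) (A : Finset (Fin (4 * R * s)))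
    (hA1 : (13 / 50 - 1 / 1000) * ((4 * R : ℕ) : ℝ) ≤ ((A.image Fin.divNat).card : ℝ)) :
    (∃ c : ℕ, k + 1 ≤ c ∧ c + (k + 1) ≤ A.card ∧
      ∀ i : Fin A.card, c - (k + 1) ≤ (i : ℕ) → (i : ℕ) < c + (k + 1) →
        (((A.orderEmbOfFin rfl i).divNat : ℕ) / R < 2 ↔ (i : ℕ) < c)) ∨
    (∃ c : ℕ, k + 1 ≤ c ∧ c + (k + 1) ≤ A.card ∧
      ∀ i : Fin A.card, c - (k + 1) ≤ (i : ℕ) → (i : ℕ) < c + (k + 1) →
        ((((A.orderEmbOfFin rfl i).divNat : ℕ) / R = 0 ∨
          ((A.orderEmbOfFin rfl i).divNat : ℕ) / R = 2) ↔ (i : ℕ) < c)) := by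
  classical
  have hR0 : 0 < R := by omega
  -- the groups
  obtain ⟨g, hg⟩ : ∃ g : Fin (4 * R * s) → ℕ, ∀ x, g x = (x.divNat : ℕ) / R := ⟨_, fun _ => rfl⟩
  have hgm : Monotone g := by
    intro x y hxy
    rw [hg, hg]
    refine Nat.div_le_div_right ?_
    show (x : ℕ) / s ≤ (y : ℕ) / s
    exact Nat.div_le_div_right hxy
  have hg4 : ∀ x, g x < 4 := fun x => by
    rw [hg]
    have := x.divNat.2
    exact (Nat.div_lt_iff_lt_mul hR0).2 this
  obtain ⟨N, hN⟩ : ∃ N : ℕ → ℕ, ∀ j, N j = (A.filter (fun x => g x < j)).card :=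
    ⟨_, fun _ => rfl⟩
  have hidx : ∀ (j : ℕ) (i : Fin A.card), g (A.orderEmbOfFin rfl i) < j ↔ (i : ℕ) < N j :=
    fun j i => by
      rw [hN]
      exact idx A g hgm j i
  have hN4 : N 4 = A.card := by
    rw [hN]
    congr 1
    exact Finset.filter_true_of_mem fun x _ => hg4 x
  have hN0 : N 0 = 0 := by
    rw [hN]
    simp
  have hNm : Monotone N := by
    intro i j hij
    rw [hN, hN]
    refine card_le_card fun x hx => ?_
    rw [mem_filter] at hx ⊢
    exact ⟨hx.1, by omega⟩
  -- the numbers of blocks which are hit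
  obtain ⟨B, hB⟩ : ∃ B : ℕ → ℕ, ∀ j, B j =
      ((A.image (Fin.divNat : Fin (4 * R * s) → Fin (4 * R))).filter
        (fun y : Fin (4 * R) => (y : ℕ) / R = j)).card :=
    ⟨_, fun _ => rfl⟩
  have hBR : ∀ j, B j ≤ R := by
    intro j
    rw [hB]
    have h1 : ((A.image (Fin.divNat : Fin (4 * R * s) → Fin (4 * R))).filter
        (fun y : Fin (4 * R) => (y : ℕ) / R = j)).card ≤
        (Finset.Ico (R * j) (R * j + R)).card := by
      refine card_le_card_of_injOn (fun y : Fin (4 * R) => (y : ℕ)) ?_ ?_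
      · intro y hy
        rw [mem_coe, mem_filter] at hy
        rw [mem_coe, mem_Ico]
        have h1 := Nat.div_add_mod (y : ℕ) R
        have h2 := Nat.mod_lt (y : ℕ) hR0
        rw [hy.2] at h1
        show R * j ≤ (y : ℕ) ∧ (y : ℕ) < R * j + R
        exact ⟨by omega, by omega⟩
      · intro y _ y' _ hyy
        exact Fin.ext hyy
    rw [Nat.card_Ico] at h1
    omega
  have hBN : ∀ j, N j + B j ≤ N (j + 1) := by
    intro j
    have h1 : B j ≤ (A.filter (fun x => g x = j)).card := by
      rw [hB]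
      have h2 : (A.image (Fin.divNat : Fin (4 * R * s) → Fin (4 * R))).filter
          (fun y : Fin (4 * R) => (y : ℕ) / R = j) ⊆
          (A.filter (fun x => g x = j)).image (Fin.divNat : Fin (4 * R * s) → Fin (4 * R)) := by
        intro y hy
        rw [mem_filter] at hy
        obtain ⟨x, hx, rfl⟩ := mem_image.1 hy.1
        refine mem_image_of_mem _ (mem_filter.2 ⟨hx, ?_⟩)
        rw [hg]
        exact hy.2
      exact (card_le_card h2).trans card_image_le
    have h2 : (A.filter (fun x => g x < j)).card + (A.filter (fun x => g x = j)).card =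
        (A.filter (fun x => g x < j + 1)).card := by
      rw [← card_union_of_disjoint (disjoint_filter.2 fun x _ h3 h4 => by omega)]
      congr 1
      ext x
      simp only [mem_union, mem_filter]
      constructor
      · rintro (h3 | h3)
        · exact ⟨h3.1, by omega⟩
        · exact ⟨h3.1, by omega⟩
      · rintro h3
        by_cases h4 : g x = j
        · exact Or.inr ⟨h3.1, h4⟩
        · exact Or.inl ⟨h3.1, by omega⟩
    rw [hN, hN, ← h2]
    omega
  have hBsum : (1036 * R : ℕ) ≤ 1000 * (B 0 + B 1 + B 2 + B 3) := by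
    have h1 : (A.image (Fin.divNat : Fin (4 * R * s) → Fin (4 * R))).card = B 0 + B 1 + B 2 + B 3 := by
      have h2 : (A.image (Fin.divNat : Fin (4 * R * s) → Fin (4 * R))).card = ∑ j ∈ range 4, B j := by
        rw [Finset.card_eq_sum_card_fiberwise (f := fun y : Fin (4 * R) => (y : ℕ) / R)
          (t := range 4)]
        · exact Finset.sum_congr rfl fun j _ => (hB j).symm
        · intro y _
          rw [mem_coe, mem_range]
          exact (Nat.div_lt_iff_lt_mul hR0).2 y.2
      rw [h2, Finset.sum_range_succ, Finset.sum_range_succ, Finset.sum_range_succ,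
        Finset.sum_range_one]
    rw [h1] at hA1
    have h3 : (1036 * R : ℝ) ≤ 1000 * (B 0 + B 1 + B 2 + B 3) := by
      push_cast at hA1
      linarith
    exact_mod_cast h3
  have e0 := hBR 0
  have e1 := hBR 1
  have e2 := hBR 2
  have e3 := hBR 3
  have n0 := hBN 0
  have n1 := hBN 1
  have n2 := hBN 2
  have n3 := hBN 3
  simp only [zero_add, Nat.reduceAdd] at n0 n1 n2 n3
  by_cases c1 : k + 1 ≤ N 2 ∧ N 2 + (k + 1) ≤ N 4
  · left
    refine ⟨N 2, c1.1, by omega, fun i _ _ => ?_⟩
    rw [← hg]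
    exact hidx 2 i
  · right
    by_cases c2 : k + 1 ≤ B 0 ∧ k + 1 ≤ B 1
    · refine ⟨N 1, by omega, by omega, fun i h1 h2 => ?_⟩
      rw [← hg]
      have h3 := hidx 1 i
      have h4 := (hidx 2 i).2 (by omega)
      constructor
      · rintro (h5 | h5)
        · exact h3.1 (by omega)
        · omega
      · intro h5
        left
        have := h3.2 h5
        omega
    · refine ⟨N 3, by omega, by omega, fun i h1 h2 => ?_⟩
      rw [← hg]
      have h3 := hidx 3 i
      have h4 : ¬ g (A.orderEmbOfFin rfl i) < 2 := fun h5 => by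
        have := (hidx 2 i).1 h5
        omega
      constructor
      · rintro (h5 | h5)
        · omega
        · exact h3.1 (by omega)
      · intro h5
        right
        have := h3.2 h5
        omega

theorem cmb (k s : ℕ) (A : Finset (Fin (4 * (84 * (k + 1)) * s)))
    (hA : (13 / 50 - 1 / 1000) * ((4 * (84 * (k + 1)) : ℕ) : ℝ) ≤ ((A.image Fin.divNat).card : ℝ)) :
    (∃ c : ℕ, k + 1 ≤ c ∧ c + (k + 1) ≤ A.card ∧
      ∀ i : Fin A.card, c - (k + 1) ≤ (i : ℕ) → (i : ℕ) < c + (k + 1) →
        (((A.orderEmbOfFin rfl i).divNat : ℕ) / (84 * (k + 1)) < 2 ↔ (i : ℕ) < c)) ∨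
    (∃ c : ℕ, k + 1 ≤ c ∧ c + (k + 1) ≤ A.card ∧
      ∀ i : Fin A.card, c - (k + 1) ≤ (i : ℕ) → (i : ℕ) < c + (k + 1) →
        ((((A.orderEmbOfFin rfl i).divNat : ℕ) / (84 * (k + 1)) = 0 ∨
          ((A.orderEmbOfFin rfl i).divNat : ℕ) / (84 * (k + 1)) = 2) ↔ (i : ℕ) < c)) :=
  cmb0 k s _ rfl A hA

end Pool.Agent.H95.RO
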