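import Pool.Agent.H95.RO.Vbi

/-!
# [H95 RO COA] MP_8923e7_nt, THEOREM R: rational approximations at a good scale, linear sums (the items `app`, `cos_lin` below)

PROOF.
* `app`: Dirichlet (Mathlib `Real.exists_rat_abs_sub_le_and_den_le`) for `γ = β + b/q0` with `n = ⌊x^(1-τ/2)⌋₊`: a rational `a/k` (reduced:
  `Rat.reduced`), `k ≤ n`, `|γ - a/k| ≤ 1/((n+1) k)`, hence `≤ 1/k^2`. If `k < x^(τ/2)`, put `r = k q0 ≤ x^(3τ/4) ≤ x^τ`: `r β` is within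
  `k q0 |γ - a/k| ≤ q0/(n+1) ≤ x^(τ/4) x^(-(1-τ/2)) ≤ x^(-(1-τ))` of the integer `q0 a - k b`, against `Gs` (`nd_le`).
* `cos_lin`: `N = r' + q0 j` with `r' = r % q0`: the `N` in `(X1, X2]` with `N ≡ r` are `q0 j + r'` with `j` in an interval `(u, v]` of naturals
  (if `r' ` is smaller than .. : `N > X1` iff `j > ..`); so the sum of `ee (N β)` is `ee(r' β) ∑_j ee (j q0 β)`, `geo`: `≤ 2 gb K (nd (q0 β)) ≤ 2/nd (q0 β) < 2 x^(1-τ)` by
  `Gs` with `r = q0` (`gb_inv`); real part: `cos (2π (β N)) = Re ee (N β)`. (The easiest way: induction free: `Ioc X1 X2` filtered by a class is the image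
  of `Ioc ((X1 - r')..)`: or write the sum as a difference of the sums over `N ≤ X2` and `N ≤ X1`, and for `N ≤ X`: `N = q0 j + r'`, `0 ≤ j`,
  `j ≤ (X - r')/q0` if `r' ≤ X`.) Bound `4 x^(1-τ)` is enough.
* `pri_cls`: for `1 ≤ q0 ≤ x^(c')`, `c' = min (τ/4) c`: additive characters: `1[n ≡ a (q0)] = (1/q0) ∑_(b < q0) ee(b (n - a)/q0)`, so
  `‖∑_(p ≤ Y, p ≡ a (q0)) ee(p β)‖ ≤ max_b ‖∑_(p ≤ Y) ee(p (β + b/q0))‖ ≤ x^(1-c)` by `app` and `pri_bd`.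
* `cos_pri`: `n = N + h`, `ee(N β) = ee(-h β) ee(n β)`; `N ∈ (X1, X2]`, `N ≡ r` iff `n ∈ (X1 + h, X2 + h]`, `n ≡ r + h`: difference of two sums as in `pri_cls`;
  `X2 + h ≤ x^(1+c/2) + x ≤ x^(1+c)`.
* `cos_int1`, `cos_int2`: choose `c0` with `c0/64 ≤ min (τ/4) c'` and `c0/128 < ` the savings; main term `0`: `((X2 - X1)/q0) * 0 = 0`; if `P x` fails the function is `0`; the bound
  `x^(1-c') ≤ x^(1 - η/128)` for `η ≤ c0`. `h x ≤ (log x)^A ≤ x` eventually.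
-/

set_option autoImplicit false

namespace Pool.Agent.H95.RO

open Finset Filter Pool.Agent.H21.BV Pool.Agent.H11.RG

theorem app (τ : ℝ) (hτ : 0 < τ) (hτ1 : τ ≤ 1 / 4) : ∀ᶠ x : ℝ in atTop, ∀ β : ℝ, Gs τ x β →
    ∀ (q0 b : ℕ), 1 ≤ q0 → (q0 : ℝ) ≤ x ^ (τ / 4) → ∃ (k : ℕ) (a : ℤ), IsCoprime a (k : ℤ) ∧
      |(β + (b : ℝ) / q0) - (a : ℝ) / k| ≤ 1 / (k : ℝ) ^ 2 ∧ x ^ (τ / 2) ≤ (k : ℝ) ∧
      (k : ℝ) ≤ x ^ (1 - τ / 2) := by
  filter_upwards [eventually_ge_atTop (1 : ℝ)] with x hx β hG q0 b hq hqx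
  have hx0 : 0 < x := by linarith
  have hn1 : 1 ≤ ⌊x ^ (1 - τ / 2)⌋₊ := by
    rw [Nat.one_le_floor_iff]
    exact Real.one_le_rpow hx (by linarith)
  obtain ⟨q, h1, h2⟩ := Real.exists_rat_abs_sub_le_and_den_le (β + (b : ℝ) / q0) hn1
  have hk0 : (0 : ℝ) < (q.den : ℝ) := by exact_mod_cast q.den_pos
  have hq0 : (0 : ℝ) < (q0 : ℝ) := by exact_mod_cast hq
  have hqc : ((q.num : ℤ) : ℝ) / (q.den : ℝ) = (q : ℝ) := by
    rw [Rat.cast_def]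
  have hkn : (q.den : ℝ) ≤ ⌊x ^ (1 - τ / 2)⌋₊ := by exact_mod_cast h2
  have hfl : ((⌊x ^ (1 - τ / 2)⌋₊ : ℕ) : ℝ) ≤ x ^ (1 - τ / 2) :=
    Nat.floor_le (Real.rpow_nonneg hx0.le _)
  have hfl2 : x ^ (1 - τ / 2) < (⌊x ^ (1 - τ / 2)⌋₊ : ℝ) + 1 := Nat.lt_floor_add_one _
  refine ⟨q.den, q.num, ?_, ?_, ?_, hkn.trans hfl⟩
  · rw [Int.isCoprime_iff_gcd_eq_one]
    exact q.reduced
  · rw [hqc]
    refine h1.trans ?_
    apply one_div_le_one_div_of_le (by positivity)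
    rw [sq]
    apply mul_le_mul_of_nonneg_right _ hk0.le
    linarith
  · by_contra hlt
    rw [not_le] at hlt
    have hr1 : 1 ≤ q.den * q0 := Nat.one_le_iff_ne_zero.2 (mul_ne_zero q.den_ne_zero (by omega))
    have hrx : ((q.den * q0 : ℕ) : ℝ) ≤ x ^ τ := by
      push_cast
      calc (q.den : ℝ) * q0 ≤ x ^ (τ / 2) * x ^ (τ / 4) := by
            apply mul_le_mul hlt.le hqx hq0.le (Real.rpow_nonneg hx0.le _)
        _ = x ^ (τ / 2 + τ / 4) := by rw [Real.rpow_add hx0]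
        _ ≤ x ^ τ := Real.rpow_le_rpow_of_exponent_le hx (by linarith)
    have hG1 := hG (q.den * q0) hr1 hrx
    have h3 := nd_le (((q.den * q0 : ℕ) : ℝ) * β) (q0 * q.num - q.den * b)
    have h4 : ((q.den * q0 : ℕ) : ℝ) * β - ((q0 * q.num - q.den * b : ℤ) : ℝ) =
        (q.den : ℝ) * q0 * ((β + (b : ℝ) / q0) - (q : ℝ)) := by
      rw [← hqc]
      push_cast
      field_simp
      ring
    rw [h4, abs_mul, abs_of_pos (mul_pos hk0 hq0)] at h3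
    have h5 : (q.den : ℝ) * q0 * |(β + (b : ℝ) / q0) - (q : ℝ)| ≤
        (q.den : ℝ) * q0 * (1 / (((⌊x ^ (1 - τ / 2)⌋₊ : ℝ) + 1) * q.den)) :=
      mul_le_mul_of_nonneg_left h1 (mul_pos hk0 hq0).le
    have h6 : (q.den : ℝ) * q0 * (1 / (((⌊x ^ (1 - τ / 2)⌋₊ : ℝ) + 1) * q.den)) =
        q0 / ((⌊x ^ (1 - τ / 2)⌋₊ : ℝ) + 1) := by
      field_simp
    have h7 : (q0 : ℝ) / ((⌊x ^ (1 - τ / 2)⌋₊ : ℝ) + 1) ≤ x ^ (τ / 4) / x ^ (1 - τ / 2) :=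
      div_le_div₀ (Real.rpow_nonneg hx0.le _) hqx (Real.rpow_pos_of_pos hx0 _) hfl2.le
    have h8 : x ^ (τ / 4) / x ^ (1 - τ / 2) = x ^ (τ / 4 - (1 - τ / 2)) :=
      (Real.rpow_sub hx0 _ _).symm
    have h9 : x ^ (τ / 4 - (1 - τ / 2)) ≤ x ^ (-(1 - τ)) :=
      Real.rpow_le_rpow_of_exponent_le hx (by linarith)
    linarith

private theorem coa_re (t : ℝ) : Real.cos (2 * Real.pi * t) = (ee t).re := by
  unfold ee
  rw [Complex.exp_ofReal_mul_I_re]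

private theorem coa_set (X1 X2 q0 r' : ℕ) (hq : 0 < q0) (hr : r' < q0) :
    (Ioc X1 X2).filter (fun N => N % q0 = r') =
      (Ioc ((X1 + q0 - r') / q0) ((X2 + q0 - r') / q0)).image (fun i => q0 * i + r' - q0) := by
  ext N
  simp only [mem_filter, mem_Ioc, mem_image]
  constructor
  · rintro ⟨⟨h1, h2⟩, h3⟩
    have h4 := Nat.div_add_mod N q0
    rw [h3] at h4
    refine ⟨N / q0 + 1, ⟨?_, ?_⟩, ?_⟩
    · rw [Nat.div_lt_iff_lt_mul hq, mul_comm, mul_add, mul_one]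
      omega
    · rw [Nat.le_div_iff_mul_le hq, mul_comm, mul_add, mul_one]
      omega
    · rw [mul_add, mul_one]
      omega
  · rintro ⟨i, ⟨h1, h2⟩, h3⟩
    rw [Nat.div_lt_iff_lt_mul hq] at h1
    rw [Nat.le_div_iff_mul_le hq] at h2
    rw [mul_comm] at h1 h2
    have hi : 1 ≤ i := by
      rcases Nat.eq_zero_or_pos i with h | h
      · rw [h, mul_zero] at h1
        omega
      · exact h
    have h5 : q0 * 1 ≤ q0 * i := Nat.mul_le_mul_left _ hi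
    rw [mul_one] at h5
    refine ⟨⟨by omega, by omega⟩, ?_⟩
    obtain ⟨j, rfl⟩ : ∃ j, i = j + 1 := ⟨i - 1, by omega⟩
    have h6 : N = r' + q0 * j := by
      rw [mul_add, mul_one] at h3
      omega
    rw [h6, Nat.add_mul_mod_self_left, Nat.mod_eq_of_lt hr]

theorem cos_lin (τ x β : ℝ) (hx : 1 ≤ x) (hG : Gs τ x β) (X1 X2 q0 r : ℕ) (hX : X1 ≤ X2)
    (hq : 0 < q0) (hqx : (q0 : ℝ) ≤ x ^ τ) :
    |∑ N ∈ (Ioc X1 X2).filter (fun N => N % q0 = r % q0), Real.cos (2 * Real.pi * (β * N))| ≤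
      4 * x ^ (1 - τ) := by
  have hx0 : 0 < x := by linarith
  obtain ⟨r', hr'⟩ : ∃ r', r' = r % q0 := ⟨_, rfl⟩
  have hr : r' < q0 := by rw [hr']; exact Nat.mod_lt _ hq
  rw [← hr', coa_set X1 X2 q0 r' hq hr]
  have hlow : ∀ i ∈ Ioc ((X1 + q0 - r') / q0) ((X2 + q0 - r') / q0), q0 ≤ q0 * i := by
    intro i hi
    rw [mem_Ioc] at hi
    have h1 : 1 ≤ i := Nat.succ_le_of_lt (lt_of_le_of_lt (Nat.zero_le _) hi.1)
    calc q0 = q0 * 1 := (mul_one _).symm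
      _ ≤ q0 * i := Nat.mul_le_mul_left _ h1
  rw [sum_image (by
    intro i hi j hj hij
    have h1 := hlow i hi
    have h2 := hlow j hj
    have h3 : q0 * i = q0 * j := by
      simp only at hij
      omega
    exact Nat.eq_of_mul_eq_mul_left hq h3)]
  have hterm : ∀ i ∈ Ioc ((X1 + q0 - r') / q0) ((X2 + q0 - r') / q0),
      Real.cos (2 * Real.pi * (β * ((q0 * i + r' - q0 : ℕ) : ℝ))) =
        (ee (((r' : ℝ) - q0) * β) * ee (i * ((q0 : ℝ) * β))).re := by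
    intro i hi
    rw [coa_re, ← ee_add]
    congr 2
    rw [Nat.cast_sub (by have := hlow i hi; omega)]
    push_cast
    ring
  rw [sum_congr rfl hterm, ← Complex.re_sum, ← mul_sum]
  refine (Complex.abs_re_le_norm _).trans ?_
  rw [norm_mul, norm_ee, one_mul]
  have hxy : (X1 + q0 - r') / q0 ≤ (X2 + q0 - r') / q0 := Nat.div_le_div_right (by omega)
  have hG1 := hG q0 hq hqx
  have hpos : 0 < x ^ (-(1 - τ)) := Real.rpow_pos_of_pos hx0 _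
  have hK0 : (0 : ℝ) ≤ (((X2 + q0 - r') / q0 : ℕ) : ℝ) - (((X1 + q0 - r') / q0 : ℕ) : ℝ) := by
    rw [sub_nonneg]
    exact_mod_cast hxy
  refine (geo _ _ hxy ((q0 : ℝ) * β) _ le_rfl).trans ?_
  have h1 := gb_inv hK0 (hpos.trans hG1)
  have h2 : 1 / nd ((q0 : ℝ) * β) ≤ 1 / x ^ (-(1 - τ)) := one_div_le_one_div_of_le hpos hG1.le
  have h3 : 1 / x ^ (-(1 - τ)) = x ^ (1 - τ) := by
    rw [Real.rpow_neg hx0.le, one_div, inv_inv]
  rw [h3] at h2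
  have h4 : 0 ≤ x ^ (1 - τ) := Real.rpow_nonneg hx0.le _
  linarith

end Pool.Agent.H95.RO
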