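import Pool.Agent.H95.RO.Df

/-!
# [H95 RO FEA] MP_8923e7_nt, THEOREM R: the Fejer weight, identities (the items `fej_*`, `intr_sum`)

`t` frequencies `α_l`, `n ≥ 1`, `0 < d < 1/2`, `K = 1 - cos(2π d) > 0`.

PROOF. Write `θ j = ∑_l j_l α_l` (`j : Fin t → Fin n`), so that `∑_l (j_l - j'_l) α_l = θ j - θ j'`.
* `fej_sq`: `n^t fej = (∑_j cos(2π θ_j N))² + (∑_j sin(2π θ_j N))²` (`cos (a - b) = cos a cos b + sin a sin b`). Hence `0 ≤ fej`; `fej ≤ n^(2t)/n^t = n^t` (every cosine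
  is `≤ 1`, `(n^t)²` pairs).
* `fej_one`: `fej n α N - 1 = n^(-t) ∑_(j ≠ j') cos(2π ((θ j - θ j') N))` (the `n^t` diagonal terms are `1`). For `j ≠ j'` the vector
  `z = j - j' ≠ 0`, `|z_l| ≤ n`, so at a good scale `θ j - θ j' = ∑ z_l α_l` is good: `cos_int`.
* `fej_out`: `fej n α N (1 - cos(2π α_l N)) - 1/n = (fej - 1) - (fej cos(2π α_l N) - (n-1)/n)` and
  `fej cos(2π α_l N) = n^(-t) ∑_(j,j') (1/2)(cos(2π(θ j - θ j' + α_l) N) + cos(2π (θ j - θ j' - α_l) N))` (product formula). The terms with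
  `j - j' + e_l = 0` (there are `(n-1) n^(t-1)` of them) and those with `j - j' - e_l = 0` are `1`: together `n^(-t) (1/2) 2 (n-1) n^(t-1) = (n-1)/n`.
  The others: `z = j - j' ± e_l ≠ 0`, `|z_l| ≤ n`.
  (Counting pairs `j, j'` with `j' = j + e_l`: the `j` with `j_l < n - 1`: `n^(t-1)(n-1)`; e.g. bijection with `{j | j_l ≠ last}`; or avoid the count: use
  `fej` as a PRODUCT over `l` of one dimensional kernels, `fej n α N = ∏_l (1/n) ∑_(i,i' < n) cos.. ` is false for cosines of sums; the count is easier.)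
* `rotd`: `IntR` is closed under finite sums and multiples (`intd_add`, `intd_smul`, `intd_list` of H11/RG/Int, for every `a0`); `R x N - 1 = if GoodSc then (fej - 1) else 0`
  `= n^(-t) ∑_(j ≠ j') (if GoodSc then cos .. else 0)`; the same with `(N + h x).Prime`; `R S - δ = if GoodSc then K^(-1) ∑_l (fej (1 - cos) - 1/n) else 0`,
  `δ = t/(n K)`. Bounds: `R ≤ n^t ≤ C0`; `R S ≤ n^t 2t/K ≤ C0`; at a bad scale `R S = δ = t/(nK) ≤ C0`. (`n ≥ 1`, so `1 ≤ n^t`.)
-/

set_option autoImplicit false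

namespace Pool.Agent.H95.RO

open Finset Filter Pool.Agent.H11.RG

theorem intr_add {η : ℝ} {Φ Φ' : ℝ → ℕ → ℝ} (h : IntR η Φ) (h' : IntR η Φ') :
    IntR η (fun x N => Φ x N + Φ' x N) := fun a0 =>
  intd_congr (intd_add (h a0) (h' a0)) (fun _ _ _ => rfl) (fun _ => by simp)

theorem intr_smul {η : ℝ} {Φ : ℝ → ℕ → ℝ} (s : ℝ) (h : IntR η Φ) :
    IntR η (fun x N => s * Φ x N) := fun a0 =>
  intd_congr (intd_smul s (h a0)) (fun _ _ _ => rfl) (fun _ => by simp)

theorem intr_sum {η : ℝ} {ι : Type} (s : Finset ι) (Φ : ι → ℝ → ℕ → ℝ) (h : ∀ i ∈ s, IntR η (Φ i)) :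
    IntR η (fun x N => ∑ i ∈ s, Φ i x N) := by
  classical
  induction s using Finset.induction_on with
  | empty =>
    intro a0
    exact intd_congr (intd_zero η a0) (fun _ _ _ => rfl) (fun _ => rfl)
  | insert a s ha ih =>
    have h1 := intr_add (h a (mem_insert_self _ _)) (ih (fun i hi => h i (mem_insert_of_mem hi)))
    intro a0
    exact intd_congr (h1 a0) (fun x N _ => by rw [sum_insert ha]) (fun _ => rfl)

/-- the difference vector of a pair -/
private def dv {t n : ℕ} (q : (Fin t → Fin n) × (Fin t → Fin n)) : Fin t → ℤ :=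
  fun l => ((q.1 l : ℕ) : ℤ) - ((q.2 l : ℕ) : ℤ)

private theorem dv_le {t n : ℕ} (q : (Fin t → Fin n) × (Fin t → Fin n)) (l : Fin t) : |dv q l| ≤ (n : ℤ) - 1 := by
  have h1 := (q.1 l).2
  have h2 := (q.2 l).2
  unfold dv
  rw [abs_le]
  constructor <;> omega

private theorem fej_eq {t : ℕ} (n : ℕ) (α : Fin t → ℝ) (N : ℕ) : fej n α N =
    ∑ q : (Fin t → Fin n) × (Fin t → Fin n),
      ((n : ℝ) ^ t)⁻¹ * Real.cos (2 * Real.pi * ((∑ l, (dv q l : ℝ) * α l) * N)) := by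
  unfold fej
  rw [div_eq_inv_mul, Fintype.sum_prod_type, mul_sum]
  refine sum_congr rfl fun j _ => ?_
  rw [mul_sum]
  rfl

theorem fej_nonneg {t : ℕ} (n : ℕ) (α : Fin t → ℝ) (N : ℕ) : 0 ≤ fej n α N := by
  obtain ⟨φ, hφ⟩ : ∃ φ : (Fin t → Fin n) → ℝ, φ = fun j => 2 * Real.pi * ((∑ l, ((j l : ℕ) : ℝ) * α l) * N) :=
    ⟨_, rfl⟩
  have h1 : ∑ j : Fin t → Fin n, ∑ j' : Fin t → Fin n,
      Real.cos (2 * Real.pi * ((∑ l, (((j l : ℕ) : ℤ) - ((j' l : ℕ) : ℤ) : ℤ) * α l) * N)) =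
      (∑ j, Real.cos (φ j)) ^ 2 + (∑ j, Real.sin (φ j)) ^ 2 := by
    have h2 : ∀ j j' : Fin t → Fin n,
        Real.cos (2 * Real.pi * ((∑ l, (((j l : ℕ) : ℤ) - ((j' l : ℕ) : ℤ) : ℤ) * α l) * N)) =
        Real.cos (φ j) * Real.cos (φ j') + Real.sin (φ j) * Real.sin (φ j') := by
      intro j j'
      rw [← Real.cos_sub]
      congr 1
      rw [hφ]
      have h3 : ∑ l, ((((j l : ℕ) : ℤ) - ((j' l : ℕ) : ℤ) : ℤ) : ℝ) * α l =
          (∑ l, ((j l : ℕ) : ℝ) * α l) - ∑ l, ((j' l : ℕ) : ℝ) * α l := by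
        rw [← sum_sub_distrib]
        refine sum_congr rfl fun l _ => ?_
        push_cast
        ring
      rw [h3]
      ring
    simp only [h2, sum_add_distrib]
    rw [pow_two, pow_two, sum_mul_sum, sum_mul_sum]
  unfold fej
  rw [h1]
  positivity

theorem fej_le {t : ℕ} (n : ℕ) (hn : 1 ≤ n) (α : Fin t → ℝ) (N : ℕ) : fej n α N ≤ (n : ℝ) ^ t := by
  have hn0 : (0 : ℝ) < (n : ℝ) ^ t := by
    have : (0 : ℝ) < n := by exact_mod_cast hn
    positivity
  rw [fej_eq]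
  calc _ ≤ ∑ q : (Fin t → Fin n) × (Fin t → Fin n), ((n : ℝ) ^ t)⁻¹ * 1 := by
        refine sum_le_sum fun q _ => ?_
        exact mul_le_mul_of_nonneg_left (Real.cos_le_one _) (inv_nonneg.2 hn0.le)
    _ = (n : ℝ) ^ t := by
        rw [sum_const, card_univ, Fintype.card_prod, Fintype.card_fun, Fintype.card_fin, Fintype.card_fin,
          nsmul_eq_mul, mul_one]
        push_cast
        field_simp

/-- collecting the terms of a trigonometric sum -/
private theorem col {t : ℕ} {ι : Type} (S : Finset ι) (D : ι → Fin t → ℤ) (a : ι → ℝ) (n : ℕ)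
    (hD : ∀ i ∈ S, ∀ l, |D i l| ≤ n) : ∃ (s : Finset (Fin t → ℤ)) (c : (Fin t → ℤ) → ℝ),
    (∀ z ∈ s, z ≠ 0 ∧ ∀ l, |z l| ≤ n) ∧ ∀ (α : Fin t → ℝ) (N : ℕ),
      ∑ i ∈ S, a i * Real.cos (2 * Real.pi * ((∑ l, (D i l : ℝ) * α l) * N)) -
        ∑ i ∈ S.filter (fun i => D i = 0), a i =
        ∑ z ∈ s, c z * Real.cos (2 * Real.pi * ((∑ l, (z l : ℝ) * α l) * N)) := by
  classical
  obtain ⟨T, hT⟩ : ∃ T, T = insert (0 : Fin t → ℤ) (S.image D) := ⟨_, rfl⟩
  have h0T : (0 : Fin t → ℤ) ∈ T := by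
    rw [hT]
    exact mem_insert_self _ _
  refine ⟨T.erase 0, fun z => ∑ i ∈ S.filter (fun i => D i = z), a i, ?_, ?_⟩
  · intro z hz
    rw [mem_erase] at hz
    refine ⟨hz.1, ?_⟩
    have h1 := hz.2
    rw [hT, mem_insert] at h1
    rcases h1 with h1 | h1
    · exact absurd h1 hz.1
    · obtain ⟨i, hi, rfl⟩ := mem_image.1 h1
      exact hD i hi
  · intro α N
    have h1 : ∑ i ∈ S, a i * Real.cos (2 * Real.pi * ((∑ l, (D i l : ℝ) * α l) * N)) =
        ∑ z ∈ T, (∑ i ∈ S.filter (fun i => D i = z), a i) *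
          Real.cos (2 * Real.pi * ((∑ l, (z l : ℝ) * α l) * N)) := by
      rw [← sum_fiberwise_of_maps_to (s := S) (t := T) (g := D) (fun i hi => by
        rw [hT]
        exact mem_insert_of_mem (mem_image_of_mem D hi))]
      refine sum_congr rfl fun z _ => ?_
      rw [sum_mul]
      refine sum_congr rfl fun i hi => ?_
      rw [(mem_filter.1 hi).2]
    rw [h1, ← add_sum_erase T _ h0T]
    have h2 : ∑ l, (((0 : Fin t → ℤ) l : ℤ) : ℝ) * α l = 0 := by
      refine sum_eq_zero fun l _ => ?_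
      simp
    rw [h2, zero_mul, mul_zero, Real.cos_zero, mul_one]
    ring

private theorem card0 {t n : ℕ} : ((univ : Finset ((Fin t → Fin n) × (Fin t → Fin n))).filter
    (fun q => dv q = 0)).card = n ^ t := by
  classical
  have h1 : (univ : Finset ((Fin t → Fin n) × (Fin t → Fin n))).filter (fun q => dv q = 0) =
      (univ : Finset (Fin t → Fin n)).image (fun j => (j, j)) := by
    ext q
    rw [mem_filter, mem_image]
    constructor
    · rintro ⟨-, h⟩
      refine ⟨q.1, mem_univ _, ?_⟩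
      ext l
      · rfl
      · have h2 := congrFun h l
        have h3 : ((q.1 l : ℕ) : ℤ) - ((q.2 l : ℕ) : ℤ) = 0 := h2
        show (q.1 l : ℕ) = q.2 l
        omega
    · rintro ⟨j, -, rfl⟩
      refine ⟨mem_univ _, ?_⟩
      funext l
      unfold dv
      exact sub_self _
  rw [h1, card_image_of_injective _ (fun a b h => (Prod.ext_iff.1 h).1), card_univ, Fintype.card_fun,
    Fintype.card_fin, Fintype.card_fin]

/-- the frequencies of `fej - 1` and of `fej (1 - cos)`: a finite set of `z ≠ 0` with coefficients -/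
theorem fej_one {t : ℕ} (n : ℕ) (hn : 1 ≤ n) : ∃ (s : Finset (Fin t → ℤ)) (c : (Fin t → ℤ) → ℝ),
    (∀ z ∈ s, z ≠ 0 ∧ ∀ l, |z l| ≤ n) ∧ ∀ (α : Fin t → ℝ) (N : ℕ),
      fej n α N - 1 = ∑ z ∈ s, c z * Real.cos (2 * Real.pi * ((∑ l, (z l : ℝ) * α l) * N)) := by
  have hn0 : (n : ℝ) ^ t ≠ 0 := by
    have : (0 : ℝ) < n := by exact_mod_cast hn
    positivity
  obtain ⟨s, c, h1, h2⟩ := col (univ : Finset ((Fin t → Fin n) × (Fin t → Fin n))) dv
    (fun _ => ((n : ℝ) ^ t)⁻¹) n (fun q _ l => (dv_le q l).trans (by omega))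
  refine ⟨s, c, h1, fun α N => ?_⟩
  rw [← h2 α N, fej_eq]
  congr 1
  rw [sum_const, card0, nsmul_eq_mul]
  push_cast
  rw [mul_inv_cancel₀ hn0]

private theorem card1 {t n : ℕ} (hn : 1 ≤ n) (l : Fin t) : n * ((univ : Finset ((Fin t → Fin n) × (Fin t → Fin n))).filter
    (fun q => dv q = Pi.single l 1)).card = (n - 1) * n ^ t := by
  classical
  have h1 : ((univ : Finset ((Fin t → Fin n) × (Fin t → Fin n))).filter (fun q => dv q = Pi.single l 1)).card =
      (Fintype.piFinset (fun i : Fin t => if i = l then (univ : Finset (Fin n)).filter (fun x : Fin n => (x : ℕ) + 1 < n)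
        else (univ : Finset (Fin n)))).card := by
    refine card_bij (fun q _ => q.2) ?_ ?_ ?_
    · intro q hq
      rw [mem_filter] at hq
      rw [Fintype.mem_piFinset]
      intro i
      by_cases hi : i = l
      · rw [if_pos hi, mem_filter]
        refine ⟨mem_univ _, ?_⟩
        have h2 := congrFun hq.2 i
        have h3 : ((q.1 i : ℕ) : ℤ) - ((q.2 i : ℕ) : ℤ) = 1 := by
          rw [hi] at h2 ⊢
          rw [Pi.single_eq_same] at h2
          exact h2
        have h4 := (q.1 i).2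
        omega
      · rw [if_neg hi]
        exact mem_univ _
    · intro q hq q' hq' h
      rw [mem_filter] at hq hq'
      apply Prod.ext _ h
      funext i
      have h2 : dv q i = dv q' i := by rw [hq.2, hq'.2]
      have h3 : ((q.1 i : ℕ) : ℤ) - ((q.2 i : ℕ) : ℤ) = ((q'.1 i : ℕ) : ℤ) - ((q'.2 i : ℕ) : ℤ) := h2
      have h4 : q.2 i = q'.2 i := congrFun h i
      rw [h4] at h3
      ext
      omega
    · intro j hj
      rw [Fintype.mem_piFinset] at hj
      have hjl : (j l : ℕ) + 1 < n := by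
        have := hj l
        rw [if_pos rfl, mem_filter] at this
        exact this.2
      refine ⟨(Function.update j l ⟨(j l : ℕ) + 1, hjl⟩, j), ?_, rfl⟩
      rw [mem_filter]
      refine ⟨mem_univ _, ?_⟩
      funext i
      unfold dv
      by_cases hi : i = l
      · show (((Function.update j l ⟨(j l : ℕ) + 1, hjl⟩ : Fin t → Fin n) i : ℕ) : ℤ) - ((j i : ℕ) : ℤ) = _
        rw [hi, Pi.single_eq_same, Function.update_self]
        push_cast
        ring
      · show (((Function.update j l ⟨(j l : ℕ) + 1, hjl⟩ : Fin t → Fin n) i : ℕ) : ℤ) - ((j i : ℕ) : ℤ) = _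
        rw [Pi.single_eq_of_ne hi, Function.update_of_ne hi, sub_self]
  have h2 : ((univ : Finset (Fin n)).filter (fun x : Fin n => (x : ℕ) + 1 < n)).card = n - 1 := by
    have h3 : ((univ : Finset (Fin n)).filter (fun x : Fin n => (x : ℕ) + 1 < n)).card =
        ((range n).filter (fun x => x + 1 < n)).card := by
      refine card_bij (fun x _ => (x : ℕ)) ?_ ?_ ?_
      · intro x hx
        rw [mem_filter] at hx ⊢
        exact ⟨mem_range.2 x.2, hx.2⟩
      · intro x _ y _ h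
        exact Fin.ext h
      · intro x hx
        rw [mem_filter] at hx
        exact ⟨⟨x, mem_range.1 hx.1⟩, mem_filter.2 ⟨mem_univ _, hx.2⟩, rfl⟩
    have h4 : (range n).filter (fun x => x + 1 < n) = range (n - 1) := by
      ext x
      rw [mem_filter, mem_range, mem_range]
      omega
    rw [h3, h4, card_range]
  rw [h1, Fintype.card_piFinset, ← mul_prod_erase univ _ (mem_univ l), if_pos rfl, h2]
  have h3 : ∏ i ∈ univ.erase l, (if i = l then (univ : Finset (Fin n)).filter (fun x : Fin n => (x : ℕ) + 1 < n)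
      else (univ : Finset (Fin n))).card = n ^ (t - 1) := by
    rw [prod_congr rfl (g := fun _ => n) (fun i hi => by
      rw [if_neg (mem_erase.1 hi).1, card_univ, Fintype.card_fin])]
    rw [prod_const, card_erase_of_mem (mem_univ l), card_univ, Fintype.card_fin]
  rw [h3]
  have ht : 0 < t := Fin.pos l
  obtain ⟨u, rfl⟩ : ∃ u, t = u + 1 := ⟨t - 1, by omega⟩
  rw [Nat.add_sub_cancel, pow_succ]
  ring

private theorem card2 {t n : ℕ} (l : Fin t) : ((univ : Finset ((Fin t → Fin n) × (Fin t → Fin n))).filter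
    (fun q => dv q = -Pi.single l 1)).card = ((univ : Finset ((Fin t → Fin n) × (Fin t → Fin n))).filter
    (fun q => dv q = Pi.single l 1)).card := by
  refine card_bij (fun q _ => q.swap) ?_ ?_ ?_
  · intro q hq
    rw [mem_filter] at hq ⊢
    refine ⟨mem_univ _, ?_⟩
    have h1 : dv q.swap = -dv q := by
      funext i
      show ((q.2 i : ℕ) : ℤ) - ((q.1 i : ℕ) : ℤ) = -(((q.1 i : ℕ) : ℤ) - ((q.2 i : ℕ) : ℤ))
      ring
    rw [h1, hq.2, neg_neg]
  · intro q _ q' _ h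
    exact Prod.swap_injective h
  · intro q hq
    rw [mem_filter] at hq
    refine ⟨q.swap, ?_, Prod.swap_swap q⟩
    rw [mem_filter]
    refine ⟨mem_univ _, ?_⟩
    have h1 : dv q.swap = -dv q := by
      funext i
      show ((q.2 i : ℕ) : ℤ) - ((q.1 i : ℕ) : ℤ) = -(((q.1 i : ℕ) : ℤ) - ((q.2 i : ℕ) : ℤ))
      ring
    rw [h1, hq.2]

theorem fej_out {t : ℕ} (n : ℕ) (hn : 1 ≤ n) (l : Fin t) : ∃ (s : Finset (Fin t → ℤ))
    (c : (Fin t → ℤ) → ℝ), (∀ z ∈ s, z ≠ 0 ∧ ∀ l, |z l| ≤ n) ∧ ∀ (α : Fin t → ℝ) (N : ℕ),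
      fej n α N * (1 - Real.cos (2 * Real.pi * (α l * N))) - 1 / n =
        ∑ z ∈ s, c z * Real.cos (2 * Real.pi * ((∑ l, (z l : ℝ) * α l) * N)) := by
  have hnp : (0 : ℝ) < n := by exact_mod_cast hn
  have hn0 : (n : ℝ) ^ t ≠ 0 := by positivity
  obtain ⟨S, hS⟩ : ∃ S : Finset (((Fin t → Fin n) × (Fin t → Fin n)) × Fin 3), S = univ := ⟨_, rfl⟩
  obtain ⟨D, hD⟩ : ∃ D : ((Fin t → Fin n) × (Fin t → Fin n)) × Fin 3 → Fin t → ℤ,
      D = fun i => dv i.1 + (![0, Pi.single l 1, -Pi.single l 1] : Fin 3 → Fin t → ℤ) i.2 := ⟨_, rfl⟩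
  obtain ⟨a, ha⟩ : ∃ a : ((Fin t → Fin n) × (Fin t → Fin n)) × Fin 3 → ℝ,
      a = fun i => (![((n : ℝ) ^ t)⁻¹, -(1 / 2) * ((n : ℝ) ^ t)⁻¹, -(1 / 2) * ((n : ℝ) ^ t)⁻¹] : Fin 3 → ℝ) i.2 :=
    ⟨_, rfl⟩
  have hDle : ∀ i ∈ S, ∀ m, |D i m| ≤ (n : ℤ) := by
    rintro ⟨q, k⟩ _ m
    have h1 := dv_le q m
    have h3 : |(![0, Pi.single l 1, -Pi.single l 1] : Fin 3 → Fin t → ℤ) k m| ≤ 1 := by
      have h4 : |(Pi.single l 1 : Fin t → ℤ) m| ≤ 1 := by
        by_cases hm : m = l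
        · rw [hm, Pi.single_eq_same]
          norm_num
        · rw [Pi.single_eq_of_ne hm]
          norm_num
      fin_cases k
      · simp
      · exact h4
      · show |-(Pi.single l 1 : Fin t → ℤ) m| ≤ 1
        rw [abs_neg]
        exact h4
    have h2 : D (q, k) m = dv q m + (![0, Pi.single l 1, -Pi.single l 1] : Fin 3 → Fin t → ℤ) k m := by
      rw [hD]
      rfl
    rw [h2]
    have h5 := abs_add_le (dv q m) ((![0, Pi.single l 1, -Pi.single l 1] : Fin 3 → Fin t → ℤ) k m)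
    omega
  obtain ⟨s, c, h1, h2⟩ := col S D a n hDle
  refine ⟨s, c, h1, fun α N => ?_⟩
  rw [← h2 α N]
  have hD0 : ∀ q, D (q, 0) = dv q := fun q => by rw [hD]; exact add_zero _
  have hD1 : ∀ q, D (q, 1) = dv q + Pi.single l 1 := fun q => by rw [hD]; rfl
  have hD2 : ∀ q, D (q, 2) = dv q + -Pi.single l 1 := fun q => by rw [hD]; rfl
  have ha0 : ∀ q, a (q, 0) = ((n : ℝ) ^ t)⁻¹ := fun q => by rw [ha]; rfl
  have ha1 : ∀ q, a (q, 1) = -(1 / 2) * ((n : ℝ) ^ t)⁻¹ := fun q => by rw [ha]; rfl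
  have ha2 : ∀ q, a (q, 2) = -(1 / 2) * ((n : ℝ) ^ t)⁻¹ := fun q => by rw [ha]; rfl
  have hz : ∑ i ∈ S.filter (fun i => D i = 0), a i = 1 / n := by
    rw [sum_filter, hS, Fintype.sum_prod_type]
    have e1 : ∀ q : (Fin t → Fin n) × (Fin t → Fin n), ∑ k : Fin 3, (if D (q, k) = 0 then a (q, k) else 0) =
        (if dv q = 0 then ((n : ℝ) ^ t)⁻¹ else 0) + (if dv q = -Pi.single l 1 then -(1 / 2) * ((n : ℝ) ^ t)⁻¹ else 0) +
        (if dv q = Pi.single l 1 then -(1 / 2) * ((n : ℝ) ^ t)⁻¹ else 0) := by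
      intro q
      rw [Fin.sum_univ_three, hD0, hD1, hD2, ha0, ha1, ha2]
      simp only [add_eq_zero_iff_eq_neg, neg_neg]
    rw [sum_congr rfl (fun q _ => e1 q), sum_add_distrib, sum_add_distrib, ← sum_filter, ← sum_filter, ← sum_filter,
      sum_const, sum_const, sum_const, card0, card2, nsmul_eq_mul, nsmul_eq_mul]
    have e2 := card1 (t := t) hn l
    obtain ⟨C, hC⟩ : ∃ C, C = ((univ : Finset ((Fin t → Fin n) × (Fin t → Fin n))).filter
      (fun q => dv q = Pi.single l 1)).card := ⟨_, rfl⟩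
    rw [← hC] at e2 ⊢
    have e3 : (n : ℝ) * C = ((n : ℝ) - 1) * (n : ℝ) ^ t := by
      have e4 : ((n * C : ℕ) : ℝ) = (((n - 1) * n ^ t : ℕ) : ℝ) := by rw [e2]
      rw [Nat.cast_mul, Nat.cast_mul, Nat.cast_sub hn, Nat.cast_pow] at e4
      simpa using e4
    push_cast
    field_simp
    linear_combination (-2) * e3
  have hm : ∑ i ∈ S, a i * Real.cos (2 * Real.pi * ((∑ m, (D i m : ℝ) * α m) * N)) =
      fej n α N * (1 - Real.cos (2 * Real.pi * (α l * N))) := by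
    have hs : ∑ m, ((Pi.single l 1 : Fin t → ℤ) m : ℝ) * α m = α l := by
      rw [sum_eq_single l]
      · rw [Pi.single_eq_same, Int.cast_one, one_mul]
      · intro m _ hm
        rw [Pi.single_eq_of_ne hm, Int.cast_zero, zero_mul]
      · intro h
        exact absurd (mem_univ l) h
    rw [fej_eq, hS, Fintype.sum_prod_type, sum_mul]
    refine sum_congr rfl fun q _ => ?_
    rw [Fin.sum_univ_three, hD0, hD1, hD2, ha0, ha1, ha2]
    have e1 : ∑ m, ((dv q + Pi.single l 1 : Fin t → ℤ) m : ℝ) * α m = ∑ m, (dv q m : ℝ) * α m + α l := by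
      rw [← hs, ← sum_add_distrib]
      refine sum_congr rfl fun m _ => ?_
      rw [Pi.add_apply, Int.cast_add, add_mul]
    have e2 : ∑ m, ((dv q + -Pi.single l 1 : Fin t → ℤ) m : ℝ) * α m = ∑ m, (dv q m : ℝ) * α m - α l := by
      rw [← hs, ← sum_sub_distrib]
      refine sum_congr rfl fun m _ => ?_
      rw [Pi.add_apply, Pi.neg_apply, Int.cast_add, Int.cast_neg]
      ring
    rw [e1, e2]
    obtain ⟨θ, hθ⟩ : ∃ θ, θ = ∑ m, (dv q m : ℝ) * α m := ⟨_, rfl⟩
    rw [← hθ]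
    have e3 : 2 * Real.pi * ((θ + α l) * N) = 2 * Real.pi * (θ * N) + 2 * Real.pi * (α l * N) := by ring
    have e4 : 2 * Real.pi * ((θ - α l) * N) = 2 * Real.pi * (θ * N) - 2 * Real.pi * (α l * N) := by ring
    rw [e3, e4, Real.cos_add, Real.cos_sub]
    ring
  rw [hz, hm]

end Pool.Agent.H95.RO
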