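import Pool.Agent.H95.RO.Cos
import Pool.Agent.H95.RO.Fea

/-!
# [H95 RO FEJ] MP_8923e7_nt, THEOREM R: the Fejer weight

`t` frequencies `α_l`, `n ≥ 1`, `0 < d < 1/2`, `K = 1 - cos(2π d) > 0`.

PROOF. Write `θ j = ∑_l j_l α_l` (`j : Fin t → Fin n`), so that `∑_l (j_l - j'_l) α_l = θ j - θ j'`.
* `fej_sq`: `n^t fej = (∑_j cos(2π θ_j N))² + (∑_j sin(2π θ_j N))²` (`cos (a - b) = cos a cos b + sin a sin b`). Hence `0 ≤ fej`; `fej ≤ n^(2t)/n^t = n^t` (every cosine
  is `≤ 1`, `(n^t)²` pairs).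
* `fej_one`: `fej n α N - 1 = n^(-t) ∑_(j ≠ j') cos(2π ((θ j - θ j') N))` (the `n^t` diagonal terms are `1`). For `j ≠ j'` the vector
  `z = j - j' ≠ 0`, `|z_l| ≤ n`, so at a good scale `θ j - θ j' = ∑ z_l α_l` is good: `cos_int`.
* `fej_out`: `fej n α N (1 - cos(2π α_l N)) - 1/n = (fej - 1) - (fej cos(2π α_l N) - (n-1)/n)` and
  `fej cos(2π α_l N) = n^(-t) ∑_(j,j') (1/2)(cos(2π(θ j - θ j' + α_l) N) + cos(2π (θ j - θ j' - α_l) N))` (product formula). The terms with
  `j - j' + e_l = 0` (there are `(n-1) n^(t-1)` of them) and those with `j - j' - e_l = 0` are `1`: together `n^(-t) (1/2) 2 (n-1) n^(t-1) = (n-1)/n`.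
  The others: `z = j - j' ± e_l ≠ 0`, `|z_l| ≤ n`.
  (Counting pairs `j, j'` with `j' = j + e_l`: the `j` with `j_l < n - 1`: `n^(t-1)(n-1)`; e.g. bijection with `{j | j_l ≠ last}`; or avoid the count: use
  `fej` as a PRODUCT over `l` of one dimensional kernels, `fej n α N = ∏_l (1/n) ∑_(i,i' < n) cos.. ` is false for cosines of sums; the count is easier.)
* `rotd`: `IntR` is closed under finite sums and multiples (`intd_add`, `intd_smul`, `intd_list` of H11/RG/Int, for every `a0`); `R x N - 1 = if GoodSc then (fej - 1) else 0`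
  `= n^(-t) ∑_(j ≠ j') (if GoodSc then cos .. else 0)`; the same with `(N + h x).Prime`; `R S - δ = if GoodSc then K^(-1) ∑_l (fej (1 - cos) - 1/n) else 0`,
  `δ = t/(n K)`. Bounds: `R ≤ n^t ≤ C0`; `R S ≤ n^t 2t/K ≤ C0`; at a bad scale `R S = δ = t/(nK) ≤ C0`. (`n ≥ 1`, so `1 ≤ n^t`.)
-/

set_option autoImplicit false

namespace Pool.Agent.H95.RO

open Finset Filter Pool.Agent.H11.RG

theorem cos_nd (t : ℝ) : Real.cos (2 * Real.pi * t) = Real.cos (2 * Real.pi * nd t) := by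
  unfold nd
  have h : 2 * Real.pi * |t - round t| = |2 * Real.pi * (t - round t)| := by
    rw [abs_mul, abs_of_pos (by positivity : 0 < 2 * Real.pi)]
  rw [h, Real.cos_abs]
  have h2 : 2 * Real.pi * (t - round t) = 2 * Real.pi * t - (round t : ℤ) * (2 * Real.pi) := by
    ring
  rw [h2, Real.cos_sub_int_mul_two_pi]

theorem one_sub_cos_pos {d : ℝ} (hd : 0 < d) (hd1 : d ≤ 1 / 2) : 0 < 1 - Real.cos (2 * Real.pi * d) := by
  have hpi := Real.pi_pos
  have h : Real.cos (2 * Real.pi * d) < Real.cos 0 := by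
    apply Real.cos_lt_cos_of_nonneg_of_le_pi le_rfl
    · nlinarith
    · positivity
  rw [Real.cos_zero] at h
  linarith

theorem intr_congr {η : ℝ} {Φ Φ' : ℝ → ℕ → ℝ} (h : IntR η Φ) (h1 : ∀ x N, Φ x N = Φ' x N) :
    IntR η Φ' := fun a0 => intd_congr (h a0) (fun x N _ => h1 x N) (fun _ => rfl)

theorem good_gs {t : ℕ} {τ : ℝ} {n : ℕ} {α : Fin t → ℝ} {x : ℝ} {z : Fin t → ℤ}
    (hz : z ≠ 0 ∧ ∀ l, |z l| ≤ n) (h : GoodSc τ n α x) : Gs τ x (∑ l, (z l : ℝ) * α l) :=
  h z hz.1 hz.2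

theorem rotd (t : ℕ) (α : Fin t → ℝ) (n : ℕ) (hn : 1 ≤ n) (d : ℝ) (hd : 0 < d) (hd1 : d < 1 / 2)
    (τ : ℝ) (hτ : 0 < τ) (hτ1 : τ ≤ 1 / 4) : ∃ η0 : ℝ, 0 < η0 ∧ ∀ η : ℝ, 0 < η → η ≤ η0 → ∀ A : ℝ,
      RotD η A ((n : ℝ) ^ t * (1 + 2 * t / (1 - Real.cos (2 * Real.pi * d))))
        (t / (n * (1 - Real.cos (2 * Real.pi * d)))) (Rf τ n α) (Sf τ n α d) := by
  classical
  obtain ⟨c0, hc0, hc⟩ := cos_int τ hτ hτ1
  refine ⟨c0, hc0, fun η hη hη1 A => ?_⟩
  have hK := one_sub_cos_pos hd hd1.le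
  set K := 1 - Real.cos (2 * Real.pi * d) with hKd
  have hn0 : (0 : ℝ) < n := by exact_mod_cast hn
  have hn1 : (1 : ℝ) ≤ n := by exact_mod_cast hn
  have hnt : (1 : ℝ) ≤ (n : ℝ) ^ t := one_le_pow₀ hn1
  have htK : (0 : ℝ) ≤ 2 * t / K := by positivity
  have hcos : ∀ (y : ℝ), 0 ≤ 1 - Real.cos y ∧ 1 - Real.cos y ≤ 2 := fun y =>
    ⟨by linarith [Real.cos_le_one y], by linarith [Real.neg_one_le_cos y]⟩
  have key : ∀ (z : Fin t → ℤ), (z ≠ 0 ∧ ∀ l, |z l| ≤ n) →
      IntR η (fun x N => if GoodSc τ n α x then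
        Real.cos (2 * Real.pi * ((∑ l, (z l : ℝ) * α l) * N)) else 0) ∧
      ∀ (A : ℝ) (h : ℝ → ℕ), (∀ᶠ x : ℝ in atTop, (h x : ℝ) ≤ Real.log x ^ A) →
        IntR η (fun x N => if (N + h x).Prime then
          (if GoodSc τ n α x then
            Real.cos (2 * Real.pi * ((∑ l, (z l : ℝ) * α l) * N)) else 0) else 0) := by
    intro z hz
    have h := hc η hη hη1 (∑ l, (z l : ℝ) * α l) (fun x => GoodSc τ n α x)
      (fun x hx => good_gs hz hx)
    constructor
    · refine intr_congr h.1 fun x N => ?_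
      split_ifs <;> rfl
    · intro A' h' hh'
      refine intr_congr (h.2 A' h' hh') fun x N => ?_
      split_ifs <;> rfl
  obtain ⟨s1, c1, hs1, hf1⟩ := fej_one (t := t) n hn
  choose s2 c2 hs2 hf2 using fun l : Fin t => fej_out (t := t) n hn l
  constructor
  · intro x N
    unfold Rf
    split_ifs
    · refine ⟨fej_nonneg n α N, (fej_le n hn α N).trans ?_⟩
      nlinarith
    · refine ⟨zero_le_one, ?_⟩
      nlinarith
  · intro x N
    unfold Rf Sf
    rw [← hKd]
    split_ifs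
    · have e1 : 0 ≤ ∑ l, (1 - Real.cos (2 * Real.pi * (α l * N))) :=
        sum_nonneg fun l _ => (hcos _).1
      have e2 : ∑ l, (1 - Real.cos (2 * Real.pi * (α l * N))) ≤ 2 * t := by
        calc ∑ l, (1 - Real.cos (2 * Real.pi * (α l * N))) ≤ ∑ l : Fin t, (2 : ℝ) :=
              sum_le_sum fun l _ => (hcos _).2
          _ = 2 * t := by simp [mul_comm]
      refine ⟨div_nonneg e1 hK.le, ?_⟩
      have e3 : (∑ l, (1 - Real.cos (2 * Real.pi * (α l * N)))) / K ≤ 2 * t / K :=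
        div_le_div_of_nonneg_right e2 hK.le
      have e4 : 0 ≤ (∑ l, (1 - Real.cos (2 * Real.pi * (α l * N)))) / K := div_nonneg e1 hK.le
      have e5 := fej_le n hn α N
      have e6 := fej_nonneg n α N
      calc fej n α N * ((∑ l, (1 - Real.cos (2 * Real.pi * (α l * N)))) / K) ≤
            (n : ℝ) ^ t * (2 * t / K) := mul_le_mul e5 e3 e4 (by positivity)
        _ ≤ (n : ℝ) ^ t * (1 + 2 * t / K) := by nlinarith
    · refine ⟨by positivity, ?_⟩
      rw [one_mul]
      have e7 : (t : ℝ) / (n * K) ≤ 2 * t / K := by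
        have h5 : (t : ℝ) / (n * K) = (t / K) / n := by field_simp
        rw [h5]
        have h6 : (t : ℝ) / K / n ≤ t / K := div_le_self (by positivity) hn1
        have h7 : 2 * (t : ℝ) / K = t / K + t / K := by ring
        have h8 : (0 : ℝ) ≤ t / K := by positivity
        linarith
      nlinarith
  · have h := intr_sum s1 (fun z x N => c1 z * (if GoodSc τ n α x then
        Real.cos (2 * Real.pi * ((∑ l, (z l : ℝ) * α l) * N)) else 0))
        (fun z hz => intr_smul (c1 z) (key z (hs1 z hz)).1)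
    refine intr_congr h fun x N => ?_
    unfold Rf
    split_ifs with hg
    · rw [hf1 α N]
    · simp
  · intro h' hh'
    have h := intr_sum s1 (fun z x N => c1 z * (if (N + h' x).Prime then (if GoodSc τ n α x then
        Real.cos (2 * Real.pi * ((∑ l, (z l : ℝ) * α l) * N)) else 0) else 0))
        (fun z hz => intr_smul (c1 z) ((key z (hs1 z hz)).2 A h' hh'))
    refine intr_congr h fun x N => ?_
    unfold Rf
    split_ifs with hp hg
    · rw [hf1 α N]
    · simp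
    · simp
  · have h := intr_sum univ (fun (l : Fin t) x N => K⁻¹ * ∑ z ∈ s2 l, c2 l z *
        (if GoodSc τ n α x then Real.cos (2 * Real.pi * ((∑ l, (z l : ℝ) * α l) * N)) else 0))
        (fun l _ => intr_smul K⁻¹ (intr_sum (s2 l) (fun z x N => c2 l z * (if GoodSc τ n α x then
          Real.cos (2 * Real.pi * ((∑ l, (z l : ℝ) * α l) * N)) else 0))
          (fun z hz => intr_smul (c2 l z) (key z (hs2 l z hz)).1)))
    refine intr_congr h fun x N => ?_
    unfold Rf Sf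
    rw [← hKd]
    split_ifs with hg
    · have e : ∀ l ∈ (univ : Finset (Fin t)), K⁻¹ * ∑ z ∈ s2 l, c2 l z *
          Real.cos (2 * Real.pi * ((∑ l, (z l : ℝ) * α l) * N)) =
          K⁻¹ * (fej n α N * (1 - Real.cos (2 * Real.pi * (α l * N))) - 1 / n) := by
        intro l _
        rw [hf2 l α N]
      rw [sum_congr rfl e, ← mul_sum, sum_sub_distrib, ← mul_sum]
      simp only [sum_const, card_univ, Fintype.card_fin, nsmul_eq_mul]
      generalize (∑ l, (1 - Real.cos (2 * Real.pi * (α l * N)))) = T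
      field_simp
    · simp

/-- the control function is at least `1` outside the box -/
theorem sf_ge {t : ℕ} (τ : ℝ) (n : ℕ) (α : Fin t → ℝ) (d x : ℝ) (hd : 0 < d) (hd1 : d ≤ 1 / 2)
    (hx : GoodSc τ n α x) (N : ℕ) (l : Fin t) (hN : d ≤ nd (α l * N)) : 1 ≤ Sf τ n α d x N := by
  have hK := one_sub_cos_pos hd hd1
  have hpi := Real.pi_pos
  unfold Sf
  rw [if_pos hx, le_div_iff₀ hK, one_mul]
  have h1 : 1 - Real.cos (2 * Real.pi * (α l * N)) ≤ ∑ l, (1 - Real.cos (2 * Real.pi * (α l * N))) :=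
    single_le_sum (f := fun l => 1 - Real.cos (2 * Real.pi * (α l * N)))
      (fun l _ => by linarith [Real.cos_le_one (2 * Real.pi * (α l * N))]) (mem_univ l)
  have h2 : Real.cos (2 * Real.pi * (α l * N)) ≤ Real.cos (2 * Real.pi * d) := by
    rw [cos_nd]
    apply Real.cos_le_cos_of_nonneg_of_le_pi
    · positivity
    · have : nd (α l * N) ≤ 1 / 2 := by
        unfold nd
        exact abs_sub_round _
      nlinarith
    · nlinarith
  linarith

end Pool.Agent.H95.RO
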