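import Pool.Agent.H95.RO.Df
import Pool.Agent.H24.RL.Kron

/-!
# [H95 RO KRN] MP_8923e7_nt, THEOREM R: Kronecker's theorem in a residue class

PROOF. `kron` (H24/RL/Kron) with `r = t + 1`, `p = (W α_0, ..., W α_(t-1), 1)` (`Fin.snoc` or `Fin.cons`): if `∑ z_l W α_l + z_t = 0` with
integers then `∑ (W z_l) α_l = -z_t`, so `W z = 0` by `Ind α` (`W z` as the integer vector), `z_l = 0` (`W > 0`), hence `z_t = 0`. Apply it with
`w = -(y_l - ρ α_l)` (that is: we want `W x α_l ≡ y_l - ρ α_l`) and last coordinate `w = 0`, `ε' ` with `ε' (1 + W |α_l|) < ε` for all `l`, and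
`ε' < 1/2`, `M' = M + 1`: a real `x ≥ M + 1` and integers `n_l, n` with `|n_l - x W α_l - w_l| ≤ ε'`, `|n - x| ≤ ε'`. So `n ≥ M` is a natural number;
`h = W n + ρ`: `h ≥ n ≥ M`, `h ≡ ρ (mod W)`, and `α_l h - y_l = W n α_l + ρ α_l - y_l = W x α_l + ρ α_l - y_l + W (n - x) α_l` is within
`ε' + W |α_l| ε' < ε` of the integer `n_l` (`nd_le`: `nd t ≤ |t - z|`, i.e. `round_le`).
-/

set_option autoImplicit false

namespace Pool.Agent.H95.RO

open Finset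

theorem krn {t : ℕ} (α : Fin t → ℝ) (hα : Ind α) (W : ℕ) (hW : 0 < W) (ρ : ℕ) (y : Fin t → ℝ)
    (ε : ℝ) (hε : 0 < ε) (M : ℕ) :
    ∃ h : ℕ, M ≤ h ∧ h ≡ ρ [MOD W] ∧ ∀ l, nd (α l * h - y l) < ε := by
  obtain ⟨p, hp⟩ : ∃ p : Fin (t + 1) → ℝ, p = Fin.cons 1 (fun l => (W : ℝ) * α l) := ⟨_, rfl⟩
  have hp0 : p 0 = 1 := by rw [hp]; rfl
  have hps : ∀ l : Fin t, p l.succ = (W : ℝ) * α l := fun l => by rw [hp]; rfl
  have hlin : ∀ z : Fin (t + 1) → ℤ, ∑ i, (z i : ℝ) * p i = 0 → z = 0 := by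
    intro z hz
    rw [Fin.sum_univ_succ, hp0, mul_one] at hz
    have h1 : ∑ l, ((((W : ℤ) * z l.succ : ℤ)) : ℝ) * α l = ((-(z 0) : ℤ) : ℝ) := by
      have h2 : ∑ l : Fin t, (z l.succ : ℝ) * p l.succ = ∑ l, ((((W : ℤ) * z l.succ : ℤ)) : ℝ) * α l := by
        refine Finset.sum_congr rfl fun l _ => ?_
        rw [hps]
        push_cast
        ring
      rw [h2] at hz
      push_cast at hz ⊢
      linarith
    have h2 := hα (fun l => (W : ℤ) * z l.succ) (-(z 0)) h1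
    have h3 : ∀ l : Fin t, z l.succ = 0 := by
      intro l
      have h4 := congrFun h2 l
      have h5 : (W : ℤ) * z l.succ = 0 := h4
      rcases mul_eq_zero.1 h5 with h6 | h6
      · have h7 : W = 0 := by exact_mod_cast h6
        omega
      · exact h6
    have h4 : z 0 = 0 := by
      have h5 : (z 0 : ℝ) = 0 := by
        have h6 : ∑ l : Fin t, (z l.succ : ℝ) * p l.succ = 0 := by
          refine Finset.sum_eq_zero fun l _ => ?_
          rw [h3 l, Int.cast_zero, zero_mul]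
        rw [h6, add_zero] at hz
        exact hz
      exact_mod_cast h5
    funext i
    refine Fin.cases h4 h3 i
  obtain ⟨w, hw⟩ : ∃ w : Fin (t + 1) → ℝ, w = Fin.cons 0 (fun l => -(y l - (ρ : ℝ) * α l)) := ⟨_, rfl⟩
  have hw0 : w 0 = 0 := by rw [hw]; rfl
  have hws : ∀ l : Fin t, w l.succ = -(y l - (ρ : ℝ) * α l) := fun l => by rw [hw]; rfl
  obtain ⟨S, hS⟩ : ∃ S : ℝ, S = ∑ l, |α l| := ⟨_, rfl⟩
  have hS0 : 0 ≤ S := by
    rw [hS]
    exact Finset.sum_nonneg fun l _ => abs_nonneg _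
  have hWr : (0 : ℝ) < W := by exact_mod_cast hW
  have hden : 0 < 2 * (1 + (W : ℝ) * S) := by positivity
  obtain ⟨ε', hε'⟩ : ∃ ε' : ℝ, ε' = min (1 / 4) (ε / (2 * (1 + (W : ℝ) * S))) := ⟨_, rfl⟩
  have hε'0 : 0 < ε' := by
    rw [hε']
    exact lt_min (by norm_num) (div_pos hε hden)
  have hε'1 : ε' ≤ 1 / 4 := by
    rw [hε']
    exact min_le_left _ _
  have hε'2 : ε' * (1 + (W : ℝ) * S) ≤ ε / 2 := by
    have h1 : ε' ≤ ε / (2 * (1 + (W : ℝ) * S)) := by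
      rw [hε']
      exact min_le_right _ _
    rw [le_div_iff₀ hden] at h1
    linarith
  obtain ⟨x, n, hx, hn⟩ := Pool.Agent.H24.RL.kron hlin w hε'0 ((M : ℝ) + 1)
  have hn0 := hn 0
  rw [hp0, hw0, mul_one, sub_zero, abs_le] at hn0
  have hn0M : (M : ℤ) ≤ n 0 := by
    have h1 : (M : ℝ) < (n 0 : ℝ) := by linarith [hn0.1]
    have h2 : (M : ℤ) < n 0 := by exact_mod_cast h1
    exact h2.le
  obtain ⟨N, hN⟩ : ∃ N : ℕ, n 0 = (N : ℤ) := ⟨(n 0).toNat, by rw [Int.toNat_of_nonneg (by omega)]⟩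
  have hNr : (n 0 : ℝ) = (N : ℝ) := by rw [hN]; norm_cast
  have hMN : M ≤ N := by omega
  rw [hNr] at hn0
  refine ⟨W * N + ρ, ?_, ?_, ?_⟩
  · calc M ≤ N := hMN
      _ ≤ W * N := Nat.le_mul_of_pos_left N hW
      _ ≤ W * N + ρ := Nat.le_add_right _ _
  · show (W * N + ρ) % W = ρ % W
    rw [Nat.mul_add_mod]
  · intro l
    have h1 := hn l.succ
    rw [hps, hws, abs_le] at h1
    have h2 : nd (α l * ((W * N + ρ : ℕ) : ℝ) - y l) ≤ |α l * ((W * N + ρ : ℕ) : ℝ) - y l - (n l.succ : ℝ)| :=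
      round_le _ _
    refine h2.trans_lt ?_
    have h3 : α l * ((W * N + ρ : ℕ) : ℝ) - y l - (n l.succ : ℝ) =
        -((n l.succ : ℝ) - x * ((W : ℝ) * α l) - -(y l - (ρ : ℝ) * α l)) + (W : ℝ) * α l * ((N : ℝ) - x) := by
      push_cast
      ring
    rw [h3]
    have h4 : |-((n l.succ : ℝ) - x * ((W : ℝ) * α l) - -(y l - (ρ : ℝ) * α l))| ≤ ε' := by
      rw [abs_neg, abs_le]
      exact h1
    have h5 : |(N : ℝ) - x| ≤ ε' := abs_le.2 hn0
    have h6 : |α l| ≤ S := by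
      rw [hS]
      exact Finset.single_le_sum (f := fun l => |α l|) (fun i _ => abs_nonneg _) (Finset.mem_univ l)
    have h7 : |(W : ℝ) * α l * ((N : ℝ) - x)| ≤ (W : ℝ) * S * ε' := by
      rw [abs_mul, abs_mul, abs_of_pos hWr]
      gcongr
    calc _ ≤ |-((n l.succ : ℝ) - x * ((W : ℝ) * α l) - -(y l - (ρ : ℝ) * α l))| +
          |(W : ℝ) * α l * ((N : ℝ) - x)| := abs_add_le _ _
      _ ≤ ε' + (W : ℝ) * S * ε' := add_le_add h4 h7
      _ = ε' * (1 + (W : ℝ) * S) := by ring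
      _ ≤ ε / 2 := hε'2
      _ < ε := by linarith

end Pool.Agent.H95.RO
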