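import Mathlib

/-!
# [H95 RO TUP] MP_8923e7_nt, THEOREM R (words of consecutive primes under rotations): modulus and residue for a tuple (60-110 lines). File Pool/Agent/H95/RO/Tup.lean

`u : Fin K → ℕ` distinct shifts, prime to `W0`, `primorial w ∣ W0`, `K ≤ w`, `Y` any bound. There are `W`, `b` with `W0 ∣ W`, `W0 ∣ b`, all `b + u i` prime to `W`, every prime which divides a difference
`u i - u j` divides `W`, and for every `y ≤ Y` not among the `u i` some prime `p ∣ W` divides `b + y`.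
PROOF. Let `S1` = the primes `p` not dividing `W0` which divide some `u i - u j ≠ 0` (finite: they are `≤ max u`; take a filter of `Finset.range (max + 1)`, `max = ∑ i, u i`). Such a `p` is `> w` (`p ≤ w` gives `p ∣ primorial w ∣ W0`:
`Nat.Prime.dvd_primorial` or directly), so `K ≤ w < p` and there is a class `c p` mod `p` with `c p + u i` not divisible by `p` for all `i`
(pigeonhole: the image of `i ↦ -(u i) mod p` in `ZMod p` has at most `K < p` elements, `Finset.exists_mem_notMem_of_card_lt_card` or `Finset.card_image_le`).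
Let `N = W0 + Y + ∑ i, u i + 1`. For every `y ≤ Y` take a prime `q y > N`, `q` injective, e.g. `q y = Nat.nth Nat.Prime (N + y)` (`> N`: `Nat.nth_prime..`, `Nat.add_two_le_nth_prime`; strictly increasing: `Nat.nth_strictMono Nat.infinite_setOf_prime`).
`q y` does not divide `W0` (`0 < W0 < q y`), is not in `S1` (`q y > max`), and `q y` does not divide `u i - y` if `u i ≠ y` (absolute value `< q y`).
CHINESE REMAINDERS with the pairwise coprime moduli `W0`, `p ∈ S1`, `q y` (`y ≤ Y`): `Nat.chineseRemainderOfFinset` or induction over a finite set of primes prime to `W0`: claim: for every finite set `S` of primes not dividing `W0` and every `c : ℕ → ℕ` there is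
`b` with `W0 ∣ b` and `b ≡ c p [MOD p]` for all `p ∈ S` (induction: `Nat.chineseRemainder` with the coprime numbers `W0 * ∏ p ∈ S, p` and `p'`). Take `S = S1 ∪ q '' {y ≤ Y, y not a shift}`, `c (q y) ≡ -y` (`c (q y) = q y * y - y` or `(q y - 1) * y`),
`W = W0 * ∏ p ∈ S, p`. `b + u i` is prime to `W`: a prime divisor `p` of `W` divides `W0` (then `p ∣ b`, `p ∣ u i`, contradiction to the coprimality) or lies in `S` (a prime dividing a product of primes is one of them: `Prime.exists_mem_finset_dvd`, `Nat.prime_dvd_prime_iff_eq`).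
-/

set_option autoImplicit false

namespace Pool.Agent.H95.RO

private theorem tup_crt (W0 : ℕ) (S : Finset ℕ) : (∀ p ∈ S, p.Prime ∧ ¬ p ∣ W0) → ∀ c : ℕ → ℕ,
    ∃ b : ℕ, W0 ∣ b ∧ ∀ p ∈ S, b ≡ c p [MOD p] := by
  induction S using Finset.induction_on with
  | empty => exact fun _ _ => ⟨0, dvd_zero _, fun p hp => absurd hp (Finset.notMem_empty p)⟩
  | insert p0 S hp0 ih =>
    intro h c
    obtain ⟨b', hb1, hb2⟩ := ih (fun p hp => h p (Finset.mem_insert_of_mem hp)) c
    have h0 := h p0 (Finset.mem_insert_self p0 S)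
    have hco : Nat.Coprime (W0 * ∏ p ∈ S, p) p0 := by
      refine Nat.Coprime.mul_left ?_ (Nat.Coprime.prod_left fun p hp => ?_)
      · exact ((h0.1.coprime_iff_not_dvd).2 h0.2).symm
      · refine (Nat.coprime_primes (h p (Finset.mem_insert_of_mem hp)).1 h0.1).2 ?_
        rintro rfl
        exact hp0 hp
    obtain ⟨b, e1, e2⟩ := Nat.chineseRemainder hco b' (c p0)
    refine ⟨b, ((e1.of_mul_right _).dvd_iff dvd_rfl).2 hb1, fun p hp => ?_⟩
    rcases Finset.mem_insert.1 hp with rfl | hp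
    · exact e2
    · exact (e1.of_dvd (dvd_mul_of_dvd_right (Finset.dvd_prod_of_mem _ hp) _)).trans (hb2 p hp)

private theorem tup_pig {K : ℕ} (u : Fin K → ℕ) {p : ℕ} (hp : p.Prime) (hK : K < p) :
    ∃ c : ℕ, ∀ i, ¬ p ∣ c + u i := by
  have : NeZero p := ⟨hp.ne_zero⟩
  have h1 : ∃ z : ZMod p, ∀ i, z ≠ -(u i : ZMod p) := by
    by_contra hcon
    push Not at hcon
    have h2 : Function.Surjective fun i : Fin K => (-(u i : ZMod p) : ZMod p) := by
      intro z
      obtain ⟨i, hi⟩ := hcon z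
      exact ⟨i, hi.symm⟩
    have h3 := Fintype.card_le_of_surjective _ h2
    rw [ZMod.card, Fintype.card_fin] at h3
    omega
  obtain ⟨z, hz⟩ := h1
  refine ⟨z.val, fun i hi => hz i ?_⟩
  have h2 := (ZMod.natCast_eq_zero_iff _ _).2 hi
  rw [Nat.cast_add, ZMod.natCast_zmod_val] at h2
  exact eq_neg_of_add_eq_zero_left h2

theorem tup {K : ℕ} (u : Fin K → ℕ) (hu : Function.Injective u) (w W0 Y : ℕ) (hW0 : 0 < W0)
    (hw : primorial w ∣ W0) (hK : K ≤ w) (hc : ∀ i, Nat.Coprime (u i) W0) :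
    ∃ W b : ℕ, 0 < W ∧ W0 ∣ W ∧ W0 ∣ b ∧ (∀ i, Nat.Coprime (b + u i) W) ∧
      (∀ i j, i ≠ j → ∀ p : ℕ, p.Prime → (p : ℤ) ∣ (u i : ℤ) - u j → p ∣ W) ∧
      ∀ y : ℕ, y ≤ Y → (∀ i, u i ≠ y) → ∃ p : ℕ, p.Prime ∧ p ∣ W ∧ p ∣ b + y := by
  classical
  obtain ⟨M, hM⟩ : ∃ M : ℕ, ∀ i, u i ≤ M :=
    ⟨∑ i, u i, fun i => Finset.single_le_sum (f := u) (fun _ _ => Nat.zero_le _) (Finset.mem_univ i)⟩
  obtain ⟨q, hq1, hq2, hq3⟩ : ∃ q : ℕ → ℕ, (∀ y, (q y).Prime) ∧ (∀ y, W0 + Y + M + 1 + y < q y) ∧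
      Function.Injective q := by
    refine ⟨fun y => Nat.nth Nat.Prime (W0 + Y + M + 1 + y), fun y => Nat.prime_nth_prime _, fun y => ?_, ?_⟩
    · have h1 := Nat.add_two_le_nth_prime (W0 + Y + M + 1 + y)
      show _ < Nat.nth Nat.Prime (W0 + Y + M + 1 + y)
      omega
    · intro y y' h
      have h1 := Nat.nth_injective Nat.infinite_setOf_prime h
      omega
  set S1 : Finset ℕ := (Finset.range (M + 1)).filter fun p => p.Prime ∧ ¬ p ∣ W0 with hS1
  set S2 : Finset ℕ := ((Finset.range (Y + 1)).filter fun y => ∀ i, u i ≠ y).image q with hS2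
  have hP : ∀ p ∈ S1 ∪ S2, p.Prime ∧ ¬ p ∣ W0 := by
    intro p hp
    rcases Finset.mem_union.1 hp with hp | hp
    · exact (Finset.mem_filter.1 hp).2
    · obtain ⟨y, -, rfl⟩ := Finset.mem_image.1 hp
      refine ⟨hq1 y, fun h => ?_⟩
      have h1 := Nat.le_of_dvd hW0 h
      have h2 := hq2 y
      omega
  have hcl : ∀ p ∈ S1 ∪ S2, ∃ c : ℕ, (∀ i, ¬ p ∣ c + u i) ∧
      ∀ y ≤ Y, q y = p → p ∣ c + y := by
    intro p hp
    obtain ⟨hp1, hp2⟩ := hP p hp
    rcases Finset.mem_union.1 hp with hp | hp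
    · have h1 : w < p := by
        by_contra hcon
        apply hp2
        refine dvd_trans ?_ hw
        unfold primorial
        refine Finset.dvd_prod_of_mem (fun p => p) (Finset.mem_filter.2 ⟨Finset.mem_range.2 (by omega), hp1⟩)
      obtain ⟨c, hcc⟩ := tup_pig u hp1 (lt_of_le_of_lt hK h1)
      refine ⟨c, hcc, fun y _ hy => ?_⟩
      have h2 := Finset.mem_range.1 (Finset.mem_filter.1 hp).1
      have h3 := hq2 y
      omega
    · obtain ⟨y0, hy0, rfl⟩ := Finset.mem_image.1 hp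
      obtain ⟨h1, h2⟩ := Finset.mem_filter.1 hy0
      have h1 := Finset.mem_range.1 h1
      have hpos : 1 ≤ q y0 := (hq1 y0).one_le
      have e0 : (q y0 - 1) * y0 + y0 = q y0 * y0 := by
        obtain ⟨t, ht⟩ := Nat.exists_eq_add_of_le hpos
        rw [ht, Nat.add_sub_cancel_left]
        ring
      refine ⟨(q y0 - 1) * y0, fun i hi => ?_, fun y _ hy => ?_⟩
      · have h3 : (q y0 : ℤ) ∣ (u i : ℤ) - y0 := by
          have h4 : (q y0 : ℤ) ∣ (((q y0 - 1) * y0 + u i : ℕ) : ℤ) := Int.natCast_dvd_natCast.2 hi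
          have h5 : (((q y0 - 1) * y0 + u i : ℕ) : ℤ) = (q y0 : ℤ) * y0 + ((u i : ℤ) - y0) := by
            have h6 : (((q y0 - 1) * y0 + y0 : ℕ) : ℤ) = ((q y0 * y0 : ℕ) : ℤ) := by rw [e0]
            push_cast at h6 ⊢
            linarith
          rw [h5] at h4
          exact (dvd_add_right (dvd_mul_right _ _)).1 h4
        have h4 : q y0 ∣ ((u i : ℤ) - y0).natAbs := Int.natCast_dvd.1 h3
        have h5 : ((u i : ℤ) - y0).natAbs ≠ 0 := by
          have := h2 i
          omega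
        have h6 := Nat.le_of_dvd (Nat.pos_of_ne_zero h5) h4
        have h7 := hq2 y0
        have h8 := hM i
        omega
      · rw [hq3 hy, e0]
        exact dvd_mul_right _ _
  choose! c hc1 hc2 using hcl
  obtain ⟨b, hb1, hb2⟩ := tup_crt W0 (S1 ∪ S2) hP c
  refine ⟨W0 * ∏ p ∈ S1 ∪ S2, p, b, Nat.mul_pos hW0 (Finset.prod_pos fun p hp => (hP p hp).1.pos),
    dvd_mul_right _ _, hb1, fun i => ?_, fun i j hij p hp hd => ?_, fun y hy hy2 => ?_⟩
  · refine Nat.Coprime.mul_right ?_ (Nat.Coprime.prod_right fun p hp => ?_)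
    · obtain ⟨t, rfl⟩ := hb1
      rw [add_comm, Nat.coprime_add_mul_left_left]
      exact hc i
    · refine (((hP p hp).1.coprime_iff_not_dvd).2 fun h => hc1 p hp i ?_).symm
      exact (((hb2 p hp).add_right (u i)).dvd_iff dvd_rfl).1 h
  · by_cases h0 : p ∣ W0
    · exact dvd_mul_of_dvd_left h0 _
    · refine dvd_mul_of_dvd_right (Finset.dvd_prod_of_mem (fun p => p) (Finset.mem_union_left _
        (Finset.mem_filter.2 ⟨Finset.mem_range.2 ?_, hp, h0⟩))) _
      have h4 : p ∣ ((u i : ℤ) - u j).natAbs := Int.natCast_dvd.1 hd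
      have h5 : ((u i : ℤ) - u j).natAbs ≠ 0 := by
        have h6 : u i ≠ u j := fun h => hij (hu h)
        omega
      have h6 := Nat.le_of_dvd (Nat.pos_of_ne_zero h5) h4
      have h7 := hM i
      have h8 := hM j
      omega
  · have hm : q y ∈ S1 ∪ S2 := Finset.mem_union_right _ (Finset.mem_image.2 ⟨y, Finset.mem_filter.2
      ⟨Finset.mem_range.2 (by omega), hy2⟩, rfl⟩)
    refine ⟨q y, hq1 y, dvd_mul_of_dvd_right (Finset.dvd_prod_of_mem (fun p => p) hm) _, ?_⟩
    exact (((hb2 _ hm).add_right y).dvd_iff dvd_rfl).2 (hc2 _ hm y hy rfl)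

end Pool.Agent.H95.RO
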