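import Pool.Agent.H95.RO.Med
import Pool.Agent.H95.RO.Fej
import Pool.Agent.H95.RO.Krn
import Pool.Agent.H95.RO.Tup
import Pool.Agent.H96.WP.Fin

/-!
# [H95 RO COR] MP_8923e7_nt, THEOREM R: the core property
-/

set_option autoImplicit false

namespace Pool.Agent.H95.RO

open Finset Filter Pool.Agent.H21.MT Pool.Agent.H92.MM Pool.Agent.H72.NU Pool.Agent.H96.WP

open Classical in
/-- a point inside the box with many blocks -/
theorem pick {m : ℕ} (hm : 1 ≤ m) {X : Finset ℕ} {ν S : ℕ → ℝ} {c e2 : ℝ} (hν : ∀ N, 0 ≤ ν N)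
    (h1 : ∑ N ∈ X, ν N = 1) (E : Fin m → ℕ → Prop) (hE : ∀ j, c ≤ ∑ N ∈ X.filter (E j), ν N)
    (hS0 : ∀ N, 0 ≤ S N) (hS : ∑ N ∈ X, ν N * S N ≤ e2) (In : ℕ → Prop)
    (hIn : ∀ N ∈ X, ¬ In N → 1 ≤ S N) (c' : ℝ) (hc' : 0 ≤ c') (hlt : c' + e2 < c) :
    ∃ N ∈ X, ν N ≠ 0 ∧ In N ∧ c' * m ≤ ((univ.filter (fun j => E j N)).card : ℝ) := by
  by_contra hcon
  push Not at hcon
  have hm0 : (0 : ℝ) < m := by exact_mod_cast hm
  have h2 : c * m ≤ ∑ N ∈ X, ν N * ((univ.filter (fun j => E j N)).card : ℝ) := by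
    calc c * m = ∑ _j : Fin m, c := by
          rw [sum_const, card_univ, Fintype.card_fin, nsmul_eq_mul, mul_comm]
      _ ≤ ∑ j : Fin m, ∑ N ∈ X.filter (E j), ν N := sum_le_sum fun j _ => hE j
      _ = ∑ j : Fin m, ∑ N ∈ X, if E j N then ν N else 0 :=
          sum_congr rfl fun j _ => sum_filter _ _
      _ = ∑ N ∈ X, ν N * ((univ.filter (fun j => E j N)).card : ℝ) := by
          rw [sum_comm]
          refine sum_congr rfl fun N _ => ?_
          rw [card_filter]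
          push_cast
          rw [mul_sum]
          refine sum_congr rfl fun j _ => ?_
          split_ifs <;> simp
  have h3 : ∀ N ∈ X, ν N * ((univ.filter (fun j => E j N)).card : ℝ) ≤
      ν N * (c' * m) + m * (ν N * S N) := by
    intro N hN
    have hS1 := hS0 N
    have hν1 := hν N
    by_cases h0 : ν N = 0
    · rw [h0]
      simp
    by_cases h4 : In N
    · have h5 := mul_le_mul_of_nonneg_left (hcon N hN h0 h4).le hν1
      have h6 : 0 ≤ m * (ν N * S N) := by positivity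
      linarith
    · have h5 := hIn N hN h4
      have h6 : ((univ.filter (fun j => E j N)).card : ℝ) ≤ m := by
        have : (univ.filter (fun j => E j N)).card ≤ m := by
          refine (card_filter_le _ _).trans ?_
          rw [card_univ, Fintype.card_fin]
        exact_mod_cast this
      have h7 : ν N * ((univ.filter (fun j => E j N)).card : ℝ) ≤ ν N * m :=
        mul_le_mul_of_nonneg_left h6 hν1
      have h8 : ν N * m * 1 ≤ ν N * m * S N :=
        mul_le_mul_of_nonneg_left h5 (mul_nonneg hν1 hm0.le)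
      have h9 : 0 ≤ ν N * (c' * m) := mul_nonneg hν1 (mul_nonneg hc' hm0.le)
      linarith
  have h4 := h2.trans (sum_le_sum h3)
  rw [sum_add_distrib, ← sum_mul, ← mul_sum, h1, one_mul] at h4
  have h5 := mul_le_mul_of_nonneg_left hS hm0.le
  nlinarith

/-- strictly increasing choices -/
theorem incr {n : ℕ} (P : Fin n → ℕ → Prop) (h : ∀ i M, ∃ u, M ≤ u ∧ P i u) :
    ∃ u : Fin n → ℕ, StrictMono u ∧ ∀ i, P i (u i) := by
  choose f hf1 hf2 using h
  -- a recursive choice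
  have key : ∀ n : ℕ, ∀ P : Fin n → ℕ → Prop, (∀ i M, ∃ u, M ≤ u ∧ P i u) →
      ∃ u : Fin n → ℕ, StrictMono u ∧ ∀ i, P i (u i) := by
    intro n
    induction n with
    | zero => exact fun P _ => ⟨fun i => i.elim0, fun i => i.elim0, fun i => i.elim0⟩
    | succ n ih =>
      intro P hP
      obtain ⟨u, hu1, hu2⟩ := ih (fun i => P i.castSucc) (fun i M => hP i.castSucc M)
      obtain ⟨v, hv1, hv2⟩ := hP (Fin.last n) (∑ i, u i + 1)
      refine ⟨Fin.snoc u v, ?_, ?_⟩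
      · intro i j hij
        obtain ⟨i', rfl⟩ | hi := Fin.eq_castSucc_or_eq_last i
        · obtain ⟨j', rfl⟩ | rfl := Fin.eq_castSucc_or_eq_last j
          · rw [Fin.snoc_castSucc, Fin.snoc_castSucc]
            exact hu1 (Fin.castSucc_lt_castSucc_iff.1 hij)
          · rw [Fin.snoc_castSucc, Fin.snoc_last]
            have := Finset.single_le_sum (f := u) (fun _ _ => Nat.zero_le _) (Finset.mem_univ i')
            omega
        · rw [hi] at hij
          exact absurd hij (not_lt.2 (Fin.le_last j))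
      · intro i
        obtain ⟨i', rfl⟩ | rfl := Fin.eq_castSucc_or_eq_last i
        · rw [Fin.snoc_castSucc]
          exact hu2 i'
        · rw [Fin.snoc_last]
          exact hv2
  exact key n P fun i M => ⟨f i M, hf1 i M, hf2 i M⟩

theorem nd_add (a b : ℝ) : nd (a + b) ≤ nd a + nd b := by
  unfold nd
  have h1 := round_le (a + b) (round a + round b)
  push_cast at h1
  refine h1.trans ?_
  have h2 : a + b - (round a + round b) = (a - round a) + (b - round b) := by ring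
  rw [h2]
  exact abs_add_le _ _

theorem coreR_mono {t : ℕ} {α : Fin t → ℝ} {e e' : ℝ} {m : ℕ} (h : CoreR α e m) (he : e ≤ e') :
    CoreR α e' m := by
  intro ε hε
  obtain ⟨s, hs, h1⟩ := h ε hε
  refine ⟨s, hs, fun Q hQ ρ hρ y => ?_⟩
  obtain ⟨A, C, hA, hJ⟩ := h1 Q hQ ρ hρ y
  refine ⟨A, C, le_trans ?_ hA, hJ⟩
  exact mul_le_mul_of_nonneg_right (by linarith) (Nat.cast_nonneg m)

theorem core_of {t : ℕ} (α : Fin t → ℝ) (hα : Ind α) (hsc : Scl α) (e : ℝ) (he : 0 < e) (m : ℕ)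
    (hm : 1 ≤ m) : CoreR α e m := by
  classical
  -- small `e`
  suffices H : ∀ e : ℝ, 0 < e → e ≤ 1 / 100 → CoreR α e m from
    coreR_mono (H (min e (1 / 100)) (lt_min he (by norm_num)) (min_le_right _ _)) (min_le_left _ _)
  clear he e
  intro e he he1 ε hε
  obtain ⟨d, hd⟩ : ∃ d : ℝ, d = min (ε / 4) (1 / 4) := ⟨_, rfl⟩
  have hd0 : 0 < d := by rw [hd]; positivity
  have hd1 : d ≤ ε / 4 := by rw [hd]; exact min_le_left _ _
  have hd2 : d ≤ 1 / 4 := by rw [hd]; exact min_le_right _ _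
  obtain ⟨Kc, hKc⟩ : ∃ Kc : ℝ, Kc = 1 - Real.cos (2 * Real.pi * d) := ⟨_, rfl⟩
  have hKc0 : 0 < Kc := by
    rw [hKc]
    have hpi := Real.pi_pos
    have h1 : Real.cos (2 * Real.pi * d) < Real.cos 0 := by
      apply Real.cos_lt_cos_of_nonneg_of_le_pi le_rfl
      · nlinarith
      · positivity
    rw [Real.cos_zero] at h1
    linarith
  obtain ⟨n, hn⟩ := exists_nat_ge (8 * (t : ℝ) / (e * Kc) + 1)
  have ht0 : (0 : ℝ) ≤ t := Nat.cast_nonneg t
  have hn0 : (1 : ℝ) ≤ n := by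
    have : 0 ≤ 8 * (t : ℝ) / (e * Kc) := by positivity
    linarith
  have hn1 : 1 ≤ n := by exact_mod_cast hn0
  obtain ⟨δ, hδ⟩ : ∃ δ : ℝ, δ = t / (n * Kc) := ⟨_, rfl⟩
  have hδ0 : 0 ≤ δ := by rw [hδ]; positivity
  have hδe : δ ≤ e / 8 := by
    rw [hδ, div_le_iff₀ (by positivity)]
    have h1 : 8 * (t : ℝ) / (e * Kc) ≤ n := by linarith
    rw [div_le_iff₀ (by positivity)] at h1
    nlinarith
  obtain ⟨C0, hC0⟩ : ∃ C0 : ℝ, C0 = (n : ℝ) ^ t * (1 + 2 * t / Kc) := ⟨_, rfl⟩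
  have hC01 : 1 ≤ C0 := by
    rw [hC0]
    have h1 : (1 : ℝ) ≤ (n : ℝ) ^ t := one_le_pow₀ hn0
    have h2 : 0 ≤ 2 * (t : ℝ) / Kc := by positivity
    nlinarith
  obtain ⟨τ, hτ, hτ1, hfr⟩ := hsc n
  obtain ⟨η1, hη1, H1⟩ := med_rot m hm (e / 8) C0 (by positivity) hC01
  obtain ⟨η2, hη2, H2⟩ := rotd t α n hn1 d hd0 (by linarith) τ hτ hτ1
  obtain ⟨η, hη⟩ : ∃ η : ℝ, η = min η1 η2 := ⟨_, rfl⟩
  have hη0 : 0 < η := by rw [hη]; exact lt_min hη1 hη2
  have hRD := H2 η hη0 (by rw [hη]; exact min_le_right _ _) 1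
  rw [← hKc, ← hC0, ← hδ] at hRD
  obtain ⟨s, a, C2, hs, ha, ha1, hC2, H3⟩ := H1 η hη0 (by rw [hη]; exact min_le_left _ _)
  obtain ⟨w0, H3⟩ := H3 1
  obtain ⟨w, hw⟩ : ∃ w : ℕ, w = max w0 (m * s) := ⟨_, rfl⟩
  have H4 := H3 w (by rw [hw]; exact le_max_left _ _) (Rf τ n α) (Sf τ n α d) δ hδ0
    (by linarith) hRD
  refine ⟨s, hs, fun Q hQ ρ hρ y => ?_⟩
  -- the shifts
  obtain ⟨W0, hW0d⟩ : ∃ W0 : ℕ, W0 = WR Q (primorial w) := ⟨_, rfl⟩
  have hW0 : 0 < W0 := by rw [hW0d]; exact wr_pos hQ _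
  have hQW : Q ∣ W0 := by rw [hW0d]; exact wr_dvd_R _ _
  have hpW : primorial w ∣ W0 := by rw [hW0d]; exact primorial_dvd_wr Q w
  choose ρ' hρ1 hρ2 using fun i => exists_class Q (primorial w) (ρ i) (hρ i)
  obtain ⟨u, hu, hu1⟩ := incr (fun (i : Fin (m * s)) (h : ℕ) => h ≡ ρ' i [MOD W0] ∧
    ∀ l, nd (α l * h - y i l) < ε / 2) (fun i M => by
      obtain ⟨h, h1, h2, h3⟩ := krn α hα W0 hW0 (ρ' i) (y i) (ε / 2) (by positivity) M
      exact ⟨h, h1, h2, h3⟩)
  have hucop : ∀ i, Nat.Coprime (u i) W0 := by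
    intro i
    have h1 := (hu1 i).1
    have h2 := hρ2 i
    rw [← hW0d] at h2
    rw [Nat.coprime_iff_gcd_eq_one, h1.gcd_eq]
    exact h2
  obtain ⟨Y, hY⟩ : ∃ Y : ℕ, Y = ∑ i, u i := ⟨_, rfl⟩
  have huY : ∀ i, u i ≤ Y := fun i => by
    rw [hY]
    exact Finset.single_le_sum (f := u) (fun _ _ => Nat.zero_le _) (Finset.mem_univ i)
  obtain ⟨W, b, hWp, hWW, hWb, hbc, hdif, hcl⟩ := tup u hu.injective w W0 Y hW0 hpW
    (by rw [hw]; exact le_max_right _ _) hucop
  -- the blocks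
  obtain ⟨V, hV⟩ : ∃ V : Fin m → Finset ℕ, V = fun j =>
    univ.image (fun l : Fin s => u (finProdFinEquiv (j, l))) := ⟨_, rfl⟩
  have hmemV : ∀ j z, z ∈ V j ↔ ∃ l : Fin s, u (finProdFinEquiv (j, l)) = z := by
    intro j z
    rw [hV, mem_image]
    simp
  have hOk : ∀ᶠ x : ℝ in atTop, OkV 1 w s x V W b := by
    filter_upwards [Real.tendsto_log_atTop.eventually_ge_atTop (Y : ℝ),
      Real.tendsto_log_atTop.eventually_ge_atTop (W : ℝ)] with x hx1 hx2
    refine ⟨fun i j hij => ?_, fun j => ?_, fun j z hz => ?_, hWp, hpW.trans hWW, ?_,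
      fun j j' z hz z' hz' hzz p hp hpd => ?_, fun j z hz => ?_⟩
    · rw [disjoint_left]
      intro z hz hz'
      obtain ⟨l, hl⟩ := (hmemV _ _).1 hz
      obtain ⟨l', hl'⟩ := (hmemV _ _).1 hz'
      have h1 := finProdFinEquiv.injective (hu.injective (hl.trans hl'.symm))
      exact hij (Prod.ext_iff.1 h1).1
    · rw [hV, card_image_of_injective, card_univ, Fintype.card_fin]
      intro l l' hll
      exact (Prod.ext_iff.1 (finProdFinEquiv.injective (hu.injective hll))).2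
    · obtain ⟨l, rfl⟩ := (hmemV _ _).1 hz
      rw [Real.rpow_one]
      have : ((u (finProdFinEquiv (j, l)) : ℕ) : ℝ) ≤ Y := by exact_mod_cast huY _
      linarith
    · rw [Real.rpow_one]
      exact hx2
    · obtain ⟨l, rfl⟩ := (hmemV _ _).1 hz
      obtain ⟨l', rfl⟩ := (hmemV _ _).1 hz'
      exact hdif _ _ (fun h => hzz (by rw [h])) p hp hpd
    · obtain ⟨l, rfl⟩ := (hmemV _ _).1 hz
      exact hbc _
  -- good `N` beyond every bound
  have hgood : ∀ B : ℕ, ∃ N : ℕ, B < N ∧ N % W = b % W ∧ (∀ l, nd (α l * N) < d) ∧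
      (13 / 50 - e) * m ≤ ((univ.filter (fun j : Fin m => ∃ l : Fin s,
        (N + u (finProdFinEquiv (j, l))).Prime)).card : ℝ) := by
    intro B
    have hbig : ∀ᶠ x : ℝ in atTop, (B : ℝ) < Real.sqrt x := by
      filter_upwards [eventually_gt_atTop ((B : ℝ) ^ 2)] with x hx
      exact (Real.lt_sqrt (Nat.cast_nonneg B)).2 hx
    obtain ⟨x, hxg, hx1, hx2, hx3⟩ := (hfr.and_eventually (H4.and (hOk.and hbig))).exists
    obtain ⟨-, ν, hν0, -, hν2, hν3, hν4, hν5⟩ := hx1 V W b hx2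
    obtain ⟨N, hN, hN0, hN1, hN2⟩ := pick (c := 13 / 50 - e / 8) (e2 := δ + e / 8) hm hν0 hν3
      (fun j N => ∃ z ∈ V j, (N + z).Prime) (fun j => by
        have h7 := hν4 j
        convert h7)
      (fun N => (hRD.bS x N).1) hν5 (fun N => ∀ l, nd (α l * N) < d) (fun N _ hno => by
        push Not at hno
        obtain ⟨l, hl⟩ := hno
        exact sf_ge τ n α d x hd0 (by linarith) hxg N l hl) (13 / 50 - e) (by linarith)
      (by linarith)
    refine ⟨N, ?_, (hν2 N hN hN0).1, hN1, hN2.trans (le_of_eq ?_)⟩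
    · rw [Tx, mem_Ioc] at hN
      have h1 : Real.sqrt x < (N : ℝ) := Nat.lt_of_floor_lt hN.1
      have h2 : (B : ℝ) < N := hx3.trans h1
      exact_mod_cast h2
    · congr 2
      ext j
      simp only [mem_filter, mem_univ, true_and]
      constructor
      · rintro ⟨z, hz, hp⟩
        obtain ⟨l, rfl⟩ := (hmemV _ _).1 hz
        exact ⟨l, hp⟩
      · rintro ⟨l, hp⟩
        exact ⟨_, (hmemV _ _).2 ⟨l, rfl⟩, hp⟩
  -- the strings of primes
  have hpos : 0 < (13 / 50 - e) * (m : ℝ) := by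
    have : (1 : ℝ) ≤ m := by exact_mod_cast hm
    have h2 : 0 < 13 / 50 - e := by linarith
    positivity
  have hstr : ∀ B : ℕ, ∃ (A : Finset (Fin (m * s))) (j : ℕ), B < j ∧
      (13 / 50 - e) * m ≤ ((A.image Fin.divNat).card : ℝ) ∧
      ∀ i : Fin A.card, Nat.nth Nat.Prime (j + i) ≤ Nat.nth Nat.Prime j + Y ∧
          Nat.nth Nat.Prime (j + i) ≡ ρ (A.orderEmbOfFin rfl i) [MOD Q] ∧
          ∀ l, nd (α l * Nat.nth Nat.Prime (j + i) - y (A.orderEmbOfFin rfl i) l) < ε := by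
    intro B
    obtain ⟨N, hN1, hN2, hN3, hN4⟩ := hgood (Nat.nth Nat.Prime B + W)
    obtain ⟨A, hA⟩ : ∃ A : Finset (Fin (m * s)), ∀ i, i ∈ A ↔ (N + u i).Prime :=
      ⟨univ.filter (fun i => (N + u i).Prime), fun i => by simp⟩
    have hblk : ((univ.filter (fun j : Fin m => ∃ l : Fin s,
        (N + u (finProdFinEquiv (j, l))).Prime)).card : ℝ) ≤ ((A.image Fin.divNat).card : ℝ) := by
      have : (univ.filter (fun j : Fin m => ∃ l : Fin s,
          (N + u (finProdFinEquiv (j, l))).Prime)).card ≤ (A.image Fin.divNat).card := by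
        refine card_le_card fun j hj => ?_
        rw [mem_filter] at hj
        obtain ⟨l, hl⟩ := hj.2
        rw [mem_image]
        refine ⟨finProdFinEquiv (j, l), (hA _).2 hl, ?_⟩
        have h2 := finProdFinEquiv.symm_apply_apply (j, l)
        have h3 : (finProdFinEquiv.symm (finProdFinEquiv (j, l))).1 = j := by rw [h2]
        exact h3
      exact_mod_cast this
    have hAne : 0 < A.card := by
      by_contra h0
      have h2 : A = ∅ := card_eq_zero.1 (by omega)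
      rw [h2, image_empty, card_empty, Nat.cast_zero] at hblk
      linarith
    have hNW : N ≡ b [MOD W] := hN2
    obtain ⟨j, -, hj⟩ := consec N Y u hu huY (fun z hz hp => by
      by_contra hno
      push Not at hno
      obtain ⟨p, hpp, hpW', hpb⟩ := hcl z hz hno
      have h1 : N + z ≡ b + z [MOD p] := (hNW.of_dvd hpW').add_right z
      have h2 : p ∣ N + z := (h1.dvd_iff dvd_rfl).2 hpb
      have h3 : p = N + z := (Nat.prime_dvd_prime_iff_eq hpp hp).1 h2
      have h4 : p ≤ W := Nat.le_of_dvd hWp hpW'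
      omega) A hA hAne
    have hj0 : Nat.nth Nat.Prime j = N + u (A.orderEmbOfFin rfl ⟨0, hAne⟩) := by
      have := hj ⟨0, hAne⟩
      simpa using this
    refine ⟨A, j, ?_, hN4.trans hblk, fun i => ?_⟩
    · by_contra hjB
      push Not at hjB
      have h1 : Nat.nth Nat.Prime j ≤ Nat.nth Nat.Prime B :=
        (Nat.nth_strictMono Nat.infinite_setOfPred_prime).monotone hjB
      rw [hj0] at h1
      have h6 : Nat.nth Nat.Prime B + W < N := hN1
      generalize Nat.nth Nat.Prime B = q at h1 h6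
      generalize u (A.orderEmbOfFin rfl ⟨0, hAne⟩) = q' at h1
      omega
    · rw [hj i]
      refine ⟨?_, ?_, fun l => ?_⟩
      · rw [hj0]
        have := huY (A.orderEmbOfFin rfl i)
        omega
      · have h1 : N ≡ 0 [MOD Q] := by
          have h2 : N ≡ b [MOD Q] := hNW.of_dvd (hQW.trans hWW)
          exact h2.trans (Nat.modEq_zero_iff_dvd.2 (hQW.trans hWb))
        have h2 : u (A.orderEmbOfFin rfl i) ≡ ρ (A.orderEmbOfFin rfl i) [MOD Q] :=
          ((hu1 _).1.of_dvd hQW).trans (hρ1 _)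
        have h3 := h1.add h2
        rwa [zero_add] at h3
      · have h1 := (hu1 (A.orderEmbOfFin rfl i)).2 l
        have h2 := hN3 l
        push_cast
        have h3 : α l * ((N : ℝ) + u (A.orderEmbOfFin rfl i)) - y (A.orderEmbOfFin rfl i) l =
            α l * N + (α l * u (A.orderEmbOfFin rfl i) - y (A.orderEmbOfFin rfl i) l) := by ring
        rw [h3]
        have h4 := nd_add (α l * N) (α l * u (A.orderEmbOfFin rfl i) - y (A.orderEmbOfFin rfl i) l)
        linarith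
  -- pigeonhole
  by_contra hcon
  push Not at hcon
  have hfin : ∀ A : Finset (Fin (m * s)), ∃ B : ℕ,
      (13 / 50 - e) * m ≤ ((A.image Fin.divNat).card : ℝ) → ∀ j : ℕ,
      (∀ i : Fin A.card, Nat.nth Nat.Prime (j + i) ≤ Nat.nth Nat.Prime j + Y ∧
          Nat.nth Nat.Prime (j + i) ≡ ρ (A.orderEmbOfFin rfl i) [MOD Q] ∧
          ∀ l, nd (α l * Nat.nth Nat.Prime (j + i) - y (A.orderEmbOfFin rfl i) l) < ε) → j ≤ B := by
    intro A
    by_cases h1 : (13 / 50 - e) * m ≤ ((A.image Fin.divNat).card : ℝ)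
    · have h2 := hcon A Y h1
      obtain ⟨B, hB⟩ := h2.bddAbove
      exact ⟨B, fun _ j hj => hB hj⟩
    · exact ⟨0, fun h => absurd h h1⟩
  choose B hB using hfin
  obtain ⟨A, j, h1, h2, h3⟩ := hstr (∑ A, B A)
  have h4 := hB A h2 j h3
  have h5 := Finset.single_le_sum (f := B) (fun _ _ => Nat.zero_le _) (Finset.mem_univ A)
  omega

end Pool.Agent.H95.RO
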