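import Pool.Agent.H95.RO.Vpr
import Pool.Agent.H95.RO.Coa

/-!
# [H95 RO COS] MP_8923e7_nt, THEOREM R: the two linear laws at a good scale

PROOF.
* `app`: Dirichlet (Mathlib `Real.exists_rat_abs_sub_le_and_den_le`) for `γ = β + b/q0` with `n = ⌊x^(1-τ/2)⌋₊`: a rational `a/k` (reduced:
  `Rat.reduced`), `k ≤ n`, `|γ - a/k| ≤ 1/((n+1) k)`, hence `≤ 1/k^2`. If `k < x^(τ/2)`, put `r = k q0 ≤ x^(3τ/4) ≤ x^τ`: `r β` is within
  `k q0 |γ - a/k| ≤ q0/(n+1) ≤ x^(τ/4) x^(-(1-τ/2)) ≤ x^(-(1-τ))` of the integer `q0 a - k b`, against `Gs` (`nd_le`).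
* `cos_lin`: `N = r' + q0 j` with `r' = r % q0`: the `N` in `(X1, X2]` with `N ≡ r` are `q0 j + r'` with `j` in an interval `(u, v]` of naturals
  (if `r' ` is smaller than .. : `N > X1` iff `j > ..`); so the sum of `ee (N β)` is `ee(r' β) ∑_j ee (j q0 β)`, `geo`: `≤ 2 gb K (nd (q0 β)) ≤ 2/nd (q0 β) < 2 x^(1-τ)` by
  `Gs` with `r = q0` (`gb_inv`); real part: `cos (2π (β N)) = Re ee (N β)`. (The easiest way: induction free: `Ioc X1 X2` filtered by a class is the image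
  of `Ioc ((X1 - r')..)`: or write the sum as a difference of the sums over `N ≤ X2` and `N ≤ X1`, and for `N ≤ X`: `N = q0 j + r'`, `0 ≤ j`,
  `j ≤ (X - r')/q0` if `r' ≤ X`.) Bound `4 x^(1-τ)` is enough.
* `pri_cls`: for `1 ≤ q0 ≤ x^(c')`, `c' = min (τ/4) c`: additive characters: `1[n ≡ a (q0)] = (1/q0) ∑_(b < q0) ee(b (n - a)/q0)`, so
  `‖∑_(p ≤ Y, p ≡ a (q0)) ee(p β)‖ ≤ max_b ‖∑_(p ≤ Y) ee(p (β + b/q0))‖ ≤ x^(1-c)` by `app` and `pri_bd`.
* `cos_pri`: `n = N + h`, `ee(N β) = ee(-h β) ee(n β)`; `N ∈ (X1, X2]`, `N ≡ r` iff `n ∈ (X1 + h, X2 + h]`, `n ≡ r + h`: difference of two sums as in `pri_cls`;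
  `X2 + h ≤ x^(1+c/2) + x ≤ x^(1+c)`.
* `cos_int1`, `cos_int2`: choose `c0` with `c0/64 ≤ min (τ/4) c'` and `c0/128 < ` the savings; main term `0`: `((X2 - X1)/q0) * 0 = 0`; if `P x` fails the function is `0`; the bound
  `x^(1-c') ≤ x^(1 - η/128)` for `η ≤ c0`. `h x ≤ (log x)^A ≤ x` eventually.
-/

set_option autoImplicit false

namespace Pool.Agent.H95.RO

open Finset Filter Pool.Agent.H21.BV Pool.Agent.H11.RG

theorem ee_natmul (t : ℝ) (b : ℕ) : ee (b * t) = ee t ^ b := by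
  unfold ee
  rw [← Complex.exp_nat_mul]
  congr 1
  push_cast
  ring

theorem ee_orth (q0 : ℕ) (hq : 0 < q0) (m : ℤ) :
    ∑ b ∈ range q0, ee (b * ((m : ℝ) / q0)) = if (q0 : ℤ) ∣ m then (q0 : ℂ) else 0 := by
  have hq0 : (q0 : ℝ) ≠ 0 := by positivity
  have h1 : ∀ b ∈ range q0, ee (b * ((m : ℝ) / q0)) = ee ((m : ℝ) / q0) ^ b :=
    fun b _ => ee_natmul _ b
  rw [sum_congr rfl h1]
  split_ifs with hd
  · obtain ⟨k, rfl⟩ := hd
    have h2 : ((((q0 : ℤ) * k : ℤ) : ℝ) / q0) = ((k : ℤ) : ℝ) := by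
      push_cast
      field_simp
    rw [h2, ee_int]
    simp
  · have h2 : ee ((m : ℝ) / q0) ≠ 1 := by
      intro h3
      unfold ee at h3
      rw [Complex.exp_eq_one_iff] at h3
      obtain ⟨k, hk⟩ := h3
      apply hd
      refine ⟨k, ?_⟩
      have h4 : ((2 * Real.pi * ((m : ℝ) / q0) : ℝ) : ℂ) * Complex.I =
          ((2 * Real.pi * (k : ℝ) : ℝ) : ℂ) * Complex.I := by
        rw [hk]
        push_cast
        ring
      have h5 := mul_right_cancel₀ Complex.I_ne_zero h4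
      have h6 : 2 * Real.pi * ((m : ℝ) / q0) = 2 * Real.pi * (k : ℝ) := by exact_mod_cast h5
      have h7 : (m : ℝ) / q0 = k := mul_left_cancel₀ (by positivity) h6
      have h8 : (m : ℝ) = q0 * k := by
        field_simp at h7
        linarith
      exact_mod_cast h8
    have h3 : ee ((m : ℝ) / q0) ^ q0 = 1 := by
      rw [← ee_natmul]
      have : (q0 : ℝ) * ((m : ℝ) / q0) = ((m : ℤ) : ℝ) := by field_simp
      rw [this, ee_int]
    have h4 := mul_geom_sum (ee ((m : ℝ) / q0)) q0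
    rw [h3, sub_self] at h4
    exact (mul_eq_zero.1 h4).resolve_left (sub_ne_zero.2 h2)

theorem cls_sum (β : ℝ) (Y q0 a : ℕ) (hq : 0 < q0) (B : ℝ)
    (hB : ∀ b < q0, ‖∑ n ∈ (Icc 1 Y).filter Nat.Prime, ee (n * (β + (b : ℝ) / q0))‖ ≤ B) :
    ‖∑ n ∈ (Icc 1 Y).filter (fun n => n.Prime ∧ n % q0 = a % q0), ee (n * β)‖ ≤ B := by
  have hqc : (q0 : ℂ) ≠ 0 := by exact_mod_cast hq.ne'
  have hqr : (0 : ℝ) < q0 := by exact_mod_cast hq
  have h1 : (q0 : ℂ) * ∑ n ∈ (Icc 1 Y).filter (fun n => n.Prime ∧ n % q0 = a % q0), ee (n * β) =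
      ∑ b ∈ range q0, ee (-(b * ((a : ℝ) / q0))) *
        ∑ n ∈ (Icc 1 Y).filter Nat.Prime, ee (n * (β + (b : ℝ) / q0)) := by
    have h2 : ∀ b ∈ range q0, ee (-(b * ((a : ℝ) / q0))) *
        ∑ n ∈ (Icc 1 Y).filter Nat.Prime, ee (n * (β + (b : ℝ) / q0)) =
        ∑ n ∈ (Icc 1 Y).filter Nat.Prime, ee (n * β) *
          ee (b * ((((n : ℤ) - (a : ℤ) : ℤ) : ℝ) / q0)) := by
      intro b _
      rw [mul_sum]
      refine sum_congr rfl fun n _ => ?_
      rw [← ee_add, ← ee_add]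
      congr 1
      push_cast
      ring
    rw [sum_congr rfl h2, sum_comm]
    have h3 : ∀ n ∈ (Icc 1 Y).filter Nat.Prime, ∑ b ∈ range q0, ee (n * β) *
        ee (b * ((((n : ℤ) - (a : ℤ) : ℤ) : ℝ) / q0)) =
        if n % q0 = a % q0 then (q0 : ℂ) * ee (n * β) else 0 := by
      intro n _
      rw [← mul_sum, ee_orth q0 hq]
      have h4 : ((q0 : ℤ) ∣ (n : ℤ) - (a : ℤ)) ↔ n % q0 = a % q0 := by
        rw [← Nat.modEq_iff_dvd]
        exact ⟨fun h => h.symm, fun h => h.symm⟩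
      simp only [h4]
      split_ifs
      · ring
      · ring
    rw [sum_congr rfl h3, mul_sum, ← sum_filter, filter_filter]
  have h2 : (q0 : ℝ) * ‖∑ n ∈ (Icc 1 Y).filter (fun n => n.Prime ∧ n % q0 = a % q0), ee (n * β)‖ ≤
      q0 * B := by
    have h3 : (q0 : ℝ) * ‖∑ n ∈ (Icc 1 Y).filter (fun n => n.Prime ∧ n % q0 = a % q0), ee (n * β)‖ =
        ‖(q0 : ℂ) * ∑ n ∈ (Icc 1 Y).filter (fun n => n.Prime ∧ n % q0 = a % q0), ee (n * β)‖ := by
      rw [norm_mul, Complex.norm_natCast]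
    rw [h3, h1]
    refine (norm_sum_le _ _).trans ?_
    calc ∑ b ∈ range q0, ‖ee (-(b * ((a : ℝ) / q0))) *
        ∑ n ∈ (Icc 1 Y).filter Nat.Prime, ee (n * (β + (b : ℝ) / q0))‖ ≤ ∑ b ∈ range q0, B := by
          refine sum_le_sum fun b hb => ?_
          rw [norm_mul, norm_ee, one_mul]
          exact hB b (mem_range.1 hb)
      _ = q0 * B := by rw [sum_const, card_range, nsmul_eq_mul]
  exact le_of_mul_le_mul_left h2 hqr

theorem pri_cls (τ : ℝ) (hτ : 0 < τ) (hτ1 : τ ≤ 1 / 4) : ∃ c : ℝ, 0 < c ∧ ∀ᶠ x : ℝ in atTop, ∀ β : ℝ,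
    Gs τ x β → ∀ (Y q0 a : ℕ), 0 < q0 → (q0 : ℝ) ≤ x ^ c → (Y : ℝ) ≤ x ^ (1 + c) →
      ‖∑ n ∈ (Icc 1 Y).filter (fun n => n.Prime ∧ n % q0 = a % q0), ee (n * β)‖ ≤ x ^ (1 - c) := by
  obtain ⟨c1, hc1, h1⟩ := pri_bd τ hτ hτ1
  have h2 := app τ hτ hτ1
  refine ⟨min (τ / 4) c1, lt_min (by linarith) hc1, ?_⟩
  filter_upwards [h1, h2, eventually_ge_atTop (1 : ℝ)] with x h1 h2 hx β hG Y q0 a hq hqx hY
  have e1 : x ^ (min (τ / 4) c1) ≤ x ^ (τ / 4) :=
    Real.rpow_le_rpow_of_exponent_le hx (min_le_left _ _)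
  have e2 : x ^ (1 + min (τ / 4) c1) ≤ x ^ (1 + c1) :=
    Real.rpow_le_rpow_of_exponent_le hx (by linarith [min_le_right (τ / 4) c1])
  have e3 : x ^ (1 - c1) ≤ x ^ (1 - min (τ / 4) c1) :=
    Real.rpow_le_rpow_of_exponent_le hx (by linarith [min_le_right (τ / 4) c1])
  refine (cls_sum β Y q0 a hq _ fun b _ => ?_).trans e3
  obtain ⟨k, a', h3, h4, h5, h6⟩ := h2 β hG q0 b hq (hqx.trans e1)
  exact h1 _ k a' h3 h4 h5 h6 Y (hY.trans e2)

theorem cos_re (t : ℝ) : Real.cos (2 * Real.pi * t) = (ee t).re := by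
  unfold ee
  rw [Complex.exp_ofReal_mul_I_re]

theorem cos_pri (τ : ℝ) (hτ : 0 < τ) (hτ1 : τ ≤ 1 / 4) : ∃ c : ℝ, 0 < c ∧ ∀ᶠ x : ℝ in atTop, ∀ β : ℝ,
    Gs τ x β → ∀ (X1 X2 q0 r h : ℕ), X1 ≤ X2 → (X2 : ℝ) ≤ x ^ (1 + c) → (h : ℝ) ≤ x → 0 < q0 →
      (q0 : ℝ) ≤ x ^ c →
      |∑ N ∈ (Ioc X1 X2).filter (fun N => N % q0 = r % q0),
        (if (N + h).Prime then Real.cos (2 * Real.pi * (β * N)) else 0)| ≤ 2 * x ^ (1 - c) := by
  obtain ⟨c1, hc1, h1⟩ := pri_cls τ hτ hτ1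
  refine ⟨c1 / 2, by linarith, ?_⟩
  have h2 : ∀ᶠ x : ℝ in atTop, (2 : ℝ) ≤ x ^ (c1 / 2) :=
    (tendsto_rpow_atTop (by linarith : 0 < c1 / 2)).eventually_ge_atTop 2
  filter_upwards [h1, h2, eventually_ge_atTop (1 : ℝ)] with x h1 h2 hx β hG X1 X2 q0 r h hX hX2 hh hq hqx
  have hx0 : 0 < x := by linarith
  have e1 : x ^ (c1 / 2) ≤ x ^ c1 := Real.rpow_le_rpow_of_exponent_le hx (by linarith)
  have e3 : x ^ (1 - c1) ≤ x ^ (1 - c1 / 2) := Real.rpow_le_rpow_of_exponent_le hx (by linarith)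
  have e4 : x ≤ x ^ (1 + c1 / 2) := by
    calc x = x ^ (1 : ℝ) := (Real.rpow_one x).symm
      _ ≤ _ := Real.rpow_le_rpow_of_exponent_le hx (by linarith)
  have e5 : x ^ (1 + c1) = x ^ (c1 / 2) * x ^ (1 + c1 / 2) := by
    rw [← Real.rpow_add hx0]
    congr 1
    ring
  have e6 : x ^ (1 + c1 / 2) + x ≤ x ^ (1 + c1) := by
    rw [e5]
    have : 0 < x ^ (1 + c1 / 2) := by positivity
    nlinarith
  have hY : ∀ Y : ℕ, Y ≤ X2 + h → (Y : ℝ) ≤ x ^ (1 + c1) := by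
    intro Y hY
    have : (Y : ℝ) ≤ X2 + h := by exact_mod_cast hY
    linarith
  have g1 := h1 β hG (X2 + h) q0 (r + h) hq (hqx.trans e1) (hY _ le_rfl)
  have g2 := h1 β hG (X1 + h) q0 (r + h) hq (hqx.trans e1) (hY _ (by omega))
  have hcls : ∀ N, (N + h) % q0 = (r + h) % q0 ↔ N % q0 = r % q0 := by
    intro N
    constructor
    · intro h7
      exact Nat.ModEq.add_right_cancel' h h7
    · intro h7
      exact Nat.ModEq.add_right h h7
  have key : ∑ N ∈ (Ioc X1 X2).filter (fun N => N % q0 = r % q0),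
      (if (N + h).Prime then ee (N * β) else 0) =
      ee (-(h * β)) * (∑ n ∈ (Icc 1 (X2 + h)).filter (fun n => n.Prime ∧ n % q0 = (r + h) % q0),
        ee (n * β) - ∑ n ∈ (Icc 1 (X1 + h)).filter (fun n => n.Prime ∧ n % q0 = (r + h) % q0),
        ee (n * β)) := by
    have k1 : (Icc 1 (X2 + h)).filter (fun n => n.Prime ∧ n % q0 = (r + h) % q0) =
        (Icc 1 (X1 + h)).filter (fun n => n.Prime ∧ n % q0 = (r + h) % q0) ∪
        (Ioc (X1 + h) (X2 + h)).filter (fun n => n.Prime ∧ n % q0 = (r + h) % q0) := by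
      rw [← filter_union]
      congr 1
      ext n
      simp only [mem_union, mem_Icc, mem_Ioc]
      omega
    have k2 : Disjoint ((Icc 1 (X1 + h)).filter (fun n => n.Prime ∧ n % q0 = (r + h) % q0))
        ((Ioc (X1 + h) (X2 + h)).filter (fun n => n.Prime ∧ n % q0 = (r + h) % q0)) := by
      apply disjoint_filter_filter
      rw [Finset.disjoint_left]
      intro n hn1 hn2
      rw [mem_Icc] at hn1
      rw [mem_Ioc] at hn2
      omega
    rw [k1, sum_union k2, add_sub_cancel_left, mul_sum, ← sum_filter, filter_filter]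
    refine sum_bij' (fun N _ => N + h) (fun n _ => n - h) ?_ ?_ ?_ ?_ ?_
    · intro N hN
      simp only [mem_filter, mem_Ioc] at hN ⊢
      exact ⟨by omega, hN.2.2, (hcls N).2 hN.2.1⟩
    · intro n hn
      simp only [mem_filter, mem_Ioc] at hn ⊢
      have h8 : n - h + h = n := by omega
      refine ⟨by omega, (hcls _).1 (by rw [h8]; exact hn.2.2), by rw [h8]; exact hn.2.1⟩
    · intro N _
      simp
    · intro n hn
      simp only [mem_filter, mem_Ioc] at hn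
      show n - h + h = n
      omega
    · intro N _
      rw [← ee_add]
      congr 1
      push_cast
      ring
  have hre : ∑ N ∈ (Ioc X1 X2).filter (fun N => N % q0 = r % q0),
      (if (N + h).Prime then Real.cos (2 * Real.pi * (β * N)) else 0) =
      (∑ N ∈ (Ioc X1 X2).filter (fun N => N % q0 = r % q0),
      (if (N + h).Prime then ee (N * β) else 0)).re := by
    rw [Complex.re_sum]
    refine sum_congr rfl fun N _ => ?_
    split_ifs
    · rw [cos_re, mul_comm]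
    · simp
  rw [hre]
  refine (Complex.abs_re_le_norm _).trans ?_
  rw [key, norm_mul, norm_ee, one_mul]
  refine (norm_sub_le _ _).trans ?_
  linarith

open Classical in
theorem cos_int (τ : ℝ) (hτ : 0 < τ) (hτ1 : τ ≤ 1 / 4) : ∃ c0 : ℝ, 0 < c0 ∧ ∀ η : ℝ, 0 < η → η ≤ c0 →
    ∀ (β : ℝ) (P : ℝ → Prop), (∀ x, P x → Gs τ x β) →
      IntR η (fun x N => if P x then Real.cos (2 * Real.pi * (β * N)) else 0) ∧
      ∀ (A : ℝ) (h : ℝ → ℕ), (∀ᶠ x : ℝ in atTop, (h x : ℝ) ≤ Real.log x ^ A) →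
        IntR η (fun x N => if (N + h x).Prime then
          (if P x then Real.cos (2 * Real.pi * (β * N)) else 0) else 0) := by
  obtain ⟨c1, hc1, h1⟩ := cos_pri τ hτ hτ1
  refine ⟨min τ c1, lt_min hτ hc1, fun η hη hη1 β P hP => ⟨fun a0 => ?_, fun A h hh a0 => ?_⟩⟩
  · have hητ : η ≤ τ := hη1.trans (min_le_left _ _)
    refine ⟨1, 1, 4, one_pos, one_pos, by norm_num, ?_⟩
    filter_upwards [eventually_ge_atTop (1 : ℝ)] with x hx X1 X2 q0 r hX _ hq hqx _
    have hx0 : 0 < x := by linarith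
    have hq0 : (0 : ℝ) < q0 := by exact_mod_cast hq
    rw [mul_zero, sub_zero]
    have e1 : x ^ (η / 64) ≤ x ^ τ := Real.rpow_le_rpow_of_exponent_le hx (by linarith)
    have e2 : x ^ (1 - τ) ≤ x ^ (1 - η / 128) := Real.rpow_le_rpow_of_exponent_le hx (by linarith)
    have e3 : 0 ≤ x ^ ((1 : ℝ) - 1) / q0 := by positivity
    by_cases hp : P x
    · have g := cos_lin τ x β hx (hP x hp) X1 X2 q0 r hX hq (hqx.trans e1)
      have g2 : ∑ N ∈ (Ioc X1 X2).filter (fun N => N % q0 = r % q0),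
          (if P x then Real.cos (2 * Real.pi * (β * N)) else 0) =
          ∑ N ∈ (Ioc X1 X2).filter (fun N => N % q0 = r % q0), Real.cos (2 * Real.pi * (β * N)) :=
        sum_congr rfl fun N _ => if_pos hp
      rw [g2]
      linarith
    · have g2 : ∑ N ∈ (Ioc X1 X2).filter (fun N => N % q0 = r % q0),
          (if P x then Real.cos (2 * Real.pi * (β * N)) else 0) = 0 :=
        sum_eq_zero fun N _ => if_neg hp
      rw [g2, abs_zero]
      positivity
  · have hηc : η ≤ c1 := hη1.trans (min_le_right _ _)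
    refine ⟨1, c1, 2, one_pos, hc1, by norm_num, ?_⟩
    have hlog : ∀ᶠ x : ℝ in atTop, Real.log x ^ A ≤ x := by
      have h3 := (isLittleO_log_rpow_rpow_atTop A one_pos).bound one_pos
      filter_upwards [h3, eventually_ge_atTop (1 : ℝ)] with x h3 hx
      rw [Real.rpow_one, one_mul, Real.norm_of_nonneg (by linarith : (0 : ℝ) ≤ x),
        Real.norm_of_nonneg (Real.rpow_nonneg (Real.log_nonneg hx) _)] at h3
      exact h3
    filter_upwards [h1, hh, hlog, eventually_ge_atTop (1 : ℝ)] with x h1 hh hlog hx X1 X2 q0 r hX hX2 hq hqx _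
    have hx0 : 0 < x := by linarith
    have hq0 : (0 : ℝ) < q0 := by exact_mod_cast hq
    rw [mul_zero, sub_zero]
    have e1 : x ^ (η / 64) ≤ x ^ c1 := Real.rpow_le_rpow_of_exponent_le hx (by linarith)
    have e2 : x ^ (1 - c1) ≤ x ^ (1 - η / 128) := Real.rpow_le_rpow_of_exponent_le hx (by linarith)
    have e3 : 0 ≤ x ^ ((1 : ℝ) - 1) / q0 := by positivity
    by_cases hp : P x
    · have g := h1 β (hP x hp) X1 X2 q0 r (h x) hX hX2 (hh.trans hlog) hq (hqx.trans e1)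
      have g2 : ∑ N ∈ (Ioc X1 X2).filter (fun N => N % q0 = r % q0),
          (if (N + h x).Prime then (if P x then Real.cos (2 * Real.pi * (β * N)) else 0) else 0) =
          ∑ N ∈ (Ioc X1 X2).filter (fun N => N % q0 = r % q0),
            (if (N + h x).Prime then Real.cos (2 * Real.pi * (β * N)) else 0) :=
        sum_congr rfl fun N _ => by rw [if_pos hp]
      rw [g2]
      linarith
    · have g2 : ∑ N ∈ (Ioc X1 X2).filter (fun N => N % q0 = r % q0),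
          (if (N + h x).Prime then (if P x then Real.cos (2 * Real.pi * (β * N)) else 0) else 0) = 0 :=
        sum_eq_zero fun N _ => by rw [if_neg hp, ite_self]
      rw [g2, abs_zero]
      positivity

end Pool.Agent.H95.RO
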