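import Pool.Agent.H72.NU.Def
import Pool.Agent.H11.RG.Int

/-!
# [H95 RO DF] MP_8923e7_nt, THEOREM R (words of consecutive primes under rotations): definitions

* `nd t`: distance to the nearest integer.
* `Gs τ x β`: `x` is a good scale for `β`: no `r ≤ x^τ` has `‖r β‖ ≤ x^(-(1-τ))`.
* `GoodSc τ n α x`: all frequencies `∑ z_l α_l`, `z ≠ 0`, `|z_l| ≤ n`, are good at `x`.
* `fej n α N`: Fejer weight `n^(-t) |∑_(j ∈ [0,n)^t) e(<j,α> N)|^2`, written with cosines.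
* `IntR η Φ`: the sums of `Φ x` over `N ≡ r (mod q0)`, `N ∈ (X1, X2]`, are small (`IntD` with mean `0`).
* `RotD`: what the measure theorem needs to know about the weight `R` and the control function `S`.
-/

set_option autoImplicit false

namespace Pool.Agent.H95.RO

open Finset Filter Pool.Agent.H21.MT Pool.Agent.H92.MM Pool.Agent.H72.NU Pool.Agent.H11.RG

/-- distance to the nearest integer -/
noncomputable def nd (t : ℝ) : ℝ := |t - round t|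

/-- good scale -/
def Gs (τ x β : ℝ) : Prop := ∀ r : ℕ, 1 ≤ r → (r : ℝ) ≤ x ^ τ → x ^ (-(1 - τ)) < nd (r * β)

/-- all frequencies with coefficients at most `n` are good -/
def GoodSc {t : ℕ} (τ : ℝ) (n : ℕ) (α : Fin t → ℝ) (x : ℝ) : Prop :=
  ∀ z : Fin t → ℤ, z ≠ 0 → (∀ l, |z l| ≤ n) → Gs τ x (∑ l, (z l : ℝ) * α l)

/-- `1, α_l` are linearly independent over the rationals -/
def Ind {t : ℕ} (α : Fin t → ℝ) : Prop :=
  ∀ (z : Fin t → ℤ) (z0 : ℤ), ∑ l, (z l : ℝ) * α l = z0 → z = 0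

/-- Fejer weight -/
noncomputable def fej {t : ℕ} (n : ℕ) (α : Fin t → ℝ) (N : ℕ) : ℝ :=
  (∑ j : Fin t → Fin n, ∑ j' : Fin t → Fin n,
    Real.cos (2 * Real.pi * ((∑ l, (((j l : ℕ) : ℤ) - ((j' l : ℕ) : ℤ) : ℤ) * α l) * N))) / (n : ℝ) ^ t

/-- small sums -/
def IntR (η : ℝ) (Φ : ℝ → ℕ → ℝ) : Prop := ∀ a0 : ℝ, IntD η a0 Φ (fun _ => 0)

/-- the data of a weight `R` (mean `1`) with a control function `S` (mean `δ` with respect to `R`) -/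
structure RotD (η A C0 δ : ℝ) (R S : ℝ → ℕ → ℝ) : Prop where
  bR : ∀ x N, 0 ≤ R x N ∧ R x N ≤ C0
  bS : ∀ x N, 0 ≤ S x N ∧ R x N * S x N ≤ C0
  one : IntR η (fun x N => R x N - 1)
  pri : ∀ h : ℝ → ℕ, (∀ᶠ x : ℝ in atTop, (h x : ℝ) ≤ Real.log x ^ A) →
    IntR η (fun x N => if (N + h x).Prime then R x N - 1 else 0)
  out : IntR η (fun x N => R x N * S x N - δ)

open Classical in
/-- the measure theorem with a weight -/
def MedR (k : ℕ) : Prop := ∀ e C0 : ℝ, 0 < e → 1 ≤ C0 → ∃ η0 : ℝ, 0 < η0 ∧ ∀ η : ℝ, 0 < η → η ≤ η0 →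
  ∃ (s : ℕ) (a C2 : ℝ), 1 ≤ s ∧ 0 < a ∧ a ≤ 1 / 20 ∧ 0 < C2 ∧ ∀ A : ℝ, ∃ w0 : ℕ, ∀ w : ℕ, w0 ≤ w →
    ∀ (R S : ℝ → ℕ → ℝ) (δ : ℝ), 0 ≤ δ → δ ≤ 1 → RotD η A C0 δ R S → ∀ᶠ x : ℝ in atTop,
      ∀ (V : Fin k → Finset ℕ) (W b : ℕ), OkV A w s x V W b →
        0 < nm x a W (k * s) ∧ ∃ ν : ℕ → ℝ,
        (∀ N, 0 ≤ ν N) ∧ (∀ N ∈ Tx x, ν N ≤ C2 * gw x N / nm x a W (k * s)) ∧
        (∀ N ∈ Tx x, ν N ≠ 0 → N % W = b % W ∧ ∀ j, ∀ y ∈ V j, ∀ p : ℕ, p.Prime → p ∣ N + y →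
          x ^ a ≤ (p : ℝ)) ∧
        ∑ N ∈ Tx x, ν N = 1 ∧
        (∀ j, 13 / 50 - e ≤ ∑ N ∈ (Tx x).filter (fun N => ∃ y ∈ V j, (N + y).Prime), ν N) ∧
        ∑ N ∈ Tx x, ν N * S x N ≤ δ + e

/-- there are arbitrarily large good scales -/
def Scl {t : ℕ} (α : Fin t → ℝ) : Prop :=
  ∀ n : ℕ, ∃ τ : ℝ, 0 < τ ∧ τ ≤ 1 / 4 ∧ ∃ᶠ x : ℝ in atTop, GoodSc τ n α x

open Classical in
/-- the weight -/
noncomputable def Rf {t : ℕ} (τ : ℝ) (n : ℕ) (α : Fin t → ℝ) (x : ℝ) (N : ℕ) : ℝ :=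
  if GoodSc τ n α x then fej n α N else 1

open Classical in
/-- the control function: `≥ 1` if some `‖α_l N‖ ≥ d` -/
noncomputable def Sf {t : ℕ} (τ : ℝ) (n : ℕ) (α : Fin t → ℝ) (d x : ℝ) (N : ℕ) : ℝ :=
  if GoodSc τ n α x then (∑ l, (1 - Real.cos (2 * Real.pi * (α l * N)))) / (1 - Real.cos (2 * Real.pi * d))
  else t / (n * (1 - Real.cos (2 * Real.pi * d)))

/-- the core property for rotations, at a fixed tuple: `n = m s` positions, position `i` has a class `ρ i` prime to `Q` and a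
point `y i` of the torus; some set `A` of positions which meets `(13/50 - e) m` of the blocks is realised by consecutive
primes for infinitely many `j` -/
def CoreR {t : ℕ} (α : Fin t → ℝ) (e : ℝ) (m : ℕ) : Prop :=
  ∀ ε : ℝ, 0 < ε → ∃ s : ℕ, 1 ≤ s ∧ ∀ Q : ℕ, 0 < Q →
    ∀ ρ : Fin (m * s) → ℕ, (∀ i, Nat.Coprime (ρ i) Q) → ∀ y : Fin (m * s) → Fin t → ℝ,
      ∃ (A : Finset (Fin (m * s))) (C : ℕ), (13 / 50 - e) * m ≤ ((A.image Fin.divNat).card : ℝ) ∧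
        {j : ℕ | ∀ i : Fin A.card, Nat.nth Nat.Prime (j + i) ≤ Nat.nth Nat.Prime j + C ∧
          Nat.nth Nat.Prime (j + i) ≡ ρ (A.orderEmbOfFin rfl i) [MOD Q] ∧
          ∀ l, nd (α l * Nat.nth Nat.Prime (j + i) - y (A.orderEmbOfFin rfl i) l) < ε}.Infinite

end Pool.Agent.H95.RO
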