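import Pool.Agent.H95.RO.Fw

/-!
# [H95 RO EXC] MP_8923e7_nt, THEOREM R for all words: the exceptional space
-/

set_option autoImplicit false

namespace Pool.Agent.H95.RO

open Finset

/-- a modulus and a rotation -/
abbrev Sys := ℕ × (Σ d : ℕ, (Fin d → ℝ))

/-- a family of bad systems -/
structure BadFam (L : ℕ) (P : ∀ d : ℕ, ℕ → (Fin d → ℝ) → Prop) (m : ℕ) (F : Fin m → Sys) : Prop where
  pos : ∀ i, 0 < (F i).1
  cop : ∀ i, Nat.Coprime (F i).1 L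
  pair : ∀ i j, i ≠ j → Nat.Coprime (F i).1 (F j).1
  alg : ∀ i l, IsAlgebraic ℚ ((F i).2.2 l)
  ind : ∀ (z : (Σ i : Fin m, Fin (F i).2.1) → ℤ) (z₀ : ℤ),
    ∑ x, (z x : ℝ) * (F x.1).2.2 x.2 = z₀ → z = 0
  bad : ∀ i, ¬ P (F i).2.1 (F i).1 (F i).2.2

theorem badFam_succ {L : ℕ} {P : ∀ d : ℕ, ℕ → (Fin d → ℝ) → Prop} {m : ℕ} {F : Fin m → Sys}
    (hF : BadFam L P m F)
    (h : ∀ (Q₀ : ℕ) (E : Finset ℝ), 0 < Q₀ → ∃ Q : ℕ, 0 < Q ∧ Nat.Coprime Q L ∧ Nat.Coprime Q Q₀ ∧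
      ∃ (d : ℕ) (α : Fin d → ℝ), (∀ i, IsAlgebraic ℚ (α i)) ∧
        (∀ z : Fin d → ℤ, ∑ i, (z i : ℝ) * α i ∈ Submodule.span ℚ (E : Set ℝ) → z = 0) ∧ ¬ P d Q α) :
    ∃ F' : Fin (m + 1) → Sys, BadFam L P (m + 1) F' := by
  classical
  obtain ⟨E, hE⟩ : ∃ E : Finset ℝ, E = insert 1
      ((univ : Finset (Σ i : Fin m, Fin (F i).2.1)).image (fun x => (F x.1).2.2 x.2)) := ⟨_, rfl⟩
  obtain ⟨Q, hQ, hQL, hQQ, d, α, hα, hind, hbad⟩ := h (∏ i, (F i).1) E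
    (Finset.prod_pos fun i _ => hF.pos i)
  obtain ⟨G, hG⟩ : ∃ G : Fin (m + 1) → Sys, G = Fin.cons (Q, ⟨d, α⟩) F := ⟨_, rfl⟩
  have h0 : G 0 = (Q, ⟨d, α⟩) := by rw [hG]; rfl
  have hs : ∀ i : Fin m, G i.succ = F i := fun i => by rw [hG]; rfl
  have hQi : ∀ i, Nat.Coprime Q (F i).1 := fun i =>
    Nat.Coprime.coprime_dvd_right (Finset.dvd_prod_of_mem (fun i => (F i).1) (mem_univ i)) hQQ
  refine ⟨G, ?_, ?_, ?_, ?_, ?_, ?_⟩
  · intro i
    refine Fin.cases ?_ (fun i => ?_) i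
    · rw [h0]
      exact hQ
    · rw [hs]
      exact hF.pos i
  · intro i
    refine Fin.cases ?_ (fun i => ?_) i
    · rw [h0]
      exact hQL
    · rw [hs]
      exact hF.cop i
  · intro i j
    refine Fin.cases ?_ (fun i => ?_) i
    · refine Fin.cases ?_ (fun j => ?_) j
      · intro h
        exact absurd rfl h
      · intro _
        rw [h0, hs]
        exact hQi j
    · refine Fin.cases ?_ (fun j => ?_) j
      · intro _
        rw [h0, hs]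
        exact (hQi i).symm
      · intro hij
        rw [hs, hs]
        exact hF.pair i j fun h => hij (by rw [h])
  · intro i
    refine Fin.cases ?_ (fun i => ?_) i
    · rw [h0]
      exact hα
    · rw [hs]
      exact hF.alg i
  · subst hG
    intro z z₀ hz
    rw [Fintype.sum_sigma, Fin.sum_univ_succ] at hz
    have h1 : (∑ l : Fin d, (z ⟨0, l⟩ : ℝ) * α l) + ∑ i : Fin m, ∑ l : Fin (F i).2.1,
        (z ⟨i.succ, l⟩ : ℝ) * (F i).2.2 l = z₀ := hz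
    have h2 : ∑ l : Fin d, (z ⟨0, l⟩ : ℝ) * α l ∈ Submodule.span ℚ (E : Set ℝ) := by
      have h3 : ∑ l : Fin d, (z ⟨0, l⟩ : ℝ) * α l = (z₀ : ℝ) - ∑ i : Fin m, ∑ l : Fin (F i).2.1,
        (z ⟨i.succ, l⟩ : ℝ) * (F i).2.2 l := by linarith
      rw [h3]
      refine Submodule.sub_mem _ ?_ (Submodule.sum_mem _ fun i _ => Submodule.sum_mem _ fun l _ => ?_)
      · have h4 : (1 : ℝ) ∈ Submodule.span ℚ (E : Set ℝ) := Submodule.subset_span (by
          rw [hE, mem_coe]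
          exact mem_insert_self _ _)
        have h5 := Submodule.smul_mem _ (z₀ : ℚ) h4
        rw [Rat.smul_def, mul_one] at h5
        exact_mod_cast h5
      · have h4 : (F i).2.2 l ∈ Submodule.span ℚ (E : Set ℝ) := Submodule.subset_span (by
          rw [hE, mem_coe]
          exact mem_insert_of_mem (mem_image.2 ⟨⟨i, l⟩, mem_univ _, rfl⟩))
        have h5 := Submodule.smul_mem _ (z ⟨i.succ, l⟩ : ℚ) h4
        rw [Rat.smul_def] at h5
        exact_mod_cast h5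
    have h3 : (fun l : Fin d => z ⟨0, l⟩) = 0 := hind _ h2
    have h4 : ∑ l : Fin d, (z ⟨0, l⟩ : ℝ) * α l = 0 := by
      refine Finset.sum_eq_zero fun l _ => ?_
      have h5 : z ⟨0, l⟩ = 0 := congrFun h3 l
      rw [h5, Int.cast_zero, zero_mul]
    rw [h4, zero_add] at h1
    have h5 := hF.ind (fun x => z ⟨x.1.succ, x.2⟩) z₀ (by
      rw [Fintype.sum_sigma]
      exact h1)
    funext x
    obtain ⟨i, l⟩ := x
    revert l
    refine Fin.cases (fun l => ?_) (fun i l => ?_) i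
    · exact congrFun h3 l
    · exact congrFun h5 ⟨i, l⟩
  · intro i
    refine Fin.cases ?_ (fun i => ?_) i
    · rw [h0]
      exact hbad
    · rw [hs]
      exact hF.bad i

/-- if every generic family of `T` systems contains a good one, then all systems of algebraic numbers which are
independent of a finite set are good -/
theorem exc (L T : ℕ) (P : ∀ d : ℕ, ℕ → (Fin d → ℝ) → Prop)
    (hfam : ∀ (Q : Fin T → ℕ) (d : Fin T → ℕ) (α : ∀ i, Fin (d i) → ℝ), (∀ i, 0 < Q i) →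
      (∀ i, Nat.Coprime (Q i) L) → (∀ i j, i ≠ j → Nat.Coprime (Q i) (Q j)) →
      GenI (fun x : Σ i, Fin (d i) => α x.1 x.2) → ∃ i, P (d i) (Q i) (α i)) :
    ∃ (Q₀ : ℕ) (E : Finset ℝ), 0 < Q₀ ∧ ∀ Q : ℕ, 0 < Q → Nat.Coprime Q L → Nat.Coprime Q Q₀ →
      ∀ (d : ℕ) (α : Fin d → ℝ), (∀ i, IsAlgebraic ℚ (α i)) →
        (∀ z : Fin d → ℤ, ∑ i, (z i : ℝ) * α i ∈ Submodule.span ℚ (E : Set ℝ) → z = 0) → P d Q α := by
  by_contra hcon
  have h : ∀ (Q₀ : ℕ) (E : Finset ℝ), 0 < Q₀ → ∃ Q : ℕ, 0 < Q ∧ Nat.Coprime Q L ∧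
      Nat.Coprime Q Q₀ ∧ ∃ (d : ℕ) (α : Fin d → ℝ), (∀ i, IsAlgebraic ℚ (α i)) ∧
        (∀ z : Fin d → ℤ, ∑ i, (z i : ℝ) * α i ∈ Submodule.span ℚ (E : Set ℝ) → z = 0) ∧
          ¬ P d Q α := by
    intro Q₀ E hQ₀
    by_contra h1
    apply hcon
    refine ⟨Q₀, E, hQ₀, fun Q hQ hQL hQQ d α hα hi => ?_⟩
    by_contra h2
    exact h1 ⟨Q, hQ, hQL, hQQ, d, α, hα, hi, h2⟩
  have hall : ∀ m : ℕ, ∃ F : Fin m → Sys, BadFam L P m F := by
    intro m
    induction m with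
    | zero => exact ⟨fun i => i.elim0, fun i => i.elim0, fun i => i.elim0, fun i => i.elim0,
        fun i => i.elim0, fun z _ _ => funext fun x => x.1.elim0, fun i => i.elim0⟩
    | succ m ih =>
      obtain ⟨F, hF⟩ := ih
      exact badFam_succ hF h
  obtain ⟨F, hF⟩ := hall T
  obtain ⟨i, hi⟩ := hfam (fun i => (F i).1) (fun i => (F i).2.1) (fun i => (F i).2.2) hF.pos hF.cop
    hF.pair (gen_alg (fun x => hF.alg x.1 x.2) hF.ind)
  exact hF.bad i hi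

end Pool.Agent.H95.RO
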