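import Pool.Agent.H95.RO.Exc

/-!
# [H95 RO EXC1] MP_8923e7_nt, THEOREM R for all words: the exceptional space for one rotation, with its dimension
-/

set_option autoImplicit false

namespace Pool.Agent.H95.RO

open Finset

/-- a family of bad systems with one rotation -/
structure BadF1 (L : ℕ) (P : ℕ → ℝ → Prop) (m : ℕ) (Q : Fin m → ℕ) (α : Fin m → ℝ) : Prop where
  pos : ∀ i, 0 < Q i
  cop : ∀ i, Nat.Coprime (Q i) L
  pair : ∀ i j, i ≠ j → Nat.Coprime (Q i) (Q j)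
  alg : ∀ i, IsAlgebraic ℚ (α i)
  ind : ∀ (z : Fin m → ℤ) (z₀ : ℤ), ∑ i, (z i : ℝ) * α i = z₀ → z = 0
  bad : ∀ i, ¬ P (Q i) (α i)

theorem badF1_succ {L : ℕ} {P : ℕ → ℝ → Prop} {m : ℕ} {Q : Fin m → ℕ} {α : Fin m → ℝ}
    (hF : BadF1 L P m Q α)
    (h : ∀ (Q₀ : ℕ) (E : Finset ℝ), 0 < Q₀ → E.card ≤ m + 1 → ∃ Q : ℕ, 0 < Q ∧ Nat.Coprime Q L ∧
      Nat.Coprime Q Q₀ ∧ ∃ α : ℝ, IsAlgebraic ℚ α ∧ α ∉ Submodule.span ℚ (E : Set ℝ) ∧ ¬ P Q α) :
    ∃ (Q' : Fin (m + 1) → ℕ) (α' : Fin (m + 1) → ℝ), BadF1 L P (m + 1) Q' α' := by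
  classical
  obtain ⟨E, hE⟩ : ∃ E : Finset ℝ, E = insert 1 ((univ : Finset (Fin m)).image α) := ⟨_, rfl⟩
  obtain ⟨Q', hQ, hQL, hQQ, α', hα, hind, hbad⟩ := h (∏ i, Q i) E
    (Finset.prod_pos fun i _ => hF.pos i) (by
      rw [hE]
      refine (card_insert_le _ _).trans (Nat.succ_le_succ (card_image_le.trans ?_))
      rw [card_univ, Fintype.card_fin])
  have hQi : ∀ i, Nat.Coprime Q' (Q i) := fun i =>
    Nat.Coprime.coprime_dvd_right (Finset.dvd_prod_of_mem Q (mem_univ i)) hQQ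
  have h1E : (1 : ℝ) ∈ Submodule.span ℚ (E : Set ℝ) := Submodule.subset_span (by
    rw [hE, mem_coe]
    exact mem_insert_self _ _)
  have hαE : ∀ i, α i ∈ Submodule.span ℚ (E : Set ℝ) := fun i => Submodule.subset_span (by
    rw [hE, mem_coe]
    exact mem_insert_of_mem (mem_image.2 ⟨i, mem_univ _, rfl⟩))
  refine ⟨Fin.cons Q' Q, Fin.cons α' α, ?_, ?_, ?_, ?_, ?_, ?_⟩
  · exact Fin.cases hQ hF.pos
  · exact Fin.cases hQL hF.cop
  · intro i j
    refine Fin.cases ?_ (fun i => ?_) i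
    · refine Fin.cases (fun h => absurd rfl h) (fun j _ => ?_) j
      exact hQi j
    · refine Fin.cases (fun _ => ?_) (fun j hij => ?_) j
      · exact (hQi i).symm
      · exact hF.pair i j fun h => hij (by rw [h])
  · exact Fin.cases hα hF.alg
  · intro z z₀ hz
    rw [Fin.sum_univ_succ] at hz
    have h1 : (z 0 : ℝ) * α' + ∑ i : Fin m, (z i.succ : ℝ) * α i = z₀ := hz
    have h3 : z 0 = 0 := by
      by_contra h0
      apply hind
      have h4 : α' = ((z 0 : ℚ)⁻¹ : ℚ) • ((z₀ : ℝ) - ∑ i : Fin m, (z i.succ : ℝ) * α i) := by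
        rw [Rat.smul_def]
        have h5 : (z 0 : ℝ) ≠ 0 := by exact_mod_cast h0
        push_cast
        rw [← h1]
        field_simp
        ring
      rw [h4]
      refine Submodule.smul_mem _ _ (Submodule.sub_mem _ ?_ (Submodule.sum_mem _ fun i _ => ?_))
      · have h5 := Submodule.smul_mem _ (z₀ : ℚ) h1E
        rw [Rat.smul_def, mul_one] at h5
        exact_mod_cast h5
      · have h5 := Submodule.smul_mem _ (z i.succ : ℚ) (hαE i)
        rw [Rat.smul_def] at h5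
        exact_mod_cast h5
    rw [h3, Int.cast_zero, zero_mul, zero_add] at h1
    have h5 := hF.ind (fun i => z i.succ) z₀ h1
    funext i
    refine Fin.cases h3 (fun i => ?_) i
    exact congrFun h5 i
  · exact Fin.cases hbad hF.bad

/-- if every generic family of `T` systems contains a good one, then `(Q, α)` is good for all `Q` prime to some `Q₀` and
all algebraic numbers outside a space of dimension `≤ T` -/
theorem exc_one (L T : ℕ) (P : ∀ d : ℕ, ℕ → (Fin d → ℝ) → Prop)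
    (hfam : ∀ (Q : Fin T → ℕ) (d : Fin T → ℕ) (α : ∀ i, Fin (d i) → ℝ), (∀ i, 0 < Q i) →
      (∀ i, Nat.Coprime (Q i) L) → (∀ i j, i ≠ j → Nat.Coprime (Q i) (Q j)) →
      GenI (fun x : Σ i, Fin (d i) => α x.1 x.2) → ∃ i, P (d i) (Q i) (α i)) :
    ∃ (Q₀ : ℕ) (E : Finset ℝ), 0 < Q₀ ∧ E.card ≤ T ∧ ∀ Q : ℕ, 0 < Q → Nat.Coprime Q L →
      Nat.Coprime Q Q₀ → ∀ α : ℝ, IsAlgebraic ℚ α → α ∉ Submodule.span ℚ (E : Set ℝ) →
        P 1 Q (fun _ => α) := by
  by_contra hcon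
  have h : ∀ (Q₀ : ℕ) (E : Finset ℝ), 0 < Q₀ → E.card ≤ T → ∃ Q : ℕ, 0 < Q ∧ Nat.Coprime Q L ∧
      Nat.Coprime Q Q₀ ∧ ∃ α : ℝ, IsAlgebraic ℚ α ∧ α ∉ Submodule.span ℚ (E : Set ℝ) ∧
        ¬ P 1 Q (fun _ => α) := by
    intro Q₀ E hQ₀ hE
    by_contra h1
    apply hcon
    refine ⟨Q₀, E, hQ₀, hE, fun Q hQ hQL hQQ α hα hi => ?_⟩
    by_contra h2
    exact h1 ⟨Q, hQ, hQL, hQQ, α, hα, hi, h2⟩
  have hall : ∀ m : ℕ, m ≤ T → ∃ (Q : Fin m → ℕ) (α : Fin m → ℝ),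
      BadF1 L (fun Q α => P 1 Q (fun _ => α)) m Q α := by
    intro m
    induction m with
    | zero => exact fun _ => ⟨fun i => i.elim0, fun i => i.elim0, fun i => i.elim0, fun i => i.elim0,
        fun i => i.elim0, fun i => i.elim0, fun z _ _ => funext fun x => x.elim0, fun i => i.elim0⟩
    | succ m ih =>
      intro hm
      obtain ⟨Q, α, hF⟩ := ih (by omega)
      exact badF1_succ hF fun Q₀ E hQ₀ hE => h Q₀ E hQ₀ (hE.trans hm)
  obtain ⟨Q, α, hF⟩ := hall T le_rfl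
  obtain ⟨i, hi⟩ := hfam Q (fun _ => 1) (fun i _ => α i) hF.pos hF.cop
    hF.pair (gen_alg (fun x => hF.alg x.1) (by
      intro z z₀ hz
      rw [Fintype.sum_sigma] at hz
      have h1 := hF.ind (fun i => z ⟨i, 0⟩) z₀ (by
        rw [← hz]
        refine Finset.sum_congr rfl fun i _ => ?_
        rw [Fin.sum_univ_one])
      funext x
      obtain ⟨i, l⟩ := x
      rw [Subsingleton.elim l 0]
      exact congrFun h1 i))
  exact hF.bad i hi

end Pool.Agent.H95.RO
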