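import Pool.Agent.H95.RO.Cor
import Pool.Agent.H95.RO.Cmb
import Pool.Agent.H21.WP.Bridge

/-!
# [H95 RO FIN] MP_8923e7_nt, THEOREM R: of two independent systems one is good
-/

set_option autoImplicit false

namespace Pool.Agent.H95.RO

open Finset Filter

/-- infinitely many strings in a bounded window: one tuple of shifts is realised infinitely often -/
theorem fix_tuple (k C : ℕ) (P : Fin (k + 1) → ℕ → Prop)
    (hG : {j : ℕ | ∀ i : Fin (k + 1), Nat.nth Nat.Prime (j + i) ≤ Nat.nth Nat.Prime j + C ∧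
      P i (Nat.nth Nat.Prime (j + i))}.Infinite) :
    ∃ h : Fin (k + 1) → ℕ, h 0 = 0 ∧ {m : ℕ | (StrictMono h ∧ (∀ j, (m + h j).Prime) ∧
      ∀ q : ℕ, q.Prime → m + h 0 ≤ q → q ≤ m + h (Fin.last k) → ∃ j, q = m + h j) ∧
        ∀ j, P j (m + h j)}.Infinite := by
  classical
  obtain ⟨G, hGd⟩ : ∃ G : Set ℕ, G = {j : ℕ | ∀ i : Fin (k + 1),
    Nat.nth Nat.Prime (j + i) ≤ Nat.nth Nat.Prime j + C ∧ P i (Nat.nth Nat.Prime (j + i))} := ⟨_, rfl⟩
  rw [← hGd] at hG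
  have hGm : ∀ n ∈ G, ∀ i : Fin (k + 1), Nat.nth Nat.Prime (n + i) ≤ Nat.nth Nat.Prime n + C ∧
      P i (Nat.nth Nat.Prime (n + i)) := fun n hn => by
    rw [hGd] at hn
    exact hn
  -- the tuples
  let F : ℕ → (Fin (k + 1) → Fin (C + 1)) := fun n j =>
    Fin.ofNat (C + 1) (Nat.nth Nat.Prime (n + j) - Nat.nth Nat.Prime n)
  obtain ⟨f, hf⟩ : ∃ f : Fin (k + 1) → Fin (C + 1), (G ∩ {n | F n = f}).Infinite := by
    by_contra hcon
    push Not at hcon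
    apply hG
    have h1 : G ⊆ ⋃ f, (G ∩ {n | F n = f}) := fun n hn => Set.mem_iUnion.2 ⟨F n, hn, rfl⟩
    exact (Set.finite_iUnion hcon).subset h1
  have hmono := Nat.nth_strictMono Nat.infinite_setOfPred_prime
  have hval : ∀ n ∈ G ∩ {n | F n = f}, ∀ j : Fin (k + 1),
      Nat.nth Nat.Prime n + (f j : ℕ) = Nat.nth Nat.Prime (n + j) := by
    rintro n ⟨hn, hn2⟩ j
    have h1 := (hGm n hn j).1
    have h2 : Nat.nth Nat.Prime n ≤ Nat.nth Nat.Prime (n + j) := hmono.monotone (by omega)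
    have h3 : (f j : ℕ) = (Nat.nth Nat.Prime (n + j) - Nat.nth Nat.Prime n) % (C + 1) := by
      rw [← show F n = f from hn2]
      rfl
    rw [Nat.mod_eq_of_lt (by omega)] at h3
    omega
  refine ⟨fun j => (f j : ℕ), ?_, ?_⟩
  · obtain ⟨n, hn⟩ := hf.nonempty
    have h1 := hval n hn 0
    have h2 : Nat.nth Nat.Prime (n + ((0 : Fin (k + 1)) : ℕ)) = Nat.nth Nat.Prime n := by
      rw [Fin.val_zero, add_zero]
    rw [h2] at h1
    show (f 0 : ℕ) = 0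
    omega
  · refine ((hf.image hmono.injective.injOn).mono ?_)
    rintro _ ⟨n, hn, rfl⟩
    refine ⟨⟨?_, ?_, ?_⟩, ?_⟩
    · intro i j hij
      have h1 := hval n hn i
      have h2 := hval n hn j
      have h3 : Nat.nth Nat.Prime (n + i) < Nat.nth Nat.Prime (n + j) := hmono (by
        have := Fin.lt_def.1 hij
        omega)
      show (f i : ℕ) < (f j : ℕ)
      omega
    · intro j
      rw [hval n hn j]
      exact Nat.prime_nth_prime _
    · intro q hq h1 h2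
      rw [hval n hn] at h1 h2
      obtain ⟨m, hm⟩ : ∃ m, Nat.nth Nat.Prime m = q := ⟨_, Nat.nth_count hq⟩
      rw [← hm] at h1 h2
      have h3 := hmono.le_iff_le.1 h1
      have h4 := hmono.le_iff_le.1 h2
      rw [Fin.val_zero, add_zero] at h3
      rw [Fin.val_last] at h4
      refine ⟨⟨m - n, by omega⟩, ?_⟩
      rw [hval n hn, ← hm]
      congr 1
      show m = n + (m - n)
      omega
    · intro j
      rw [hval n hn j]
      exact (hGm n hn.1 j).2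

/-- the word near a cut -/
theorem cut_word {M : ℕ} (A : Finset (Fin M)) (C k r c : ℕ) (hr : r ≤ k) (hc1 : k + 1 ≤ c)
    (hc2 : c + (k + 1) ≤ A.card) (B : Fin M → Prop)
    (hB : ∀ i : Fin A.card, c - (k + 1) ≤ (i : ℕ) → (i : ℕ) < c + (k + 1) →
      (B (A.orderEmbOfFin rfl i) ↔ (i : ℕ) < c)) (P P' : ℕ → Prop)
    (hinf : {j : ℕ | ∀ i : Fin A.card, Nat.nth Nat.Prime (j + i) ≤ Nat.nth Nat.Prime j + C ∧
      (B (A.orderEmbOfFin rfl i) → P (Nat.nth Nat.Prime (j + i))) ∧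
      (¬ B (A.orderEmbOfFin rfl i) → P' (Nat.nth Nat.Prime (j + i)))}.Infinite) :
    {j : ℕ | ∀ i : Fin (2 * r + 1 + 1), Nat.nth Nat.Prime (j + i) ≤ Nat.nth Nat.Prime j + C ∧
      ((i : ℕ) ≤ r → P (Nat.nth Nat.Prime (j + i))) ∧
      (¬ (i : ℕ) ≤ r → P' (Nat.nth Nat.Prime (j + i)))}.Infinite := by
  have hmono := Nat.nth_strictMono Nat.infinite_setOfPred_prime
  refine ((hinf.image (f := fun j => j + (c - (r + 1))) (fun a _ b _ h => by
    simpa using h)).mono ?_)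
  rintro _ ⟨j, hj, rfl⟩ i
  have hi := i.2
  obtain ⟨h1, h2, h3⟩ := hj ⟨c - (r + 1) + i, by omega⟩
  have h4 := hB ⟨c - (r + 1) + i, by omega⟩ (by
    show c - (k + 1) ≤ c - (r + 1) + (i : ℕ)
    omega) (by
    show c - (r + 1) + (i : ℕ) < c + (k + 1)
    omega)
  have h5 : j + (c - (r + 1)) + i = j + (c - (r + 1) + i) := by ring
  have h6 : Nat.nth Nat.Prime j ≤ Nat.nth Nat.Prime (j + (c - (r + 1))) := hmono.monotone (by omega)
  have h7 : ((⟨c - (r + 1) + i, by omega⟩ : Fin A.card) : ℕ) = c - (r + 1) + i := rfl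
  rw [h7] at h1 h2 h3 h4
  show Nat.nth Nat.Prime (j + (c - (r + 1)) + i) ≤ Nat.nth Nat.Prime (j + (c - (r + 1))) + C ∧ _
  simp only [h5]
  refine ⟨by omega, fun h8 => h2 (h4.2 (by omega)), fun h8 => h3 (fun h9 => ?_)⟩
  have := h4.1 h9
  omega

/-- all words `a^(r+1) b^(r+1)` over `(ZMod Q)ˣ × T^t` occur in bounded windows -/
def GoodR (L s Q : ℕ) {t : ℕ} (α : Fin t → ℝ) : Prop :=
  ∀ (r : ℕ) (a b : (ZMod Q)ˣ) (x y : Fin t → ℝ) (ε : ℝ), 0 < ε → ∃ C : ℕ,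
    {j : ℕ | ∀ i : Fin (2 * r + 1 + 1), Nat.nth Nat.Prime (j + i) ≤ Nat.nth Nat.Prime j + C ∧
      ((i : ℕ) ≤ r → Nat.nth Nat.Prime (j + i) ≡ s [MOD L] ∧
        ((Nat.nth Nat.Prime (j + i) : ℕ) : ZMod Q) = a ∧
        ∀ l, nd (α l * Nat.nth Nat.Prime (j + i) - x l) < ε) ∧
      (¬ (i : ℕ) ≤ r → Nat.nth Nat.Prime (j + i) ≡ s [MOD L] ∧
        ((Nat.nth Nat.Prime (j + i) : ℕ) : ZMod Q) = b ∧
        ∀ l, nd (α l * Nat.nth Nat.Prime (j + i) - y l) < ε)}.Infinite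

/-- THEOREM R: of two independent systems one is good -/
theorem two_systems (L s : ℕ) (hL : 0 < L) (hs : Nat.Coprime s L) (Q Q' : ℕ) (hQ : 0 < Q)
    (hQ' : 0 < Q') (hQL : Nat.Coprime Q L) (hQL' : Nat.Coprime Q' L) (hQQ : Nat.Coprime Q Q')
    {t t' : ℕ} (α : Fin t → ℝ) (α' : Fin t' → ℝ) (hi : Ind (Fin.append α α'))
    (hsc : Scl (Fin.append α α')) : GoodR L s Q α ∨ GoodR L s Q' α' := by
  classical
  by_contra hcon
  rw [not_or] at hcon
  obtain ⟨h1, h2⟩ := hcon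
  unfold GoodR at h1 h2
  simp only [not_forall, not_exists] at h1 h2
  obtain ⟨r, a, b, x, y, ε, hε, h1⟩ := h1
  obtain ⟨r', a', b', x', y', ε', hε', h2⟩ := h2
  obtain ⟨k, hk⟩ : ∃ k, k = max r r' := ⟨_, rfl⟩
  have hkr : r ≤ k := by rw [hk]; exact le_max_left _ _
  have hkr' : r' ≤ k := by rw [hk]; exact le_max_right _ _
  obtain ⟨s', hs', H⟩ := core_of (Fin.append α α') hi hsc (1 / 1000) (by norm_num)
    (4 * (84 * (k + 1))) (by omega) (min ε ε') (lt_min hε hε')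
  haveI : NeZero Q := ⟨hQ.ne'⟩
  haveI : NeZero Q' := ⟨hQ'.ne'⟩
  obtain ⟨M, hM⟩ : ∃ M, M = 4 * (84 * (k + 1)) * s' := ⟨_, rfl⟩
  -- the letters
  obtain ⟨B, hB⟩ : ∃ B : Fin (4 * (84 * (k + 1)) * s') → Prop,
    ∀ i, B i ↔ (i.divNat : ℕ) / (84 * (k + 1)) < 2 := ⟨_, fun _ => Iff.rfl⟩
  obtain ⟨B', hB'⟩ : ∃ B' : Fin (4 * (84 * (k + 1)) * s') → Prop,
    ∀ i, B' i ↔ ((i.divNat : ℕ) / (84 * (k + 1)) = 0 ∨ (i.divNat : ℕ) / (84 * (k + 1)) = 2) :=
    ⟨_, fun _ => Iff.rfl⟩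
  choose ρ hρ1 hρ2 hρ3 using fun i : Fin (4 * (84 * (k + 1)) * s') =>
    Pool.Agent.H21.WP.crt_nat L s 2 ![Q, Q'] hL hs (by
      intro l; fin_cases l
      · exact hQ
      · exact hQ') (by
      intro l; fin_cases l
      · exact hQL
      · exact hQL') (by
      intro l l' hl
      fin_cases l <;> fin_cases l'
      · exact absurd rfl hl
      · exact hQQ
      · exact hQQ.symm
      · exact absurd rfl hl)
      ![((if B i then a else b : (ZMod Q)ˣ) : ZMod Q).val,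
        ((if B' i then a' else b' : (ZMod Q')ˣ) : ZMod Q').val] (by
      intro l; fin_cases l
      · exact ZMod.val_coe_unit_coprime _
      · exact ZMod.val_coe_unit_coprime _)
  have hprod : L * ∏ l, (![Q, Q'] : Fin 2 → ℕ) l = L * (Q * Q') := by
    rw [Fin.prod_univ_two]
    rfl
  rw [hprod] at hρ3
  obtain ⟨A, C, hA, hinf⟩ := H (L * (Q * Q')) (by positivity) ρ hρ3
    (fun i => Fin.append (if B i then x else y) (if B' i then x' else y'))
  have hval : ∀ i, ((ρ i : ℕ) : ZMod Q) = (if B i then a else b : (ZMod Q)ˣ) := fun i => by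
    have h3 : ρ i ≡ ((if B i then a else b : (ZMod Q)ˣ) : ZMod Q).val [MOD Q] := hρ2 i 0
    rw [(ZMod.natCast_eq_natCast_iff _ _ _).2 h3, ZMod.natCast_zmod_val]
  have hval' : ∀ i, ((ρ i : ℕ) : ZMod Q') = (if B' i then a' else b' : (ZMod Q')ˣ) := fun i => by
    have h3 : ρ i ≡ ((if B' i then a' else b' : (ZMod Q')ˣ) : ZMod Q').val [MOD Q'] := hρ2 i 1
    rw [(ZMod.natCast_eq_natCast_iff _ _ _).2 h3, ZMod.natCast_zmod_val]
  have hdv : L ∣ L * (Q * Q') := Dvd.intro _ rfl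
  have hdv1 : Q ∣ L * (Q * Q') := (Dvd.intro _ rfl : Q ∣ Q * Q').mul_left L
  have hdv2 : Q' ∣ L * (Q * Q') := (Dvd.intro_left _ rfl : Q' ∣ Q * Q').mul_left L
  rcases cmb k s' A hA with ⟨c, hc1, hc2, hc⟩ | ⟨c, hc1, hc2, hc⟩
  · refine h1 C ?_
    refine cut_word A C k r c hkr hc1 hc2 B (fun i hi1 hi2 => (hB _).trans (hc i hi1 hi2))
      (fun p => p ≡ s [MOD L] ∧ ((p : ℕ) : ZMod Q) = a ∧ ∀ l, nd (α l * p - x l) < ε)
      (fun p => p ≡ s [MOD L] ∧ ((p : ℕ) : ZMod Q) = b ∧ ∀ l, nd (α l * p - y l) < ε) ?_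
    refine hinf.mono fun j hj i => ?_
    obtain ⟨h3, h4, h5⟩ := hj i
    have h6 : Nat.nth Nat.Prime (j + i) ≡ s [MOD L] := (h4.of_dvd hdv).trans (hρ1 _)
    have h7 := (ZMod.natCast_eq_natCast_iff _ _ _).2 (h4.of_dvd hdv1)
    rw [hval] at h7
    have h8 : ∀ l, nd (α l * Nat.nth Nat.Prime (j + i) -
        (if B (A.orderEmbOfFin rfl i) then x else y) l) < ε := fun l => by
      have h9 := h5 (Fin.castAdd t' l)
      rw [Fin.append_left, Fin.append_left] at h9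
      exact h9.trans_le (min_le_left _ _)
    refine ⟨h3, fun hb => ?_, fun hb => ?_⟩
    · rw [if_pos hb] at h7 h8
      exact ⟨h6, h7, h8⟩
    · rw [if_neg hb] at h7 h8
      exact ⟨h6, h7, h8⟩
  · refine h2 C ?_
    refine cut_word A C k r' c hkr' hc1 hc2 B' (fun i hi1 hi2 => (hB' _).trans (hc i hi1 hi2))
      (fun p => p ≡ s [MOD L] ∧ ((p : ℕ) : ZMod Q') = a' ∧ ∀ l, nd (α' l * p - x' l) < ε')
      (fun p => p ≡ s [MOD L] ∧ ((p : ℕ) : ZMod Q') = b' ∧ ∀ l, nd (α' l * p - y' l) < ε') ?_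
    refine hinf.mono fun j hj i => ?_
    obtain ⟨h3, h4, h5⟩ := hj i
    have h6 : Nat.nth Nat.Prime (j + i) ≡ s [MOD L] := (h4.of_dvd hdv).trans (hρ1 _)
    have h7 := (ZMod.natCast_eq_natCast_iff _ _ _).2 (h4.of_dvd hdv2)
    rw [hval'] at h7
    have h8 : ∀ l, nd (α' l * Nat.nth Nat.Prime (j + i) -
        (if B' (A.orderEmbOfFin rfl i) then x' else y') l) < ε' := fun l => by
      have h9 := h5 (Fin.natAdd t l)
      rw [Fin.append_right, Fin.append_right] at h9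
      exact h9.trans_le (min_le_right _ _)
    refine ⟨h3, fun hb => ?_, fun hb => ?_⟩
    · rw [if_pos hb] at h7 h8
      exact ⟨h6, h7, h8⟩
    · rw [if_neg hb] at h7 h8
      exact ⟨h6, h7, h8⟩

end Pool.Agent.H95.RO
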