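import Pool.Agent.H95.RO.Sc2

/-!
# [H95 RO SCG] MP_8923e7_nt, THEOREM R: good scales exist, general form

Every two dimensional space of integer combinations of the `α_i` contains a number which is not a Liouville number: then there are
arbitrarily large good scales.

PROOF. Let `n` be given. For each pair `z, z'` with coefficients at most `n` that is not proportional choose `a, b` and with `nl` an exponent
`D` for `γ = ∑ (a z_i + b z'_i) α_i`; `D` = the largest one, `τ = 1/(2D+6)`. If `z` is bad at `x` with `(r, p)` and `z'` bad at `2x` with `(r', p')`, then with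
`q = r r'` and `P = a r' p + b r p'`: `|q γ - P| ≤ |a| r' x^(-(1-τ)) + |b| r (2x)^(-(1-τ)) ≤ (|a| + |b|) 3 x^(2τ-1)`, and `c ≤ |q γ - P| |q|^D`, `|q| ≤ 2 x^(2τ)`: false
for large `x`. So `scl_core` applies.
-/

set_option autoImplicit false

namespace Pool.Agent.H95.RO

open Finset Filter

private theorem nlg (α : ℝ) (hi : ∀ q P : ℤ, q ≠ 0 → (q : ℝ) * α ≠ P) (hL : ¬ Liouville α) :
    ∃ (D : ℕ) (c : ℝ), 0 < c ∧ ∀ q P : ℤ, q ≠ 0 → c ≤ |(q : ℝ) * α - P| * |(q : ℝ)| ^ D := by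
  unfold Liouville at hL
  push Not at hL
  obtain ⟨D, hD⟩ := hL
  have h0 : 0 < nd α := by
    unfold nd
    rw [abs_pos, sub_ne_zero]
    have := hi 1 (round α) one_ne_zero
    rwa [Int.cast_one, one_mul] at this
  refine ⟨D, min 1 (nd α), lt_min one_pos h0, ?_⟩
  have key : ∀ q P : ℤ, 0 < q → min 1 (nd α) ≤ |(q : ℝ) * α - P| * |(q : ℝ)| ^ D := by
    intro q P hq
    have hqr : (0 : ℝ) < q := by exact_mod_cast hq
    rcases (by omega : q = 1 ∨ 1 < q) with h1 | h1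
    · refine (min_le_right _ _).trans ?_
      rw [h1, Int.cast_one, one_mul, abs_one, one_pow, mul_one]
      exact round_le α P
    · refine (min_le_left _ _).trans ?_
      have h2 : α ≠ (P : ℝ) / q := by
        intro h3
        apply hi q P hq.ne'
        rw [h3]
        field_simp
      have h3 := hD P q h1 h2
      rw [div_le_iff₀ (by positivity)] at h3
      have h4 : (q : ℝ) * α - P = q * (α - P / q) := by
        field_simp
      rw [h4, abs_mul, abs_of_pos hqr]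
      have h5 : (1 : ℝ) ≤ q := by exact_mod_cast h1.le
      calc (1 : ℝ) ≤ |α - P / q| * (q : ℝ) ^ D := h3
        _ ≤ q * (|α - P / q| * (q : ℝ) ^ D) := le_mul_of_one_le_left (by positivity) h5
        _ = q * |α - P / q| * (q : ℝ) ^ D := by ring
  intro q P hq
  rcases lt_or_gt_of_ne hq with h | h
  · have h1 := key (-q) (-P) (by omega)
    have h2 : (((-q : ℤ) : ℝ)) * α - ((-P : ℤ) : ℝ) = -((q : ℝ) * α - P) := by
      push_cast
      ring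
    rw [h2, abs_neg, Int.cast_neg, abs_neg] at h1
    exact h1
  · exact key q P h

private theorem bdg {x τ : ℝ} (hx : 1 ≤ x) (hτ : 0 < τ) (hτ4 : τ ≤ 1 / 4) :
    x ^ τ * (2 * x) ^ (-(1 - τ)) ≤ 3 * x ^ (2 * τ - 1) ∧ (2 * x) ^ τ * x ^ (-(1 - τ)) ≤ 3 * x ^ (2 * τ - 1) ∧
      (2 * x) ^ τ ≤ 2 * x ^ τ := by
  have hx0 : 0 < x := by linarith
  have h1 : (2 * x) ^ (-(1 - τ)) ≤ x ^ (-(1 - τ)) :=
    Real.rpow_le_rpow_of_nonpos hx0 (by linarith) (by linarith)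
  have h2 : (2 * x) ^ τ ≤ 2 * x ^ τ := by
    rw [Real.mul_rpow (by norm_num) hx0.le]
    have h3 : (2 : ℝ) ^ τ ≤ 2 := by
      calc (2 : ℝ) ^ τ ≤ (2 : ℝ) ^ (1 : ℝ) := Real.rpow_le_rpow_of_exponent_le (by norm_num) (by linarith)
        _ = 2 := Real.rpow_one 2
    exact mul_le_mul_of_nonneg_right h3 (Real.rpow_nonneg hx0.le _)
  have h3 : x ^ (2 * τ - 1) = x ^ τ * x ^ (-(1 - τ)) := by
    rw [← Real.rpow_add hx0]
    congr 1
    ring
  rw [h3]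
  have h4 : 0 ≤ x ^ τ := Real.rpow_nonneg hx0.le _
  have h5 : 0 ≤ x ^ (-(1 - τ)) := Real.rpow_nonneg hx0.le _
  have h6 : 0 ≤ x ^ τ * x ^ (-(1 - τ)) := mul_nonneg h4 h5
  refine ⟨?_, ?_, h2⟩
  · linarith [mul_le_mul_of_nonneg_left h1 h4]
  · linarith [mul_le_mul_of_nonneg_right h2 h5]

/-- one pair of frequencies -/
private theorem pair_ev {t : ℕ} (α : Fin t → ℝ) (z z' : Fin t → ℤ) (a b : ℤ) (D : ℕ) (c τ : ℝ) (hc : 0 < c)
    (hτ : 0 < τ) (hτ4 : τ ≤ 1 / 4) (hτD : 2 * τ * (D + 3) = 1)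
    (hD : ∀ q P : ℤ, q ≠ 0 → c ≤ |(q : ℝ) * (∑ i, ((a * z i + b * z' i : ℤ) : ℝ) * α i) - P| * |(q : ℝ)| ^ D) :
    ∀ᶠ x : ℝ in atTop, ∀ (r r' : ℕ) (p p' : ℤ), 1 ≤ r → 1 ≤ r' → (r : ℝ) ≤ x ^ τ → (r' : ℝ) ≤ (2 * x) ^ τ →
      |(r : ℝ) * (∑ l, (z l : ℝ) * α l) - p| ≤ x ^ (-(1 - τ)) →
      |(r' : ℝ) * (∑ l, (z' l : ℝ) * α l) - p'| ≤ (2 * x) ^ (-(1 - τ)) → False := by
  obtain ⟨K, hK⟩ : ∃ K : ℝ, K = (|(a : ℝ)| + |(b : ℝ)|) * 3 * 2 ^ D := ⟨_, rfl⟩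
  have hlim : Tendsto (fun x : ℝ => K * x ^ (-(4 * τ))) atTop (nhds 0) := by
    have h1 := (tendsto_rpow_neg_atTop (by linarith : 0 < 4 * τ)).const_mul K
    rwa [mul_zero] at h1
  filter_upwards [hlim.eventually_lt_const hc, eventually_ge_atTop (1 : ℝ)] with x hxK hx1
  intro r r' p p' hr1 hr1' hr hr' hb hb'
  have hx0 : 0 < x := by linarith
  obtain ⟨g1, g2, g3⟩ := bdg hx1 hτ hτ4
  have hxt : 0 ≤ x ^ τ := Real.rpow_nonneg hx0.le _
  obtain ⟨β, hβ⟩ : ∃ β, β = ∑ l, (z l : ℝ) * α l := ⟨_, rfl⟩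
  obtain ⟨β', hβ'⟩ : ∃ β', β' = ∑ l, (z' l : ℝ) * α l := ⟨_, rfl⟩
  have hγ : ∑ i, ((a * z i + b * z' i : ℤ) : ℝ) * α i = a * β + b * β' := by
    rw [hβ, hβ', mul_sum, mul_sum, ← sum_add_distrib]
    refine sum_congr rfl fun i _ => ?_
    push_cast
    ring
  rw [← hβ] at hb
  rw [← hβ'] at hb'
  rw [hγ] at hD
  have hq0 : ((r : ℤ) * r') ≠ 0 := by
    refine mul_ne_zero ?_ ?_
    · have : r ≠ 0 := by omega
      exact_mod_cast this
    · have : r' ≠ 0 := by omega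
      exact_mod_cast this
  have h2 := hD ((r : ℤ) * r') (a * r' * p + b * r * p') hq0
  have e1 : (((r : ℤ) * r' : ℤ) : ℝ) * (a * β + b * β') - ((a * r' * p + b * r * p' : ℤ) : ℝ) =
      a * (r' * ((r : ℝ) * β - p)) + b * (r * ((r' : ℝ) * β' - p')) := by
    push_cast
    ring
  rw [e1] at h2
  have b1 : |(r' : ℝ) * ((r : ℝ) * β - p)| ≤ 3 * x ^ (2 * τ - 1) := by
    rw [abs_mul, Nat.abs_cast]
    refine le_trans ?_ g2
    gcongr
  have b2 : |(r : ℝ) * ((r' : ℝ) * β' - p')| ≤ 3 * x ^ (2 * τ - 1) := by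
    rw [abs_mul, Nat.abs_cast]
    refine le_trans ?_ g1
    gcongr
  have b3 : |(a : ℝ) * (r' * ((r : ℝ) * β - p)) + b * (r * ((r' : ℝ) * β' - p'))| ≤
      (|(a : ℝ)| + |(b : ℝ)|) * (3 * x ^ (2 * τ - 1)) := by
    refine (abs_add_le _ _).trans ?_
    rw [abs_mul (a : ℝ), abs_mul (b : ℝ), add_mul]
    gcongr
  have b4 : |(((r : ℤ) * r' : ℤ) : ℝ)| ≤ 2 * x ^ (2 * τ) := by
    have e2 : x ^ (2 * τ) = x ^ τ * x ^ τ := by
      rw [← Real.rpow_add hx0]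
      congr 1
      ring
    rw [Int.cast_mul, Int.cast_natCast, Int.cast_natCast, abs_mul, Nat.abs_cast, Nat.abs_cast, e2]
    calc (r : ℝ) * r' ≤ x ^ τ * (2 * x ^ τ) := by
          gcongr
          exact hr'.trans g3
      _ = 2 * (x ^ τ * x ^ τ) := by ring
  have h5 : c ≤ (|(a : ℝ)| + |(b : ℝ)|) * (3 * x ^ (2 * τ - 1)) * (2 * x ^ (2 * τ)) ^ D := by
    refine h2.trans ?_
    have h6 := pow_le_pow_left₀ (abs_nonneg _) b4 D
    exact mul_le_mul b3 h6 (by positivity) (by positivity)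
  have h6 : (|(a : ℝ)| + |(b : ℝ)|) * (3 * x ^ (2 * τ - 1)) * (2 * x ^ (2 * τ)) ^ D = K * x ^ (-(4 * τ)) := by
    have e3 : (x ^ (2 * τ)) ^ D = x ^ (2 * τ * D) := by
      rw [← Real.rpow_natCast, ← Real.rpow_mul hx0.le]
    have e4 : x ^ (2 * τ - 1) * x ^ (2 * τ * D) = x ^ (-(4 * τ)) := by
      rw [← Real.rpow_add hx0]
      congr 1
      linear_combination hτD
    rw [hK, mul_pow, e3, ← e4]
    ring
  rw [h6] at h5
  exact absurd h5 (not_le.2 hxK)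

/-- every two dimensional space of integer combinations contains one which is not a Liouville number -/
theorem scl_gen {t : ℕ} (α : Fin t → ℝ) (hα : Ind α)
    (hL : ∀ z z' : Fin t → ℤ, (∃ i j, z i * z' j ≠ z' i * z j) → ∃ a b : ℤ,
      (∃ i, a * z i + b * z' i ≠ 0) ∧ ¬ Liouville (∑ i, ((a * z i + b * z' i : ℤ) : ℝ) * α i)) : Scl α := by
  intro n
  have hpair : ∀ w : (Fin t → ℤ) × (Fin t → ℤ), ∃ D : ℕ, (∃ i j, w.1 i * w.2 j ≠ w.2 i * w.1 j) →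
      ∃ (a b : ℤ) (c : ℝ), 0 < c ∧ ∀ q P : ℤ, q ≠ 0 →
        c ≤ |(q : ℝ) * (∑ i, ((a * w.1 i + b * w.2 i : ℤ) : ℝ) * α i) - P| * |(q : ℝ)| ^ D := by
    intro w
    by_cases hw : ∃ i j, w.1 i * w.2 j ≠ w.2 i * w.1 j
    · obtain ⟨a, b, ⟨i, hi⟩, hab⟩ := hL w.1 w.2 hw
      obtain ⟨D, c, hc, hD⟩ := nlg _ (fun q P hq h => by
        have h1 := hα (fun i => q * (a * w.1 i + b * w.2 i)) P (by
          rw [← h, mul_sum]
          refine sum_congr rfl fun i _ => ?_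
          push_cast
          ring)
        have h2 : q * (a * w.1 i + b * w.2 i) = 0 := congrFun h1 i
        rcases mul_eq_zero.1 h2 with h3 | h3
        · exact hq h3
        · exact hi h3) hab
      exact ⟨D, fun _ => ⟨a, b, c, hc, hD⟩⟩
    · exact ⟨0, fun h => absurd h hw⟩
  choose D hD using hpair
  obtain ⟨B, hB⟩ : ∃ B : Finset (Fin t → ℤ), B = Fintype.piFinset fun _ => Icc (-(n : ℤ)) n := ⟨_, rfl⟩
  have hmB : ∀ z : Fin t → ℤ, (∀ l, |z l| ≤ n) → z ∈ B := by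
    intro z hz
    rw [hB, Fintype.mem_piFinset]
    intro l
    rw [mem_Icc]
    exact abs_le.1 (hz l)
  obtain ⟨Dm, hDm⟩ : ∃ Dm : ℕ, Dm = (B ×ˢ B).sup D := ⟨_, rfl⟩
  obtain ⟨τ, hτd⟩ : ∃ τ : ℝ, τ = 1 / (2 * Dm + 6) := ⟨_, rfl⟩
  have hτ : 0 < τ := by
    rw [hτd]
    positivity
  have hτ4 : τ ≤ 1 / 4 := by
    rw [hτd]
    apply one_div_le_one_div_of_le (by norm_num)
    have : (0 : ℝ) ≤ Dm := Nat.cast_nonneg Dm
    linarith
  have hτD : 2 * τ * (Dm + 3) = 1 := by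
    rw [hτd]
    field_simp
    ring
  refine ⟨τ, hτ, hτ4, ?_⟩
  have hev : ∀ᶠ x : ℝ in atTop, ∀ w ∈ B ×ˢ B, (∃ i j, w.1 i * w.2 j ≠ w.2 i * w.1 j) →
      ∀ (r r' : ℕ) (p p' : ℤ), 1 ≤ r → 1 ≤ r' → (r : ℝ) ≤ x ^ τ → (r' : ℝ) ≤ (2 * x) ^ τ →
      |(r : ℝ) * (∑ l, (w.1 l : ℝ) * α l) - p| ≤ x ^ (-(1 - τ)) →
      |(r' : ℝ) * (∑ l, (w.2 l : ℝ) * α l) - p'| ≤ (2 * x) ^ (-(1 - τ)) → False := by
    rw [eventually_all_finset]
    intro w hw
    by_cases hw2 : ∃ i j, w.1 i * w.2 j ≠ w.2 i * w.1 j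
    · obtain ⟨a, b, c, hc, hq⟩ := hD w hw2
      have hle : D w ≤ Dm := by
        rw [hDm]
        exact le_sup hw
      filter_upwards [pair_ev α w.1 w.2 a b Dm c τ hc hτ hτ4 hτD (fun q P hq0 => by
        refine (hq q P hq0).trans ?_
        refine mul_le_mul_of_nonneg_left ?_ (abs_nonneg _)
        refine pow_le_pow_right₀ ?_ hle
        rw [← Int.cast_abs]
        exact_mod_cast Int.one_le_abs hq0)] with x hx _
      exact hx
    · exact Eventually.of_forall fun x h => absurd h hw2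
  obtain ⟨X0, hX0⟩ := eventually_atTop.1 hev
  refine scl_core α hα n hτ hτ4 ⟨X0, ?_⟩
  intro x hx z z' r r' p p' hz hz' hr1 hr1' hr hr' hb hb' i i'
  by_contra hne
  exact hX0 x hx (z, z') (mem_product.2 ⟨hmB z hz, hmB z' hz'⟩) ⟨i, i', hne⟩ r r' p p' hr1 hr1' hr hr' hb hb'

end Pool.Agent.H95.RO
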