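import Pool.Agent.H95.RO.Fin
import Pool.Agent.H95.RO.Scg

/-!
# [H95 RO FIN2] MP_8923e7_nt, THEOREM R: final forms
-/

set_option autoImplicit false

namespace Pool.Agent.H95.RO

open Finset Filter

/-- `1, γ 1, ..., γ T` are linearly independent over the rationals, and every two dimensional space of rational
combinations of the `γ i` contains a nonzero number which is not a Liouville number (no condition if `T ≤ 1`) -/
def Gen {T : ℕ} (γ : Fin T → ℝ) : Prop :=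
  (∀ (z : Fin T → ℤ) (z₀ : ℤ), ∑ i, (z i : ℝ) * γ i = z₀ → z = 0) ∧
  ∀ z z' : Fin T → ℤ, (∃ i j, z i * z' j ≠ z' i * z j) → ∃ a b : ℤ,
    (∃ i, a * z i + b * z' i ≠ 0) ∧ ¬ Liouville (∑ i, ((a * z i + b * z' i : ℤ) : ℝ) * γ i)

/-- the words `a ... a b ... b` (`r + 1` letters `a`, `r + 1` letters `b`) over `(ZMod Q)ˣ × (ℝ/ℤ)^t` occur -/
def GoodT (L s Q : ℕ) {t : ℕ} (α : Fin t → ℝ) : Prop :=
  ∀ (r : ℕ) (a b : (ZMod Q)ˣ) (x y : Fin t → ℝ) (ε : ℝ), 0 < ε →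
    ∃ h : Fin (2 * r + 1 + 1) → ℕ, h 0 = 0 ∧ {m : ℕ | (StrictMono h ∧ (∀ j, (m + h j).Prime) ∧
      ∀ q : ℕ, q.Prime → m + h 0 ≤ q → q ≤ m + h (Fin.last (2 * r + 1)) → ∃ j, q = m + h j) ∧
      ∀ j : Fin (2 * r + 1 + 1), m + h j ≡ s [MOD L] ∧
        ((m + h j : ℕ) : ZMod Q) = (if (j : ℕ) ≤ r then a else b) ∧
        ∀ i, ∃ z : ℤ, |α i * ((m + h j : ℕ) : ℝ) - (if (j : ℕ) ≤ r then x i else y i) - z| < ε}.Infinite

theorem goodT_of {L s Q t : ℕ} {α : Fin t → ℝ} (h : GoodR L s Q α) : GoodT L s Q α := by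
  intro r a b x y ε hε
  obtain ⟨C, hC⟩ := h r a b x y ε hε
  obtain ⟨u, hu0, hu⟩ := fix_tuple (2 * r + 1) C (fun i p => p ≡ s [MOD L] ∧
    ((p : ℕ) : ZMod Q) = ((if (i : ℕ) ≤ r then a else b : (ZMod Q)ˣ) : ZMod Q) ∧
      ∀ l, nd (α l * p - (if (i : ℕ) ≤ r then x l else y l)) < ε) (hC.mono fun j hj i => by
    obtain ⟨h1, h2, h3⟩ := hj i
    refine ⟨h1, ?_⟩
    by_cases hi : (i : ℕ) ≤ r
    · simp only [if_pos hi]
      exact h2 hi
    · simp only [if_neg hi]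
      exact h3 hi)
  refine ⟨u, hu0, hu.mono fun m hm => ⟨hm.1, fun j => ?_⟩⟩
  obtain ⟨h1, h2, h3⟩ := hm.2 j
  exact ⟨h1, h2, fun i => ⟨_, h3 i⟩⟩

/-- of two independent systems one is good -/
theorem pair_good (L s : ℕ) (hL : 0 < L) (hs : Nat.Coprime s L) (Q Q' : ℕ) (hQ : 0 < Q)
    (hQ' : 0 < Q') (hQL : Nat.Coprime Q L) (hQL' : Nat.Coprime Q' L) (hQQ : Nat.Coprime Q Q')
    {t t' : ℕ} (α : Fin t → ℝ) (α' : Fin t' → ℝ) (hg : Gen (Fin.append α α')) :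
    GoodT L s Q α ∨ GoodT L s Q' α' :=
  (two_systems L s hL hs Q Q' hQ hQ' hQL hQL' hQQ α α' hg.1 (scl_gen _ hg.1 hg.2)).imp goodT_of goodT_of

theorem liouville_int_mul {c : ℤ} (hc : c ≠ 0) {x : ℝ} (h : Liouville ((c : ℝ) * x)) : Liouville x := by
  rw [← forall_liouvilleWith_iff] at h ⊢
  intro p
  exact (LiouvilleWith.int_mul_iff hc).1 (h p)

theorem gen_two {α β : ℝ} (hα : Irrational α) (hβ : ∀ u v : ℚ, β ≠ u * α + v) (hL : ¬ Liouville α ∨ ¬ Liouville β) :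
    Gen (Fin.append (fun _ : Fin 1 => α) (fun _ : Fin 1 => β)) := by
  have h0 : Fin.append (fun _ : Fin 1 => α) (fun _ : Fin 1 => β) = ![α, β] := by
    funext i
    fin_cases i <;> rfl
  have hsum : ∀ z : Fin (1 + 1) → ℤ, ∑ i, (z i : ℝ) * Fin.append (fun _ : Fin 1 => α) (fun _ : Fin 1 => β) i =
      z 0 * α + z 1 * β := fun z => by
    rw [h0, Fin.sum_univ_two]
    rfl
  have hind : ∀ (z : Fin (1 + 1) → ℤ) (z₀ : ℤ),
      ∑ i, (z i : ℝ) * Fin.append (fun _ : Fin 1 => α) (fun _ : Fin 1 => β) i = z₀ → z = 0 := by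
    intro z z₀ h
    rw [hsum] at h
    have h1 : z 1 = 0 := by
      by_contra h1
      have h2 : (z 1 : ℝ) ≠ 0 := by exact_mod_cast h1
      apply hβ (-(z 0 : ℚ) / z 1) (z₀ / z 1)
      push_cast
      field_simp
      linarith
    have h3 : z 0 = 0 := by
      by_contra h3
      have h4 : (z 0 : ℝ) ≠ 0 := by exact_mod_cast h3
      rw [h1] at h
      apply hα
      refine ⟨(z₀ : ℚ) / z 0, ?_⟩
      push_cast
      field_simp
      simp at h
      linarith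
    funext i
    fin_cases i
    · exact h3
    · exact h1
  refine ⟨hind, fun z z' hz => ?_⟩
  have hD : z 0 * z' 1 - z' 0 * z 1 ≠ 0 := by
    intro h1
    obtain ⟨i, j, hij⟩ := hz
    apply hij
    fin_cases i <;> fin_cases j
    · show z 0 * z' 0 = z' 0 * z 0
      ring
    · show z 0 * z' 1 = z' 0 * z 1
      linarith
    · show z 1 * z' 0 = z' 1 * z 0
      linarith
    · show z 1 * z' 1 = z' 1 * z 1
      ring
  rcases hL with hL | hL
  · refine ⟨z' 1, - z 1, ⟨0, ?_⟩, ?_⟩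
    · intro h1
      apply hD
      linarith
    · intro h1
      rw [hsum] at h1
      apply hL
      refine liouville_int_mul hD ?_
      convert h1 using 1
      push_cast
      ring
  · refine ⟨-z' 0, z 0, ⟨1, ?_⟩, ?_⟩
    · intro h1
      apply hD
      linarith
    · intro h1
      rw [hsum] at h1
      apply hL
      refine liouville_int_mul hD ?_
      convert h1 using 1
      push_cast
      ring

/-- all systems with one rotation are good, apart from one modulus and one line -/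
theorem one_line (L s : ℕ) (hL : 0 < L) (hs : Nat.Coprime s L) : ∃ (Q₀ : ℕ) (α₀ : ℝ), 0 < Q₀ ∧
    ∀ Q : ℕ, 0 < Q → Nat.Coprime Q L → Nat.Coprime Q Q₀ → ∀ α : ℝ, ¬ Liouville α →
      (∀ u v : ℚ, α ≠ u * α₀ + v) → GoodT L s Q (fun _ : Fin 1 => α) := by
  by_cases h : ∃ (Q₀ : ℕ) (α₀ : ℝ), 0 < Q₀ ∧ Nat.Coprime Q₀ L ∧ Irrational α₀ ∧ ¬ Liouville α₀ ∧
      ¬ GoodT L s Q₀ (fun _ : Fin 1 => α₀)
  · obtain ⟨Q₀, α₀, h1, h2, h3, h4, h5⟩ := h
    refine ⟨Q₀, α₀, h1, fun Q hQ hQL hQQ α _ hαl => ?_⟩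
    exact (pair_good L s hL hs Q₀ Q h1 hQ h2 hQL hQQ.symm (fun _ : Fin 1 => α₀) (fun _ : Fin 1 => α)
      (gen_two h3 hαl (Or.inl h4))).resolve_left h5
  · push Not at h
    refine ⟨1, 0, one_pos, fun Q hQ hQL _ α hα hαl => h Q α hQ hQL ?_ hα⟩
    rintro ⟨v, hv⟩
    apply hαl 0 v
    rw [← hv]
    simp

end Pool.Agent.H95.RO
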