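import Pool.Agent.H95.RO.Fin
import Pool.Agent.H96.RO.Df
import Pool.Agent.H5.Short.Second

/-!
# [H95 RO FQD] MP_8923e7_nt, THEOREM R, frequency version: of two independent systems one is frequent
(from the core property `CoreRF` of helper96)
-/

set_option autoImplicit false

namespace Pool.Agent.H95.RO

open Finset Filter Pool.Agent.H96.RO

private theorem pc_le : ∃ C : ℝ, 0 < C ∧ ∀ X : ℕ, 2 ≤ X →
    (Nat.primeCounting X : ℝ) ≤ C * (X / Real.log X) := by
  obtain ⟨C, hC, h⟩ := Pool.Agent.H5.Short.pi_le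
  refine ⟨C, hC, fun X hX => ?_⟩
  have h1 := h X hX
  have e : ((Icc 1 X).filter Nat.Prime).card = Nat.primeCounting X := by
    rw [Nat.primeCounting, Nat.primeCounting', Nat.count_eq_card_filter_range]
    congr 1
    ext p
    simp only [mem_filter, mem_Icc, mem_range]
    constructor
    · rintro ⟨⟨_, h2⟩, h3⟩
      exact ⟨by omega, h3⟩
    · rintro ⟨h1, h2⟩
      exact ⟨⟨h2.one_lt.le, by omega⟩, h2⟩
  rw [e] at h1
  rw [← mul_div_assoc]
  exact h1

private theorem sqrt_small (c : ℝ) (hc : 0 < c) : ∃ X₁ : ℕ, ∀ X : ℕ, X₁ ≤ X →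
    Real.sqrt X + 1 ≤ c * (X / Real.log X) := by
  have h1 : Filter.Tendsto (fun X : ℕ => Real.log (X : ℝ) / Real.sqrt X) Filter.atTop (nhds 0) := by
    have h2 : Filter.Tendsto (fun x : ℝ => Real.log x / Real.sqrt x) Filter.atTop (nhds 0) := by
      have h3 := (isLittleO_log_rpow_atTop (r := 1 / 2) (by norm_num)).tendsto_div_nhds_zero
      refine h3.congr' ?_
      filter_upwards [Filter.eventually_gt_atTop 0] with x hx
      rw [Real.sqrt_eq_rpow]
    exact h2.comp tendsto_natCast_atTop_atTop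
  have h3 := h1.eventually (gt_mem_nhds (show (0 : ℝ) < c / 2 by linarith))
  obtain ⟨X₁, hX₁⟩ := Filter.eventually_atTop.1 h3
  refine ⟨max X₁ 3, fun X hX => ?_⟩
  have h4 := hX₁ X (le_trans (le_max_left _ _) hX)
  have h5 : 3 ≤ X := le_trans (le_max_right _ _) hX
  have h6 : (3 : ℝ) ≤ X := by exact_mod_cast h5
  have hlog : 0 < Real.log X := Real.log_pos (by linarith)
  have hs : 0 < Real.sqrt X := Real.sqrt_pos.2 (by linarith)
  have hs1 : 1 ≤ Real.sqrt X := by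
    rw [show (1 : ℝ) = Real.sqrt 1 by simp]
    exact Real.sqrt_le_sqrt (by linarith)
  rw [div_lt_iff₀ hs] at h4
  have h7 : Real.sqrt X * Real.sqrt X = X := Real.mul_self_sqrt (by linarith)
  rw [← mul_div_assoc, le_div_iff₀ hlog]
  have h8 : (Real.sqrt X + 1) * Real.log X ≤ (2 * Real.sqrt X) * (c / 2 * Real.sqrt X) := by
    have := mul_le_mul (show Real.sqrt X + 1 ≤ 2 * Real.sqrt X by linarith) h4.le hlog.le
      (by positivity)
    exact this
  have h9 : (2 * Real.sqrt X) * (c / 2 * Real.sqrt X) = c * (Real.sqrt X * Real.sqrt X) := by ring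
  rw [h9, h7] at h8
  exact h8

theorem idx_finite {r : ℕ} (hr : 0 < r) (X : ℕ) (P : Fin r → ℕ → Prop) :
    {j : ℕ | ∀ i : Fin r, Nat.nth Nat.Prime (j + i) ≤ X ∧ P i j}.Finite := by
  refine Set.Finite.subset (Set.finite_Iic X) fun n hn => ?_
  have h1 := (hn ⟨0, hr⟩).1
  have h2 : n ≤ Nat.nth Nat.Prime n :=
    (Nat.nth_strictMono Nat.infinite_setOfPred_prime).le_apply
  simp only [add_zero] at h1
  exact Set.mem_Iic.2 (h2.trans h1)

/-- positive upper density from counts at the scale `η / 2 log X` -/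
theorem dens_of (k : ℕ) (P : Fin (k + 1) → ℕ → Prop) {η c : ℝ} (hη : 0 < η) (hc : 0 < c)
    (h : ∃ᶠ X : ℕ in atTop, c * (X / Real.log X) ≤
      ({j : ℕ | ∀ i : Fin (k + 1), Nat.nth Nat.Prime (j + i) ≤ X ∧
        (Nat.nth Nat.Prime (j + i) : ℝ) ≤ Nat.nth Nat.Prime j + η / 2 * Real.log X ∧
        P i (Nat.nth Nat.Prime (j + i))}.ncard : ℝ)) :
    ∃ c' : ℝ, 0 < c' ∧ ∃ᶠ N : ℕ in atTop, c' * N ≤
      ({j : ℕ | j < N ∧ (∀ i : Fin (k + 1), P i (Nat.nth Nat.Prime (j + i))) ∧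
        (Nat.nth Nat.Prime (j + k) : ℝ) ≤
          Nat.nth Nat.Prime j + η * Real.log (Nat.nth Nat.Prime j)}.ncard : ℝ) := by
  obtain ⟨C, hC, hpc⟩ := pc_le
  obtain ⟨X₁, hX₁⟩ := sqrt_small (c / 2) (by linarith)
  refine ⟨c / (2 * C), by positivity, ?_⟩
  have h2 : ∃ᶠ X : ℕ in atTop, c / (2 * C) * (Nat.primeCounting X : ℕ) ≤
      ({j : ℕ | j < Nat.primeCounting X ∧ (∀ i : Fin (k + 1), P i (Nat.nth Nat.Prime (j + i))) ∧
        (Nat.nth Nat.Prime (j + k) : ℝ) ≤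
          Nat.nth Nat.Prime j + η * Real.log (Nat.nth Nat.Prime j)}.ncard : ℝ) := by
    refine (h.and_eventually (eventually_ge_atTop (max X₁ 3))).mono ?_
    rintro X ⟨hX, hXX⟩
    have hXa : X₁ ≤ X := le_trans (le_max_left _ _) hXX
    have hXc : 3 ≤ X := le_trans (le_max_right _ _) hXX
    have hX3 : (3 : ℝ) ≤ X := by exact_mod_cast hXc
    have hlog : 0 < Real.log X := Real.log_pos (by linarith)
    -- split at the square root
    have h4 : {j : ℕ | ∀ i : Fin (k + 1), Nat.nth Nat.Prime (j + i) ≤ X ∧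
        (Nat.nth Nat.Prime (j + i) : ℝ) ≤ Nat.nth Nat.Prime j + η / 2 * Real.log X ∧
        P i (Nat.nth Nat.Prime (j + i))} ⊆
        {j : ℕ | j < Nat.primeCounting X ∧ (∀ i : Fin (k + 1), P i (Nat.nth Nat.Prime (j + i))) ∧
        (Nat.nth Nat.Prime (j + k) : ℝ) ≤
          Nat.nth Nat.Prime j + η * Real.log (Nat.nth Nat.Prime j)} ∪
        ((range (⌊Real.sqrt X⌋₊ + 1) : Finset ℕ) : Set ℕ) := by
      intro n hn
      have hk := hn (Fin.last k)
      have h0 := hn 0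
      rw [Fin.val_last] at hk
      rw [Fin.val_zero, add_zero] at h0
      by_cases hp : (Nat.nth Nat.Prime n : ℝ) ≤ Real.sqrt X
      · right
        rw [mem_coe, mem_range]
        have h5 : n ≤ Nat.nth Nat.Prime n :=
          (Nat.nth_strictMono Nat.infinite_setOfPred_prime).le_apply
        have h6 : Nat.nth Nat.Prime n ≤ ⌊Real.sqrt X⌋₊ := Nat.le_floor hp
        omega
      · left
        push Not at hp
        refine ⟨?_, fun i => (hn i).2.2, ?_⟩
        · show n < Nat.primeCounting X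
          rw [Nat.primeCounting, Nat.primeCounting']
          by_contra hcon
          push Not at hcon
          have h5 : X + 1 ≤ Nat.nth Nat.Prime n :=
            (Nat.count_le_iff_le_nth Nat.infinite_setOfPred_prime).1 hcon
          have h6 := h0.1
          omega
        · have h5 := hk.2.1
          have h6 : Real.log X / 2 ≤ Real.log (Nat.nth Nat.Prime n) := by
            rw [← Real.log_sqrt (by positivity)]
            exact Real.log_le_log (Real.sqrt_pos.2 (by linarith)) hp.le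
          have h7 : η / 2 * Real.log X ≤ η * Real.log (Nat.nth Nat.Prime n) := by
            calc η / 2 * Real.log X = η * (Real.log X / 2) := by ring
              _ ≤ _ := by gcongr
          linarith
    have hfin2 : {j : ℕ | j < Nat.primeCounting X ∧
        (∀ i : Fin (k + 1), P i (Nat.nth Nat.Prime (j + i))) ∧
        (Nat.nth Nat.Prime (j + k) : ℝ) ≤
          Nat.nth Nat.Prime j + η * Real.log (Nat.nth Nat.Prime j)}.Finite :=
      (Set.finite_lt_nat _).subset fun n hn => hn.1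
    have h6 := Set.ncard_le_ncard h4 (hfin2.union (Finset.finite_toSet _))
    have h7 := h6.trans (Set.ncard_union_le _ _)
    rw [Set.ncard_coe_finset, card_range] at h7
    have h8 : ((⌊Real.sqrt X⌋₊ : ℕ) : ℝ) ≤ Real.sqrt X := Nat.floor_le (Real.sqrt_nonneg _)
    have h9 : (({j : ℕ | ∀ i : Fin (k + 1), Nat.nth Nat.Prime (j + i) ≤ X ∧
        (Nat.nth Nat.Prime (j + i) : ℝ) ≤ Nat.nth Nat.Prime j + η / 2 * Real.log X ∧
        P i (Nat.nth Nat.Prime (j + i))}.ncard : ℕ) : ℝ) ≤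
        (({j : ℕ | j < Nat.primeCounting X ∧ (∀ i : Fin (k + 1), P i (Nat.nth Nat.Prime (j + i))) ∧
        (Nat.nth Nat.Prime (j + k) : ℝ) ≤
          Nat.nth Nat.Prime j + η * Real.log (Nat.nth Nat.Prime j)}.ncard : ℕ) : ℝ) +
          ((⌊Real.sqrt X⌋₊ : ℕ) + 1) := by exact_mod_cast h7
    have h10 := hX₁ X hXa
    have h11 := hpc X (by omega)
    have h12 : c / (2 * C) * (Nat.primeCounting X : ℕ) ≤ c / 2 * (X / Real.log X) := by
      calc c / (2 * C) * (Nat.primeCounting X : ℕ)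
          ≤ c / (2 * C) * (C * (X / Real.log X)) := by gcongr
        _ = c / 2 * (X / Real.log X) := by field_simp
    linarith
  exact (Nat.tendsto_primeCounting).frequently h2

/-- the word near a cut, counting version -/
theorem cut_count {M : ℕ} (A : Finset (Fin M)) (X : ℕ) (η : ℝ) (k r c : ℕ) (hr : r ≤ k)
    (hc1 : k + 1 ≤ c) (hc2 : c + (k + 1) ≤ A.card) (B : Fin M → Prop)
    (hB : ∀ i : Fin A.card, c - (k + 1) ≤ (i : ℕ) → (i : ℕ) < c + (k + 1) →
      (B (A.orderEmbOfFin rfl i) ↔ (i : ℕ) < c)) (P P' : ℕ → Prop) :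
    {j : ℕ | ∀ i : Fin A.card, Nat.nth Nat.Prime (j + i) ≤ X ∧
      (Nat.nth Nat.Prime (j + i) : ℝ) ≤ Nat.nth Nat.Prime j + η ∧
      (B (A.orderEmbOfFin rfl i) → P (Nat.nth Nat.Prime (j + i))) ∧
      (¬ B (A.orderEmbOfFin rfl i) → P' (Nat.nth Nat.Prime (j + i)))}.ncard ≤
    {j : ℕ | ∀ i : Fin (2 * r + 1 + 1), Nat.nth Nat.Prime (j + i) ≤ X ∧
      (Nat.nth Nat.Prime (j + i) : ℝ) ≤ Nat.nth Nat.Prime j + η ∧
      (((i : ℕ) ≤ r → P (Nat.nth Nat.Prime (j + i))) ∧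
      (¬ (i : ℕ) ≤ r → P' (Nat.nth Nat.Prime (j + i))))}.ncard := by
  have hmono := Nat.nth_strictMono Nat.infinite_setOfPred_prime
  refine Set.ncard_le_ncard_of_injOn (fun j => j + (c - (r + 1))) ?_ (fun a _ b _ h => by
    simpa using h) ?_
  · intro j hj i
    have hi := i.2
    obtain ⟨h1, h1', h2, h3⟩ := hj ⟨c - (r + 1) + i, by omega⟩
    have h4 := hB ⟨c - (r + 1) + i, by omega⟩ (by
      show c - (k + 1) ≤ c - (r + 1) + (i : ℕ)
      omega) (by
      show c - (r + 1) + (i : ℕ) < c + (k + 1)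
      omega)
    have h5 : j + (c - (r + 1)) + i = j + (c - (r + 1) + i) := by ring
    have h6 : Nat.nth Nat.Prime j ≤ Nat.nth Nat.Prime (j + (c - (r + 1))) := hmono.monotone (by omega)
    have h6' : (Nat.nth Nat.Prime j : ℝ) ≤ Nat.nth Nat.Prime (j + (c - (r + 1))) := by
      exact_mod_cast h6
    have h7 : ((⟨c - (r + 1) + i, by omega⟩ : Fin A.card) : ℕ) = c - (r + 1) + i := rfl
    rw [h7] at h1 h1' h2 h3 h4
    show Nat.nth Nat.Prime (j + (c - (r + 1)) + i) ≤ X ∧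
      (Nat.nth Nat.Prime (j + (c - (r + 1)) + i) : ℝ) ≤ Nat.nth Nat.Prime (j + (c - (r + 1))) + η ∧ _
    simp only [h5]
    refine ⟨h1, by linarith, fun h8 => h2 (h4.2 (by omega)), fun h8 => h3 (fun h9 => ?_)⟩
    have := h4.1 h9
    omega
  · exact idx_finite (by omega) X (fun i j => (Nat.nth Nat.Prime (j + i) : ℝ) ≤
      Nat.nth Nat.Prime j + η ∧ (((i : ℕ) ≤ r → P (Nat.nth Nat.Prime (j + i))) ∧
      (¬ (i : ℕ) ≤ r → P' (Nat.nth Nat.Prime (j + i)))))

/-- all words `a^(r+1) b^(r+1)` over `(ZMod Q)ˣ × T^t` are frequent -/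
def GoodF (L s Q : ℕ) {t : ℕ} (α : Fin t → ℝ) : Prop :=
  ∀ (r : ℕ) (a b : (ZMod Q)ˣ) (x y : Fin t → ℝ) (ε : ℝ), 0 < ε → ∀ η : ℝ, 0 < η →
    ∃ c : ℝ, 0 < c ∧ ∃ᶠ N : ℕ in atTop, c * N ≤
      ({j : ℕ | j < N ∧ (∀ i : Fin (2 * r + 1 + 1),
        ((i : ℕ) ≤ r → Nat.nth Nat.Prime (j + i) ≡ s [MOD L] ∧
          ((Nat.nth Nat.Prime (j + i) : ℕ) : ZMod Q) = a ∧
          ∀ l, nd (α l * Nat.nth Nat.Prime (j + i) - x l) < ε) ∧
        (¬ (i : ℕ) ≤ r → Nat.nth Nat.Prime (j + i) ≡ s [MOD L] ∧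
          ((Nat.nth Nat.Prime (j + i) : ℕ) : ZMod Q) = b ∧
          ∀ l, nd (α l * Nat.nth Nat.Prime (j + i) - y l) < ε)) ∧
        (Nat.nth Nat.Prime (j + (2 * r + 1)) : ℝ) ≤
          Nat.nth Nat.Prime j + η * Real.log (Nat.nth Nat.Prime j)}.ncard : ℝ)

/-- THEOREM R, frequency version: of two independent systems one is frequent -/
theorem two_systems_freq (L s : ℕ) (hL : 0 < L) (hs : Nat.Coprime s L) (Q Q' : ℕ) (hQ : 0 < Q)
    (hQ' : 0 < Q') (hQL : Nat.Coprime Q L) (hQL' : Nat.Coprime Q' L) (hQQ : Nat.Coprime Q Q')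
    {t t' : ℕ} (α : Fin t → ℝ) (α' : Fin t' → ℝ)
    (hcore : ∀ m : ℕ, 1 ≤ m → CoreRF (Fin.append α α') (1 / 1000) m) :
    GoodF L s Q α ∨ GoodF L s Q' α' := by
  classical
  by_contra hcon
  rw [not_or] at hcon
  obtain ⟨h1, h2⟩ := hcon
  unfold GoodF at h1 h2
  simp only [not_forall] at h1 h2
  obtain ⟨r, a, b, x, y, ε, hε, η, hη, h1⟩ := h1
  obtain ⟨r', a', b', x', y', ε', hε', η', hη', h2⟩ := h2
  obtain ⟨k, hk⟩ : ∃ k, k = max r r' := ⟨_, rfl⟩
  have hkr : r ≤ k := by rw [hk]; exact le_max_left _ _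
  have hkr' : r' ≤ k := by rw [hk]; exact le_max_right _ _
  obtain ⟨s', hs', H⟩ := hcore (4 * (84 * (k + 1))) (by omega) (min ε ε') (lt_min hε hε')
  haveI : NeZero Q := ⟨hQ.ne'⟩
  haveI : NeZero Q' := ⟨hQ'.ne'⟩
  -- the letters
  obtain ⟨B, hB⟩ : ∃ B : Fin (4 * (84 * (k + 1)) * s') → Prop,
    ∀ i, B i ↔ (i.divNat : ℕ) / (84 * (k + 1)) < 2 := ⟨_, fun _ => Iff.rfl⟩
  obtain ⟨B', hB'⟩ : ∃ B' : Fin (4 * (84 * (k + 1)) * s') → Prop,
    ∀ i, B' i ↔ ((i.divNat : ℕ) / (84 * (k + 1)) = 0 ∨ (i.divNat : ℕ) / (84 * (k + 1)) = 2) :=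
    ⟨_, fun _ => Iff.rfl⟩
  choose ρ hρ1 hρ2 hρ3 using fun i : Fin (4 * (84 * (k + 1)) * s') =>
    Pool.Agent.H21.WP.crt_nat L s 2 ![Q, Q'] hL hs (by
      intro l; fin_cases l
      · exact hQ
      · exact hQ') (by
      intro l; fin_cases l
      · exact hQL
      · exact hQL') (by
      intro l l' hl
      fin_cases l <;> fin_cases l'
      · exact absurd rfl hl
      · exact hQQ
      · exact hQQ.symm
      · exact absurd rfl hl)
      ![((if B i then a else b : (ZMod Q)ˣ) : ZMod Q).val,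
        ((if B' i then a' else b' : (ZMod Q')ˣ) : ZMod Q').val] (by
      intro l; fin_cases l
      · exact ZMod.val_coe_unit_coprime _
      · exact ZMod.val_coe_unit_coprime _)
  have hprod : L * ∏ l, (![Q, Q'] : Fin 2 → ℕ) l = L * (Q * Q') := by
    rw [Fin.prod_univ_two]
    rfl
  rw [hprod] at hρ3
  obtain ⟨A, c0, hc0, hA, hinf⟩ := H (L * (Q * Q')) (by positivity) ρ hρ3
    (fun i => Fin.append (if B i then x else y) (if B' i then x' else y')) (min η η' / 2)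
    (by positivity)
  have hval : ∀ i, ((ρ i : ℕ) : ZMod Q) = (if B i then a else b : (ZMod Q)ˣ) := fun i => by
    have h3 : ρ i ≡ ((if B i then a else b : (ZMod Q)ˣ) : ZMod Q).val [MOD Q] := hρ2 i 0
    rw [(ZMod.natCast_eq_natCast_iff _ _ _).2 h3, ZMod.natCast_zmod_val]
  have hval' : ∀ i, ((ρ i : ℕ) : ZMod Q') = (if B' i then a' else b' : (ZMod Q')ˣ) := fun i => by
    have h3 : ρ i ≡ ((if B' i then a' else b' : (ZMod Q')ˣ) : ZMod Q').val [MOD Q'] := hρ2 i 1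
    rw [(ZMod.natCast_eq_natCast_iff _ _ _).2 h3, ZMod.natCast_zmod_val]
  have hdv : L ∣ L * (Q * Q') := Dvd.intro _ rfl
  have hdv1 : Q ∣ L * (Q * Q') := (Dvd.intro _ rfl : Q ∣ Q * Q').mul_left L
  have hdv2 : Q' ∣ L * (Q * Q') := (Dvd.intro_left _ rfl : Q' ∣ Q * Q').mul_left L
  have hlogX : ∀ᶠ X : ℕ in atTop, 0 ≤ Real.log (X : ℝ) :=
    (Real.tendsto_log_atTop.comp tendsto_natCast_atTop_atTop).eventually_ge_atTop 0
  rcases cmb k s' A hA with ⟨c, hc1, hc2, hc⟩ | ⟨c, hc1, hc2, hc⟩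
  · refine h1 (dens_of (2 * r + 1) (fun i p => ((i : ℕ) ≤ r → p ≡ s [MOD L] ∧
        ((p : ℕ) : ZMod Q) = a ∧ ∀ l, nd (α l * p - x l) < ε) ∧
      (¬ (i : ℕ) ≤ r → p ≡ s [MOD L] ∧ ((p : ℕ) : ZMod Q) = b ∧
        ∀ l, nd (α l * p - y l) < ε)) hη hc0 ?_)
    refine (hinf.and_eventually hlogX).mono ?_
    rintro X ⟨hX, hX0⟩
    refine hX.trans ?_
    have hcc := cut_count A X (η / 2 * Real.log X) k r c hkr hc1 hc2 B
      (fun i hi1 hi2 => (hB _).trans (hc i hi1 hi2))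
      (fun p => p ≡ s [MOD L] ∧ ((p : ℕ) : ZMod Q) = a ∧ ∀ l, nd (α l * p - x l) < ε)
      (fun p => p ≡ s [MOD L] ∧ ((p : ℕ) : ZMod Q) = b ∧ ∀ l, nd (α l * p - y l) < ε)
    refine le_trans ?_ (Nat.cast_le.2 hcc)
    rw [Nat.cast_le]
    refine Set.ncard_le_ncard ?_ (idx_finite (by omega) X (fun i j => (Nat.nth Nat.Prime (j + i) : ℝ) ≤
      Nat.nth Nat.Prime j + η / 2 * Real.log X ∧ _ ∧ _))
    intro j hj i
    obtain ⟨h3, h3', h4, h5⟩ := hj i
    have h6 : Nat.nth Nat.Prime (j + i) ≡ s [MOD L] := (h4.of_dvd hdv).trans (hρ1 _)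
    have h7 := (ZMod.natCast_eq_natCast_iff _ _ _).2 (h4.of_dvd hdv1)
    rw [hval] at h7
    have h8 : ∀ l, nd (α l * Nat.nth Nat.Prime (j + i) -
        (if B (A.orderEmbOfFin rfl i) then x else y) l) < ε := fun l => by
      have h9 := h5 (Fin.castAdd t' l)
      rw [Fin.append_left, Fin.append_left] at h9
      exact h9.trans_le (min_le_left _ _)
    have h10 : min η η' / 2 * Real.log X ≤ η / 2 * Real.log X :=
      mul_le_mul_of_nonneg_right (by linarith [min_le_left η η']) hX0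
    refine ⟨h3, by linarith, fun hb => ?_, fun hb => ?_⟩
    · rw [if_pos hb] at h7 h8
      exact ⟨h6, h7, h8⟩
    · rw [if_neg hb] at h7 h8
      exact ⟨h6, h7, h8⟩
  · refine h2 (dens_of (2 * r' + 1) (fun i p => ((i : ℕ) ≤ r' → p ≡ s [MOD L] ∧
        ((p : ℕ) : ZMod Q') = a' ∧ ∀ l, nd (α' l * p - x' l) < ε') ∧
      (¬ (i : ℕ) ≤ r' → p ≡ s [MOD L] ∧ ((p : ℕ) : ZMod Q') = b' ∧
        ∀ l, nd (α' l * p - y' l) < ε')) hη' hc0 ?_)
    refine (hinf.and_eventually hlogX).mono ?_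
    rintro X ⟨hX, hX0⟩
    refine hX.trans ?_
    have hcc := cut_count A X (η' / 2 * Real.log X) k r' c hkr' hc1 hc2 B'
      (fun i hi1 hi2 => (hB' _).trans (hc i hi1 hi2))
      (fun p => p ≡ s [MOD L] ∧ ((p : ℕ) : ZMod Q') = a' ∧ ∀ l, nd (α' l * p - x' l) < ε')
      (fun p => p ≡ s [MOD L] ∧ ((p : ℕ) : ZMod Q') = b' ∧ ∀ l, nd (α' l * p - y' l) < ε')
    refine le_trans ?_ (Nat.cast_le.2 hcc)
    rw [Nat.cast_le]
    refine Set.ncard_le_ncard ?_ (idx_finite (by omega) X (fun i j => (Nat.nth Nat.Prime (j + i) : ℝ) ≤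
      Nat.nth Nat.Prime j + η' / 2 * Real.log X ∧ _ ∧ _))
    intro j hj i
    obtain ⟨h3, h3', h4, h5⟩ := hj i
    have h6 : Nat.nth Nat.Prime (j + i) ≡ s [MOD L] := (h4.of_dvd hdv).trans (hρ1 _)
    have h7 := (ZMod.natCast_eq_natCast_iff _ _ _).2 (h4.of_dvd hdv2)
    rw [hval'] at h7
    have h8 : ∀ l, nd (α' l * Nat.nth Nat.Prime (j + i) -
        (if B' (A.orderEmbOfFin rfl i) then x' else y') l) < ε' := fun l => by
      have h9 := h5 (Fin.natAdd t l)
      rw [Fin.append_right, Fin.append_right] at h9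
      exact h9.trans_le (min_le_right _ _)
    have h10 : min η η' / 2 * Real.log X ≤ η' / 2 * Real.log X :=
      mul_le_mul_of_nonneg_right (by linarith [min_le_right η η']) hX0
    refine ⟨h3, by linarith, fun hb => ?_, fun hb => ?_⟩
    · rw [if_pos hb] at h7 h8
      exact ⟨h6, h7, h8⟩
    · rw [if_neg hb] at h7 h8
      exact ⟨h6, h7, h8⟩

end Pool.Agent.H95.RO
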