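import Pool.Agent.H95.RO.Fin2
import Pool.Agent.H95.RO.Fqd
import Pool.Agent.H96.RO.Fin

/-!
# [H95 RO FIN3] MP_8923e7_nt, THEOREM R: final forms with frequencies
-/

set_option autoImplicit false

namespace Pool.Agent.H95.RO

open Finset Filter

/-- of two independent systems one is frequent -/
theorem pair_freq (L s : ℕ) (hL : 0 < L) (hs : Nat.Coprime s L) (Q Q' : ℕ) (hQ : 0 < Q)
    (hQ' : 0 < Q') (hQL : Nat.Coprime Q L) (hQL' : Nat.Coprime Q' L) (hQQ : Nat.Coprime Q Q')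
    {t t' : ℕ} (α : Fin t → ℝ) (α' : Fin t' → ℝ) (hg : Gen (Fin.append α α')) :
    GoodF L s Q α ∨ GoodF L s Q' α' :=
  two_systems_freq L s hL hs Q Q' hQ hQ' hQL hQL' hQQ α α' fun m hm =>
    Pool.Agent.H96.RO.coreRF_of _ hg.1 (scl_gen _ hg.1 hg.2) (1 / 1000) (by norm_num) m hm

/-- all systems with one rotation are frequent, apart from one modulus and one line -/
theorem one_line_freq (L s : ℕ) (hL : 0 < L) (hs : Nat.Coprime s L) : ∃ (Q₀ : ℕ) (α₀ : ℝ), 0 < Q₀ ∧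
    ∀ Q : ℕ, 0 < Q → Nat.Coprime Q L → Nat.Coprime Q Q₀ → ∀ α : ℝ, ¬ Liouville α →
      (∀ u v : ℚ, α ≠ u * α₀ + v) → GoodF L s Q (fun _ : Fin 1 => α) := by
  by_cases h : ∃ (Q₀ : ℕ) (α₀ : ℝ), 0 < Q₀ ∧ Nat.Coprime Q₀ L ∧ Irrational α₀ ∧ ¬ Liouville α₀ ∧
      ¬ GoodF L s Q₀ (fun _ : Fin 1 => α₀)
  · obtain ⟨Q₀, α₀, h1, h2, h3, h4, h5⟩ := h
    refine ⟨Q₀, α₀, h1, fun Q hQ hQL hQQ α _ hαl => ?_⟩
    exact (pair_freq L s hL hs Q₀ Q h1 hQ h2 hQL hQQ.symm (fun _ : Fin 1 => α₀) (fun _ : Fin 1 => α)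
      (gen_two h3 hαl (Or.inl h4))).resolve_left h5
  · push Not at h
    refine ⟨1, 0, one_pos, fun Q hQ hQL _ α hα hαl => h Q α hQ hQL ?_ hα⟩
    rintro ⟨v, hv⟩
    apply hαl 0 v
    rw [← hv]
    simp

end Pool.Agent.H95.RO
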