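import Pool.Agent.H95.RO.Exc1

/-!
# [H95 RO FIN4] MP_8923e7_nt, THEOREM R for all words: final forms, from the core statements
-/

set_option autoImplicit false

namespace Pool.Agent.H95.RO

open Finset Filter Pool.Agent.H96.RW

theorem genI_inj {ι κ : Type} [Fintype ι] [Fintype κ] (g : κ → ι) (hg : Function.Injective g)
    {γ : ι → ℝ} (h : GenI γ) : GenI (fun x => γ (g x)) := by
  classical
  have hsum : ∀ z : κ → ℤ, ∑ i, ((Function.extend g z 0 i : ℤ) : ℝ) * γ i = ∑ x, (z x : ℝ) * γ (g x) := by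
    intro z
    symm
    refine Fintype.sum_of_injective g hg _ _ (fun i hi => ?_) (fun x => ?_)
    · rw [Function.extend_apply' _ _ _ (fun ⟨x, hx⟩ => hi ⟨x, hx⟩)]
      simp
    · rw [hg.extend_apply]
  constructor
  · intro z z₀ hz
    have h1 := h.1 (Function.extend g z 0) z₀ (by rw [hsum, hz])
    funext x
    have h2 := congrFun h1 (g x)
    rw [hg.extend_apply] at h2
    exact h2
  · rintro z z' ⟨i, j, hij⟩
    obtain ⟨a, b, ⟨i', hi'⟩, hab⟩ := h.2 (Function.extend g z 0) (Function.extend g z' 0)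
      ⟨g i, g j, by simpa only [hg.extend_apply] using hij⟩
    refine ⟨a, b, ?_, ?_⟩
    · by_cases hx : ∃ x, g x = i'
      · obtain ⟨x, rfl⟩ := hx
        refine ⟨x, ?_⟩
        simpa only [hg.extend_apply] using hi'
      · exfalso
        apply hi'
        rw [Function.extend_apply' _ _ _ hx, Function.extend_apply' _ _ _ hx]
        simp
    · intro hL
      apply hab
      have h3 : ∀ i, ((a * Function.extend g z 0 i + b * Function.extend g z' 0 i : ℤ) : ℝ) * γ i =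
          ((Function.extend g (fun x => a * z x + b * z' x) 0 i : ℤ) : ℝ) * γ i := by
        intro i
        congr 2
        by_cases hx : ∃ x, g x = i
        · obtain ⟨x, rfl⟩ := hx
          rw [hg.extend_apply, hg.extend_apply, hg.extend_apply]
        · rw [Function.extend_apply' _ _ _ hx, Function.extend_apply' _ _ _ hx,
            Function.extend_apply' _ _ _ hx]
          simp
      rw [Finset.sum_congr rfl fun i _ => h3 i, hsum]
      exact hL

/-- a property which holds for one member of every generic family of `T` systems, twice -/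
theorem both_of (L T : ℕ) (P P' : ∀ d : ℕ, ℕ → (Fin d → ℝ) → Prop)
    (hfam : ∀ (Q : Fin T → ℕ) (d : Fin T → ℕ) (α : ∀ i, Fin (d i) → ℝ), (∀ i, 0 < Q i) →
      (∀ i, Nat.Coprime (Q i) L) → (∀ i j, i ≠ j → Nat.Coprime (Q i) (Q j)) →
      GenI (fun x : Σ i, Fin (d i) => α x.1 x.2) →
        (∃ i, P (d i) (Q i) (α i)) ∧ ∃ i, P' (d i) (Q i) (α i))
    (Q : Fin (2 * T) → ℕ) (d : Fin (2 * T) → ℕ) (α : ∀ i, Fin (d i) → ℝ) (hQ : ∀ i, 0 < Q i)
    (hQL : ∀ i, Nat.Coprime (Q i) L) (hQQ : ∀ i j, i ≠ j → Nat.Coprime (Q i) (Q j))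
    (hg : GenI (fun x : Σ i, Fin (d i) => α x.1 x.2)) (hT : 0 < T) :
    ∃ i, P (d i) (Q i) (α i) ∧ P' (d i) (Q i) (α i) := by
  classical
  -- restriction to a subfamily
  have hsub : ∀ S : Finset (Fin (2 * T)), T ≤ S.card →
      (∃ i ∈ S, P (d i) (Q i) (α i)) ∧ ∃ i ∈ S, P' (d i) (Q i) (α i) := by
    intro S hS
    obtain ⟨S', hS', hc⟩ := Finset.exists_subset_card_eq hS
    obtain ⟨g, hg0⟩ : ∃ g : Fin T → Fin (2 * T), g = S'.orderEmbOfFin hc := ⟨_, rfl⟩
    have hgi : Function.Injective g := by rw [hg0]; exact (S'.orderEmbOfFin hc).injective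
    have hgS : ∀ i, g i ∈ S := fun i => by
      rw [hg0]
      exact hS' (S'.orderEmbOfFin_mem hc i)
    have h1 := hfam (fun i => Q (g i)) (fun i => d (g i)) (fun i => α (g i)) (fun i => hQ _)
      (fun i => hQL _) (fun i j hij => hQQ _ _ fun h => hij (hgi h))
      (genI_inj (fun x : Σ i : Fin T, Fin (d (g i)) => (⟨g x.1, x.2⟩ : Σ i, Fin (d i))) (by
        rintro ⟨i, l⟩ ⟨j, l'⟩ h
        have h2 : i = j := hgi (congrArg Sigma.fst h)
        subst h2
        simpa using h) hg)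
    obtain ⟨⟨i, hi⟩, ⟨j, hj⟩⟩ := h1
    exact ⟨⟨g i, hgS i, hi⟩, ⟨g j, hgS j, hj⟩⟩
  by_contra hcon
  push Not at hcon
  -- the bad ones
  obtain ⟨A, hA⟩ : ∃ A : Finset (Fin (2 * T)), ∀ i, i ∈ A ↔ ¬ P (d i) (Q i) (α i) :=
    ⟨univ.filter (fun i => ¬ P (d i) (Q i) (α i)), fun i => by simp⟩
  obtain ⟨B, hB⟩ : ∃ B : Finset (Fin (2 * T)), ∀ i, i ∈ B ↔ ¬ P' (d i) (Q i) (α i) :=
    ⟨univ.filter (fun i => ¬ P' (d i) (Q i) (α i)), fun i => by simp⟩
  have h1 : A.card < T := by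
    by_contra h2
    push Not at h2
    obtain ⟨⟨i, hi, hi2⟩, -⟩ := hsub A h2
    exact (hA i).1 hi hi2
  have h2 : B.card < T := by
    by_contra h2
    push Not at h2
    obtain ⟨-, ⟨i, hi, hi2⟩⟩ := hsub B h2
    exact (hB i).1 hi hi2
  have h3 : (univ : Finset (Fin (2 * T))) ⊆ A ∪ B := by
    intro i _
    rw [mem_union, hA, hB]
    by_cases h4 : P (d i) (Q i) (α i)
    · exact Or.inr (hcon i h4)
    · exact Or.inl h4
  have h4 := (card_le_card h3).trans (card_union_le _ _)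
  rw [card_univ, Fintype.card_fin] at h4
  omega

/-- THEOREM R for all words: one of any `T k` systems has all words of length `k + 1` -/
theorem all_words_of (hcore : ∀ k : ℕ, ∃ n : ℕ, ∀ (t : ℕ) (α : Fin t → ℝ), Ind α → Scl α →
    CoreW α k n ∧ CoreWF α k n) : ∃ T : ℕ → ℕ, ∀ k L s : ℕ, 0 < L → Nat.Coprime s L →
    ∀ (Q : Fin (T k) → ℕ) (d : Fin (T k) → ℕ) (α : ∀ i, Fin (d i) → ℝ), (∀ i, 0 < Q i) →
      (∀ i, Nat.Coprime (Q i) L) → (∀ i j, i ≠ j → Nat.Coprime (Q i) (Q j)) →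
      GenI (fun x : Σ i, Fin (d i) => α x.1 x.2) →
        ∃ i, AllR k L s (Q i) (α i) ∧ AllF k L s (Q i) (α i) := by
  choose n hn using hcore
  refine ⟨fun k => 2 * (k + 1) ^ n k, fun k L s hL hs Q d α hQ hQL hQQ hg => ?_⟩
  have e : (Fin (n k) → Fin (k + 1)) ≃ Fin ((k + 1) ^ n k) :=
    Fintype.equivFinOfCardEq (by rw [Fintype.card_fun, Fintype.card_fin, Fintype.card_fin])
  exact both_of L ((k + 1) ^ n k) (fun _ Q α => AllR k L s Q α) (fun _ Q α => AllF k L s Q α)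
    (fun Q d α hQ hQL hQQ hg => by
      obtain ⟨h1, h2⟩ := scl_joint α hg
      obtain ⟨h3, h4⟩ := hn k _ (joint α) h1 h2
      exact ⟨fam_all k (n k) _ e L s hL hs Q hQ hQL hQQ d α h3,
        fam_freq k (n k) _ e L s hL hs Q hQ hQL hQQ d α h4⟩) Q d α hQ hQL hQQ hg (by positivity)

end Pool.Agent.H95.RO
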