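import Pool.Agent.H95.RO.Fqd
import Pool.Agent.H95.RO.Scg
import Pool.Agent.H96.RW.Dc

/-!
# [H95 RO FW] MP_8923e7_nt, THEOREM R for all words: from the core statements of helper96 to families of systems
-/

set_option autoImplicit false

namespace Pool.Agent.H95.RO

open Finset Filter Pool.Agent.H96.RW

/-- all words of length `k + 1` over `(ZMod Q)ˣ × T^t` occur in bounded windows -/
def AllR (k L s Q : ℕ) {t : ℕ} (α : Fin t → ℝ) : Prop :=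
  ∀ (w : Fin (k + 1) → (ZMod Q)ˣ) (y : Fin (k + 1) → Fin t → ℝ) (ε : ℝ), 0 < ε → ∃ C : ℕ,
    {j : ℕ | ∀ i : Fin (k + 1), Nat.nth Nat.Prime (j + i) ≤ Nat.nth Nat.Prime j + C ∧
      (Nat.nth Nat.Prime (j + i) ≡ s [MOD L] ∧ ((Nat.nth Nat.Prime (j + i) : ℕ) : ZMod Q) = w i ∧
        ∀ l, nd (α l * Nat.nth Nat.Prime (j + i) - y i l) < ε)}.Infinite

/-- all words of length `k + 1` over `(ZMod Q)ˣ × T^t` are frequent -/
def AllF (k L s Q : ℕ) {t : ℕ} (α : Fin t → ℝ) : Prop :=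
  ∀ (w : Fin (k + 1) → (ZMod Q)ˣ) (y : Fin (k + 1) → Fin t → ℝ) (ε : ℝ), 0 < ε → ∀ η : ℝ, 0 < η →
    ∃ c : ℝ, 0 < c ∧ ∃ᶠ N : ℕ in atTop, c * N ≤
      ({j : ℕ | j < N ∧ (∀ i : Fin (k + 1),
        Nat.nth Nat.Prime (j + i) ≡ s [MOD L] ∧ ((Nat.nth Nat.Prime (j + i) : ℕ) : ZMod Q) = w i ∧
          ∀ l, nd (α l * Nat.nth Nat.Prime (j + i) - y i l) < ε) ∧
        (Nat.nth Nat.Prime (j + k) : ℝ) ≤
          Nat.nth Nat.Prime j + η * Real.log (Nat.nth Nat.Prime j)}.ncard : ℝ)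

/-- the joint rotation of a family -/
def joint {T : ℕ} {d : Fin T → ℕ} (α : ∀ i, Fin (d i) → ℝ) : Fin (∑ i, d i) → ℝ :=
  fun l => α (finSigmaFinEquiv.symm l).1 (finSigmaFinEquiv.symm l).2

theorem joint_at {T : ℕ} {d : Fin T → ℕ} (α : ∀ i, Fin (d i) → ℝ) (i : Fin T) (l : Fin (d i)) :
    joint α (finSigmaFinEquiv ⟨i, l⟩) = α i l := by
  unfold joint
  rw [Equiv.symm_apply_apply]

/-- the Chinese remainder theorem for the cells -/
theorem cells (k n T L s : ℕ) (hL : 0 < L) (hs : Nat.Coprime s L) (Q : Fin T → ℕ)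
    (hQ : ∀ i, 0 < Q i) (hQL : ∀ i, Nat.Coprime (Q i) L)
    (hQQ : ∀ i j, i ≠ j → Nat.Coprime (Q i) (Q j)) (f : Fin T → Fin n → Fin (k + 1))
    (w : ∀ i, Fin (k + 1) → (ZMod (Q i))ˣ) :
    ∃ ρ : Fin n → ℕ, (∀ c, Nat.Coprime (ρ c) (L * ∏ i, Q i)) ∧ (∀ c, ρ c ≡ s [MOD L]) ∧
      ∀ c i p, p ≡ ρ c [MOD (L * ∏ i, Q i)] → p ≡ s [MOD L] ∧ ((p : ℕ) : ZMod (Q i)) = w i (f i c) := by
  haveI : ∀ i, NeZero (Q i) := fun i => ⟨(hQ i).ne'⟩
  choose ρ hρ1 hρ2 hρ3 using fun c : Fin n => Pool.Agent.H21.WP.crt_nat L s T Q hL hs hQ hQL hQQ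
    (fun i => ((w i (f i c) : (ZMod (Q i))ˣ) : ZMod (Q i)).val)
    (fun i => ZMod.val_coe_unit_coprime (w i (f i c)))
  refine ⟨ρ, hρ3, hρ1, fun c i p hp => ⟨(hp.of_dvd (Dvd.intro _ rfl)).trans (hρ1 c), ?_⟩⟩
  have h4 : Q i ∣ L * ∏ i, Q i := (Finset.dvd_prod_of_mem Q (mem_univ i)).mul_left L
  have h5 := (hp.of_dvd h4).trans (hρ2 c i)
  rw [(ZMod.natCast_eq_natCast_iff _ _ _).2 h5, ZMod.natCast_zmod_val]

theorem fam_all (k n T : ℕ) (e : (Fin n → Fin (k + 1)) ≃ Fin T) (L s : ℕ) (hL : 0 < L)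
    (hs : Nat.Coprime s L) (Q : Fin T → ℕ) (hQ : ∀ i, 0 < Q i) (hQL : ∀ i, Nat.Coprime (Q i) L)
    (hQQ : ∀ i j, i ≠ j → Nat.Coprime (Q i) (Q j)) (d : Fin T → ℕ) (α : ∀ i, Fin (d i) → ℝ)
    (hcore : CoreW (joint α) k n) : ∃ i, AllR k L s (Q i) (α i) := by
  classical
  by_contra hcon
  unfold AllR at hcon
  simp only [not_exists, not_forall] at hcon
  choose w y ε hε h1 using hcon
  haveI : Nonempty (Fin T) := ⟨e fun _ => 0⟩
  obtain ⟨i₀, hi₀⟩ := Finite.exists_min ε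
  obtain ⟨ρ, hρ, -, hρ2⟩ := cells k n T L s hL hs Q hQ hQL hQQ (fun i => e.symm i) w
  obtain ⟨q, C, hq, hinf⟩ := hcore (ε i₀) (hε i₀) (L * ∏ i, Q i)
    (Nat.mul_pos hL (Finset.prod_pos fun i _ => hQ i)) ρ hρ
    (fun c => joint (fun i l => y i (e.symm i c) l))
  have hf : ∀ i, Function.invFun q (q i) = i := Function.leftInverse_invFun hq.injective
  refine h1 (e (Function.invFun q)) C (hinf.mono fun j hj i => ?_)
  obtain ⟨h2, h3, h4⟩ := hj i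
  obtain ⟨h5, h6⟩ := hρ2 (q i) (e (Function.invFun q)) _ h3
  rw [Equiv.symm_apply_apply, hf] at h6
  refine ⟨h2, h5, h6, fun l => ?_⟩
  have h7 := h4 (finSigmaFinEquiv ⟨e (Function.invFun q), l⟩)
  rw [joint_at, joint_at, Equiv.symm_apply_apply, hf] at h7
  exact h7.trans_le (hi₀ _)

theorem fam_freq (k n T : ℕ) (e : (Fin n → Fin (k + 1)) ≃ Fin T) (L s : ℕ) (hL : 0 < L)
    (hs : Nat.Coprime s L) (Q : Fin T → ℕ) (hQ : ∀ i, 0 < Q i) (hQL : ∀ i, Nat.Coprime (Q i) L)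
    (hQQ : ∀ i j, i ≠ j → Nat.Coprime (Q i) (Q j)) (d : Fin T → ℕ) (α : ∀ i, Fin (d i) → ℝ)
    (hcore : CoreWF (joint α) k n) : ∃ i, AllF k L s (Q i) (α i) := by
  classical
  by_contra hcon
  unfold AllF at hcon
  simp only [not_exists, not_forall] at hcon
  choose w y ε hε η hη h1 using hcon
  haveI : Nonempty (Fin T) := ⟨e fun _ => 0⟩
  obtain ⟨i₀, hi₀⟩ := Finite.exists_min ε
  obtain ⟨i₁, hi₁⟩ := Finite.exists_min η
  obtain ⟨ρ, hρ, -, hρ2⟩ := cells k n T L s hL hs Q hQ hQL hQQ (fun i => e.symm i) w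
  obtain ⟨q, c, hq, hc, hinf⟩ := hcore (ε i₀) (hε i₀) (L * ∏ i, Q i)
    (Nat.mul_pos hL (Finset.prod_pos fun i _ => hQ i)) ρ hρ
    (fun c => joint (fun i l => y i (e.symm i c) l)) (η i₁ / 2) (by linarith [hη i₁])
  have hf : ∀ i, Function.invFun q (q i) = i := Function.leftInverse_invFun hq.injective
  have hlogX : ∀ᶠ X : ℕ in atTop, 0 ≤ Real.log (X : ℝ) :=
    (Real.tendsto_log_atTop.comp tendsto_natCast_atTop_atTop).eventually_ge_atTop 0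
  obtain ⟨i, hi⟩ : ∃ i, i = e (Function.invFun q) := ⟨_, rfl⟩
  obtain ⟨c', hc', h8⟩ := dens_of k (fun i' p => p ≡ s [MOD L] ∧ ((p : ℕ) : ZMod (Q i)) = w i i' ∧
    ∀ l, nd (α i l * p - y i i' l) < ε i) (hη i) hc (by
    refine (hinf.and_eventually hlogX).mono ?_
    rintro X ⟨hX, hX0⟩
    refine hX.trans ?_
    rw [Nat.cast_le]
    refine Set.ncard_le_ncard ?_ (idx_finite (by omega) X (fun i' j => (Nat.nth Nat.Prime (j + i') : ℝ) ≤
      Nat.nth Nat.Prime j + η i / 2 * Real.log X ∧ _))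
    intro j hj i'
    obtain ⟨h2, h2', h3, h4⟩ := hj i'
    obtain ⟨h5, h6⟩ := hρ2 (q i') i _ h3
    have h9 : e.symm i (q i') = i' := by rw [hi, Equiv.symm_apply_apply, hf]
    rw [h9] at h6
    have h10 : η i₁ / 2 * Real.log X ≤ η i / 2 * Real.log X :=
      mul_le_mul_of_nonneg_right (by linarith [hi₁ i]) hX0
    refine ⟨h2, by linarith, h5, h6, fun l => ?_⟩
    have h7 := h4 (finSigmaFinEquiv ⟨i, l⟩)
    rw [joint_at, joint_at, h9] at h7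
    exact h7.trans_le (hi₀ _))
  exact h1 i c' ⟨hc', h8⟩

/-- genericity, for every finite index type -/
def GenI {ι : Type} [Fintype ι] (γ : ι → ℝ) : Prop :=
  (∀ (z : ι → ℤ) (z₀ : ℤ), ∑ i, (z i : ℝ) * γ i = z₀ → z = 0) ∧
  ∀ z z' : ι → ℤ, (∃ i j, z i * z' j ≠ z' i * z j) → ∃ a b : ℤ,
    (∃ i, a * z i + b * z' i ≠ 0) ∧ ¬ Liouville (∑ i, ((a * z i + b * z' i : ℤ) : ℝ) * γ i)

theorem genI_equiv {ι κ : Type} [Fintype ι] [Fintype κ] (e : κ ≃ ι) {γ : ι → ℝ} (h : GenI γ) :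
    GenI (fun x => γ (e x)) := by
  constructor
  · intro z z₀ hz
    have h1 := h.1 (fun i => z (e.symm i)) z₀ (by
      rw [← hz, ← e.sum_comp]
      exact Finset.sum_congr rfl fun x _ => by rw [Equiv.symm_apply_apply])
    funext x
    have h2 := congrFun h1 (e x)
    simp only [Equiv.symm_apply_apply] at h2
    exact h2
  · rintro z z' ⟨i, j, hij⟩
    obtain ⟨a, b, ⟨i', hi'⟩, hab⟩ := h.2 (fun i => z (e.symm i)) (fun i => z' (e.symm i))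
      ⟨e i, e j, by simpa only [Equiv.symm_apply_apply] using hij⟩
    refine ⟨a, b, ⟨e.symm i', hi'⟩, ?_⟩
    rw [← e.sum_comp] at hab
    simpa only [Equiv.symm_apply_apply] using hab

theorem scl_joint {T : ℕ} {d : Fin T → ℕ} (α : ∀ i, Fin (d i) → ℝ)
    (h : GenI (fun x : Σ i, Fin (d i) => α x.1 x.2)) : Ind (joint α) ∧ Scl (joint α) := by
  have h1 : GenI (joint α) := genI_equiv finSigmaFinEquiv.symm h
  exact ⟨h1.1, scl_gen _ h1.1 h1.2⟩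

/-- a combination of algebraic numbers is not a Liouville number -/
theorem gen_alg {ι : Type} [Fintype ι] {γ : ι → ℝ} (ha : ∀ i, IsAlgebraic ℚ (γ i))
    (h : ∀ (z : ι → ℤ) (z₀ : ℤ), ∑ i, (z i : ℝ) * γ i = z₀ → z = 0) : GenI γ := by
  refine ⟨h, fun z z' hz => ⟨1, 0, ?_, ?_⟩⟩
  · by_contra hcon
    push Not at hcon
    obtain ⟨i, j, hij⟩ := hz
    apply hij
    have h1 := hcon i
    have h2 := hcon j
    simp only [one_mul, zero_mul, add_zero] at h1 h2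
    rw [h1, h2]
    ring
  · intro hL
    have h1 := hL.transcendental
    apply h1
    have h2 : IsAlgebraic ℚ (∑ i, ((1 * z i + 0 * z' i : ℤ) : ℝ) * γ i) := by
      refine (IsIntegral.sum _ fun i _ => ?_).isAlgebraic
      exact ((isAlgebraic_int (R := ℚ) (A := ℝ) _).mul (ha i)).isIntegral
    exact (IsFractionRing.isAlgebraic_iff ℤ ℚ ℝ).2 h2

end Pool.Agent.H95.RO
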