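import Pool.Agent.H95.RO.Fw

/-!
# [H95 RO MEA] MP_8923e7_nt: a positive proportion of the words of every system, measure theory
-/

set_option autoImplicit false

namespace Pool.Agent.H95.RO

open Finset MeasureTheory

/-- selecting coordinates preserves product probability measures -/
theorem pi_comp {X : Type} [MeasurableSpace X] (μ : Measure X) [IsProbabilityMeasure μ] {n m : ℕ}
    (q : Fin m → Fin n) (hq : Function.Injective q) :
    (Measure.pi (fun _ : Fin n => μ)).map (fun y => y ∘ q) = Measure.pi (fun _ : Fin m => μ) := by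
  classical
  have hmeas : Measurable (fun y : Fin n → X => y ∘ q) :=
    measurable_pi_lambda _ fun j => measurable_pi_apply (q j)
  symm
  refine Measure.pi_eq fun s hs => ?_
  rw [Measure.map_apply hmeas (MeasurableSet.univ_pi hs)]
  have h1 : (fun y : Fin n → X => y ∘ q) ⁻¹' (Set.univ.pi s) =
      Set.univ.pi (fun i : Fin n => if h : ∃ j, q j = i then s h.choose else Set.univ) := by
    ext y
    simp only [Set.mem_preimage, Set.mem_univ_pi, Function.comp]
    constructor
    · intro h i
      split_ifs with h2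
      · have h3 := h h2.choose
        rw [h2.choose_spec] at h3
        exact h3
      · trivial
    · intro h j
      have h2 := h (q j)
      have h3 : ∃ j', q j' = q j := ⟨j, rfl⟩
      rw [dif_pos h3] at h2
      have h4 : h3.choose = j := hq h3.choose_spec
      rw [h4] at h2
      exact h2
  rw [h1, Measure.pi_pi]
  symm
  refine Fintype.prod_of_injective q hq _ _ (fun i hi => ?_) (fun j => ?_)
  · rw [dif_neg (fun h => hi (by obtain ⟨j, hj⟩ := h; exact ⟨j, hj⟩))]
    exact measure_univ
  · have h3 : ∃ j', q j' = q j := ⟨j, rfl⟩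
    rw [dif_pos h3]
    have h4 : h3.choose = j := hq h3.choose_spec
    rw [h4]

/-- the maps with prescribed values at `m` places -/
theorem card_fib {G : Type} [Fintype G] [DecidableEq G] {n m : ℕ} (q : Fin m → Fin n)
    (hq : Function.Injective q) (w : Fin m → G) :
    (univ.filter (fun g : Fin n → G => g ∘ q = w)).card = Fintype.card G ^ (n - m) := by
  classical
  have e : {g : Fin n → G // g ∘ q = w} ≃ ({x : Fin n // ¬ ∃ j, q j = x} → G) :=
    { toFun := fun g x => g.1 x.1
      invFun := fun u => ⟨fun i => if h : ∃ j, q j = i then w h.choose else u ⟨i, h⟩, by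
        funext j
        have h3 : ∃ j', q j' = q j := ⟨j, rfl⟩
        show (if h : ∃ j', q j' = q j then w h.choose else u ⟨q j, h⟩) = w j
        rw [dif_pos h3]
        congr 1
        exact hq h3.choose_spec⟩
      left_inv := by
        rintro ⟨g, hg⟩
        apply Subtype.ext
        funext i
        show (if h : ∃ j, q j = i then w h.choose else g i) = g i
        split_ifs with h
        · have h2 := congrFun hg h.choose
          rw [← h2]
          show g (q h.choose) = g i
          rw [h.choose_spec]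
        · rfl
      right_inv := by
        intro u
        funext x
        show (if h : ∃ j, q j = x.1 then w h.choose else u ⟨x.1, h⟩) = u x
        rw [dif_neg x.2] }
  have h1 : Fintype.card {x : Fin n // ¬ ∃ j, q j = x} = n - m := by
    rw [Fintype.card_subtype_compl, Fintype.card_fin]
    congr 1
    have h2 : Fintype.card {x : Fin n // ∃ j, q j = x} = Fintype.card (Fin m) := by
      exact Fintype.card_congr (Equiv.ofInjective q hq).symm
    rw [h2, Fintype.card_fin]
  rw [← Fintype.card_subtype, Fintype.card_congr e, Fintype.card_fun, h1]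

theorem sum_comp_inj {G : Type} [Fintype G] [DecidableEq G] {n m : ℕ} (q : Fin m → Fin n)
    (hq : Function.Injective q) (F : (Fin m → G) → ENNReal) :
    ∑ g : Fin n → G, F (g ∘ q) = (Fintype.card G : ENNReal) ^ (n - m) * ∑ w, F w := by
  classical
  have h1 : ∑ g : Fin n → G, F (g ∘ q) =
      ∑ w, ∑ g ∈ univ.filter (fun g : Fin n → G => g ∘ q = w), F (g ∘ q) :=
    (sum_fiberwise _ _ _).symm
  rw [h1, mul_sum]
  refine sum_congr rfl fun w _ => ?_
  have h2 : ∀ g ∈ univ.filter (fun g : Fin n → G => g ∘ q = w), F (g ∘ q) = F w := fun g hg => by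
    rw [(mem_filter.1 hg).2]
  rw [sum_congr rfl h2, sum_const, card_fib q hq w, nsmul_eq_mul]
  push_cast
  rfl

/-- covering by the choices of `k + 1` cells -/
theorem cover_one {X : Type} [MeasurableSpace X] (μ : Measure X) [IsProbabilityMeasure μ] {n k : ℕ}
    (O : Finset (Fin n) → Set (Fin (k + 1) → X))
    (h : ∀ y : Fin n → X, ∃ S : Finset (Fin n), ∃ hS : S.card = k + 1,
      y ∘ S.orderEmbOfFin hS ∈ O S) :
    1 ≤ ∑ S ∈ powersetCard (k + 1) (univ : Finset (Fin n)), Measure.pi (fun _ => μ) (O S) := by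
  classical
  have h1 : (Set.univ : Set (Fin n → X)) ⊆ ⋃ S ∈ powersetCard (k + 1) (univ : Finset (Fin n)),
      {y : Fin n → X | ∃ hS : S.card = k + 1, y ∘ S.orderEmbOfFin hS ∈ O S} := by
    intro y _
    obtain ⟨S, hS, hO⟩ := h y
    rw [Set.mem_iUnion₂]
    exact ⟨S, mem_powersetCard.2 ⟨subset_univ _, hS⟩, hS, hO⟩
  have h2 : (1 : ENNReal) = Measure.pi (fun _ : Fin n => μ) Set.univ := measure_univ.symm
  rw [h2]
  refine (measure_mono h1).trans ((measure_biUnion_finset_le _ _).trans (sum_le_sum fun S hS => ?_))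
  have hc : S.card = k + 1 := (mem_powersetCard.1 hS).2
  have h3 : {y : Fin n → X | ∃ hS : S.card = k + 1, y ∘ S.orderEmbOfFin hS ∈ O S} =
      (fun y : Fin n → X => y ∘ S.orderEmbOfFin hc) ⁻¹' (O S) := by
    ext y
    constructor
    · rintro ⟨_, h4⟩
      exact h4
    · intro h4
      exact ⟨hc, h4⟩
  rw [h3]
  have hmeas : Measurable (fun y : Fin n → X => y ∘ S.orderEmbOfFin hc) :=
    measurable_pi_lambda _ fun j => measurable_pi_apply (S.orderEmbOfFin hc j)
  refine (Measure.le_map_apply hmeas.aemeasurable (O S)).trans (le_of_eq ?_)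
  rw [pi_comp μ _ (S.orderEmbOfFin hc).injective]

/-- a positive proportion of the words -/
theorem cover {X G : Type} [MeasurableSpace X] (μ : Measure X) [IsProbabilityMeasure μ] [Fintype G]
    [Nonempty G] {n k : ℕ} (hkn : k + 1 ≤ n) (O : (Fin (k + 1) → G) → Set (Fin (k + 1) → X))
    (h : ∀ (g : Fin n → G) (y : Fin n → X), ∃ q : Fin (k + 1) → Fin n, StrictMono q ∧
      y ∘ q ∈ O (g ∘ q)) :
    (Fintype.card G : ENNReal) ^ (k + 1) ≤
      (n.choose (k + 1) : ENNReal) * ∑ w, Measure.pi (fun _ => μ) (O w) := by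
  classical
  have hG : 0 < Fintype.card G := Fintype.card_pos
  have h1 : ∀ g : Fin n → G, 1 ≤ ∑ S ∈ powersetCard (k + 1) (univ : Finset (Fin n)),
      Measure.pi (fun _ => μ) (if hS : S.card = k + 1 then O (g ∘ S.orderEmbOfFin hS) else ∅) := by
    intro g
    refine cover_one μ (fun S => if hS : S.card = k + 1 then O (g ∘ S.orderEmbOfFin hS) else ∅) ?_
    intro y
    obtain ⟨q, hq, hO⟩ := h g y
    have hS : (univ.image q).card = k + 1 := by
      rw [card_image_of_injective _ hq.injective, card_univ, Fintype.card_fin]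
    have h1 : q = (univ.image q).orderEmbOfFin hS :=
      Finset.orderEmbOfFin_unique hS (fun x => mem_image_of_mem q (mem_univ x)) hq
    refine ⟨univ.image q, hS, ?_⟩
    rw [dif_pos hS, ← h1]
    exact hO
  have h2 : (Fintype.card G : ENNReal) ^ n ≤ ∑ g : Fin n → G,
      ∑ S ∈ powersetCard (k + 1) (univ : Finset (Fin n)),
        Measure.pi (fun _ => μ) (if hS : S.card = k + 1 then O (g ∘ S.orderEmbOfFin hS) else ∅) := by
    calc (Fintype.card G : ENNReal) ^ n = ∑ _g : Fin n → G, (1 : ENNReal) := by
          rw [sum_const, card_univ, Fintype.card_fun, Fintype.card_fin, nsmul_eq_mul, mul_one]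
          push_cast
          rfl
      _ ≤ _ := sum_le_sum fun g _ => h1 g
  rw [sum_comm] at h2
  have h3 : ∀ S ∈ powersetCard (k + 1) (univ : Finset (Fin n)), ∑ g : Fin n → G,
        Measure.pi (fun _ => μ) (if hS : S.card = k + 1 then O (g ∘ S.orderEmbOfFin hS) else ∅) =
      (Fintype.card G : ENNReal) ^ (n - (k + 1)) * ∑ w, Measure.pi (fun _ => μ) (O w) := by
    intro S hS
    have hc : S.card = k + 1 := (mem_powersetCard.1 hS).2
    rw [← sum_comp_inj _ (S.orderEmbOfFin hc).injective]
    refine sum_congr rfl fun g _ => ?_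
    rw [dif_pos hc]
  rw [sum_congr rfl h3, sum_const, card_powersetCard, card_univ, Fintype.card_fin, nsmul_eq_mul] at h2
  have h4 : (Fintype.card G : ENNReal) ^ n =
      (Fintype.card G : ENNReal) ^ (n - (k + 1)) * (Fintype.card G : ENNReal) ^ (k + 1) := by
    rw [← pow_add]
    congr 1
    omega
  have h5 : (Fintype.card G : ENNReal) ^ (n - (k + 1)) ≠ 0 :=
    pow_ne_zero _ (by exact_mod_cast hG.ne')
  have h6 : (Fintype.card G : ENNReal) ^ (n - (k + 1)) ≠ ⊤ :=
    ENNReal.pow_ne_top (ENNReal.natCast_ne_top _)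
  rw [h4, mul_left_comm] at h2
  exact (ENNReal.mul_le_mul_iff_right h5 h6).1 h2

end Pool.Agent.H95.RO
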