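import Pool.Agent.H95.RO.Df
import Pool.Agent.H72.NU.Law

/-!
# [H95 RO TWL] MP_8923e7_nt, THEOREM R: the laws for the functions of mean `0`
-/

set_option autoImplicit false

namespace Pool.Agent.H95.RO

open Finset Filter Pool.Agent.H21.MT Pool.Agent.H92.MM Pool.Agent.H72.NU Pool.Agent.H11.RG

theorem intd_cst (η a0 c : ℝ) (hη1 : η ≤ 1) (hc : 0 ≤ c) :
    IntD η a0 (fun _ _ => c) (fun _ => c) := by
  refine ⟨1, 1, c + 1, one_pos, one_pos, by positivity, ?_⟩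
  filter_upwards [eventually_ge_atTop (1 : ℝ)] with x hx X1 X2 q0 r hX _ hq _ _
  have hx0 : 0 < x := by linarith
  have hqR : (0 : ℝ) < q0 := by exact_mod_cast hq
  rw [sum_const, nsmul_eq_mul]
  have h1 : ((Ioc X1 X2).filter (fun N => N % q0 = r % q0)).card =
      ((Ioc X1 X2).filter (fun N => N ≡ r [MOD q0])).card := rfl
  have h2 : (((Ioc X1 X2).filter (fun N => N ≡ r [MOD q0])).card : ℤ) =
      max (⌊((X2 : ℚ) - r) / q0⌋ - ⌊((X1 : ℚ) - r) / q0⌋) 0 := by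
    have := Nat.Ioc_filter_modEq_card X1 X2 hq r
    exact this
  obtain ⟨c1, hc1⟩ : ∃ c1 : ℕ, c1 = ((Ioc X1 X2).filter (fun N => N ≡ r [MOD q0])).card := ⟨_, rfl⟩
  rw [h1, ← hc1]
  rw [← hc1] at h2
  have hqQ : (0 : ℚ) < q0 := by exact_mod_cast hq
  have hXQ : (X1 : ℚ) ≤ X2 := by exact_mod_cast hX
  have f1 := Int.floor_le (((X2 : ℚ) - r) / q0)
  have f2 := Int.lt_floor_add_one (((X2 : ℚ) - r) / q0)
  have f3 := Int.floor_le (((X1 : ℚ) - r) / q0)
  have f4 := Int.lt_floor_add_one (((X1 : ℚ) - r) / q0)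
  have e1 : ((X2 : ℚ) - r) / q0 - ((X1 : ℚ) - r) / q0 = ((X2 : ℚ) - X1) / q0 := by ring
  have e2 : 0 ≤ ((X2 : ℚ) - X1) / q0 := div_nonneg (by linarith) hqQ.le
  have h3 : |(c1 : ℚ) - ((X2 : ℚ) - X1) / q0| ≤ 1 := by
    have h4 : (c1 : ℚ) = ((max (⌊((X2 : ℚ) - r) / q0⌋ - ⌊((X1 : ℚ) - r) / q0⌋) 0 : ℤ) : ℚ) := by
      rw [← h2]
      push_cast
      rfl
    rw [h4, Int.cast_max, Int.cast_sub, Int.cast_zero, abs_le]
    constructor
    · have := le_max_left ((⌊((X2 : ℚ) - r) / q0⌋ : ℚ) - ⌊((X1 : ℚ) - r) / q0⌋) 0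
      linarith
    · rcases max_cases ((⌊((X2 : ℚ) - r) / q0⌋ : ℚ) - ⌊((X1 : ℚ) - r) / q0⌋) 0 with h | h
      · rw [h.1]
        linarith
      · rw [h.1]
        linarith
  have h4 : |(c1 : ℝ) - ((X2 : ℝ) - X1) / q0| ≤ 1 := by
    have h4' : ((|(c1 : ℚ) - ((X2 : ℚ) - X1) / q0| : ℚ) : ℝ) ≤ ((1 : ℚ) : ℝ) := Rat.cast_le.2 h3
    push_cast at h4'
    exact h4'
  have h5 : (c1 : ℝ) * c - ((X2 : ℝ) - X1) / q0 * c = ((c1 : ℝ) - ((X2 : ℝ) - X1) / q0) * c := by ring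
  rw [h5, abs_mul, abs_of_nonneg hc]
  have h6 : (1 : ℝ) ≤ x ^ (1 - η / 128) := Real.one_le_rpow hx (by linarith)
  have h7 : 0 ≤ x ^ ((1 : ℝ) - 1) / (q0 : ℝ) := by positivity
  have h8 : |(c1 : ℝ) - ((X2 : ℝ) - X1) / q0| * c ≤ 1 * c := mul_le_mul_of_nonneg_right h4 hc
  nlinarith

open Classical in
/-- the laws for the functions of mean `0` -/
theorem tw_law (η Θ C0 a0 : ℝ) (hη : 0 < η) (hη1 : η ≤ 1 / 2000) (hΘ : 0 < Θ) (hC0 : 1 ≤ C0)
    (ha0 : 0 < a0) (ha1 : a0 ≤ 1 / 20) :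
    ∃ c0 : ℝ, 0 < c0 ∧ ∀ (ι : Type) [Fintype ι] [DecidableEq ι] [Nonempty ι] (a : ℝ) (L : ℕ),
      0 < a → a * 2 ^ L = a0 → (Fintype.card ι : ℝ) * a ≤ c0 →
      ∃ w0 : ℕ, ∀ w : ℕ, w0 ≤ w → ∀ (A δ : ℝ) (R S : ℝ → ℕ → ℝ), 0 ≤ δ → δ ≤ 1 →
        RotD η A C0 δ R S → ∀ᶠ x : ℝ in atTop, ∀ (h : ι → ℕ) (W b : ℕ), Okk A w x h W b →
          App x a L h W b (η / 1000) (Real.exp (-(Θ / a))) (fun N => R x N - 1) 0 ∧
          (∀ j, App x a L h W b (η / 1000) (Real.exp (-(Θ / a)))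
            (fun N => if (N + h j).Prime then R x N - 1 else 0) 0) ∧
          App x a L h W b (η / 1000) (Real.exp (-(Θ / a))) (fun N => R x N * S x N - δ) 0 := by
  obtain ⟨c0, hc0, happ⟩ := app_fun η Θ (C0 + 1) a0 hη hη1 hΘ (by linarith) ha0 ha1
  refine ⟨c0, hc0, ?_⟩
  intro ι _ _ _ a L ha haL hKa
  obtain ⟨w0, hw0⟩ := happ ι a L ha haL hKa
  refine ⟨w0, fun w hw A δ R S hδ0 hδ1 hR => ?_⟩
  have happ := hw0 w hw
  have hcst := intd_cst η a0 (C0 + 1) (by linarith) (by linarith)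
  have hE : ∀ᶠ x : ℝ in atTop, |(fun _ : ℝ => (0 : ℝ)) x| ≤ (fun _ : ℝ => C0 + 1) x ∧
      (fun _ : ℝ => C0 + 1) x ≤ C0 + 1 := Filter.Eventually.of_forall fun x => by
    constructor
    · simp only [abs_zero]
      linarith
    · exact le_rfl
  have hm : ∃ m : ℕ, ∀ᶠ x : ℝ in atTop, ∀ N ∈ Tx x, (fun (_ : ℝ) (_ : ℕ) => C0 + 1) x N ≤ x ^ m := by
    refine ⟨1, ?_⟩
    filter_upwards [eventually_ge_atTop (C0 + 1)] with x hx N _
    rw [pow_one]
    exact hx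
  have hb1 : ∀ x N, |R x N - 1| ≤ C0 + 1 := by
    intro x N
    have h1 := hR.bR x N
    rw [abs_le]
    constructor <;> linarith
  have hb2 : ∀ x N, |R x N * S x N - δ| ≤ C0 + 1 := by
    intro x N
    have h1 := hR.bR x N
    have h2 := hR.bS x N
    have h3 : 0 ≤ R x N * S x N := mul_nonneg h1.1 h2.1
    rw [abs_le]
    constructor <;> linarith
  have key : ∀ᶠ x : ℝ in atTop, ∀ t : (ι → ℕ) × ℕ × ℕ, Okk A w x t.1 t.2.1 t.2.2 →
      App x a L t.1 t.2.1 t.2.2 (η / 1000) (Real.exp (-(Θ / a))) (fun N => R x N - 1) 0 ∧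
      (∀ j, App x a L t.1 t.2.1 t.2.2 (η / 1000) (Real.exp (-(Θ / a)))
        (fun N => if (N + t.1 j).Prime then R x N - 1 else 0) 0) ∧
      App x a L t.1 t.2.1 t.2.2 (η / 1000) (Real.exp (-(Θ / a)))
        (fun N => R x N * S x N - δ) 0 := by
    apply Pool.Agent.H72.NU.diag
    intro f
    obtain ⟨g, hg⟩ : ∃ g : ℝ → ι → ℕ, ∀ x, g x =
        if Okk A w x (f x).1 (f x).2.1 (f x).2.2 then (f x).1 else fun _ => 0 := ⟨_, fun _ => rfl⟩
    have hgb : ∀ j, ∀ᶠ x : ℝ in atTop, (g x j : ℝ) ≤ Real.log x ^ A := by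
      intro j
      filter_upwards [eventually_ge_atTop (1 : ℝ)] with x hx1
      rw [hg]
      split_ifs with hok
      · exact hok.hh j
      · rw [Nat.cast_zero]
        exact Real.rpow_nonneg (Real.log_nonneg hx1) _
    have A1 := happ A (fun x => (f x).1) (fun x => (f x).2.1) (fun x => (f x).2.2)
      (fun x N => R x N - 1) (fun _ _ => C0 + 1) (fun _ => 0) (fun _ => C0 + 1) (hR.one a0) hcst
      (Filter.Eventually.of_forall fun x N _ => hb1 x N) hE hm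
    have A3 := happ A (fun x => (f x).1) (fun x => (f x).2.1) (fun x => (f x).2.2)
      (fun x N => R x N * S x N - δ) (fun _ _ => C0 + 1) (fun _ => 0) (fun _ => C0 + 1) (hR.out a0)
      hcst (Filter.Eventually.of_forall fun x N _ => hb2 x N) hE hm
    have A2 : ∀ j : ι, ∀ᶠ x : ℝ in atTop, Okk A w x (f x).1 (f x).2.1 (f x).2.2 →
        App x a L (f x).1 (f x).2.1 (f x).2.2 (η / 1000) (Real.exp (-(Θ / a)))
        (fun N => if (N + g x j).Prime then R x N - 1 else 0) 0 := by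
      intro j
      refine happ A (fun x => (f x).1) (fun x => (f x).2.1) (fun x => (f x).2.2)
        (fun x N => if (N + g x j).Prime then R x N - 1 else 0) (fun _ _ => C0 + 1) (fun _ => 0)
        (fun _ => C0 + 1) ?_ hcst (Filter.Eventually.of_forall fun x N _ => ?_) hE hm
      · refine intd_congr (hR.pri (fun x => g x j) (hgb j) a0) (fun x N _ => ?_) (fun _ => rfl)
        by_cases hp : (N + g x j).Prime
        · simp only [hp, if_true]
        · simp only [hp, if_false]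
      · show |if (N + g x j).Prime then R x N - 1 else 0| ≤ C0 + 1
        split_ifs
        · exact hb1 x N
        · rw [abs_zero]
          linarith
    have B2 := Filter.eventually_all.2 A2
    filter_upwards [A1, B2, A3] with x y1 y2 y3 hok
    have hgx : g x = (f x).1 := by rw [hg, if_pos hok]
    refine ⟨y1 hok, fun j => ?_, y3 hok⟩
    have h3 := y2 j hok
    rwa [hgx] at h3
  filter_upwards [key] with x hx h W b hok
  exact hx (h, W, b) hok

end Pool.Agent.H95.RO
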