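import Pool.Agent.H72.NU.Main
import Pool.Agent.H95.RO.Blk
import Pool.Agent.H95.RO.Twl

/-!
# [H95 RO MED] MP_8923e7_nt, THEOREM R: the measure theorem with a weight

As `med_of_laws` (H72/NM/Lo); the measure is `R μ / μ(R)`.
-/

set_option autoImplicit false

namespace Pool.Agent.H95.RO

open Finset Filter Pool.Agent.H21.MT Pool.Agent.H92.MM Pool.Agent.H72.NU Pool.Agent.H72.NM

theorem med_rot (k : ℕ) (hk : 1 ≤ k) : MedR k := by
  classical
  intro e' C0 he' hC0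
  refine ⟨1 / 2000, by norm_num, fun η2 hη2 hη21 => ?_⟩
  obtain ⟨η, hηd⟩ : ∃ η : ℝ, η = η2 / 1000 := ⟨_, rfl⟩
  have hη : 0 < η := by rw [hηd]; positivity
  have hηG : η ≤ 1 / 2000 / 1000 := by rw [hηd]; linarith
  have hη1 : η ≤ 1 := by linarith
  obtain ⟨cc, hccd⟩ : ∃ cc : ℝ, cc = 13 / 50 := ⟨_, rfl⟩
  have hcc : 1 / 10 ≤ cc := by rw [hccd]; norm_num
  have hcc1 : cc ≤ 1 := by rw [hccd]; norm_num
  -- parameters
  obtain ⟨e, hed⟩ : ∃ e : ℝ, e = min (e' / 8) (min (1 / 2) (e' ^ 2 / (128 * C0 ^ 2))) := ⟨_, rfl⟩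
  have hC00 : 0 < C0 := by linarith
  have he0 : 0 < e := by
    rw [hed]
    positivity
  have he1 : e ≤ e' / 8 := by rw [hed]; exact min_le_left _ _
  have he2 : e ≤ 1 / 2 := by rw [hed]; exact (min_le_right _ _).trans (min_le_left _ _)
  have he3 : e ≤ e' ^ 2 / (128 * C0 ^ 2) := by
    rw [hed]; exact (min_le_right _ _).trans (min_le_right _ _)
  obtain ⟨ε, hεd⟩ : ∃ ε : ℝ, ε = min (e / 40) (1 / 100) := ⟨_, rfl⟩
  have hε : 0 < ε := by
    rw [hεd]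
    positivity
  have hε1 : ε ≤ 1 / 100 := by rw [hεd]; exact min_le_right _ _
  have hεe : 40 * ε ≤ e := by
    have : ε ≤ e / 40 := by rw [hεd]; exact min_le_left _ _
    linarith
  obtain ⟨c2, hc2d⟩ : ∃ c2 : ℝ, c2 = 1 / 100 := ⟨_, rfl⟩
  have hc2 : 0 < c2 := by rw [hc2d]; norm_num
  have hc21 : c2 ≤ 1 := by rw [hc2d]; norm_num
  have hM : Mer := Pool.Agent.H63.CF.mer
  have h1 : OneLawU η 10 := one_lawU _ _ hη (by linarith) (by norm_num)
  have h2 : PrimeLawU η 10 := prime_lawU _ _ hη (by linarith) (by norm_num)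
  have hFG : ∀ a0 : ℝ, 0 < a0 → a0 ≤ 1 / 20 → ∃ (G : ℝ → ℕ → ℝ) (EG : ℝ → ℝ),
      WtU η 10 a0 (c2 * a0) (2 * Real.exp (3 / a0)) G EG ∧ Maj cc ε a0 G EG := by
    intro a0 ha0 ha1
    obtain ⟨G, EG, hW, hMj⟩ := wts_GU ε a0 hε ha0 ha1
    rw [hc2d, hccd]
    exact ⟨G, EG, ⟨pair_lawU_mono _ _ _ _ _ _ hηG hW.law, hW.bd, hW.lo, hW.hi⟩, hMj⟩
  obtain ⟨a0, Δ, j0, ha0, ha1, ha2, hΔ, hΔ1, hCΔ, hj, ht⟩ := pa η c2 ε hη hη1 hc2 hc21 hε hε1
  obtain ⟨G, EG, hWG, hG0, hG1, hG2⟩ := hFG a0 ha0 ha1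
  obtain ⟨c, hcd⟩ : ∃ c : ℝ, c = c2 * a0 := ⟨_, rfl⟩
  obtain ⟨C, hCd⟩ : ∃ C : ℝ, C = 2 * Real.exp (3 / a0) := ⟨_, rfl⟩
  rw [← hcd, ← hCd] at hWG hCΔ
  have hc : 0 < c := by rw [hcd]; positivity
  have hc1 : c ≤ 1 := by
    rw [hcd]
    nlinarith
  have hC1 : 1 ≤ C := by
    rw [hCd]
    have : (1 : ℝ) ≤ Real.exp (3 / a0) := Real.one_le_exp (by positivity)
    linarith
  obtain ⟨d1, hd1, L1⟩ := h1
  obtain ⟨d2, hd2, L2⟩ := h2
  obtain ⟨d4, hd4, L4⟩ := hWG.law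
  obtain ⟨d5, hd5, L5⟩ := tw_law η2 10 C0 a0 hη2 hη21 (by norm_num) hC0 ha0 ha1
  obtain ⟨C1, hC1d⟩ : ∃ C1 : ℝ, C1 = 4 * C ^ 2 / c := ⟨_, rfl⟩
  have hC10 : 0 ≤ C1 := by rw [hC1d]; positivity
  obtain ⟨P0, hP0d⟩ : ∃ P0 : ℝ, P0 = C1 / e + 1 / e + 1 := ⟨_, rfl⟩
  have hP00 : 0 < P0 := by rw [hP0d]; positivity
  have hCP : C1 / P0 ≤ e := by
    rw [div_le_iff₀ hP00, hP0d, mul_add, mul_add, mul_div_cancel₀ _ he0.ne']
    have : 0 ≤ e * (1 / e) := by positivity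
    linarith
  have hP01 : 1 / P0 ≤ e := by
    rw [div_le_iff₀ hP00, hP0d, mul_add, mul_add, mul_div_cancel₀ _ he0.ne',
      mul_div_cancel₀ _ he0.ne']
    linarith
  obtain ⟨c0, hc0d⟩ : ∃ c0 : ℝ, c0 = min (min d1 d2) (min d4 (min d5 a0)) := ⟨_, rfl⟩
  have hc0 : 0 < c0 := by
    rw [hc0d]
    exact lt_min (lt_min hd1 hd2) (lt_min hd4 (lt_min hd5 ha0))
  obtain ⟨s, L, l, b, B, κ, hs, hSt, hκ, hKa, hP0⟩ :=
    params η ε a0 Δ j0 hη hη1 hε hε1 ha0 ha1 ha2 hΔ hΔ1 hj ht k hk c c0 P0 hc hc0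
  obtain ⟨a, had⟩ : ∃ a : ℝ, a = a0 / 2 ^ L := ⟨_, rfl⟩
  rw [← had] at hSt hKa
  have ha : 0 < a := by
    rw [had]
    positivity
  have haL : a * 2 ^ L = a0 := by
    rw [had]
    field_simp
  have haL1 : a * 2 ^ L ≤ 1 / 20 := by rw [haL]; exact ha1
  have ha20 : a ≤ 1 / 20 := by
    have h3 : a ≤ a * 2 ^ L := le_mul_of_one_le_right ha.le (one_le_pow₀ (by norm_num))
    exact h3.trans haL1
  have hcard : Fintype.card (Fin k × Fin s) = k * s := by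
    rw [Fintype.card_prod, Fintype.card_fin, Fintype.card_fin]
  have hne : Nonempty (Fin k × Fin s) := ⟨(⟨0, hk⟩, ⟨0, hs⟩)⟩
  have hK : (Fintype.card (Fin k × Fin s) : ℝ) * a ≤ c0 := by
    rw [hcard]
    exact hKa
  have m1 : c0 ≤ d1 := by rw [hc0d]; exact (min_le_left _ _).trans (min_le_left _ _)
  have m2 : c0 ≤ d2 := by rw [hc0d]; exact (min_le_left _ _).trans (min_le_right _ _)
  have m4 : c0 ≤ d4 := by rw [hc0d]; exact (min_le_right _ _).trans (min_le_left _ _)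
  have m5 : c0 ≤ d5 := by
    rw [hc0d]; exact (min_le_right _ _).trans ((min_le_right _ _).trans (min_le_left _ _))
  have m6 : c0 ≤ a0 := by
    rw [hc0d]; exact (min_le_right _ _).trans ((min_le_right _ _).trans (min_le_right _ _))
  obtain ⟨M, hMd⟩ : ∃ M : ℕ, M = ⌊2 / a⌋₊ := ⟨_, rfl⟩
  obtain ⟨S0, hS0⟩ : ∃ S0 : ℝ, S0 = ((l : ℝ) + 1) ^ (k * s) * ((2 : ℝ) ^ M) ^ (L * (k * s)) :=
    ⟨_, rfl⟩
  have hS00 : 0 < S0 := by rw [hS0]; positivity
  refine ⟨s, a, 4 * C0 * S0 ^ 2, hs, ha, ha20, by positivity, fun A => ?_⟩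
  obtain ⟨w1, E1⟩ := L1 (Fin k × Fin s) a L ha haL1 (hK.trans m1) A
  obtain ⟨w2, E2⟩ := L2 (Fin k × Fin s) a L ha haL1 (hK.trans m2) A
  obtain ⟨w4, E4⟩ := L4 (Fin k × Fin s) a L ha haL1 (hK.trans m4) A
  obtain ⟨w6, E6⟩ := L5 (Fin k × Fin s) a L ha haL (hK.trans m5)
  refine ⟨max (max w1 w2) (max (max w4 w6) (k * s)), fun w hw R S δ hδ0 hδ1 hRD => ?_⟩
  have hw1 : w1 ≤ w := by omega
  have hw2 : w2 ≤ w := by omega
  have hw4 : w4 ≤ w := by omega
  have hw5 : k * s ≤ w := by omega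
  have hw6 : w6 ≤ w := by omega
  have T6 := hM ε a0 hε ha0 L
  rw [← had] at T6
  filter_upwards [E1 w hw1, E2 w hw2, E4 w hw4, tx_bdU A, T6, hWG.bd, hWG.lo, hWG.hi, hG1, hG2,
    eventually_ge_atTop (4 : ℝ), E6 w hw6 A δ R S hδ0 hδ1 hRD] with x x1 x2 x4 x5 x6 xG1 xG2 xG3 xM1
    xM2 hx4 x7 V W β hO
  obtain ⟨h, hinj, hmem, hsur⟩ := enum V hO.dis hO.card
  have hk0 : Okk A w x h W β := by
    refine ⟨hinj, fun q => hO.hh q.1 _ (hmem q), hO.pos, hO.pw, hO.wle, ?_, fun q => hO.cop q.1 _ (hmem q)⟩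
    intro q q' hq p hp hpd
    exact hO.dif q.1 q'.1 _ (hmem q) _ (hmem q') (fun h3 => hq (hinj h3)) p hp hpd
  have hx1 : 1 ≤ x := by linarith
  have hW0 : 0 < W := hO.pos
  have hnm : 0 < nm x a W (Fintype.card (Fin k × Fin s)) := by
    rw [hcard]
    exact nm_posU hx4 hW0 hO.pw hw5
  obtain ⟨T, hT⟩ : ∃ T : Finset ℕ, T = TT x a h W β := ⟨_, rfl⟩
  obtain ⟨ω, hω⟩ : ∃ ω : ℕ → ℝ, ω = ww x a W (Fintype.card (Fin k × Fin s)) := ⟨_, rfl⟩
  obtain ⟨m, hm⟩ : ∃ m : Fin k × Fin s → Fin L → ℕ → ℕ, m = mm x a h := ⟨_, rfl⟩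
  have hmemT : ∀ N, N ∈ T ↔ N ∈ Tx x ∧ Adm x a h W β N := by
    intro N
    rw [hT, TT, mem_filter]
  have hω0 : ∀ N, 0 ≤ ω N := by
    intro N
    rw [hω, ww]
    exact div_nonneg (gw_pos x N).le hnm.le
  have A1 : AppT T ω m a η (Real.exp (-(10 / a))) (fun _ => 1) 1 := by
    rw [hT, hω, hm]
    exact (app_iff x a h W β η _ _ _).1 (x1 h W β hk0)
  have A2 : ∀ y : Fin k × Fin s, ∀ A : Fin k × Fin s → Fin L → ℕ, (∀ i, A y i = 0) →
      sl a L A ≤ η →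
      |AvT T ω (fun N => mon m A N * (if (N + h y).Prime then 1 else 0)) - sv L A * pr x a| ≤
        Real.exp (-(10 / a)) := by
    intro y A hA hA2
    have h5 := x2 h W β hk0 y A hA hA2
    rw [hT, hω, hm, avt_eq]
    refine le_trans (le_of_eq ?_) h5
    congr 3
  obtain ⟨A5, A6⟩ := x4 h W β hk0 haL
  have hxx : ∀ y : Fin k × Fin s, ∀ N ∈ T, 0 < N ∧ Real.sqrt x < ((N + h y : ℕ) : ℝ) ∧
      ((N + h y : ℕ) : ℝ) ≤ x ^ (1 + 1 / 1000 : ℝ) := fun y N hN =>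
    x5 (h y) (hk0.hh y) N ((hmemT N).1 hN).1
  have hpos : ∀ y : Fin k × Fin s, ∀ N ∈ T, 0 < N + h y := by
    intro y N hN
    have := (hxx y N hN).1
    omega
  have lgG : Lg T ω m a η (Real.exp (-(10 / a))) ε Δ κ c C (fun y N => G x (N + h y)) (EG x) := by
    refine ⟨fun y => ?_, fun y z hyz => ?_, fun y N hN => ?_, hc, hc1, hC1, xG2, xG3, hCΔ, hκ⟩
    · rw [hT, hω, hm]
      exact (app_iff x a h W β η _ _ _).1 (A5 y)
    · rw [hT, hω, hm]
      exact (app_iff x a h W β η _ _ _).1 (A6 y z hyz)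
    · exact xG1 (N + h y) (hpos y N hN) (hxx y N hN).2.2
  have hsq : ∀ n : ℕ, Real.sqrt x < (n : ℝ) → x ^ a0 ≤ (n : ℝ) := by
    intro n hn
    refine le_trans ?_ hn.le
    rw [Real.sqrt_eq_rpow]
    exact Real.rpow_le_rpow_of_exponent_le hx1 (by linarith)
  have hSt' : St (Fintype.card (Fin k × Fin s)) L l b (fun i : Fin L => 2 * (j0 + L - i)) a B η
      (Real.exp (-(10 / a))) ε Δ κ := by
    rw [hcard]
    exact hSt
  have hprime : ∀ y : Fin k × Fin s, ∀ N ∈ T, (N + h y).Prime →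
      (∀ i, m y i N = 0) ∧ 1 ≤ G x (N + h y) := by
    intro y N hN hp
    have h6 := hxx y N hN
    refine ⟨fun i => ?_, xM1 (N + h y) hp h6.2.1 h6.2.2⟩
    rw [hm, mm]
    exact mc_prime hx1 ha haL hp (hsq _ h6.2.1) i.2
  have hprr : cc * EG x ≤ (1 + ε) ^ 2 * (2 ^ L * pr x a) := by
    have h8 : pr x a0 ≤ (1 + ε) * (2 ^ L * pr x a) := by
      have h9 : (2 : ℝ) ^ L * ((1 / 2) ^ L * pr x a0) ≤ 2 ^ L * ((1 + ε) * pr x a) :=
        mul_le_mul_of_nonneg_left x6 (by positivity)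
      have h10 : (2 : ℝ) ^ L * ((1 / 2) ^ L * pr x a0) = pr x a0 := by
        rw [← mul_assoc, ← mul_pow]
        norm_num
      rw [h10] at h9
      linarith
    calc cc * EG x ≤ (1 + ε) * pr x a0 := xM2
      _ ≤ (1 + ε) * ((1 + ε) * (2 ^ L * pr x a)) := by
          apply mul_le_mul_of_nonneg_left h8
          positivity
      _ = _ := by ring
  obtain ⟨z, hz⟩ : ∃ z : ℝ, z = AvT T ω (fun N => sg b l B m N ^ 2) := ⟨_, rfl⟩
  have hz2 : 1 / 2 ≤ z := by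
    rw [hz]
    have h3 := (fa_z hSt' A1).1
    have h4 : 1 ≤ bn b l := bn_ge hSt.hb hSt.ht l
    have h5 : 1 ≤ bn b l ^ Fintype.card (Fin k × Fin s) := one_le_pow₀ h4
    have h6 : (1 / 4 : ℝ) ^ L ≤ 1 := pow_le_one₀ (by norm_num) (by norm_num)
    have h7 : Δ * (1 / 4 : ℝ) ^ L ≤ 1 / 100 := by
      calc Δ * (1 / 4 : ℝ) ^ L ≤ Δ * 1 := mul_le_mul_of_nonneg_left h6 hΔ.le
        _ ≤ 1 / 100 := by linarith
    have h8 : (1 - ε) * 1 ≤ (1 - ε) * bn b l ^ Fintype.card (Fin k × Fin s) :=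
      mul_le_mul_of_nonneg_left h5 (by linarith)
    linarith
  have hz0 : 0 < z := by linarith
  have hsgN : ∀ N ∈ T, sg b l B m N ^ 2 ≤ S0 ^ 2 := by
    intro N hN
    have hcount : ∀ (y : Fin k × Fin s) (i : Fin L), m y i N ≤ M := by
      intro y i
      have h6 := hxx y N hN
      rw [hm, mm, hMd]
      refine Nat.le_floor ?_
      refine mc_le (by linarith) ha (hpos y N hN) (h6.2.2.trans ?_) i
      exact Real.rpow_le_rpow_of_exponent_le hx1 (by norm_num)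
    have h7 := sg_le (l := l) (B := B) hSt.hb hSt.ht m N M hcount
    rw [hcard, ← hS0] at h7
    exact sq_le_sq' (abs_le.1 h7).1 (abs_le.1 h7).2
  have hTsub : T ⊆ Tx x := fun N hN => ((hmemT N).1 hN).1
  -- the weight
  obtain ⟨B1, B2, B3⟩ := x7 h W β hk0
  have hηe : η2 / 1000 = η := hηd.symm
  rw [hηe] at B1 B3
  have T1 : AppT T ω m a η (Real.exp (-(10 / a))) (fun N => R x N - 1) 0 := by
    rw [hT, hω, hm]
    exact (app_iff x a h W β η _ _ _).1 B1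
  have T3 : AppT T ω m a η (Real.exp (-(10 / a))) (fun N => R x N * S x N - δ) 0 := by
    rw [hT, hω, hm]
    exact (app_iff x a h W β η _ _ _).1 B3
  have T2 : ∀ y : Fin k × Fin s, AppT T ω m a η (Real.exp (-(10 / a)))
      (fun N => if (N + h y).Prime then R x N - 1 else 0) 0 := by
    intro y
    have h5 := B2 y
    rw [hηe] at h5
    rw [hT, hω, hm]
    exact (app_iff x a h W β η _ _ _).1 h5
  have hκ0 : 0 ≤ κ := by
    have h5 := hSt.hκ
    refine le_trans ?_ h5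
    have h6 : 0 ≤ XT (k * s) l b (fun i : Fin L => 2 * (j0 + L - i)) := by
      unfold XT
      positivity
    exact mul_nonneg (by positivity) (mul_nonneg (Real.exp_pos _).le h6)
  have h4L : (1 / 4 : ℝ) ^ L ≤ 1 := pow_le_one₀ (by norm_num) (by norm_num)
  have hΔe : Δ ≤ ε / 100 := by
    have h5 : c ^ 2 ≤ 1 := pow_le_one₀ hc.le hc1
    have h6 : 1 ≤ C ^ 2 := one_le_pow₀ hC1
    have h7 : ε * c ^ 2 ≤ ε * 1 := mul_le_mul_of_nonneg_left h5 hε.le
    have h8 : Δ * 1 ≤ Δ * C ^ 2 := mul_le_mul_of_nonneg_left h6 hΔ.le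
    linarith
  have hκe : κ ≤ ε / 400 := by
    have h5 : Δ * (1 / 4 : ℝ) ^ L ≤ Δ * 1 := mul_le_mul_of_nonneg_left h4L hΔ.le
    linarith
  obtain ⟨μ, hμd⟩ : ∃ μ : ℕ → ℝ, ∀ N, μ N = ω N * sg b l B m N ^ 2 / z := ⟨_, fun _ => rfl⟩
  have hμ0 : ∀ N, 0 ≤ μ N := by
    intro N
    rw [hμd]
    have := hω0 N
    positivity
  have hR0 : ∀ N, 0 ≤ R x N := fun N => (hRD.bR x N).1
  have hR1 : ∀ N, R x N ≤ C0 := fun N => (hRD.bR x N).2
  have hS0 : ∀ N, 0 ≤ S x N := fun N => (hRD.bS x N).1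
  have hmean : ∀ Φ : ℕ → ℝ, AppT T ω m a η (Real.exp (-(10 / a))) Φ 0 →
      |∑ N ∈ T, μ N * Φ N| ≤ 2 * κ := by
    intro Φ hΦ
    have h5 := av_small hSt' hΦ
    have h6 : ∑ N ∈ T, μ N * Φ N = AvT T ω (fun N => sg b l B m N ^ 2 * Φ N) / z := by
      unfold AvT
      rw [sum_div]
      refine sum_congr rfl fun N _ => ?_
      rw [hμd]
      ring
    rw [h6, abs_div, abs_of_pos hz0, div_le_iff₀ hz0]
    have h7 : 2 * κ * (1 / 2) ≤ 2 * κ * z := mul_le_mul_of_nonneg_left hz2 (by linarith)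
    linarith
  have hμ1 : ∑ N ∈ T, μ N = 1 := by
    simp only [hμd]
    rw [← sum_div, div_eq_one_iff_eq hz0.ne', hz]
    rfl
  obtain ⟨ρ, hρ⟩ : ∃ ρ : ℝ, ρ = ∑ N ∈ T, μ N * R x N := ⟨_, rfl⟩
  have hρ1 : |ρ - 1| ≤ 2 * κ := by
    have h5 := hmean _ T1
    have h6 : ∑ N ∈ T, μ N * (R x N - 1) = ρ - 1 := by
      have h7 : ∑ N ∈ T, μ N * (R x N - 1) = ∑ N ∈ T, μ N * R x N - ∑ N ∈ T, μ N := by
        rw [← sum_sub_distrib]
        refine sum_congr rfl fun N _ => ?_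
        ring
      rw [h7, hμ1, hρ]
    rwa [h6] at h5
  have hρa := (abs_le.1 hρ1).1
  have hρb := (abs_le.1 hρ1).2
  have hρ0 : 0 < ρ := by linarith
  have hρ2 : 1 / 2 ≤ ρ := by linarith
  have hout : ∑ N ∈ T, μ N * (R x N * S x N) ≤ δ + 2 * κ := by
    have h5 := (abs_le.1 (hmean _ T3)).2
    have h6 : ∑ N ∈ T, μ N * (R x N * S x N - δ) = ∑ N ∈ T, μ N * (R x N * S x N) - δ := by
      have h7 : δ = ∑ N ∈ T, μ N * δ := by rw [← sum_mul, hμ1, one_mul]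
      rw [eq_sub_iff_add_eq]
      nth_rw 2 [h7]
      rw [← sum_add_distrib]
      refine sum_congr rfl fun N _ => ?_
      ring
    linarith
  have hsL : (s : ℝ) * κ ≤ 1 / 400 := by
    have h5 : (k : ℝ) * s * a ≤ a0 := by
      have h6 := hKa.trans m6
      push_cast at h6
      exact h6
    have h6 : (s : ℝ) ≤ 2 ^ L := by
      have h7 : (1 : ℝ) ≤ k := by exact_mod_cast hk
      have h8 : (s : ℝ) * a ≤ k * s * a := by
        have h9 : 0 ≤ (s : ℝ) * a := by positivity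
        have h10 : 1 * ((s : ℝ) * a) ≤ k * (s * a) := mul_le_mul_of_nonneg_right h7 h9
        linarith
      have h9 : (s : ℝ) * a ≤ 2 ^ L * a := by
        rw [mul_comm ((2 : ℝ) ^ L) a, haL]
        linarith
      exact le_of_mul_le_mul_right h9 ha
    have h7 : κ ≤ Δ * (1 / 4) ^ L / 4 := by linarith
    calc (s : ℝ) * κ ≤ 2 ^ L * (Δ * (1 / 4) ^ L / 4) :=
          mul_le_mul h6 h7 hκ0 (by positivity)
      _ = Δ * (1 / 2) ^ L / 4 := by
          have h8 : (2 : ℝ) ^ L * (1 / 4) ^ L = (1 / 2) ^ L := by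
            rw [← mul_pow]
            norm_num
          calc (2 : ℝ) ^ L * (Δ * (1 / 4) ^ L / 4) = Δ * (2 ^ L * (1 / 4) ^ L) / 4 := by ring
            _ = _ := by rw [h8]
      _ ≤ Δ * 1 / 4 := by
          have h8 : (1 / 2 : ℝ) ^ L ≤ 1 := pow_le_one₀ (by norm_num) (by norm_num)
          have h9 := mul_le_mul_of_nonneg_left h8 hΔ.le
          linarith
      _ ≤ 1 / 400 := by linarith
  refine ⟨by rw [← hcard]; exact hnm, fun N => if N ∈ T then μ N * R x N / ρ else 0,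
    ?_, ?_, ?_, ?_, ?_, ?_⟩
  · intro N
    show 0 ≤ if N ∈ T then μ N * R x N / ρ else 0
    split_ifs
    · have := hμ0 N
      have := hR0 N
      positivity
    · exact le_rfl
  · intro N hN
    show (if N ∈ T then μ N * R x N / ρ else 0) ≤ 4 * C0 * S0 ^ 2 * gw x N / nm x a W (k * s)
    have h9 : 4 * C0 * S0 ^ 2 * gw x N / nm x a W (k * s) = 2 * C0 * (2 * S0 ^ 2 * ω N) := by
      rw [hω, ww, hcard]
      ring
    rw [h9]
    split_ifs with hNT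
    · have hμN : μ N ≤ 2 * S0 ^ 2 * ω N := by
        rw [hμd, div_le_iff₀ hz0]
        have h10 := hsgN N hNT
        have h11 := hω0 N
        have h12 : ω N * sg b l B m N ^ 2 ≤ ω N * S0 ^ 2 := mul_le_mul_of_nonneg_left h10 h11
        have h13 : 0 ≤ ω N * S0 ^ 2 := by positivity
        have h14 : 1 / 2 * (2 * (ω N * S0 ^ 2)) ≤ z * (2 * (ω N * S0 ^ 2)) :=
          mul_le_mul_of_nonneg_right hz2 (by positivity)
        linarith
      rw [div_le_iff₀ hρ0]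
      have h15 : μ N * R x N ≤ 2 * S0 ^ 2 * ω N * C0 :=
        mul_le_mul hμN (hR1 N) (hR0 N) (le_trans (hμ0 N) hμN)
      have h16 : 0 ≤ 2 * C0 * (2 * S0 ^ 2 * ω N) := by
        have := hω0 N
        positivity
      have h17 : 2 * C0 * (2 * S0 ^ 2 * ω N) * (1 / 2) ≤ 2 * C0 * (2 * S0 ^ 2 * ω N) * ρ :=
        mul_le_mul_of_nonneg_left hρ2 h16
      linarith
    · have h11 := hω0 N
      positivity
  · intro N hN hN0
    have hNT : N ∈ T := by
      by_contra h15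
      exact hN0 (if_neg h15)
    have h16 := ((hmemT N).1 hNT).2
    refine ⟨h16.1, fun j y hy p hp hpd => ?_⟩
    obtain ⟨q, hq⟩ := hsur j y hy
    rw [← hq] at hpd
    exact h16.2 q p hp hpd
  · rw [← sum_filter]
    have h17 : (Tx x).filter (fun N => N ∈ T) = T := by
      ext N
      rw [mem_filter]
      exact ⟨fun h => h.2, fun h => ⟨hTsub h, h⟩⟩
    rw [h17, ← sum_div, div_eq_one_iff_eq hρ0.ne', hρ]
  · intro j
    have hidx : ∀ y ∈ V j, h (Function.invFun h y) = y := fun y hy =>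
      Function.invFun_eq (hsur j y hy)
    have hb := block_stepR h (Function.invFun h) T ω m hSt' hω0 A1 (G x) lgG (hG0 x) hprime A2 hcc
      hcc1 hprr e P0 hεe hP00 (V j) hidx (by rw [hO.card j]; exact hP0) (R x)
      (fun N _ => hRD.bR x N) hC00.le (by rw [← hz]; exact hz2) hκ0 T2
    rw [← hC1d, ← hz, hO.card j] at hb
    obtain ⟨Y, hY⟩ : ∃ Y : ℝ, Y = ∑ N ∈ T.filter (fun N => ∃ y ∈ V j, (N + y).Prime),
        μ N * R x N := ⟨_, rfl⟩
    have hbY : (1 - e) * cc - s * (2 * κ) / P0 - C0 * Real.sqrt (e + C1 / P0) ≤ Y := by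
      refine hb.trans (le_of_eq ?_)
      rw [hY]
      refine sum_congr rfl fun N _ => ?_
      rw [hμd]
    have hY0 : 0 ≤ Y := by
      rw [hY]
      exact sum_nonneg fun N _ => mul_nonneg (hμ0 N) (hR0 N)
    have hYρ : Y ≤ ρ := by
      rw [hY, hρ]
      exact sum_le_sum_of_subset_of_nonneg (filter_subset _ _)
        fun N _ _ => mul_nonneg (hμ0 N) (hR0 N)
    have h3 : C0 * Real.sqrt (e + C1 / P0) ≤ e' / 8 := by
      have h4 : Real.sqrt (e + C1 / P0) ≤ e' / (8 * C0) := by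
        rw [Real.sqrt_le_left (by positivity)]
        have h5 : (e' / (8 * C0)) ^ 2 = 2 * (e' ^ 2 / (128 * C0 ^ 2)) := by
          field_simp
          norm_num
        rw [h5]
        linarith
      calc C0 * Real.sqrt (e + C1 / P0) ≤ C0 * (e' / (8 * C0)) :=
            mul_le_mul_of_nonneg_left h4 hC00.le
        _ = e' / 8 := by field_simp
    have h4 : (s : ℝ) * (2 * κ) / P0 ≤ e' / 8 := by
      have h5 : (s : ℝ) * (2 * κ) / P0 = 2 * (s * κ) * (1 / P0) := by ring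
      rw [h5]
      have h6 : 0 ≤ 1 / P0 := by positivity
      have h7 : 2 * ((s : ℝ) * κ) * (1 / P0) ≤ 2 * (1 / 400) * (1 / P0) :=
        mul_le_mul_of_nonneg_right (by linarith) h6
      linarith
    have h5 : Y - 4 * κ ≤ Y / ρ := by
      have h6 : Y * (1 - 2 * κ) ≤ Y / ρ := by
        rw [le_div_iff₀ hρ0]
        have h7 : (1 - 2 * κ) * ρ ≤ 1 := by
          have h8 : (1 - 2 * κ) * ρ ≤ (1 - 2 * κ) * (1 + 2 * κ) :=
            mul_le_mul_of_nonneg_left (by linarith) (by linarith)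
          have h9 : (1 - 2 * κ) * (1 + 2 * κ) = 1 - 4 * κ ^ 2 := by ring
          have h10 : 0 ≤ κ ^ 2 := sq_nonneg κ
          linarith
        calc Y * (1 - 2 * κ) * ρ = Y * ((1 - 2 * κ) * ρ) := by ring
          _ ≤ Y * 1 := mul_le_mul_of_nonneg_left h7 hY0
          _ = Y := mul_one Y
      have h7 : κ * Y ≤ κ * 2 := mul_le_mul_of_nonneg_left (by linarith) hκ0
      have h8 : Y * (1 - 2 * κ) = Y - 2 * (κ * Y) := by ring
      linarith
    have h6 : 13 / 50 - e' ≤ Y / ρ := by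
      have h7 : e * cc ≤ e * 1 := mul_le_mul_of_nonneg_left hcc1 he0.le
      have h8 : (1 - e) * cc = cc - e * cc := by ring
      rw [← hccd]
      linarith
    refine h6.trans ?_
    rw [hY, sum_div]
    have hq : (T.filter (fun N => ∃ y ∈ V j, (N + y).Prime)) ⊆
        (Tx x).filter (fun N => ∃ y ∈ V j, (N + y).Prime) := by
      intro N hN
      rw [mem_filter] at hN ⊢
      exact ⟨hTsub hN.1, hN.2⟩
    have hnn : ∀ N, 0 ≤ if N ∈ T then μ N * R x N / ρ else 0 := by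
      intro N
      split_ifs
      · have := hμ0 N
        have := hR0 N
        positivity
      · exact le_rfl
    refine le_trans (le_of_eq (sum_congr rfl fun N hN => ?_))
      (sum_le_sum_of_subset_of_nonneg hq fun N _ _ => hnn N)
    rw [mem_filter] at hN
    rw [if_pos hN.1]
  · have h5 : ∑ N ∈ Tx x, (if N ∈ T then μ N * R x N / ρ else 0) * S x N =
        (∑ N ∈ T, μ N * (R x N * S x N)) / ρ := by
      rw [sum_div]
      have h6 : ∀ N, (if N ∈ T then μ N * R x N / ρ else 0) * S x N =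
          if N ∈ T then μ N * (R x N * S x N) / ρ else 0 := by
        intro N
        split_ifs
        · ring
        · ring
      simp only [h6]
      rw [← sum_filter]
      refine sum_congr ?_ fun _ _ => rfl
      ext N
      rw [mem_filter]
      exact ⟨fun h => h.2, fun h => ⟨hTsub h, h⟩⟩
    rw [h5, div_le_iff₀ hρ0]
    refine hout.trans ?_
    have hk1 : κ ≤ e' / 1000 := by linarith
    have hk2 : κ ≤ 1 / 1000 := by linarith
    have g1 : κ * δ ≤ κ * 1 := mul_le_mul_of_nonneg_left hδ1 hκ0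
    have g2 : κ * e' ≤ 1 / 1000 * e' := mul_le_mul_of_nonneg_right hk2 he'.le
    have g3 : (δ + e') * (1 - 2 * κ) ≤ (δ + e') * ρ :=
      mul_le_mul_of_nonneg_left (by linarith) (by linarith)
    have g4 : (δ + e') * (1 - 2 * κ) = δ + e' - 2 * (κ * δ) - 2 * (κ * e') := by ring
    linarith

end Pool.Agent.H95.RO
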