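import Pool.Agent.H95.RO.Df
import Mathlib.NumberTheory.Transcendental.Liouville.Basic

/-!
# [H95 RO SC1] MP_8923e7_nt, THEOREM R: good scales exist

PROOF. `nn`: a real `α` which is irrational and not a Liouville number: there is `D : ℕ` with: for all integers `q ≥ 1` and `p`,
`|q α - p| ≥ c q^(-D)` for some `c > 0` (`Liouville α` means: for all `n` there are `p, q` with `1 < q`, `α ≠ p/q`, `|α - p/q| < 1/q^n`; negate: an `n` with
`|α - p/q| ≥ 1/q^n` for all `q > 1`; `D = n`; for `q = 1`: `|α - p| ≥ nd α > 0`; `c = min 1 (nd α)`).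
* `one_freq` (`t = 1`): `α` irrational, `F` = the frequencies `z α`, `0 < |z| ≤ n`, `τ = 1/8`. Call `(z, r, p)` bad at `x` if `1 ≤ r ≤ x^τ` and `|r z α - p| ≤ x^(-(1-τ))`.
  CLAIM: if `(z, r, p)` is bad at `x` and `(z', r', p')` is bad at `2x`, `x ≥ X0`, then `p/(r z) = p'/(r' z')`: otherwise `1/(|r z r' z'|) ≤ |p/(rz) - p'/(r'z')|
  ≤ x^(-(1-τ)) (1/|rz| + 1/|r'z'|) ≤ ...`, that is `1 ≤ x^(-(1-τ)) (|r z| + |r' z'|) ≤ x^(-(1-τ)) 4 n x^τ`, false for large `x`. So if all `2^j`, `j ≥ j0`, are not good, then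
  the fraction `p/(rz)` is the same for all `j ≥ j0` and `|α - p/(rz)| ≤ 2^(-j(1-τ))` for all `j`, so `α` is rational.
* `two_freq` (`t = 2`): `α 1` not Liouville (exponent `D`, constant `c`), `Ind α`, `τ = min (1/8) (1/(2D + 6))`. Frequencies `β_z = z_0 α_0 + z_1 α_1`.
  CLAIM: if `(z, r, p)` is bad at `x` (`1 ≤ r ≤ x^τ`, `|r β_z - p| ≤ x^(-(1-τ))`) and `(z', r', p')` is bad at `2x`, then the integer vectors `(r z, p)` and `(r' z', p')` are
  proportional: first `z, z'` are proportional: `Δ = z_0 z'_1 - z'_0 z_1`; if `Δ ≠ 0`: `r r' (z_0 β_z' - z'_0 β_z) = r r' Δ α_1`, and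
  `|r r' Δ α_1 - (r z_0 p' - r' z'_0 p)| ≤ r |z_0| |r' β_z' - p'| + r' |z'_0| |r β_z - p| ≤ 4 n x^τ x^(-(1-τ))` while it is `≥ c (r r' |Δ|)^(-D) ≥ c (8 n² x^(2τ))^(-D)`
  (`2^τ ≤ 2`): false for large `x` as `1 - 2τ > 2τ D`. Then `z' = (a'/a) z` with `β_z = a β_0`, `β_z' = a' β_0` (primitive direction), or without gcd:
  `z'_i β_z = z_i β_z'` for both `i`; with an `i` such that `z_i ≠ 0` (then `z'_i ≠ 0` too): `|z'_i r r' β_z - z'_i r' p| ≤ ..`, `|z_i r r' β_z' - z_i r p'| ≤ ..`, so the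
  integer `z'_i r' p - z_i r p'` has absolute value `≤ 4 n x^τ x^(-(1-τ)) < 1`: it is `0`. So `p/(r z_i) = p'/(r' z'_i)`.
  Consequence: if all `2^j` (`j ≥ j0`) are not good, the ratio vector (`(z_0 : z_1)` and `p/(r z_i)`) is the same for all `j`; fix `(z, r, p)` bad at `2^(j0)`, `z_i ≠ 0`:
  then for all `j` `|r β_z - p| = |r z_i / (r' z'_i)| |r' β_z' - p'| ≤ n r 2^(-j(1-τ))`, so `r β_z = p`, against `Ind α`.
* `scl_one`, `scl_two`: the forms needed. `alg`: all `β_z` not Liouville: then every large `x` is good (for later use, not needed now).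

`vec_const`: integer vectors with small values of the linear form, consecutive ones proportional. `scl_core`: both cases, given that consecutive bad frequencies are proportional.
-/

set_option autoImplicit false

namespace Pool.Agent.H95.RO

open Finset Filter

/-- a sequence of integer vectors, consecutive ones proportional, on which the form tends to zero -/
theorem vec_const {t : ℕ} (α : Fin t → ℝ) (hα : Ind α) (v : ℕ → Fin t → ℤ) (p : ℕ → ℤ) (ε : ℕ → ℝ)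
    (hv : ∀ j, v j ≠ 0) (hε : Tendsto ε atTop (nhds 0))
    (h1 : ∀ j, |∑ l, (v j l : ℝ) * α l - p j| ≤ ε j)
    (h2 : ∀ j i i', v j i * v (j + 1) i' = v (j + 1) i * v j i')
    (h3 : ∀ j i, v j i * p (j + 1) = v (j + 1) i * p j) : False := by
  obtain ⟨k, hk⟩ : ∃ k, v 0 k ≠ 0 := by
    by_contra h
    push Not at h
    exact hv 0 (funext h)
  have h4 : ∀ j, v j k ≠ 0 := by
    intro j
    induction j with
    | zero => exact hk
    | succ j ih =>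
      intro h0
      apply hv (j + 1)
      funext i
      have h5 := h2 j i k
      rw [h0, mul_zero] at h5
      exact (mul_eq_zero.1 h5.symm).resolve_right ih
  have h5 : ∀ j i, (v j i : ℝ) / v j k = (v 0 i : ℝ) / v 0 k := by
    intro j i
    induction j with
    | zero => rfl
    | succ j ih =>
      rw [← ih, div_eq_div_iff (by exact_mod_cast h4 (j + 1)) (by exact_mod_cast h4 j)]
      have h6 := h2 j i k
      exact_mod_cast h6.symm
  have h6 : ∀ j, (p j : ℝ) / v j k = (p 0 : ℝ) / v 0 k := by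
    intro j
    induction j with
    | zero => rfl
    | succ j ih =>
      rw [← ih, div_eq_div_iff (by exact_mod_cast h4 (j + 1)) (by exact_mod_cast h4 j)]
      have h7 := h3 j k
      have h8 : (v j k : ℝ) * p (j + 1) = v (j + 1) k * p j := by exact_mod_cast h7
      linarith
  obtain ⟨L, hL⟩ : ∃ L : ℝ, L = ∑ l, (v 0 l : ℝ) / v 0 k * α l - (p 0 : ℝ) / v 0 k := ⟨_, rfl⟩
  have h7 : ∀ j, ∑ l, (v j l : ℝ) * α l - p j = v j k * L := by
    intro j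
    have hk' : (v j k : ℝ) ≠ 0 := by exact_mod_cast h4 j
    rw [hL, mul_sub, ← h6 j, mul_div_cancel₀ _ hk', mul_sum]
    congr 1
    refine sum_congr rfl fun l _ => ?_
    rw [← h5 j l]
    field_simp
  have h8 : ∀ j, |L| ≤ ε j := by
    intro j
    refine le_trans ?_ (h1 j)
    rw [h7, abs_mul]
    have h9 : (1 : ℝ) ≤ |(v j k : ℝ)| := by
      rw [← Int.cast_abs]
      exact_mod_cast Int.one_le_abs (h4 j)
    exact le_mul_of_one_le_left (abs_nonneg _) h9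
  have h9 : |L| ≤ 0 := ge_of_tendsto' hε h8
  have h10 : L = 0 := abs_nonpos_iff.1 h9
  have h11 := h7 0
  rw [h10, mul_zero, sub_eq_zero] at h11
  exact hv 0 (hα _ _ h11)

private theorem bd {x τ : ℝ} (hx : 1 ≤ x) (hτ : 0 < τ) (hτ4 : τ ≤ 1 / 4) :
    x ^ τ * (2 * x) ^ (-(1 - τ)) + (2 * x) ^ τ * x ^ (-(1 - τ)) ≤ 3 * x ^ (2 * τ - 1) := by
  have hx0 : 0 < x := by linarith
  have h1 : (2 * x) ^ (-(1 - τ)) ≤ x ^ (-(1 - τ)) :=
    Real.rpow_le_rpow_of_nonpos hx0 (by linarith) (by linarith)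
  have h2 : (2 * x) ^ τ ≤ 2 * x ^ τ := by
    rw [Real.mul_rpow (by norm_num) hx0.le]
    have h3 : (2 : ℝ) ^ τ ≤ 2 := by
      calc (2 : ℝ) ^ τ ≤ (2 : ℝ) ^ (1 : ℝ) := Real.rpow_le_rpow_of_exponent_le (by norm_num) (by linarith)
        _ = 2 := Real.rpow_one 2
    exact mul_le_mul_of_nonneg_right h3 (Real.rpow_nonneg hx0.le _)
  have h3 : x ^ (2 * τ - 1) = x ^ τ * x ^ (-(1 - τ)) := by
    rw [← Real.rpow_add hx0]
    congr 1
    ring
  rw [h3]
  have h4 : 0 ≤ x ^ τ := Real.rpow_nonneg hx0.le _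
  have h5 : 0 ≤ x ^ (-(1 - τ)) := Real.rpow_nonneg hx0.le _
  nlinarith [mul_le_mul_of_nonneg_left h1 h4, mul_le_mul_of_nonneg_right h2 h5]

/-- the difference of two bad vectors -/
theorem bad_two {t : ℕ} (α : Fin t → ℝ) (n : ℕ) {x τ : ℝ} (hx : 1 ≤ x) (hτ : 0 < τ) (hτ4 : τ ≤ 1 / 4)
    (z z' : Fin t → ℤ) (r r' : ℕ) (p p' : ℤ) (hz : ∀ l, |z l| ≤ n) (hz' : ∀ l, |z' l| ≤ n)
    (hr : (r : ℝ) ≤ x ^ τ) (hr' : (r' : ℝ) ≤ (2 * x) ^ τ)
    (hb : |(r : ℝ) * (∑ l, (z l : ℝ) * α l) - p| ≤ x ^ (-(1 - τ)))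
    (hb' : |(r' : ℝ) * (∑ l, (z' l : ℝ) * α l) - p'| ≤ (2 * x) ^ (-(1 - τ))) (i : Fin t) :
    |(r : ℝ) * r' * ∑ l, ((z i * z' l - z' i * z l : ℤ) : ℝ) * α l - (r * z i * p' - r' * z' i * p)| ≤
      n * (3 * x ^ (2 * τ - 1)) := by
  have hx0 : 0 < x := by linarith
  have e1 : ∑ l, ((z i * z' l - z' i * z l : ℤ) : ℝ) * α l =
      (z i : ℝ) * (∑ l, (z' l : ℝ) * α l) - (z' i : ℝ) * ∑ l, (z l : ℝ) * α l := by
    rw [mul_sum, mul_sum, ← sum_sub_distrib]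
    refine sum_congr rfl fun l _ => ?_
    push_cast
    ring
  have e2 : (r : ℝ) * r' * ∑ l, ((z i * z' l - z' i * z l : ℤ) : ℝ) * α l - (r * z i * p' - r' * z' i * p) =
      (r : ℝ) * z i * ((r' : ℝ) * (∑ l, (z' l : ℝ) * α l) - p') -
        (r' : ℝ) * z' i * ((r : ℝ) * (∑ l, (z l : ℝ) * α l) - p) := by
    rw [e1]
    ring
  rw [e2]
  have a1 : |(z i : ℝ)| ≤ n := by
    rw [← Int.cast_abs]
    exact_mod_cast hz i
  have a2 : |(z' i : ℝ)| ≤ n := by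
    rw [← Int.cast_abs]
    exact_mod_cast hz' i
  have b1 : |(r : ℝ) * z i * ((r' : ℝ) * (∑ l, (z' l : ℝ) * α l) - p')| ≤ x ^ τ * n * (2 * x) ^ (-(1 - τ)) := by
    rw [abs_mul, abs_mul, Nat.abs_cast]
    gcongr
  have b2 : |(r' : ℝ) * z' i * ((r : ℝ) * (∑ l, (z l : ℝ) * α l) - p)| ≤ (2 * x) ^ τ * n * x ^ (-(1 - τ)) := by
    rw [abs_mul, abs_mul, Nat.abs_cast]
    gcongr
  have h3 := bd hx hτ hτ4
  calc _ ≤ |(r : ℝ) * z i * ((r' : ℝ) * (∑ l, (z' l : ℝ) * α l) - p')| +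
        |(r' : ℝ) * z' i * ((r : ℝ) * (∑ l, (z l : ℝ) * α l) - p)| := abs_sub _ _
    _ ≤ x ^ τ * n * (2 * x) ^ (-(1 - τ)) + (2 * x) ^ τ * n * x ^ (-(1 - τ)) := add_le_add b1 b2
    _ = n * (x ^ τ * (2 * x) ^ (-(1 - τ)) + (2 * x) ^ τ * x ^ (-(1 - τ))) := by ring
    _ ≤ n * (3 * x ^ (2 * τ - 1)) := mul_le_mul_of_nonneg_left h3 (Nat.cast_nonneg n)

/-- good scales exist if consecutive bad frequencies are proportional -/
theorem scl_core {t : ℕ} (α : Fin t → ℝ) (hα : Ind α) (n : ℕ) {τ : ℝ} (hτ : 0 < τ) (hτ4 : τ ≤ 1 / 4)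
    (hm : ∃ X0 : ℝ, ∀ x ≥ X0, ∀ (z z' : Fin t → ℤ) (r r' : ℕ) (p p' : ℤ), (∀ l, |z l| ≤ n) →
      (∀ l, |z' l| ≤ n) → 1 ≤ r → 1 ≤ r' → (r : ℝ) ≤ x ^ τ → (r' : ℝ) ≤ (2 * x) ^ τ →
      |(r : ℝ) * (∑ l, (z l : ℝ) * α l) - p| ≤ x ^ (-(1 - τ)) →
      |(r' : ℝ) * (∑ l, (z' l : ℝ) * α l) - p'| ≤ (2 * x) ^ (-(1 - τ)) →
      ∀ i i', z i * z' i' = z' i * z i') : ∃ᶠ x : ℝ in atTop, GoodSc τ n α x := by
  by_contra hcon
  rw [not_frequently, eventually_atTop] at hcon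
  obtain ⟨X1, hX1⟩ := hcon
  obtain ⟨X0, hX0⟩ := hm
  obtain ⟨X2, hX2⟩ : ∃ X2 : ℝ, X2 = max (max X0 X1) (9 * (n : ℝ) ^ 2 + 2) := ⟨_, rfl⟩
  have hX20 : X0 ≤ X2 := by
    rw [hX2]
    exact (le_max_left _ _).trans (le_max_left _ _)
  have hX21 : X1 ≤ X2 := by
    rw [hX2]
    exact (le_max_right _ _).trans (le_max_left _ _)
  have hX22 : 9 * (n : ℝ) ^ 2 + 2 ≤ X2 := by
    rw [hX2]
    exact le_max_right _ _
  have hX2p : 1 ≤ X2 := by
    have : 0 ≤ 9 * (n : ℝ) ^ 2 := by positivity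
    linarith
  obtain ⟨X, hX⟩ : ∃ X : ℕ → ℝ, X = fun j => 2 ^ j * X2 := ⟨_, rfl⟩
  have hXj : ∀ j, X j = 2 ^ j * X2 := fun j => by rw [hX]
  have hXs : ∀ j, X (j + 1) = 2 * X j := fun j => by rw [hXj, hXj]; ring
  have hXge : ∀ j, X2 ≤ X j := by
    intro j
    rw [hXj]
    exact le_mul_of_one_le_left (by linarith) (one_le_pow₀ (by norm_num))
  have hbad : ∀ j, ∃ (z : Fin t → ℤ) (r : ℕ), z ≠ 0 ∧ (∀ l, |z l| ≤ n) ∧ 1 ≤ r ∧ (r : ℝ) ≤ X j ^ τ ∧
      nd (r * ∑ l, (z l : ℝ) * α l) ≤ X j ^ (-(1 - τ)) := by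
    intro j
    have h1 := hX1 (X j) (hX21.trans (hXge j))
    unfold GoodSc Gs at h1
    push Not at h1
    obtain ⟨z, hz0, hzn, r, hr1, hr2, hr3⟩ := h1
    exact ⟨z, r, hz0, hzn, hr1, hr2, hr3⟩
  choose z r hz0 hzn hr1 hr2 hnd using hbad
  obtain ⟨p, hp⟩ : ∃ p : ℕ → ℤ, p = fun j => round ((r j : ℝ) * ∑ l, (z j l : ℝ) * α l) := ⟨_, rfl⟩
  have hb : ∀ j, |(r j : ℝ) * (∑ l, (z j l : ℝ) * α l) - p j| ≤ X j ^ (-(1 - τ)) := by
    intro j
    rw [hp]
    exact hnd j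
  have hmin : ∀ j i i', z j i * z (j + 1) i' = z (j + 1) i * z j i' := by
    intro j
    have h1 := hr2 (j + 1)
    have h2 := hb (j + 1)
    rw [hXs] at h1 h2
    exact hX0 (X j) (hX20.trans (hXge j)) (z j) (z (j + 1)) (r j) (r (j + 1)) (p j) (p (j + 1)) (hzn j)
      (hzn (j + 1)) (hr1 j) (hr1 (j + 1)) (hr2 j) h1 (hb j) h2
  have hpz : ∀ j i, (r j : ℤ) * z j i * p (j + 1) = (r (j + 1) : ℤ) * z (j + 1) i * p j := by
    intro j i
    have h1 := hr2 (j + 1)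
    have h2 := hb (j + 1)
    rw [hXs] at h1 h2
    have hxj : 1 ≤ X j := hX2p.trans (hXge j)
    have h3 := bad_two α n hxj hτ hτ4 (z j) (z (j + 1)) (r j) (r (j + 1)) (p j) (p (j + 1)) (hzn j)
      (hzn (j + 1)) (hr2 j) h1 (hb j) h2 i
    have h4 : ∑ l, ((z j i * z (j + 1) l - z (j + 1) i * z j l : ℤ) : ℝ) * α l = 0 := by
      refine sum_eq_zero fun l _ => ?_
      rw [hmin j i l, sub_self, Int.cast_zero, zero_mul]
    rw [h4, mul_zero, zero_sub, abs_neg] at h3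
    have h5 : (n : ℝ) * (3 * X j ^ (2 * τ - 1)) < 1 := by
      have h6 : X j ^ (2 * τ - 1) ≤ X j ^ (-(1 / 2) : ℝ) := Real.rpow_le_rpow_of_exponent_le hxj (by linarith)
      have h7 : X j ^ (-(1 / 2) : ℝ) = (Real.sqrt (X j))⁻¹ := by
        rw [Real.rpow_neg (by linarith), Real.sqrt_eq_rpow]
      have h8 : 3 * (n : ℝ) < Real.sqrt (X j) := by
        apply Real.lt_sqrt_of_sq_lt
        have := hXge j
        nlinarith
      have h9 : 0 < Real.sqrt (X j) := Real.sqrt_pos.2 (by linarith)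
      calc (n : ℝ) * (3 * X j ^ (2 * τ - 1)) ≤ n * (3 * (Real.sqrt (X j))⁻¹) := by
            rw [← h7]
            gcongr
        _ = (3 * n) / Real.sqrt (X j) := by ring
        _ < 1 := (div_lt_one h9).2 h8
    have h6 : |((r j : ℤ) * z j i * p (j + 1) - (r (j + 1) : ℤ) * z (j + 1) i * p j : ℤ)| < 1 := by
      have h7 : ((|((r j : ℤ) * z j i * p (j + 1) - (r (j + 1) : ℤ) * z (j + 1) i * p j : ℤ)| : ℤ) : ℝ) < 1 := by
        rw [Int.cast_abs]
        push_cast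
        exact h3.trans_lt h5
      exact_mod_cast h7
    rw [Int.abs_lt_one_iff, sub_eq_zero] at h6
    exact h6
  refine vec_const α hα (fun j l => (r j : ℤ) * z j l) p (fun j => X j ^ (-(1 - τ))) ?_ ?_ ?_ ?_ ?_
  · intro j h0
    apply hz0 j
    funext l
    have h1 := congrFun h0 l
    have h2 : (r j : ℤ) * z j l = 0 := h1
    have h3 := hr1 j
    rcases mul_eq_zero.1 h2 with h4 | h4
    · have h5 : r j = 0 := by exact_mod_cast h4
      omega
    · exact h4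
  · have h1 : Tendsto X atTop atTop := by
      rw [hX]
      exact (tendsto_pow_atTop_atTop_of_one_lt (by norm_num : (1 : ℝ) < 2)).atTop_mul_const (by linarith)
    exact (tendsto_rpow_neg_atTop (by linarith : 0 < 1 - τ)).comp h1
  · intro j
    have h1 : ∑ l, (((r j : ℤ) * z j l : ℤ) : ℝ) * α l = (r j : ℝ) * ∑ l, (z j l : ℝ) * α l := by
      rw [mul_sum]
      refine sum_congr rfl fun l _ => ?_
      push_cast
      ring
    show |∑ l, (((r j : ℤ) * z j l : ℤ) : ℝ) * α l - p j| ≤ _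
    rw [h1]
    exact hb j
  · intro j i i'
    show ((r j : ℤ) * z j i) * ((r (j + 1) : ℤ) * z (j + 1) i') = ((r (j + 1) : ℤ) * z (j + 1) i) * ((r j : ℤ) * z j i')
    linear_combination ((r j : ℤ) * (r (j + 1) : ℤ)) * hmin j i i'
  · intro j i
    exact hpz j i

/-- one irrational number -/
theorem scl_one (α : ℝ) (hα : Irrational α) : Scl (fun _ : Fin 1 => α) := by
  intro n
  refine ⟨1 / 8, by norm_num, by norm_num, ?_⟩
  have hI : Ind (fun _ : Fin 1 => α) := by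
    intro z z0 h
    rw [Fin.sum_univ_one] at h
    funext i
    rw [Subsingleton.elim i 0]
    by_contra h0
    apply hα
    refine ⟨(z0 : ℚ) / (z 0 : ℚ), ?_⟩
    have h1 : (z 0 : ℝ) ≠ 0 := by
      have : z 0 ≠ 0 := h0
      exact_mod_cast this
    push_cast
    rw [div_eq_iff h1, ← h]
    ring
  refine scl_core _ hI n (by norm_num) (by norm_num) ⟨0, ?_⟩
  intro x _ z z' r r' p p' _ _ _ _ _ _ _ _ i i'
  rw [Subsingleton.elim i' i]
  ring

end Pool.Agent.H95.RO
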