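import Pool.Agent.H95.RO.Sc1

/-!
# [H95 RO SC2] MP_8923e7_nt, THEOREM R: good scales exist

PROOF. `nn`: a real `α` which is irrational and not a Liouville number: there is `D : ℕ` with: for all integers `q ≥ 1` and `p`,
`|q α - p| ≥ c q^(-D)` for some `c > 0` (`Liouville α` means: for all `n` there are `p, q` with `1 < q`, `α ≠ p/q`, `|α - p/q| < 1/q^n`; negate: an `n` with
`|α - p/q| ≥ 1/q^n` for all `q > 1`; `D = n`; for `q = 1`: `|α - p| ≥ nd α > 0`; `c = min 1 (nd α)`).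
* `one_freq` (`t = 1`): `α` irrational, `F` = the frequencies `z α`, `0 < |z| ≤ n`, `τ = 1/8`. Call `(z, r, p)` bad at `x` if `1 ≤ r ≤ x^τ` and `|r z α - p| ≤ x^(-(1-τ))`.
  CLAIM: if `(z, r, p)` is bad at `x` and `(z', r', p')` is bad at `2x`, `x ≥ X0`, then `p/(r z) = p'/(r' z')`: otherwise `1/(|r z r' z'|) ≤ |p/(rz) - p'/(r'z')|
  ≤ x^(-(1-τ)) (1/|rz| + 1/|r'z'|) ≤ ...`, that is `1 ≤ x^(-(1-τ)) (|r z| + |r' z'|) ≤ x^(-(1-τ)) 4 n x^τ`, false for large `x`. So if all `2^j`, `j ≥ j0`, are not good, then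
  the fraction `p/(rz)` is the same for all `j ≥ j0` and `|α - p/(rz)| ≤ 2^(-j(1-τ))` for all `j`, so `α` is rational.
* `two_freq` (`t = 2`): `α 1` not Liouville (exponent `D`, constant `c`), `Ind α`, `τ = min (1/8) (1/(2D + 6))`. Frequencies `β_z = z_0 α_0 + z_1 α_1`.
  CLAIM: if `(z, r, p)` is bad at `x` (`1 ≤ r ≤ x^τ`, `|r β_z - p| ≤ x^(-(1-τ))`) and `(z', r', p')` is bad at `2x`, then the integer vectors `(r z, p)` and `(r' z', p')` are
  proportional: first `z, z'` are proportional: `Δ = z_0 z'_1 - z'_0 z_1`; if `Δ ≠ 0`: `r r' (z_0 β_z' - z'_0 β_z) = r r' Δ α_1`, and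
  `|r r' Δ α_1 - (r z_0 p' - r' z'_0 p)| ≤ r |z_0| |r' β_z' - p'| + r' |z'_0| |r β_z - p| ≤ 4 n x^τ x^(-(1-τ))` while it is `≥ c (r r' |Δ|)^(-D) ≥ c (8 n² x^(2τ))^(-D)`
  (`2^τ ≤ 2`): false for large `x` as `1 - 2τ > 2τ D`. Then `z' = (a'/a) z` with `β_z = a β_0`, `β_z' = a' β_0` (primitive direction), or without gcd:
  `z'_i β_z = z_i β_z'` for both `i`; with an `i` such that `z_i ≠ 0` (then `z'_i ≠ 0` too): `|z'_i r r' β_z - z'_i r' p| ≤ ..`, `|z_i r r' β_z' - z_i r p'| ≤ ..`, so the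
  integer `z'_i r' p - z_i r p'` has absolute value `≤ 4 n x^τ x^(-(1-τ)) < 1`: it is `0`. So `p/(r z_i) = p'/(r' z'_i)`.
  Consequence: if all `2^j` (`j ≥ j0`) are not good, the ratio vector (`(z_0 : z_1)` and `p/(r z_i)`) is the same for all `j`; fix `(z, r, p)` bad at `2^(j0)`, `z_i ≠ 0`:
  then for all `j` `|r β_z - p| = |r z_i / (r' z'_i)| |r' β_z' - p'| ≤ n r 2^(-j(1-τ))`, so `r β_z = p`, against `Ind α`.
* `scl_one`, `scl_two`: the forms needed. `alg`: all `β_z` not Liouville: then every large `x` is good (for later use, not needed now).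
-/

set_option autoImplicit false

namespace Pool.Agent.H95.RO

open Finset Filter

/-- lower bound for the linear form of a number which is not a Liouville number -/
private theorem nl (α : ℝ) (hi : ∀ q P : ℤ, q ≠ 0 → (q : ℝ) * α ≠ P) (hL : ¬ Liouville α) :
    ∃ (D : ℕ) (c : ℝ), 0 < c ∧ ∀ q P : ℤ, q ≠ 0 → c ≤ |(q : ℝ) * α - P| * |(q : ℝ)| ^ D := by
  unfold Liouville at hL
  push Not at hL
  obtain ⟨D, hD⟩ := hL
  have h0 : 0 < nd α := by
    unfold nd
    rw [abs_pos, sub_ne_zero]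
    have := hi 1 (round α) one_ne_zero
    rwa [Int.cast_one, one_mul] at this
  refine ⟨D, min 1 (nd α), lt_min one_pos h0, ?_⟩
  have key : ∀ q P : ℤ, 0 < q → min 1 (nd α) ≤ |(q : ℝ) * α - P| * |(q : ℝ)| ^ D := by
    intro q P hq
    have hqr : (0 : ℝ) < q := by exact_mod_cast hq
    rcases (by omega : q = 1 ∨ 1 < q) with h1 | h1
    · refine (min_le_right _ _).trans ?_
      rw [h1, Int.cast_one, one_mul, abs_one, one_pow, mul_one]
      exact round_le α P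
    · refine (min_le_left _ _).trans ?_
      have h2 : α ≠ (P : ℝ) / q := by
        intro h3
        apply hi q P hq.ne'
        rw [h3]
        field_simp
      have h3 := hD P q h1 h2
      rw [div_le_iff₀ (by positivity)] at h3
      have h4 : (q : ℝ) * α - P = q * (α - P / q) := by
        field_simp
      rw [h4, abs_mul, abs_of_pos hqr]
      have h5 : (1 : ℝ) ≤ q := by exact_mod_cast h1.le
      calc (1 : ℝ) ≤ |α - P / q| * (q : ℝ) ^ D := h3
        _ ≤ q * (|α - P / q| * (q : ℝ) ^ D) := le_mul_of_one_le_left (by positivity) h5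
        _ = q * |α - P / q| * (q : ℝ) ^ D := by ring
  intro q P hq
  rcases lt_or_gt_of_ne hq with h | h
  · have h1 := key (-q) (-P) (by omega)
    have h2 : (((-q : ℤ) : ℝ)) * α - ((-P : ℤ) : ℝ) = -((q : ℝ) * α - P) := by
      push_cast
      ring
    rw [h2, abs_neg, Int.cast_neg, abs_neg] at h1
    exact h1
  · exact key q P h

/-- two numbers, the second one not a Liouville number -/
theorem scl_two (α : Fin 2 → ℝ) (hα : Ind α) (hL : ¬ Liouville (α 1)) : Scl α := by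
  intro n
  have hi : ∀ q P : ℤ, q ≠ 0 → (q : ℝ) * α 1 ≠ P := by
    intro q P hq h
    have h1 := hα ![0, q] P (by
      rw [Fin.sum_univ_two]
      show ((0 : ℤ) : ℝ) * α 0 + (q : ℝ) * α 1 = P
      rw [Int.cast_zero, zero_mul, zero_add]
      exact h)
    exact hq (congrFun h1 1)
  obtain ⟨D, c, hc, hD⟩ := nl (α 1) hi hL
  obtain ⟨τ, hτd⟩ : ∃ τ : ℝ, τ = 1 / (2 * D + 6) := ⟨_, rfl⟩
  have hτ : 0 < τ := by
    rw [hτd]
    positivity
  have hτ4 : τ ≤ 1 / 4 := by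
    rw [hτd]
    apply one_div_le_one_div_of_le (by norm_num)
    have : (0 : ℝ) ≤ D := Nat.cast_nonneg D
    linarith
  have hτD : 2 * τ * (D + 3) = 1 := by
    rw [hτd]
    field_simp
    ring
  refine ⟨τ, hτ, hτ4, ?_⟩
  obtain ⟨K, hK⟩ : ∃ K : ℝ, K = n * 3 * (4 * (n : ℝ) ^ 2) ^ D := ⟨_, rfl⟩
  have hK0 : 0 ≤ K := by rw [hK]; positivity
  have hlim : Tendsto (fun x : ℝ => K * x ^ (-(4 * τ))) atTop (nhds 0) := by
    have h1 := (tendsto_rpow_neg_atTop (by linarith : 0 < 4 * τ)).const_mul K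
    rwa [mul_zero] at h1
  obtain ⟨X1, hX1⟩ := eventually_atTop.1 (hlim.eventually_lt_const hc)
  refine scl_core α hα n hτ hτ4 ⟨max 1 X1, ?_⟩
  intro x hx z z' r r' p p' hz hz' hr1 hr1' hr hr' hb hb'
  have hx1 : 1 ≤ x := (le_max_left _ _).trans hx
  have hx0 : 0 < x := by linarith
  have hxX : X1 ≤ x := (le_max_right _ _).trans hx
  have hdel : z 0 * z' 1 - z' 0 * z 1 = 0 := by
    by_contra hne
    have h1 := bad_two α n hx1 hτ hτ4 z z' r r' p p' hz hz' hr hr' hb hb' 0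
    rw [Fin.sum_univ_two] at h1
    have e1 : (r : ℝ) * r' * (((z 0 * z' 0 - z' 0 * z 0 : ℤ) : ℝ) * α 0 +
        ((z 0 * z' 1 - z' 0 * z 1 : ℤ) : ℝ) * α 1) - (r * z 0 * p' - r' * z' 0 * p) =
        (((r : ℤ) * r' * (z 0 * z' 1 - z' 0 * z 1) : ℤ) : ℝ) * α 1 -
          (((r : ℤ) * z 0 * p' - (r' : ℤ) * z' 0 * p : ℤ) : ℝ) := by
      push_cast
      ring
    rw [e1] at h1
    obtain ⟨q, hq⟩ : ∃ q : ℤ, q = (r : ℤ) * r' * (z 0 * z' 1 - z' 0 * z 1) := ⟨_, rfl⟩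
    rw [← hq] at h1
    have hq0 : q ≠ 0 := by
      rw [hq]
      refine mul_ne_zero (mul_ne_zero ?_ ?_) hne
      · have : r ≠ 0 := by omega
        exact_mod_cast this
      · have : r' ≠ 0 := by omega
        exact_mod_cast this
    have h2 := hD q ((r : ℤ) * z 0 * p' - (r' : ℤ) * z' 0 * p) hq0
    -- the size of `q`
    have hnr : (0 : ℝ) ≤ n := Nat.cast_nonneg n
    have a0 : ∀ l, |(z l : ℝ)| ≤ n := fun l => by
      rw [← Int.cast_abs]
      exact_mod_cast hz l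
    have a0' : ∀ l, |(z' l : ℝ)| ≤ n := fun l => by
      rw [← Int.cast_abs]
      exact_mod_cast hz' l
    have h3 : |((z 0 * z' 1 - z' 0 * z 1 : ℤ) : ℝ)| ≤ 2 * (n : ℝ) ^ 2 := by
      push_cast
      calc |(z 0 : ℝ) * z' 1 - z' 0 * z 1| ≤ |(z 0 : ℝ) * z' 1| + |(z' 0 : ℝ) * z 1| := abs_sub _ _
        _ = |(z 0 : ℝ)| * |(z' 1 : ℝ)| + |(z' 0 : ℝ)| * |(z 1 : ℝ)| := by rw [abs_mul, abs_mul]
        _ ≤ n * n + n * n := by
          gcongr
          · exact a0 0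
          · exact a0' 1
          · exact a0' 0
          · exact a0 1
        _ = 2 * (n : ℝ) ^ 2 := by ring
    have h2x : (2 * x) ^ τ ≤ 2 * x ^ τ := by
      rw [Real.mul_rpow (by norm_num) hx0.le]
      have h3 : (2 : ℝ) ^ τ ≤ 2 := by
        calc (2 : ℝ) ^ τ ≤ (2 : ℝ) ^ (1 : ℝ) := Real.rpow_le_rpow_of_exponent_le (by norm_num) (by linarith)
          _ = 2 := Real.rpow_one 2
      exact mul_le_mul_of_nonneg_right h3 (Real.rpow_nonneg hx0.le _)
    have hxt : 0 ≤ x ^ τ := Real.rpow_nonneg hx0.le _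
    have h4 : |(q : ℝ)| ≤ 4 * (n : ℝ) ^ 2 * x ^ (2 * τ) := by
      have e2 : x ^ (2 * τ) = x ^ τ * x ^ τ := by
        rw [← Real.rpow_add hx0]
        congr 1
        ring
      rw [hq, Int.cast_mul, Int.cast_mul, Int.cast_natCast, Int.cast_natCast, abs_mul, abs_mul, Nat.abs_cast,
        Nat.abs_cast, e2]
      calc (r : ℝ) * r' * |((z 0 * z' 1 - z' 0 * z 1 : ℤ) : ℝ)| ≤ x ^ τ * (2 * x ^ τ) * (2 * (n : ℝ) ^ 2) := by
            gcongr
            exact hr'.trans h2x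
        _ = 4 * (n : ℝ) ^ 2 * (x ^ τ * x ^ τ) := by ring
    have h5 : c ≤ n * (3 * x ^ (2 * τ - 1)) * (4 * (n : ℝ) ^ 2 * x ^ (2 * τ)) ^ D := by
      refine h2.trans ?_
      have h6 : |(q : ℝ)| ^ D ≤ (4 * (n : ℝ) ^ 2 * x ^ (2 * τ)) ^ D := pow_le_pow_left₀ (abs_nonneg _) h4 D
      exact mul_le_mul h1 h6 (by positivity) (by positivity)
    have h6 : n * (3 * x ^ (2 * τ - 1)) * (4 * (n : ℝ) ^ 2 * x ^ (2 * τ)) ^ D = K * x ^ (-(4 * τ)) := by
      have e3 : (x ^ (2 * τ)) ^ D = x ^ (2 * τ * D) := by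
        rw [← Real.rpow_natCast, ← Real.rpow_mul hx0.le]
      have e4 : x ^ (2 * τ - 1) * x ^ (2 * τ * D) = x ^ (-(4 * τ)) := by
        rw [← Real.rpow_add hx0]
        congr 1
        linear_combination hτD
      rw [hK, mul_pow, e3, ← e4]
      ring
    rw [h6] at h5
    exact absurd h5 (not_le.2 (hX1 x hxX))
  intro i i'
  fin_cases i <;> fin_cases i'
  · show z 0 * z' 0 = z' 0 * z 0
    ring
  · show z 0 * z' 1 = z' 0 * z 1
    linarith
  · show z 1 * z' 0 = z' 1 * z 0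
    linarith
  · show z 1 * z' 1 = z' 1 * z 1
    ring

end Pool.Agent.H95.RO
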