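import Pool.Agent.H95.RO.Df
import Pool.Agent.H11.PC.VINO

/-!
# [H95 RO SEP] MP_8923e7_nt, THEOREM R: sums of `min (A, 1/‖l γ‖)`

`gb A d = A / (1 + A d)` (for `A, d ≥ 0`: between `min (A, 1/d) / 2` and `min (A, 1/d)`, and `= A` for `d = 0`).
Throughout `|γ - a/k| ≤ 1/k^2`, `(a, k) = 1`, `k ≥ 4`.

PROOF. Elementary facts: `gb A d ≤ A`, `gb A d ≤ 1/d` for `d > 0`, `gb` is increasing in `A` (`1/gb = 1/A + d`; `gb 0 d = 0`).
* `sep`: for `0 < |j| ≤ k/4`: `1/(2k) ≤ nd (j γ)`. By `vino` (H11/PC/VINO) every `nd (l γ)`, `1 ≤ l ≤ P`, `4 P ≤ k`, is positive; the bound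
  `1/(2k) ≤` is inside its proof (`vino_dist` with `vinoR ≥ 1`); direct proof: let `m = round (j γ)`. `j a - k m ≠ 0` since
  `k ∤ j a` (`0 < |j| < k`, `a` coprime to `k`), so `|j a/k - m| ≥ 1/k`, and `|j γ - j a/k| ≤ |j|/k^2 ≤ 1/(4k)`: `nd (j γ) ≥ 3/(4k)`.
* `blk`: let `t l = l γ - round (l γ) ∈ [-1/2, 1/2]`. If `l ≠ l'` are in the block and `t l, t l'` have the same sign and
  `⌊2k |t l|⌋ = ⌊2k |t l'|⌋` then `|t l - t l'| < 1/(2k)`, and `nd ((l - l') γ) ≤ |t l - t l'|` (`round_le`), against `sep`. So for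
  every `j` at most two `l` have `⌊2k |t l|⌋ = j`; those with `j = 0` contribute at most `A` each, those with `j ≥ 1` at most
  `1/|t l| ≤ 2k/j`, and `j ≤ k`: total `≤ 2A + 4k ∑_(j ≤ k) 1/j ≤ 2A + 4k (1 + log k)` (`harmonic_le_one_add_log`).
* `sumII`: cut `[1, N]` into at most `N/P + 1` blocks of length `P = k/4 ≥ k/8` and apply `blk` with `γ` (the index `n - n'` runs through a
  block of consecutive integers, use `nd (-x) = nd x`): `≤ (8N/k + 1)(2A + 4k(1 + log k))`.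
* `sumI`: the first block `m ≤ P` by `vino`: `≤ 8k(1 + log P)` (`gb ≤ 1/d`). For `m > P` blocks `(jP, (j+1)P]`, `1 ≤ j ≤ M/P`: there
  `gb (Y/m) ≤ gb (Y/(jP))`, so `blk` gives `2Y/(jP) + 4k(1 + log k)`; sum over `j ≤ M/P`: `≤ 2Y/P (1 + log M) + (M/P) 4k(1 + log k)
  ≤ 16 (Y/k)(1 + log M) + 32 M (1 + log k)`.
-/

set_option autoImplicit false

namespace Pool.Agent.H95.RO

open Finset

/-- smooth minimum -/
noncomputable def gb (A d : ℝ) : ℝ := A / (1 + A * d)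

theorem nd_nonneg (t : ℝ) : 0 ≤ nd t := abs_nonneg _

theorem nd_le (t : ℝ) (z : ℤ) : nd t ≤ |t - z| := round_le t z

theorem nd_neg (t : ℝ) : nd (-t) = nd t := by
  refine le_antisymm ?_ ?_
  · refine (nd_le (-t) (-round t)).trans (le_of_eq ?_)
    unfold nd
    rw [← abs_neg]
    congr 1
    push_cast
    ring
  · refine (nd_le t (-round (-t))).trans (le_of_eq ?_)
    unfold nd
    rw [← abs_neg]
    congr 1
    push_cast
    ring

theorem gb_nonneg {A d : ℝ} (hA : 0 ≤ A) (hd : 0 ≤ d) : 0 ≤ gb A d := by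
  unfold gb
  positivity

theorem gb_le {A d : ℝ} (hA : 0 ≤ A) (hd : 0 ≤ d) : gb A d ≤ A := by
  unfold gb
  refine div_le_self hA ?_
  have := mul_nonneg hA hd
  linarith

theorem gb_inv {A d : ℝ} (hA : 0 ≤ A) (hd : 0 < d) : gb A d ≤ 1 / d := by
  unfold gb
  have := mul_nonneg hA hd.le
  rw [div_le_div_iff₀ (by linarith) hd]
  linarith

theorem gb_mono {A B d : ℝ} (hA : 0 ≤ A) (hAB : A ≤ B) (hd : 0 ≤ d) : gb A d ≤ gb B d := by
  unfold gb
  have h1 := mul_nonneg hA hd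
  have h2 := mul_nonneg (hA.trans hAB) hd
  rw [div_le_div_iff₀ (by linarith) (by linarith)]
  nlinarith

theorem sep (k : ℕ) (a : ℤ) (γ : ℝ) (hk : 1 ≤ k) (hc : IsCoprime a (k : ℤ))
    (hγ : |γ - (a : ℝ) / k| ≤ 1 / (k : ℝ) ^ 2) (j : ℤ) (hj : j ≠ 0) (hjk : 4 * |j| ≤ k) :
    1 / (2 * (k : ℝ)) ≤ nd (j * γ) := by
  have hk0 : (0 : ℝ) < k := by exact_mod_cast hk
  obtain ⟨m, hm⟩ : ∃ m : ℤ, m = round ((j : ℝ) * γ) := ⟨_, rfl⟩
  have h1 : j * a - k * m ≠ 0 := by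
    intro h
    have h2 : (k : ℤ) ∣ j * a := ⟨m, by linarith⟩
    have h3 : (k : ℤ) ∣ j := hc.symm.dvd_of_dvd_mul_right h2
    have h4 : |j| < (k : ℤ) := by
      have := abs_pos.2 hj
      omega
    exact hj (Int.eq_zero_of_abs_lt_dvd h3 h4)
  have h2 : (1 : ℝ) ≤ |(j : ℝ) * a - k * m| := by
    have h3 : (1 : ℤ) ≤ |j * a - k * m| := Int.one_le_abs h1
    exact_mod_cast h3
  have h3 : (k : ℝ) * |(j : ℝ) * γ - m| + 1 / 4 ≥ |(j : ℝ) * a - k * m| := by
    have h4 : (j : ℝ) * a - k * m = k * ((j : ℝ) * γ - m) - k * (j * (γ - a / k)) := by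
      field_simp
      ring
    have h5 : |(k : ℝ) * (j * (γ - a / k))| ≤ 1 / 4 := by
      rw [abs_mul, abs_mul, abs_of_pos hk0]
      have h6 : (4 : ℝ) * |(j : ℝ)| ≤ k := by exact_mod_cast hjk
      calc (k : ℝ) * (|(j : ℝ)| * |γ - a / k|) ≤ k * (|(j : ℝ)| * (1 / (k : ℝ) ^ 2)) := by gcongr
        _ ≤ k * ((k / 4) * (1 / (k : ℝ) ^ 2)) := by
          gcongr
          linarith
        _ = 1 / 4 := by field_simp
    rw [h4]
    have h6 := abs_sub ((k : ℝ) * ((j : ℝ) * γ - m)) (k * (j * (γ - a / k)))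
    rw [abs_mul (k : ℝ) ((j : ℝ) * γ - m), abs_of_pos hk0] at h6
    linarith
  have h4 : nd (j * γ) = |(j : ℝ) * γ - m| := by
    unfold nd
    rw [hm]
  rw [h4, div_le_iff₀ (by positivity)]
  nlinarith

theorem blk (k : ℕ) (a : ℤ) (γ : ℝ) (hk : 4 ≤ k) (hc : IsCoprime a (k : ℤ))
    (hγ : |γ - (a : ℝ) / k| ≤ 1 / (k : ℝ) ^ 2) (A : ℝ) (hA : 0 ≤ A) (c : ℤ) (P : ℕ) (hP : 4 * P ≤ k) :
    ∑ l ∈ Ioc c (c + P), gb A (nd (l * γ)) ≤ 2 * A + 4 * k * (1 + Real.log k) := by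
  have hk0 : (0 : ℝ) < k := by exact_mod_cast (by omega : 0 < k)
  obtain ⟨t, ht⟩ : ∃ t : ℤ → ℝ, ∀ l, t l = (l : ℝ) * γ - round ((l : ℝ) * γ) := ⟨_, fun _ => rfl⟩
  have hnd : ∀ l : ℤ, nd (l * γ) = |t l| := fun l => by rw [ht]; rfl
  obtain ⟨J, hJ⟩ : ∃ J : ℤ → ℕ, ∀ l, J l = ⌊2 * (k : ℝ) * |t l|⌋₊ := ⟨_, fun _ => rfl⟩
  have hJ1 : ∀ l, (J l : ℝ) ≤ 2 * k * |t l| := fun l => by
    rw [hJ]
    exact Nat.floor_le (by positivity)
  have hJ2 : ∀ l, 2 * k * |t l| < (J l : ℝ) + 1 := fun l => by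
    rw [hJ]
    exact Nat.lt_floor_add_one _
  have hfar : ∀ l ∈ Ioc c (c + P), ∀ l' ∈ Ioc c (c + P), |t l - t l'| < 1 / (2 * (k : ℝ)) →
      l = l' := by
    intro l hl l' hl' h
    by_contra hne
    rw [mem_Ioc] at hl hl'
    have h1 : 4 * |l - l'| ≤ (k : ℤ) := by
      have h2 : |l - l'| ≤ P := by
        rw [abs_le]
        constructor <;> omega
      omega
    have h2 := sep k a γ (by omega) hc hγ (l - l') (sub_ne_zero.2 hne) h1
    have h3 := nd_le (((l - l' : ℤ) : ℝ) * γ) (round ((l : ℝ) * γ) - round ((l' : ℝ) * γ))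
    have h4 : ((l - l' : ℤ) : ℝ) * γ - ((round ((l : ℝ) * γ) - round ((l' : ℝ) * γ) : ℤ) : ℝ) =
        t l - t l' := by
      rw [ht, ht]
      push_cast
      ring
    rw [h4] at h3
    linarith
  have hclose : ∀ l l', J l = J l' → abs (|t l| - |t l'|) < 1 / (2 * (k : ℝ)) := by
    intro l l' h
    have h1 := hJ1 l
    have h2 := hJ2 l
    have h3 := hJ1 l'
    have h4 := hJ2 l'
    rw [h] at h1 h2
    have h5 : |t l| - |t l'| < 1 / (2 * (k : ℝ)) := by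
      rw [lt_div_iff₀ (by positivity)]
      linarith
    have h6 : |t l'| - |t l| < 1 / (2 * (k : ℝ)) := by
      rw [lt_div_iff₀ (by positivity)]
      linarith
    exact abs_lt.2 ⟨by linarith, h5⟩
  have hcard : ∀ j : ℕ, ((Ioc c (c + P)).filter fun l => J l = j).card ≤ 2 := by
    intro j
    have h1 : ((Ioc c (c + P)).filter fun l => J l = j) ⊆
        ((Ioc c (c + P)).filter fun l => J l = j ∧ 0 ≤ t l) ∪
        ((Ioc c (c + P)).filter fun l => J l = j ∧ t l < 0) := by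
      intro l hl
      rw [mem_filter] at hl
      rw [mem_union, mem_filter, mem_filter]
      rcases le_or_gt 0 (t l) with h | h
      · exact Or.inl ⟨hl.1, hl.2, h⟩
      · exact Or.inr ⟨hl.1, hl.2, h⟩
    have h2 : ((Ioc c (c + P)).filter fun l => J l = j ∧ 0 ≤ t l).card ≤ 1 := by
      rw [card_le_one]
      intro l hl l' hl'
      rw [mem_filter] at hl hl'
      refine hfar l hl.1 l' hl'.1 ?_
      have h3 := hclose l l' (hl.2.1.trans hl'.2.1.symm)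
      rwa [abs_of_nonneg hl.2.2, abs_of_nonneg hl'.2.2] at h3
    have h3 : ((Ioc c (c + P)).filter fun l => J l = j ∧ t l < 0).card ≤ 1 := by
      rw [card_le_one]
      intro l hl l' hl'
      rw [mem_filter] at hl hl'
      refine hfar l hl.1 l' hl'.1 ?_
      have h3 := hclose l l' (hl.2.1.trans hl'.2.1.symm)
      rw [abs_of_neg hl.2.2, abs_of_neg hl'.2.2] at h3
      have h4 : -t l - -t l' = -(t l - t l') := by ring
      rwa [h4, abs_neg] at h3
    refine (card_le_card h1).trans ((card_union_le _ _).trans ?_)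
    omega
  have hmaps : ∀ l ∈ Ioc c (c + P), J l ∈ range (k + 1) := by
    intro l _
    rw [mem_range, Nat.lt_succ_iff]
    have h1 : |t l| ≤ 1 / 2 := by
      rw [ht]
      exact abs_sub_round _
    have h2 := hJ1 l
    have h3 : (J l : ℝ) ≤ k := by nlinarith
    exact_mod_cast h3
  rw [← sum_fiberwise_of_maps_to hmaps, sum_range_succ']
  have h0 : ∑ l ∈ (Ioc c (c + P)).filter (fun l => J l = 0), gb A (nd (l * γ)) ≤ 2 * A := by
    refine (sum_le_sum fun l _ => gb_le hA (nd_nonneg _)).trans ?_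
    rw [sum_const, nsmul_eq_mul]
    refine mul_le_mul_of_nonneg_right ?_ hA
    exact_mod_cast hcard 0
  have h1 : ∀ j ∈ range k, ∑ l ∈ (Ioc c (c + P)).filter (fun l => J l = j + 1),
      gb A (nd (l * γ)) ≤ 4 * k * ((j : ℝ) + 1)⁻¹ := by
    intro j _
    have hj : (0 : ℝ) < (j : ℝ) + 1 := by positivity
    have h2 : ∀ l ∈ (Ioc c (c + P)).filter (fun l => J l = j + 1),
        gb A (nd (l * γ)) ≤ 2 * k * ((j : ℝ) + 1)⁻¹ := by
      intro l hl
      have h3 := hJ1 l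
      rw [(mem_filter.1 hl).2] at h3
      push_cast at h3
      have h4 : 0 < |t l| := by
        by_contra hcon
        push Not at hcon
        nlinarith
      rw [hnd]
      refine (gb_inv hA h4).trans ?_
      rw [← div_eq_mul_inv, div_le_div_iff₀ h4 hj]
      linarith
    refine (sum_le_sum h2).trans ?_
    rw [sum_const, nsmul_eq_mul]
    have h3 : ((((Ioc c (c + P)).filter fun l => J l = j + 1).card : ℕ) : ℝ) ≤ 2 := by
      exact_mod_cast hcard (j + 1)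
    have h4 : 0 ≤ 2 * (k : ℝ) * ((j : ℝ) + 1)⁻¹ := by positivity
    nlinarith
  have h2 : ∑ j ∈ range k, 4 * (k : ℝ) * ((j : ℝ) + 1)⁻¹ ≤ 4 * k * (1 + Real.log k) := by
    rw [← mul_sum]
    refine mul_le_mul_of_nonneg_left ?_ (by positivity)
    have h3 := harmonic_le_one_add_log k
    have h4 : ((harmonic k : ℚ) : ℝ) = ∑ j ∈ range k, ((j : ℝ) + 1)⁻¹ := by
      unfold harmonic
      push_cast
      rfl
    rwa [h4] at h3
  have h3 := sum_le_sum h1
  linarith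

/-- consecutive blocks -/
private theorem blks (k : ℕ) (a : ℤ) (γ : ℝ) (hk : 4 ≤ k) (hc : IsCoprime a (k : ℤ))
    (hγ : |γ - (a : ℝ) / k| ≤ 1 / (k : ℝ) ^ 2) (A : ℝ) (hA : 0 ≤ A) (c : ℤ) (P : ℕ) (hP : 4 * P ≤ k)
    (q : ℕ) :
    ∑ l ∈ Ioc c (c + (q * P : ℕ)), gb A (nd (l * γ)) ≤ q * (2 * A + 4 * k * (1 + Real.log k)) := by
  induction q with
  | zero => simp
  | succ q ih =>
    have h1 : Ioc c (c + ((q + 1) * P : ℕ)) = Ioc c (c + (q * P : ℕ)) ∪
        Ioc (c + (q * P : ℕ)) (c + (q * P : ℕ) + P) := by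
      ext l
      rw [mem_union, mem_Ioc, mem_Ioc, mem_Ioc, Nat.succ_mul]
      push_cast
      have h2 : (0 : ℤ) ≤ (q : ℤ) * P := by positivity
      constructor
      · intro h
        by_cases h3 : l ≤ c + q * P
        · exact Or.inl ⟨h.1, h3⟩
        · exact Or.inr ⟨by omega, by omega⟩
      · rintro (h | h)
        · exact ⟨h.1, by omega⟩
        · exact ⟨by omega, by omega⟩
    rw [h1, sum_union]
    · have h2 := blk k a γ hk hc hγ A hA (c + (q * P : ℕ)) P hP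
      push_cast at ih h2 ⊢
      linarith
    · rw [disjoint_left]
      intro l h2 h3
      rw [mem_Ioc] at h2 h3
      omega

theorem sumII (k : ℕ) (a : ℤ) (γ : ℝ) (hk : 4 ≤ k) (hc : IsCoprime a (k : ℤ))
    (hγ : |γ - (a : ℝ) / k| ≤ 1 / (k : ℝ) ^ 2) (A : ℝ) (hA : 0 ≤ A) (N : ℕ) (n : ℤ) :
    ∑ n' ∈ Icc 1 N, gb A (nd (((n : ℤ) - (n' : ℕ) : ℤ) * γ)) ≤
      (8 * N / k + 1) * (2 * A + 4 * k * (1 + Real.log k)) := by
  obtain ⟨P, hP⟩ : ∃ P : ℕ, P = k / 4 := ⟨_, rfl⟩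
  have hP1 : 1 ≤ P := by omega
  have hP4 : 4 * P ≤ k := by omega
  have hP8 : k ≤ 8 * P := by omega
  have hk0 : (0 : ℝ) < k := by exact_mod_cast (by omega : 0 < k)
  have hPr : (0 : ℝ) < P := by exact_mod_cast hP1
  have hB : 0 ≤ 2 * A + 4 * k * (1 + Real.log k) := by
    have h1 : 0 ≤ Real.log k := Real.log_natCast_nonneg k
    positivity
  have e1 : ∑ n' ∈ Icc 1 N, gb A (nd (((n : ℤ) - (n' : ℕ) : ℤ) * γ)) =
      ∑ l ∈ Ioc (-n) (-n + N), gb A (nd (l * γ)) := by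
    refine sum_nbij (fun n' : ℕ => (n' : ℤ) - n) ?_ ?_ ?_ ?_
    · intro x hx
      rw [mem_Icc] at hx
      rw [mem_Ioc]
      constructor <;> omega
    · intro x _ y _ hxy
      have h1 : (x : ℤ) - n = y - n := hxy
      omega
    · intro l hl
      rw [mem_coe, mem_Ioc] at hl
      refine ⟨(l + n).toNat, ?_, ?_⟩
      · rw [mem_coe, mem_Icc]
        constructor <;> omega
      · change (((l + n).toNat : ℕ) : ℤ) - n = l
        omega
    · intro x _
      rw [← nd_neg]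
      congr 2
      push_cast
      ring
  have e2 : ∑ l ∈ Ioc (-n) (-n + N), gb A (nd (l * γ)) ≤
      ∑ l ∈ Ioc (-n) (-n + ((N / P + 1) * P : ℕ)), gb A (nd (l * γ)) := by
    refine sum_le_sum_of_subset_of_nonneg ?_ fun l _ _ => gb_nonneg hA (nd_nonneg _)
    refine Ioc_subset_Ioc le_rfl ?_
    have h1 : N ≤ (N / P + 1) * P := by
      have h2 := Nat.lt_mul_div_succ N hP1
      rw [mul_comm] at h2
      exact h2.le
    have h2 : (N : ℤ) ≤ (((N / P + 1) * P : ℕ) : ℤ) := by exact_mod_cast h1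
    omega
  have e3 := blks k a γ hk hc hγ A hA (-n) P hP4 (N / P + 1)
  have e4 : (((N / P + 1 : ℕ)) : ℝ) ≤ 8 * N / k + 1 := by
    push_cast
    have h1 : ((N / P : ℕ) : ℝ) ≤ N / P := Nat.cast_div_le
    have h2 : (N : ℝ) / P ≤ 8 * N / k := by
      rw [div_le_div_iff₀ hPr hk0]
      have h3 : (k : ℝ) ≤ 8 * P := by exact_mod_cast hP8
      have h4 : (0 : ℝ) ≤ N := Nat.cast_nonneg N
      nlinarith
    linarith
  rw [e1]
  exact e2.trans (e3.trans (mul_le_mul_of_nonneg_right e4 hB))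

/-- sums over natural numbers and over integers -/
private theorem nat_int (f : ℤ → ℝ) (u v : ℕ) :
    ∑ m ∈ Ioc u v, f (m : ℤ) = ∑ l ∈ Ioc (u : ℤ) (v : ℤ), f l := by
  refine sum_nbij (fun m : ℕ => (m : ℤ)) ?_ ?_ ?_ ?_
  · intro x hx
    rw [mem_Ioc] at hx ⊢
    exact ⟨by exact_mod_cast hx.1, by exact_mod_cast hx.2⟩
  · intro x _ y _ hxy
    exact Int.natCast_inj.1 hxy
  · intro l hl
    rw [mem_coe, mem_Ioc] at hl
    refine ⟨l.toNat, ?_, ?_⟩
    · rw [mem_coe, mem_Ioc]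
      constructor <;> omega
    · change ((l.toNat : ℕ) : ℤ) = l
      omega
  · intro x _
    rfl

/-- the terms after the first block -/
private theorem tail (k : ℕ) (a : ℤ) (γ : ℝ) (hk : 4 ≤ k) (hc : IsCoprime a (k : ℤ))
    (hγ : |γ - (a : ℝ) / k| ≤ 1 / (k : ℝ) ^ 2) (Y : ℝ) (hY : 0 ≤ Y) (P : ℕ) (hP : 4 * P ≤ k)
    (hP1 : 1 ≤ P) (J : ℕ) :
    ∑ m ∈ Ioc P ((J + 1) * P), gb (Y / m) (nd (m * γ)) ≤
      ∑ j ∈ Icc 1 J, (2 * (Y / (j * P)) + 4 * k * (1 + Real.log k)) := by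
  induction J with
  | zero => simp
  | succ J ih =>
    have h1 : ∑ m ∈ Ioc P ((J + 1 + 1) * P), gb (Y / m) (nd (m * γ)) =
        ∑ m ∈ Ioc P ((J + 1) * P), gb (Y / m) (nd (m * γ)) +
        ∑ m ∈ Ioc ((J + 1) * P) ((J + 1 + 1) * P), gb (Y / m) (nd (m * γ)) :=
      (sum_Ioc_consecutive _ (by nlinarith) (by nlinarith)).symm
    rw [h1, sum_Icc_succ_top (by omega)]
    refine add_le_add ih ?_
    have hP0 : (0 : ℝ) < P := by exact_mod_cast hP1
    have hA : 0 ≤ Y / (((J + 1 : ℕ) : ℝ) * P) := by positivity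
    have h2 := blk k a γ hk hc hγ (Y / (((J + 1 : ℕ) : ℝ) * P)) hA (((J + 1) * P : ℕ) : ℤ) P hP
    have h3 : (((J + 1) * P : ℕ) : ℤ) + P = (((J + 1 + 1) * P : ℕ) : ℤ) := by
      push_cast
      ring
    rw [h3, ← nat_int (fun l => gb (Y / (((J + 1 : ℕ) : ℝ) * P)) (nd (l * γ)))] at h2
    refine le_trans (sum_le_sum fun m hm => ?_) h2
    rw [mem_Ioc] at hm
    have h4 : (((J + 1 : ℕ) : ℝ) * P) ≤ m := by exact_mod_cast hm.1.le
    have h5 : (0 : ℝ) < ((J + 1 : ℕ) : ℝ) * P := by positivity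
    refine gb_mono (div_nonneg hY (Nat.cast_nonneg _)) ?_ (nd_nonneg _)
    exact div_le_div_of_nonneg_left hY h5 h4

theorem sumI (k : ℕ) (a : ℤ) (γ : ℝ) (hk : 4 ≤ k) (hc : IsCoprime a (k : ℤ))
    (hγ : |γ - (a : ℝ) / k| ≤ 1 / (k : ℝ) ^ 2) (Y : ℝ) (hY : 0 ≤ Y) (M : ℕ) (hM : 1 ≤ M) :
    ∑ m ∈ Icc 1 M, gb (Y / m) (nd (m * γ)) ≤
      64 * (Y / k + M + k) * (1 + Real.log M) * (1 + Real.log k) := by
  obtain ⟨P, hP⟩ : ∃ P : ℕ, P = k / 4 := ⟨_, rfl⟩
  have hP1 : 1 ≤ P := by omega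
  have hP4 : 4 * P ≤ k := by omega
  have hP8 : k ≤ 8 * P := by omega
  have hk0 : (0 : ℝ) < k := by exact_mod_cast (by omega : 0 < k)
  have hPr : (0 : ℝ) < P := by exact_mod_cast hP1
  have hMr : (1 : ℝ) ≤ M := by exact_mod_cast hM
  have hlk : 0 ≤ Real.log k := Real.log_natCast_nonneg k
  have hlM : 0 ≤ Real.log M := Real.log_natCast_nonneg M
  have hF : ∀ m : ℕ, 0 ≤ gb (Y / m) (nd (m * γ)) := fun m =>
    gb_nonneg (div_nonneg hY (Nat.cast_nonneg _)) (nd_nonneg _)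
  obtain ⟨J, hJ⟩ : ∃ J : ℕ, J = M / P := ⟨_, rfl⟩
  have hMJ : M ≤ (J + 1) * P := by
    have h2 := Nat.lt_mul_div_succ M hP1
    rw [mul_comm, ← hJ] at h2
    exact h2.le
  have e1 : ∑ m ∈ Icc 1 M, gb (Y / m) (nd (m * γ)) ≤
      ∑ m ∈ Icc 1 (min M P), gb (Y / m) (nd (m * γ)) +
        ∑ m ∈ Ioc P ((J + 1) * P), gb (Y / m) (nd (m * γ)) := by
    rw [← sum_union]
    · refine sum_le_sum_of_subset_of_nonneg ?_ fun m _ _ => hF m
      intro m hm
      rw [mem_Icc] at hm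
      rw [mem_union, mem_Icc, mem_Ioc]
      rcases Nat.lt_or_ge P m with h | h
      · exact Or.inr ⟨h, hm.2.trans hMJ⟩
      · exact Or.inl ⟨hm.1, le_min hm.2 h⟩
    · rw [disjoint_left]
      intro m h1 h2
      rw [mem_Icc] at h1
      rw [mem_Ioc] at h2
      have := min_le_right M P
      omega
  have e2 : ∑ m ∈ Icc 1 (min M P), gb (Y / m) (nd (m * γ)) ≤ 8 * k * (1 + Real.log M) := by
    have h1 := H11.PC.vino k a γ (by omega) hc hγ (min M P) (by
      have := min_le_right M P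
      omega)
    have h2 : ∑ m ∈ Icc 1 (min M P), gb (Y / m) (nd (m * γ)) ≤
        ∑ l ∈ Icc 1 (min M P), 1 / |(l : ℝ) * γ - round ((l : ℝ) * γ)| :=
      sum_le_sum fun m hm => gb_inv (div_nonneg hY (Nat.cast_nonneg _)) (h1.1 m hm)
    refine h2.trans (h1.2.trans ?_)
    have h3 : (1 : ℝ) ≤ (min M P : ℕ) := by exact_mod_cast le_min hM hP1
    have h4 : ((min M P : ℕ) : ℝ) ≤ M := by exact_mod_cast min_le_left M P
    have h5 : Real.log (min M P : ℕ) ≤ Real.log M := Real.log_le_log (by linarith) h4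
    gcongr
  have e3 := tail k a γ hk hc hγ Y hY P hP4 hP1 J
  have e4 : ∑ j ∈ Icc 1 J, (2 * (Y / (j * P)) + 4 * k * (1 + Real.log k)) ≤
      16 * (Y / k) * (1 + Real.log M) + 32 * M * (1 + Real.log k) := by
    rw [sum_add_distrib, sum_const, Nat.card_Icc, Nat.add_sub_cancel, nsmul_eq_mul]
    have h1 : ∑ j ∈ Icc 1 J, 2 * (Y / (j * P)) = 2 * Y / P * ∑ j ∈ Icc 1 J, ((j : ℕ) : ℝ)⁻¹ := by
      rw [mul_sum]
      refine sum_congr rfl fun j hj => ?_
      have hj0 : (j : ℝ) ≠ 0 := by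
        rw [mem_Icc] at hj
        exact_mod_cast (by omega : j ≠ 0)
      field_simp
    have h2 : ∑ j ∈ Icc 1 J, ((j : ℕ) : ℝ)⁻¹ ≤ 1 + Real.log M := by
      rcases Nat.eq_zero_or_pos J with h | h
      · rw [h]
        simp
        linarith
      · have h3 := harmonic_le_one_add_log J
        have h4 : ((harmonic J : ℚ) : ℝ) = ∑ i ∈ Icc 1 J, ((i : ℕ) : ℝ)⁻¹ := by
          rw [harmonic_eq_sum_Icc]
          push_cast
          rfl
        rw [h4] at h3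
        have h5 : (0 : ℝ) < J := by exact_mod_cast h
        have h6 : (J : ℝ) ≤ M := by
          rw [hJ]
          exact_mod_cast Nat.div_le_self M P
        have h7 := Real.log_le_log h5 h6
        linarith
    have h3 : 2 * Y / P ≤ 16 * (Y / k) := by
      rw [← mul_div_assoc, div_le_div_iff₀ hPr hk0]
      have h4 : (k : ℝ) ≤ 8 * P := by exact_mod_cast hP8
      nlinarith
    have h4 : (J : ℝ) * k ≤ 8 * M := by
      have h5 : J * P ≤ M := by
        rw [hJ]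
        exact Nat.div_mul_le_self M P
      have h6 : J * k ≤ 8 * M := by nlinarith
      exact_mod_cast h6
    rw [h1]
    have h5 : 2 * Y / P * ∑ j ∈ Icc 1 J, ((j : ℕ) : ℝ)⁻¹ ≤ 16 * (Y / k) * (1 + Real.log M) :=
      mul_le_mul h3 h2 (sum_nonneg fun j _ => by positivity) (by positivity)
    have h6 : (J : ℝ) * (4 * k * (1 + Real.log k)) ≤ 32 * M * (1 + Real.log k) := by
      have h7 : 0 ≤ 1 + Real.log k := by linarith
      nlinarith
    linarith
  have hu : 0 ≤ Y / k := div_nonneg hY hk0.le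
  have f1 : 1 ≤ 1 + Real.log M := by linarith
  have f2 : 1 ≤ 1 + Real.log k := by linarith
  have g1 : (1 + Real.log M) ≤ (1 + Real.log M) * (1 + Real.log k) := by nlinarith
  have g2 : (1 + Real.log k) ≤ (1 + Real.log M) * (1 + Real.log k) := by nlinarith
  have k1 : 8 * k * (1 + Real.log M) ≤ 8 * k * ((1 + Real.log M) * (1 + Real.log k)) :=
    mul_le_mul_of_nonneg_left g1 (by positivity)
  have k2 : 16 * (Y / k) * (1 + Real.log M) ≤
      16 * (Y / k) * ((1 + Real.log M) * (1 + Real.log k)) :=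
    mul_le_mul_of_nonneg_left g1 (by positivity)
  have k3 : 32 * M * (1 + Real.log k) ≤ 32 * M * ((1 + Real.log M) * (1 + Real.log k)) :=
    mul_le_mul_of_nonneg_left g2 (by positivity)
  have hG : 0 ≤ (1 + Real.log M) * (1 + Real.log k) := by positivity
  have n1 : 0 ≤ (Y / k) * ((1 + Real.log M) * (1 + Real.log k)) := mul_nonneg hu hG
  have n2 : 0 ≤ (k : ℝ) * ((1 + Real.log M) * (1 + Real.log k)) := mul_nonneg hk0.le hG
  have n3 : 0 ≤ (M : ℝ) * ((1 + Real.log M) * (1 + Real.log k)) := mul_nonneg (by linarith) hG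
  have e5 := e1.trans (add_le_add e2 (e3.trans e4))
  have e6 : 64 * (Y / k + M + k) * (1 + Real.log M) * (1 + Real.log k) =
      64 * ((Y / k) * ((1 + Real.log M) * (1 + Real.log k))) +
      64 * (M * ((1 + Real.log M) * (1 + Real.log k))) +
      64 * (k * ((1 + Real.log M) * (1 + Real.log k))) := by ring
  rw [e6]
  linarith

end Pool.Agent.H95.RO
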