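import Pool.Agent.H95.RO.Mea
import Pool.Agent.H95.RO.Fin4
import Pool.Agent.H96.RO.Fin
import Pool.Agent.H96.RW.All

/-!
# [H95 RO SHR] MP_8923e7_nt: a positive proportion of the words of every system
-/

set_option autoImplicit false

namespace Pool.Agent.H95.RO

open Finset Filter Pool.Agent.H96.RW Pool.Agent.H96.RO MeasureTheory

/-- one word occurs in bounded windows -/
def WordR (k L s Q : ℕ) {t : ℕ} (α : Fin t → ℝ) (w : Fin (k + 1) → (ZMod Q)ˣ)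
    (y : Fin (k + 1) → Fin t → ℝ) : Prop :=
  ∀ ε : ℝ, 0 < ε → ∃ C : ℕ,
    {j : ℕ | ∀ i : Fin (k + 1), Nat.nth Nat.Prime (j + i) ≤ Nat.nth Nat.Prime j + C ∧
      (Nat.nth Nat.Prime (j + i) ≡ s [MOD L] ∧ ((Nat.nth Nat.Prime (j + i) : ℕ) : ZMod Q) = w i ∧
        ∀ l, nd (α l * Nat.nth Nat.Prime (j + i) - y i l) < ε)}.Infinite

/-- one word is frequent -/
def WordF (k L s Q : ℕ) {t : ℕ} (α : Fin t → ℝ) (w : Fin (k + 1) → (ZMod Q)ˣ)
    (y : Fin (k + 1) → Fin t → ℝ) : Prop :=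
  ∀ ε : ℝ, 0 < ε → ∀ η : ℝ, 0 < η →
    ∃ c : ℝ, 0 < c ∧ ∃ᶠ N : ℕ in atTop, c * N ≤
      ({j : ℕ | j < N ∧ (∀ i : Fin (k + 1),
        Nat.nth Nat.Prime (j + i) ≡ s [MOD L] ∧ ((Nat.nth Nat.Prime (j + i) : ℕ) : ZMod Q) = w i ∧
          ∀ l, nd (α l * Nat.nth Nat.Prime (j + i) - y i l) < ε) ∧
        (Nat.nth Nat.Prime (j + k) : ℝ) ≤
          Nat.nth Nat.Prime j + η * Real.log (Nat.nth Nat.Prime j)}.ncard : ℝ)

/-- the Chinese remainder theorem for one modulus -/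
theorem cells1 (k n L s Q : ℕ) (hL : 0 < L) (hs : Nat.Coprime s L) (hQ : 0 < Q)
    (hQL : Nat.Coprime Q L) (g : Fin n → (ZMod Q)ˣ) :
    ∃ ρ : Fin n → ℕ, (∀ c, Nat.Coprime (ρ c) (L * Q)) ∧
      ∀ c p, p ≡ ρ c [MOD (L * Q)] → p ≡ s [MOD L] ∧ ((p : ℕ) : ZMod Q) = g c := by
  haveI : NeZero Q := ⟨hQ.ne'⟩
  have hprod : L * ∏ _i : Fin 1, Q = L * Q := by
    rw [Fin.prod_univ_one]
  choose ρ hρ1 hρ2 hρ3 using fun c : Fin n => Pool.Agent.H21.WP.crt_nat L s 1 (fun _ => Q) hL hs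
    (fun _ => hQ) (fun _ => hQL) (fun i j hij => absurd (Subsingleton.elim i j) hij)
    (fun _ => ((g c : (ZMod Q)ˣ) : ZMod Q).val) (fun _ => ZMod.val_coe_unit_coprime (g c))
  rw [hprod] at hρ3
  refine ⟨ρ, hρ3, fun c p hp => ⟨(hp.of_dvd (Dvd.intro _ rfl)).trans (hρ1 c), ?_⟩⟩
  have h5 := (hp.of_dvd (Dvd.intro_left _ rfl : Q ∣ L * Q)).trans (hρ2 c 0)
  rw [(ZMod.natCast_eq_natCast_iff _ _ _).2 h5, ZMod.natCast_zmod_val]

theorem share_R (k n L s Q : ℕ) (hL : 0 < L) (hs : Nat.Coprime s L) (hQ : 0 < Q)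
    (hQL : Nat.Coprime Q L) {t : ℕ} (α : Fin t → ℝ) (hcore : CoreW α k n) (g : Fin n → (ZMod Q)ˣ)
    (y : Fin n → Fin t → ℝ) :
    ∃ q : Fin (k + 1) → Fin n, StrictMono q ∧ WordR k L s Q α (g ∘ q) (y ∘ q) := by
  classical
  by_contra hcon
  have h1 : ∀ q : Fin (k + 1) → Fin n, ∃ ε : ℝ, 0 < ε ∧ (StrictMono q → ∀ C : ℕ,
      ¬ {j : ℕ | ∀ i : Fin (k + 1), Nat.nth Nat.Prime (j + i) ≤ Nat.nth Nat.Prime j + C ∧
      (Nat.nth Nat.Prime (j + i) ≡ s [MOD L] ∧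
        ((Nat.nth Nat.Prime (j + i) : ℕ) : ZMod Q) = (g ∘ q) i ∧
        ∀ l, nd (α l * Nat.nth Nat.Prime (j + i) - (y ∘ q) i l) < ε)}.Infinite) := by
    intro q
    by_cases hq : StrictMono q
    · have h2 : ¬ WordR k L s Q α (g ∘ q) (y ∘ q) := fun h => hcon ⟨q, hq, h⟩
      unfold WordR at h2
      simp only [not_forall, not_exists] at h2
      obtain ⟨ε, hε, h3⟩ := h2
      exact ⟨ε, hε, fun _ => h3⟩
    · exact ⟨1, one_pos, fun h => absurd h hq⟩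
  choose ε hε h2 using h1
  obtain ⟨ρ, hρ, hρ2⟩ := cells1 k n L s Q hL hs hQ hQL g
  obtain ⟨ε₀, hε₀, hle⟩ : ∃ ε₀ : ℝ, 0 < ε₀ ∧ ∀ q, ε₀ ≤ ε q := by
    rcases isEmpty_or_nonempty (Fin (k + 1) → Fin n) with hι | hι
    · exact ⟨1, one_pos, fun q => (hι.false q).elim⟩
    · obtain ⟨i₀, hi₀⟩ := Finite.exists_min ε
      exact ⟨ε i₀, hε i₀, hi₀⟩
  obtain ⟨q, C, hq, hinf⟩ := hcore ε₀ hε₀ (L * Q) (Nat.mul_pos hL hQ) ρ hρ y
  refine h2 q hq C (hinf.mono fun j hj i => ?_)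
  obtain ⟨h3, h4, h5⟩ := hj i
  obtain ⟨h6, h7⟩ := hρ2 (q i) _ h4
  exact ⟨h3, h6, h7, fun l => (h5 l).trans_le (hle q)⟩

theorem share_F (k n L s Q : ℕ) (hL : 0 < L) (hs : Nat.Coprime s L) (hQ : 0 < Q)
    (hQL : Nat.Coprime Q L) {t : ℕ} (α : Fin t → ℝ) (hcore : CoreWF α k n) (g : Fin n → (ZMod Q)ˣ)
    (y : Fin n → Fin t → ℝ) :
    ∃ q : Fin (k + 1) → Fin n, StrictMono q ∧ WordF k L s Q α (g ∘ q) (y ∘ q) := by
  classical
  by_contra hcon
  have h1 : ∀ q : Fin (k + 1) → Fin n, ∃ ε η : ℝ, 0 < ε ∧ 0 < η ∧ (StrictMono q → ¬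
      ∃ c : ℝ, 0 < c ∧ ∃ᶠ N : ℕ in atTop, c * N ≤
      ({j : ℕ | j < N ∧ (∀ i : Fin (k + 1),
        Nat.nth Nat.Prime (j + i) ≡ s [MOD L] ∧
          ((Nat.nth Nat.Prime (j + i) : ℕ) : ZMod Q) = (g ∘ q) i ∧
          ∀ l, nd (α l * Nat.nth Nat.Prime (j + i) - (y ∘ q) i l) < ε) ∧
        (Nat.nth Nat.Prime (j + k) : ℝ) ≤
          Nat.nth Nat.Prime j + η * Real.log (Nat.nth Nat.Prime j)}.ncard : ℝ)) := by
    intro q
    by_cases hq : StrictMono q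
    · have h2 : ¬ WordF k L s Q α (g ∘ q) (y ∘ q) := fun h => hcon ⟨q, hq, h⟩
      unfold WordF at h2
      simp only [not_forall] at h2
      obtain ⟨ε, hε, η, hη, h3⟩ := h2
      exact ⟨ε, η, hε, hη, fun _ => h3⟩
    · exact ⟨1, 1, one_pos, one_pos, fun h => absurd h hq⟩
  choose ε η hε hη h2 using h1
  obtain ⟨ρ, hρ, hρ2⟩ := cells1 k n L s Q hL hs hQ hQL g
  obtain ⟨ε₀, hε₀, hle⟩ : ∃ ε₀ : ℝ, 0 < ε₀ ∧ ∀ q, ε₀ ≤ ε q := by
    rcases isEmpty_or_nonempty (Fin (k + 1) → Fin n) with hι | hι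
    · exact ⟨1, one_pos, fun q => (hι.false q).elim⟩
    · obtain ⟨i₀, hi₀⟩ := Finite.exists_min ε
      exact ⟨ε i₀, hε i₀, hi₀⟩
  obtain ⟨η₀, hη₀, hle'⟩ : ∃ η₀ : ℝ, 0 < η₀ ∧ ∀ q, η₀ ≤ η q := by
    rcases isEmpty_or_nonempty (Fin (k + 1) → Fin n) with hι | hι
    · exact ⟨1, one_pos, fun q => (hι.false q).elim⟩
    · obtain ⟨i₀, hi₀⟩ := Finite.exists_min η
      exact ⟨η i₀, hη i₀, hi₀⟩
  obtain ⟨q, c, hq, hc, hinf⟩ := hcore ε₀ hε₀ (L * Q) (Nat.mul_pos hL hQ) ρ hρ y (η₀ / 2)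
    (by linarith)
  have hlogX : ∀ᶠ X : ℕ in atTop, 0 ≤ Real.log (X : ℝ) :=
    (Real.tendsto_log_atTop.comp tendsto_natCast_atTop_atTop).eventually_ge_atTop 0
  refine h2 q hq (dens_of k (fun i p => p ≡ s [MOD L] ∧ ((p : ℕ) : ZMod Q) = (g ∘ q) i ∧
    ∀ l, nd (α l * p - (y ∘ q) i l) < ε q) (hη q) hc ?_)
  refine (hinf.and_eventually hlogX).mono ?_
  rintro X ⟨hX, hX0⟩
  refine hX.trans ?_
  rw [Nat.cast_le]
  refine Set.ncard_le_ncard ?_ (idx_finite (by omega) X (fun i' j => (Nat.nth Nat.Prime (j + i') : ℝ) ≤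
    Nat.nth Nat.Prime j + η q / 2 * Real.log X ∧ _))
  intro j hj i
  obtain ⟨h3, h3', h4, h5⟩ := hj i
  obtain ⟨h6, h7⟩ := hρ2 (q i) _ h4
  have h10 : η₀ / 2 * Real.log X ≤ η q / 2 * Real.log X :=
    mul_le_mul_of_nonneg_right (by linarith [hle' q]) hX0
  exact ⟨h3, by linarith, h6, h7, fun l => (h5 l).trans_le (hle q)⟩

/-- the unit cube -/
def cube (t : ℕ) : Set (Fin t → ℝ) := Set.univ.pi fun _ => Set.Ico 0 1

theorem meas_cube (t : ℕ) : MeasurableSet (cube t) := MeasurableSet.univ_pi fun _ => measurableSet_Ico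

instance probcube (t : ℕ) : IsProbabilityMeasure ((volume : Measure (Fin t → ℝ)).restrict (cube t)) := by
  refine ⟨?_⟩
  rw [Measure.restrict_apply_univ, cube, volume_pi_pi]
  simp

theorem pi_cube (k t : ℕ) (P : Set (Fin (k + 1) → Fin t → ℝ)) :
    Measure.pi (fun _ : Fin (k + 1) => (volume : Measure (Fin t → ℝ)).restrict (cube t)) P =
      volume {x : Fin (k + 1) → Fin t → ℝ | (∀ j i, x j i ∈ Set.Ico (0 : ℝ) 1) ∧ x ∈ P} := by
  rw [← Measure.restrict_pi_pi, ← volume_pi, Measure.restrict_apply' (MeasurableSet.univ_pi fun _ =>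
    meas_cube t)]
  congr 1
  ext x
  simp only [Set.mem_inter_iff, Set.mem_univ_pi, cube, Set.mem_setOf_eq]
  tauto

/-- words occurring with positive probability -/
theorem prob_of (k n Q : ℕ) (hQ : 0 < Q) (hkn : k + 1 ≤ n) {t : ℕ}
    (P : (Fin (k + 1) → (ZMod Q)ˣ) → (Fin (k + 1) → Fin t → ℝ) → Prop)
    (h : ∀ (g : Fin n → (ZMod Q)ˣ) (y : Fin n → Fin t → ℝ), ∃ q : Fin (k + 1) → Fin n,
      StrictMono q ∧ P (g ∘ q) (y ∘ q)) :
    ((Q.totient : ℕ) : ENNReal) ^ (k + 1) ≤ (n.choose (k + 1) : ENNReal) *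
      ∑' w : Fin (k + 1) → (ZMod Q)ˣ,
        volume {x : Fin (k + 1) → Fin t → ℝ | (∀ j i, x j i ∈ Set.Ico (0 : ℝ) 1) ∧ P w x} := by
  classical
  haveI : NeZero Q := ⟨hQ.ne'⟩
  have h1 := cover ((volume : Measure (Fin t → ℝ)).restrict (cube t)) hkn
    (fun w : Fin (k + 1) → (ZMod Q)ˣ => {x | P w x}) h
  rw [ZMod.card_units_eq_totient] at h1
  refine h1.trans (le_of_eq ?_)
  rw [tsum_fintype]
  congr 1
  refine sum_congr rfl fun w _ => ?_
  rw [pi_cube]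
  rfl

/-- pairs: four cells are enough -/
theorem corew_one {t : ℕ} (α : Fin t → ℝ) (hα : Ind α) (hsc : Scl α) : CoreW α 1 4 := by
  classical
  intro ε hε Q hQ ρ hρ y
  obtain ⟨s, hs, H⟩ := core_of α hα hsc (1 / 1000) (by norm_num) 4 (by norm_num) ε hε
  obtain ⟨A, C, hA, hinf⟩ := H Q hQ (fun i => ρ i.divNat) (fun i => hρ _) (fun i => y i.divNat)
  have h2 : 2 ≤ (A.image (Fin.divNat : Fin (4 * s) → Fin 4)).card := by
    by_contra hlt
    have h3 : (A.image (Fin.divNat : Fin (4 * s) → Fin 4)).card ≤ 1 := by omega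
    have h4 : ((A.image (Fin.divNat : Fin (4 * s) → Fin 4)).card : ℝ) ≤ 1 := by exact_mod_cast h3
    have h5 := hA.trans h4
    norm_num at h5
  -- a place where the block changes
  obtain ⟨i, hi, hlt⟩ : ∃ (i : ℕ) (hi : i + 1 < A.card),
      (A.orderEmbOfFin rfl ⟨i, by omega⟩).divNat < (A.orderEmbOfFin rfl ⟨i + 1, hi⟩).divNat := by
    by_contra hno
    have hno' : ∀ (i : ℕ) (hi : i + 1 < A.card),
        ¬ (A.orderEmbOfFin rfl ⟨i, by omega⟩).divNat < (A.orderEmbOfFin rfl ⟨i + 1, hi⟩).divNat :=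
      fun i hi h => hno ⟨i, hi, h⟩
    have hmono : ∀ (i : ℕ) (hi : i + 1 < A.card),
        (A.orderEmbOfFin rfl ⟨i, by omega⟩).divNat ≤ (A.orderEmbOfFin rfl ⟨i + 1, hi⟩).divNat := by
      intro i hi
      have h5 : A.orderEmbOfFin rfl ⟨i, by omega⟩ ≤ A.orderEmbOfFin rfl ⟨i + 1, hi⟩ :=
        (A.orderEmbOfFin rfl).monotone (by
          rw [Fin.le_def]
          show i ≤ i + 1
          omega)
      rw [Fin.le_def]
      exact Nat.div_le_div_right h5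
    have hA0 : 0 < A.card := by
      have := card_image_le (s := A) (f := (Fin.divNat : Fin (4 * s) → Fin 4))
      omega
    have heq : ∀ (i : ℕ) (hi : i < A.card), (A.orderEmbOfFin rfl ⟨i, hi⟩).divNat =
        (A.orderEmbOfFin rfl ⟨0, hA0⟩).divNat := by
      intro i
      induction i with
      | zero => exact fun _ => rfl
      | succ i ih =>
        intro hi
        have h6 := le_antisymm (hmono i hi) (not_lt.1 (hno' i hi))
        rw [← h6]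
        exact ih (by omega)
    have h7 : A.image (Fin.divNat : Fin (4 * s) → Fin 4) ⊆ {(A.orderEmbOfFin rfl ⟨0, hA0⟩).divNat} := by
      intro b hb
      obtain ⟨x, hx, rfl⟩ := mem_image.1 hb
      have h8 : x ∈ Set.range (A.orderEmbOfFin rfl) := by
        rw [A.range_orderEmbOfFin rfl]
        exact hx
      obtain ⟨j, rfl⟩ := h8
      rw [mem_singleton]
      exact heq j j.2
    have h8 := card_le_card h7
    rw [card_singleton] at h8
    omega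
  have hmono := Nat.nth_strictMono Nat.infinite_setOfPred_prime
  refine ⟨![(A.orderEmbOfFin rfl ⟨i, by omega⟩).divNat, (A.orderEmbOfFin rfl ⟨i + 1, hi⟩).divNat], C,
    ?_, ?_⟩
  · intro a b hab
    fin_cases a <;> fin_cases b
    · exact absurd hab (lt_irrefl _)
    · exact hlt
    · exact absurd hab (by decide)
    · exact absurd hab (lt_irrefl _)
  · refine ((hinf.image (f := fun j => j + i) (fun a _ b _ h => by simpa using h)).mono ?_)
    rintro _ ⟨j, hj, rfl⟩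
    have h6 : Nat.nth Nat.Prime j ≤ Nat.nth Nat.Prime (j + i) := hmono.monotone (by omega)
    intro a
    fin_cases a
    · obtain ⟨h1, h2, h3⟩ := hj ⟨i, by omega⟩
      exact ⟨by
        show Nat.nth Nat.Prime (j + i + 0) ≤ Nat.nth Nat.Prime (j + i) + C
        rw [add_zero]
        omega, h2, h3⟩
    · obtain ⟨h1, h2, h3⟩ := hj ⟨i + 1, hi⟩
      have h7 : j + i + 1 = j + (i + 1) := by ring
      refine ⟨?_, ?_, ?_⟩
      · show Nat.nth Nat.Prime (j + i + 1) ≤ Nat.nth Nat.Prime (j + i) + C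
        rw [h7]
        have h8 : Nat.nth Nat.Prime (j + (i + 1)) ≤ Nat.nth Nat.Prime j + C := h1
        omega
      · show Nat.nth Nat.Prime (j + i + 1) ≡ _ [MOD Q]
        rw [h7]
        exact h2
      · intro l
        show nd (α l * Nat.nth Nat.Prime (j + i + 1) - _) < ε
        rw [h7]
        exact h3 l

end Pool.Agent.H95.RO
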