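import Pool.Agent.H95.RO.Shr

/-!
# [H95 RO SHR2] MP_8923e7_nt: a positive proportion of the words of every system, final forms
-/

set_option autoImplicit false

namespace Pool.Agent.H95.RO

open Finset Filter Pool.Agent.H96.RW Pool.Agent.H96.RO MeasureTheory

/-- a place where the block changes -/
theorem jump {s : ℕ} (A : Finset (Fin (4 * s)))
    (h2 : 2 ≤ (A.image (Fin.divNat : Fin (4 * s) → Fin 4)).card) :
    ∃ (i : ℕ) (hi : i + 1 < A.card), (A.orderEmbOfFin rfl ⟨i, by omega⟩).divNat <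
      (A.orderEmbOfFin rfl ⟨i + 1, hi⟩).divNat := by
  by_contra hno
  have hno' : ∀ (i : ℕ) (hi : i + 1 < A.card),
      ¬ (A.orderEmbOfFin rfl ⟨i, by omega⟩).divNat < (A.orderEmbOfFin rfl ⟨i + 1, hi⟩).divNat :=
    fun i hi h => hno ⟨i, hi, h⟩
  have hmono : ∀ (i : ℕ) (hi : i + 1 < A.card),
      (A.orderEmbOfFin rfl ⟨i, by omega⟩).divNat ≤ (A.orderEmbOfFin rfl ⟨i + 1, hi⟩).divNat := by
    intro i hi
    have h5 : A.orderEmbOfFin rfl ⟨i, by omega⟩ ≤ A.orderEmbOfFin rfl ⟨i + 1, hi⟩ :=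
      (A.orderEmbOfFin rfl).monotone (by
        rw [Fin.le_def]
        show i ≤ i + 1
        omega)
    rw [Fin.le_def]
    exact Nat.div_le_div_right h5
  have hA0 : 0 < A.card := by
    have := card_image_le (s := A) (f := (Fin.divNat : Fin (4 * s) → Fin 4))
    omega
  have heq : ∀ (i : ℕ) (hi : i < A.card), (A.orderEmbOfFin rfl ⟨i, hi⟩).divNat =
      (A.orderEmbOfFin rfl ⟨0, hA0⟩).divNat := by
    intro i
    induction i with
    | zero => exact fun _ => rfl
    | succ i ih =>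
      intro hi
      have h6 := le_antisymm (hmono i hi) (not_lt.1 (hno' i hi))
      rw [← h6]
      exact ih (by omega)
  have h7 : A.image (Fin.divNat : Fin (4 * s) → Fin 4) ⊆ {(A.orderEmbOfFin rfl ⟨0, hA0⟩).divNat} := by
    intro b hb
    obtain ⟨x, hx, rfl⟩ := mem_image.1 hb
    have h8 : x ∈ Set.range (A.orderEmbOfFin rfl) := by
      rw [A.range_orderEmbOfFin rfl]
      exact hx
    obtain ⟨j, rfl⟩ := h8
    rw [mem_singleton]
    exact heq j j.2
  have h8 := card_le_card h7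
  rw [card_singleton] at h8
  omega

/-- pairs, frequency version: four cells are enough -/
theorem corewf_one {t : ℕ} (α : Fin t → ℝ) (hα : Ind α) (hsc : Scl α) : CoreWF α 1 4 := by
  classical
  intro ε hε Q hQ ρ hρ y η hη
  obtain ⟨s, hs, H⟩ := coreRF_of α hα hsc (1 / 1000) (by norm_num) 4 (by norm_num) ε hε
  obtain ⟨A, c, hc, hA, hinf⟩ := H Q hQ (fun i => ρ i.divNat) (fun i => hρ _) (fun i => y i.divNat) η hη
  have h2 : 2 ≤ (A.image (Fin.divNat : Fin (4 * s) → Fin 4)).card := by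
    by_contra hlt
    have h3 : (A.image (Fin.divNat : Fin (4 * s) → Fin 4)).card ≤ 1 := by omega
    have h4 : ((A.image (Fin.divNat : Fin (4 * s) → Fin 4)).card : ℝ) ≤ 1 := by exact_mod_cast h3
    have h5 := hA.trans h4
    norm_num at h5
  obtain ⟨i, hi, hlt⟩ := jump A h2
  have hmono := Nat.nth_strictMono Nat.infinite_setOfPred_prime
  refine ⟨![(A.orderEmbOfFin rfl ⟨i, by omega⟩).divNat, (A.orderEmbOfFin rfl ⟨i + 1, hi⟩).divNat], c,
    ?_, hc, ?_⟩
  · intro a b hab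
    fin_cases a <;> fin_cases b
    · exact absurd hab (lt_irrefl _)
    · exact hlt
    · exact absurd hab (by decide)
    · exact absurd hab (lt_irrefl _)
  · refine hinf.mono fun X hX => hX.trans ?_
    rw [Nat.cast_le]
    refine Set.ncard_le_ncard_of_injOn (fun j => j + i) ?_ (fun a _ b _ h => by simpa using h)
      (idx_finite (by omega) X (fun i' j => (Nat.nth Nat.Prime (j + i') : ℝ) ≤
        Nat.nth Nat.Prime j + η * Real.log X ∧ _ ∧ _))
    intro j hj
    have h6 : Nat.nth Nat.Prime j ≤ Nat.nth Nat.Prime (j + i) := hmono.monotone (by omega)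
    have h6' : (Nat.nth Nat.Prime j : ℝ) ≤ Nat.nth Nat.Prime (j + i) := by exact_mod_cast h6
    intro a
    fin_cases a
    · obtain ⟨h1, h1', h2, h3⟩ := hj ⟨i, by omega⟩
      have h8 : (Nat.nth Nat.Prime (j + i) : ℝ) ≤ Nat.nth Nat.Prime j + η * Real.log X := h1'
      exact ⟨h1, by
        show (Nat.nth Nat.Prime (j + i + 0) : ℝ) ≤ Nat.nth Nat.Prime (j + i) + η * Real.log X
        rw [add_zero]
        linarith, h2, h3⟩
    · obtain ⟨h1, h1', h2, h3⟩ := hj ⟨i + 1, hi⟩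
      have h7 : j + i + 1 = j + (i + 1) := by ring
      refine ⟨?_, ?_, ?_, ?_⟩
      · show Nat.nth Nat.Prime (j + i + 1) ≤ X
        rw [h7]
        exact h1
      · show (Nat.nth Nat.Prime (j + i + 1) : ℝ) ≤ Nat.nth Nat.Prime (j + i) + η * Real.log X
        rw [h7]
        have h8 : (Nat.nth Nat.Prime (j + (i + 1)) : ℝ) ≤ Nat.nth Nat.Prime j + η * Real.log X := h1'
        linarith
      · show Nat.nth Nat.Prime (j + i + 1) ≡ _ [MOD Q]
        rw [h7]
        exact h2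
      · intro l
        show nd (α l * Nat.nth Nat.Prime (j + i + 1) - _) < ε
        rw [h7]
        exact h3 l

/-- a positive proportion `1 / C k` of all words of every system occurs, and is frequent; `C 1 = 6` -/
theorem share : ∃ C : ℕ → ℕ, C 1 = 6 ∧ ∀ k L s : ℕ, 0 < L → Nat.Coprime s L → ∀ Q : ℕ, 0 < Q →
    Nat.Coprime Q L → ∀ (t : ℕ) (α : Fin t → ℝ), Ind α → Scl α →
      (((Q.totient : ℕ) : ENNReal) ^ (k + 1) ≤ (C k : ENNReal) *
        ∑' w : Fin (k + 1) → (ZMod Q)ˣ, volume {x : Fin (k + 1) → Fin t → ℝ |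
          (∀ j i, x j i ∈ Set.Ico (0 : ℝ) 1) ∧ WordR k L s Q α w x}) ∧
      ((Q.totient : ℕ) : ENNReal) ^ (k + 1) ≤ (C k : ENNReal) *
        ∑' w : Fin (k + 1) → (ZMod Q)ˣ, volume {x : Fin (k + 1) → Fin t → ℝ |
          (∀ j i, x j i ∈ Set.Ico (0 : ℝ) 1) ∧ WordF k L s Q α w x} := by
  have h0 : ∀ k : ℕ, ∃ n : ℕ, (k = 1 → n = 4) ∧ k + 1 ≤ n ∧ ∀ (t : ℕ) (α : Fin t → ℝ), Ind α →
      Scl α → CoreW α k n ∧ CoreWF α k n := by
    intro k
    by_cases hk : k = 1
    · subst hk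
      exact ⟨4, fun _ => rfl, by norm_num, fun t α hα hsc => ⟨corew_one α hα hsc,
        corewf_one α hα hsc⟩⟩
    · obtain ⟨n1, h1⟩ := corew_of k
      obtain ⟨n2, h2⟩ := coreWF_of k
      refine ⟨max (max n1 n2) (k + 1), fun h => absurd h hk, le_max_right _ _, fun t α hα hsc =>
        ⟨h1 _ ((le_max_left _ _).trans (le_max_left _ _)) ((by omega : 1 ≤ k + 1).trans
          (le_max_right _ _)) t α hα hsc,
        h2 _ ((le_max_right _ _).trans (le_max_left _ _)) ((by omega : 1 ≤ k + 1).trans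
          (le_max_right _ _)) t α hα hsc⟩⟩
  choose n hn1 hn2 hn3 using h0
  refine ⟨fun k => (n k).choose (k + 1), ?_, fun k L s hL hs Q hQ hQL t α hα hsc => ⟨?_, ?_⟩⟩
  · show (n 1).choose 2 = 6
    rw [hn1 1 rfl]
    rfl
  · exact prob_of k (n k) Q hQ (hn2 k) (fun w x => WordR k L s Q α w x)
      (share_R k (n k) L s Q hL hs hQ hQL α (hn3 k t α hα hsc).1)
  · exact prob_of k (n k) Q hQ (hn2 k) (fun w x => WordF k L s Q α w x)
      (share_F k (n k) L s Q hL hs hQ hQL α (hn3 k t α hα hsc).2)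

end Pool.Agent.H95.RO
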