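import Pool.Agent.H95.RO.Mea
import Pool.Agent.H72.PC.Tur

/-!
# [H95 RO THD] MP_8923e7_nt: a third of all pairs, measure theory (Turan for random points)
-/

set_option autoImplicit false

namespace Pool.Agent.H95.RO

open Finset MeasureTheory

/-- counting in a sample -/
theorem sample {M : ℕ} (R : Fin M → Fin M → Prop) [DecidableRel R]
    (h : ∀ c : Fin 4 → Fin M, ∃ i j, i < j ∧ R (c i) (c j)) :
    M ^ 2 ≤ 3 * ((univ : Finset (Fin M × Fin M)).filter (fun p => R p.1 p.2)).card := by
  classical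
  have h1 := Pool.Agent.H72.PC.turanD (fun a b => ¬ R a b) 2 M (univ : Finset (Fin M))
    (by rw [card_univ, Fintype.card_fin]) (by
      rintro ⟨cl, -, hcc⟩
      obtain ⟨i, j, hij, h⟩ := h cl
      exact hcc i j hij h)
  have h4 : Pool.Agent.H72.PC.arcs (fun a b => ¬ R a b) (univ : Finset (Fin M)) univ =
      (univ ×ˢ univ : Finset (Fin M × Fin M)).filter (fun p => ¬ R p.1 p.2) := by
    unfold Pool.Agent.H72.PC.arcs
    rfl
  have h5 : (Pool.Agent.H72.PC.arcs (fun a b => ¬ R a b) (univ : Finset (Fin M)) univ).card +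
      ((univ ×ˢ univ : Finset (Fin M × Fin M)).filter (fun p => R p.1 p.2)).card = M ^ 2 := by
    rw [h4, add_comm, Finset.card_filter_add_card_filter_not, card_product, card_univ,
      Fintype.card_fin, sq]
  rw [← univ_product_univ]
  omega

theorem third_one {X G : Type} [MeasurableSpace X] (μ : Measure X) [IsProbabilityMeasure μ] [Fintype G]
    (O : (Fin (1 + 1) → G) → Set (Fin (1 + 1) → X)) (hO : ∀ w, MeasurableSet (O w))
    (h : ∀ (g : Fin 4 → G) (y : Fin 4 → X), ∃ q : Fin (1 + 1) → Fin 4, StrictMono q ∧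
      y ∘ q ∈ O (g ∘ q)) (M : ℕ) (g : Fin M → G) :
    (M : ENNReal) ^ 2 ≤ 3 * (M + ∑ p ∈ (univ : Finset (Fin M × Fin M)).filter (fun p => p.1 ≠ p.2),
      Measure.pi (fun _ => μ) (O ![g p.1, g p.2])) := by
  classical
  have hmeas : ∀ p : Fin M × Fin M, Measurable (fun y : Fin M → X => (![y p.1, y p.2] : Fin (1 + 1) → X)) := by
    intro p
    refine measurable_pi_lambda _ fun j => ?_
    fin_cases j
    · exact measurable_pi_apply p.1
    · exact measurable_pi_apply p.2
  have h1 : ∀ y : Fin M → X, (M : ENNReal) ^ 2 ≤ 3 * ∑ p : Fin M × Fin M,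
      ((fun y : Fin M → X => (![y p.1, y p.2] : Fin (1 + 1) → X)) ⁻¹' (O ![g p.1, g p.2])).indicator 1 y := by
    intro y
    have h2 := sample (M := M) (fun a b => (![y a, y b] : Fin (1 + 1) → X) ∈ O ![g a, g b]) (by
      intro c
      obtain ⟨q, hq, hqO⟩ := h (g ∘ c) (y ∘ c)
      refine ⟨q 0, q 1, hq (by decide), ?_⟩
      have e1 : (![y (c (q 0)), y (c (q 1))] : Fin (1 + 1) → X) = (y ∘ c) ∘ q := by
        funext j
        fin_cases j <;> rfl
      have e2 : (![g (c (q 0)), g (c (q 1))] : Fin (1 + 1) → G) = (g ∘ c) ∘ q := by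
        funext j
        fin_cases j <;> rfl
      rw [e1, e2]
      exact hqO)
    have h3 : ∑ p : Fin M × Fin M, ((fun y : Fin M → X => (![y p.1, y p.2] : Fin (1 + 1) → X)) ⁻¹'
        (O ![g p.1, g p.2])).indicator (1 : (Fin M → X) → ENNReal) y =
        (((univ : Finset (Fin M × Fin M)).filter (fun p =>
          (![y p.1, y p.2] : Fin (1 + 1) → X) ∈ O ![g p.1, g p.2])).card : ENNReal) := by
      rw [card_filter]
      push_cast
      refine sum_congr rfl fun p _ => ?_
      simp only [Set.indicator, Set.mem_preimage, Pi.one_apply]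
    rw [h3]
    exact_mod_cast h2
  have h2 : (M : ENNReal) ^ 2 ≤ ∫⁻ y, 3 * ∑ p : Fin M × Fin M,
      ((fun y : Fin M → X => (![y p.1, y p.2] : Fin (1 + 1) → X)) ⁻¹' (O ![g p.1, g p.2])).indicator 1 y
        ∂(Measure.pi (fun _ : Fin M => μ)) := by
    calc (M : ENNReal) ^ 2 = ∫⁻ _y : Fin M → X, (M : ENNReal) ^ 2 ∂(Measure.pi (fun _ : Fin M => μ)) := by
          rw [lintegral_const, measure_univ, mul_one]
      _ ≤ _ := lintegral_mono h1
  have hms : ∀ p : Fin M × Fin M, MeasurableSet ((fun y : Fin M → X =>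
      (![y p.1, y p.2] : Fin (1 + 1) → X)) ⁻¹' (O ![g p.1, g p.2])) := fun p => hmeas p (hO _)
  rw [lintegral_const_mul _ (Finset.measurable_sum _ fun p _ =>
    (measurable_one.indicator (hms p))), lintegral_finsetSum _ fun p _ =>
    (measurable_one.indicator (hms p))] at h2
  refine h2.trans (mul_le_mul_right ?_ 3)
  rw [← Finset.sum_filter_add_sum_filter_not univ (fun p : Fin M × Fin M => p.1 = p.2)]
  refine add_le_add ?_ (le_of_eq (sum_congr rfl fun p hp => ?_))
  · calc ∑ p ∈ (univ : Finset (Fin M × Fin M)).filter (fun p => p.1 = p.2), _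
        ≤ ∑ _p ∈ (univ : Finset (Fin M × Fin M)).filter (fun p => p.1 = p.2), (1 : ENNReal) := by
          refine sum_le_sum fun p _ => ?_
          rw [lintegral_indicator_one (hms p)]
          exact prob_le_one
      _ = M := by
          rw [sum_const, nsmul_eq_mul, mul_one]
          have h5 : ((univ : Finset (Fin M × Fin M)).filter (fun p => p.1 = p.2)).card = M := by
            have h6 : (univ : Finset (Fin M × Fin M)).filter (fun p => p.1 = p.2) =
                (univ : Finset (Fin M)).image (fun i => (i, i)) := by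
              ext p
              simp only [mem_filter, mem_univ, true_and, mem_image]
              constructor
              · intro h7
                exact ⟨p.1, Prod.ext rfl h7⟩
              · rintro ⟨i, rfl⟩
                rfl
            rw [h6, card_image_of_injective, card_univ, Fintype.card_fin]
            intro i j hij
            exact congrArg Prod.fst hij
          rw [h5]
  · have hne : p.1 ≠ p.2 := (mem_filter.1 hp).2
    rw [lintegral_indicator_one (hms p)]
    have h5 : (fun y : Fin M → X => (![y p.1, y p.2] : Fin (1 + 1) → X)) =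
        fun y : Fin M → X => y ∘ (![p.1, p.2] : Fin (1 + 1) → Fin M) := by
      funext y j
      fin_cases j <;> rfl
    have hinj : Function.Injective (![p.1, p.2] : Fin (1 + 1) → Fin M) := by
      intro a b hab
      fin_cases a <;> fin_cases b
      · rfl
      · exact absurd hab hne
      · exact absurd hab.symm hne
      · rfl
    rw [← pi_comp μ _ hinj, Measure.map_apply (by rw [← h5]; exact hmeas p) (hO _), h5]

/-- a third of all pairs -/
theorem third {X G : Type} [MeasurableSpace X] (μ : Measure X) [IsProbabilityMeasure μ] [Fintype G]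
    [Nonempty G] (O : (Fin (1 + 1) → G) → Set (Fin (1 + 1) → X))
    (h : ∀ (g : Fin 4 → G) (y : Fin 4 → X), ∃ q : Fin (1 + 1) → Fin 4, StrictMono q ∧
      y ∘ q ∈ O (g ∘ q)) :
    (Fintype.card G : ENNReal) ^ (1 + 1) ≤ (3 : ENNReal) * ∑ w, Measure.pi (fun _ => μ) (O w) := by
  classical
  obtain ⟨V, hV⟩ : ∃ V : ENNReal, V = ∑ w, Measure.pi (fun _ => μ) (O w) := ⟨_, rfl⟩
  rw [← hV]
  have hG : 0 < Fintype.card G := Fintype.card_pos
  have hG0 : (Fintype.card G : ENNReal) ≠ 0 := by exact_mod_cast hG.ne'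
  have hGt : (Fintype.card G : ENNReal) ≠ ⊤ := ENNReal.natCast_ne_top _
  -- measurable hulls
  have h1 : ∀ M : ℕ, 2 ≤ M → (Fintype.card G : ENNReal) ^ 2 * M ^ 2 ≤
      3 * ((Fintype.card G : ENNReal) ^ 2 * M + M ^ 2 * V) := by
    intro M hM
    have h2 : ∀ g : Fin M → G, (M : ENNReal) ^ 2 ≤
        3 * (M + ∑ p ∈ (univ : Finset (Fin M × Fin M)).filter (fun p => p.1 ≠ p.2),
          Measure.pi (fun _ => μ) (O ![g p.1, g p.2])) := by
      intro g
      have h3 := third_one μ (fun w => toMeasurable (Measure.pi (fun _ : Fin (1 + 1) => μ)) (O w))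
        (fun w => measurableSet_toMeasurable _ _) (fun g y => by
          obtain ⟨q, hq, hO⟩ := h g y
          exact ⟨q, hq, subset_toMeasurable _ _ hO⟩) M g
      simp only [measure_toMeasurable] at h3
      exact h3
    have h3 : ∑ _g : Fin M → G, (M : ENNReal) ^ 2 ≤ ∑ g : Fin M → G,
        3 * (M + ∑ p ∈ (univ : Finset (Fin M × Fin M)).filter (fun p => p.1 ≠ p.2),
          Measure.pi (fun _ => μ) (O ![g p.1, g p.2])) := sum_le_sum fun g _ => h2 g
    rw [← mul_sum, sum_add_distrib, sum_comm] at h3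
    simp only [sum_const, card_univ, Fintype.card_fun, Fintype.card_fin, nsmul_eq_mul] at h3
    push_cast at h3
    have h4 : ∀ p ∈ (univ : Finset (Fin M × Fin M)).filter (fun p => p.1 ≠ p.2),
        ∑ g : Fin M → G, Measure.pi (fun _ => μ) (O ![g p.1, g p.2]) =
          (Fintype.card G : ENNReal) ^ (M - 2) * V := by
      intro p hp
      have hne : p.1 ≠ p.2 := (mem_filter.1 hp).2
      have hinj : Function.Injective (![p.1, p.2] : Fin (1 + 1) → Fin M) := by
        intro a b hab
        fin_cases a <;> fin_cases b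
        · rfl
        · exact absurd hab hne
        · exact absurd hab.symm hne
        · rfl
      rw [hV, ← sum_comp_inj (![p.1, p.2] : Fin (1 + 1) → Fin M) hinj
        (fun w => Measure.pi (fun _ => μ) (O w))]
      refine sum_congr rfl fun g _ => ?_
      congr 2
      funext j
      fin_cases j <;> rfl
    rw [sum_congr rfl h4, sum_const, nsmul_eq_mul] at h3
    have h5 : (((univ : Finset (Fin M × Fin M)).filter (fun p => p.1 ≠ p.2)).card : ENNReal) ≤
        (M : ENNReal) ^ 2 := by
      have : ((univ : Finset (Fin M × Fin M)).filter (fun p => p.1 ≠ p.2)).card ≤ M ^ 2 := by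
        refine (card_filter_le _ _).trans (le_of_eq ?_)
        rw [card_univ, Fintype.card_prod, Fintype.card_fin, sq]
      exact_mod_cast this
    have h6 : (Fintype.card G : ENNReal) ^ M =
        (Fintype.card G : ENNReal) ^ (M - 2) * (Fintype.card G : ENNReal) ^ 2 := by
      rw [← pow_add]
      congr 1
      omega
    have h7 : (Fintype.card G : ENNReal) ^ (M - 2) ≠ 0 := pow_ne_zero _ hG0
    have h8 : (Fintype.card G : ENNReal) ^ (M - 2) ≠ ⊤ := ENNReal.pow_ne_top hGt
    refine (ENNReal.mul_le_mul_iff_right h7 h8).1 ?_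
    calc (Fintype.card G : ENNReal) ^ (M - 2) * ((Fintype.card G : ENNReal) ^ 2 * M ^ 2)
        = (Fintype.card G : ENNReal) ^ M * M ^ 2 := by rw [h6, mul_assoc]
      _ ≤ 3 * ((Fintype.card G : ENNReal) ^ M * M +
          (((univ : Finset (Fin M × Fin M)).filter (fun p => p.1 ≠ p.2)).card : ENNReal) *
            ((Fintype.card G : ENNReal) ^ (M - 2) * V)) := h3
      _ ≤ 3 * ((Fintype.card G : ENNReal) ^ M * M + (M : ENNReal) ^ 2 *
            ((Fintype.card G : ENNReal) ^ (M - 2) * V)) := by gcongr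
      _ = (Fintype.card G : ENNReal) ^ (M - 2) *
          (3 * ((Fintype.card G : ENNReal) ^ 2 * M + M ^ 2 * V)) := by
          rw [h6]
          ring
  -- the limit
  by_cases hVt : V = ⊤
  · rw [hVt, ENNReal.mul_top (by norm_num)]
    exact le_top
  obtain ⟨v, hv⟩ : ∃ v : NNReal, (v : ENNReal) = V := ⟨V.toNNReal, ENNReal.coe_toNNReal hVt⟩
  rw [← hv] at h1 ⊢
  have h2 : ∀ M : ℕ, 2 ≤ M → ((Fintype.card G : ℝ)) ^ 2 * M ^ 2 ≤
      3 * ((Fintype.card G : ℝ) ^ 2 * M + M ^ 2 * v) := by
    intro M hM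
    have h3 := h1 M hM
    have h4 : (((Fintype.card G : NNReal) ^ 2 * (M : NNReal) ^ 2 : NNReal) : ENNReal) ≤
        ((3 * ((Fintype.card G : NNReal) ^ 2 * M + (M : NNReal) ^ 2 * v) : NNReal) : ENNReal) := by
      push_cast
      exact h3
    have h5 := ENNReal.coe_le_coe.1 h4
    exact_mod_cast h5
  have h3 : (Fintype.card G : ℝ) ^ 2 ≤ 3 * v := by
    by_contra hlt
    push Not at hlt
    obtain ⟨D, hD⟩ : ∃ D : ℝ, D = (Fintype.card G : ℝ) ^ 2 - 3 * v := ⟨_, rfl⟩
    have hD0 : 0 < D := by rw [hD]; linarith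
    obtain ⟨M, hM⟩ := exists_nat_gt (3 * (Fintype.card G : ℝ) ^ 2 / D)
    have h4 := h2 (M + 2) (by omega)
    push_cast at h4
    rw [div_lt_iff₀ hD0] at hM
    have hM0 : (0 : ℝ) ≤ M := Nat.cast_nonneg M
    have h5 : ((M : ℝ) + 2) * (D * ((M : ℝ) + 2) - 3 * (Fintype.card G : ℝ) ^ 2) ≤ 0 := by
      rw [hD]
      nlinarith
    have h6 : 0 < D * ((M : ℝ) + 2) - 3 * (Fintype.card G : ℝ) ^ 2 := by nlinarith
    have h7 := mul_pos (by linarith : (0 : ℝ) < (M : ℝ) + 2) h6
    linarith
  have h4 : (Fintype.card G : NNReal) ^ (1 + 1) ≤ 3 * v := by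
    exact_mod_cast h3
  have h5 := ENNReal.coe_le_coe.2 h4
  push_cast at h5
  exact h5

end Pool.Agent.H95.RO
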