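import Pool.Agent.H95.RO.Shr2
import Pool.Agent.H95.RO.Thd

/-!
# [H95 RO SHR3] MP_8923e7_nt: a positive proportion of the words of every system, a third of all pairs
-/

set_option autoImplicit false

namespace Pool.Agent.H95.RO

open Finset Filter Pool.Agent.H96.RW Pool.Agent.H96.RO MeasureTheory

theorem prob_two (Q : ℕ) (hQ : 0 < Q) {t : ℕ}
    (P : (Fin (1 + 1) → (ZMod Q)ˣ) → (Fin (1 + 1) → Fin t → ℝ) → Prop)
    (h : ∀ (g : Fin 4 → (ZMod Q)ˣ) (y : Fin 4 → Fin t → ℝ), ∃ q : Fin (1 + 1) → Fin 4,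
      StrictMono q ∧ P (g ∘ q) (y ∘ q)) :
    ((Q.totient : ℕ) : ENNReal) ^ (1 + 1) ≤ (3 : ENNReal) *
      ∑' w : Fin (1 + 1) → (ZMod Q)ˣ,
        volume {x : Fin (1 + 1) → Fin t → ℝ | (∀ j i, x j i ∈ Set.Ico (0 : ℝ) 1) ∧ P w x} := by
  classical
  haveI : NeZero Q := ⟨hQ.ne'⟩
  have h1 := third ((volume : Measure (Fin t → ℝ)).restrict (cube t))
    (fun w : Fin (1 + 1) → (ZMod Q)ˣ => {x | P w x}) h
  rw [ZMod.card_units_eq_totient] at h1
  refine h1.trans (le_of_eq ?_)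
  rw [tsum_fintype]
  congr 1
  refine sum_congr rfl fun w _ => ?_
  rw [pi_cube]
  rfl

/-- a proportion `1 / C k` of all words of every system occurs, and is frequent; `C 1 = 3` -/
theorem share3 : ∃ C : ℕ → ℕ, C 1 = 3 ∧ ∀ k L s : ℕ, 0 < L → Nat.Coprime s L → ∀ Q : ℕ, 0 < Q →
    Nat.Coprime Q L → ∀ (t : ℕ) (α : Fin t → ℝ), Ind α → Scl α →
      (((Q.totient : ℕ) : ENNReal) ^ (k + 1) ≤ (C k : ENNReal) *
        ∑' w : Fin (k + 1) → (ZMod Q)ˣ, volume {x : Fin (k + 1) → Fin t → ℝ |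
          (∀ j i, x j i ∈ Set.Ico (0 : ℝ) 1) ∧ WordR k L s Q α w x}) ∧
      ((Q.totient : ℕ) : ENNReal) ^ (k + 1) ≤ (C k : ENNReal) *
        ∑' w : Fin (k + 1) → (ZMod Q)ˣ, volume {x : Fin (k + 1) → Fin t → ℝ |
          (∀ j i, x j i ∈ Set.Ico (0 : ℝ) 1) ∧ WordF k L s Q α w x} := by
  obtain ⟨C, -, hC⟩ := share
  refine ⟨fun k => if k = 1 then 3 else C k, if_pos rfl, fun k L s hL hs Q hQ hQL t α hα hsc => ?_⟩
  by_cases hk : k = 1
  · subst hk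
    simp only [if_pos]
    exact ⟨prob_two Q hQ (fun w x => WordR 1 L s Q α w x)
        (share_R 1 4 L s Q hL hs hQ hQL α (corew_one α hα hsc)),
      prob_two Q hQ (fun w x => WordF 1 L s Q α w x)
        (share_F 1 4 L s Q hL hs hQ hQL α (corewf_one α hα hsc))⟩
  · simp only [if_neg hk]
    exact hC k L s hL hs Q hQ hQL t α hα hsc

end Pool.Agent.H95.RO
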