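import Pool.Agent.H95.RO.Sep
import Pool.Agent.H21.MT.Vau
import Pool.Agent.H21.BV.Fej

/-!
# [H95 RO VBI] MP_8923e7_nt, THEOREM R: geometric sums, the bilinear sum (the items `geo`, `geol`, `bil` below)

`|γ - a/k| ≤ 1/k^2`, `(a, k) = 1`, `4 ≤ k ≤ Y`: `|∑_(n ≤ Y) Λ(n) e(γ n)| ≤ C (Y k^(-1/2) + Y^(5/6) + (Y k)^(1/2)) (log Y)^4`.

PROOF. `ee`, `ee_add`, `norm_ee`, `ee_int`, `fej_low` (`4 |t| ≤ ‖ee t - 1‖` for `|t| ≤ 1/2`): H21/BV/Fej.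
* `geo`: `‖∑_(n ∈ (x, y]) ee (n γ)‖ ≤ 2 gb K (nd γ)`, `K = y - x`: trivially `≤ K`; if `d = nd γ > 0`: geometric sum
  `= ee((x+1)γ) (ee(K γ) - 1)/(ee γ - 1)`, `‖ee γ - 1‖ = ‖ee (γ - round γ) - 1‖ ≥ 4 d`, so `≤ 2/(4d)`. Now `min (K, 1/(2d)) ≤ 2 K/(1 + K d)`.
* `geol`: `‖∑_(n ≤ K) log n ee (n γ)‖ ≤ 4 (log K) gb K (nd γ)` by partial summation: `log n = ∑_(j < n, j ≥ 1) (log (j+1) - log j)`, so the sum is
  `∑_(1 ≤ j < K) (log(j+1) - log j) ∑_(n ∈ (j, K]) ee(n γ)`, each inner sum `≤ 2 gb K` (`gb_mono`), total `≤ 2 log K gb K (nd γ)`.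
* `vaughan u` (H21/MT/Vau) with `u = ⌊Y^(1/3)⌋₊ ≥ 1`, `F n = ee (n γ)`:
  - first sum `≤ ψ(u) ≤ u log u ≤ Y^(1/3) log Y`;
  - `∑_(m ≤ u) μ(m) ∑_(k' ≤ Y/m) log k' ee(m k' γ)`: by `geol` at `m γ` `≤ 4 log Y ∑_(m ≤ u) gb (Y/m) (nd (m γ))`, `sumI`;
  - `∑_(m ≤ u^2) c m ∑_(k' ≤ Y/m) ee(m k' γ)`, `|c m| ≤ log m`: `≤ 2 log Y ∑_(m ≤ u²) gb (Y/m) (nd (m γ))`, `sumI` with `M = u^2 ≤ Y^(2/3)`;
  - bilinear sum `∑_(u < m ≤ Y) μ(m) ∑_(u < k' ≤ Y/m) b k' ee(m k' γ)`, `|b k'| ≤ log k'`: only `m ≤ Y/u`. Dyadic `m ∈ (M, 2M]`, `M = 2^i u`, at most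
    `2 log Y + 1` values of `i`; `N = Y/M`. Cauchy-Schwarz: `|S_M|² ≤ M ∑_(m ∈ (M,2M]) |∑_(u < k' ≤ Y/m) b k' ee(m k' γ)|²
    = M ∑_(k',k'' ≤ N) b b ∑_(m ∈ (M, min(2M, Y/k', Y/k'')]) ee(m (k' - k'') γ) ≤ M (log Y)² ∑_(k' ≤ N) ∑_(k'' ≤ N) 2 gb M (nd ((k' - k'') γ))`
    `≤ 2 M N (log Y)² (8N/k + 1)(2M + 4k(1 + log k)) ≤ C Y (log Y)^3 (Y/k + M + N + k)` by `sumII` (`M N ≤ Y`). Square roots and
    `M, N ≤ Y/u ≤ 2 Y^(2/3)`: `|S_M| ≤ C (log Y)^(3/2) (Y/√k + Y^(5/6) + √(Y k))`.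
  (The dyadic decomposition: `Ioc u (Y/u) ⊆ ⋃_(i < I) Ioc (2^i u) (2^(i+1) u)`, or sum over `i` with the coefficient `if m ∈ Ioc (2^i u) (2^(i+1) u)`.)
Any absolute `C` and any power of the logarithm up to `4` will do.
-/

set_option autoImplicit false

namespace Pool.Agent.H95.RO

open Finset ArithmeticFunction Pool.Agent.H21.BV Pool.Agent.H21.MT

private theorem tele (x y : ℕ) (hxy : x ≤ y) (γ : ℝ) :
    (ee γ - 1) * ∑ n ∈ Ioc x y, ee (n * γ) = ee (((y : ℝ) + 1) * γ) - ee (((x : ℝ) + 1) * γ) := by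
  induction y, hxy using Nat.le_induction with
  | base => simp
  | succ y hxy ih =>
    rw [Finset.sum_Ioc_succ_top hxy, mul_add, ih]
    have h1 : ee ((((y + 1 : ℕ) : ℝ) + 1) * γ) = ee γ * ee (((y + 1 : ℕ) : ℝ) * γ) := by
      rw [← ee_add]
      congr 1
      ring
    rw [h1]
    push_cast
    ring

private theorem nd_ee (γ : ℝ) : 4 * nd γ ≤ ‖ee γ - 1‖ := by
  have h1 : ee γ = ee (γ - round γ) := by
    have h2 : ee γ = ee ((γ - round γ) + ((round γ : ℤ) : ℝ)) := by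
      congr 1
      ring
    rw [h2, ee_add, ee_int, mul_one]
  rw [h1]
  exact fej_low _ (abs_sub_round γ)

private theorem gb_of {S K d : ℝ} (hS : 0 ≤ S) (hSK : S ≤ K) (hd : 0 ≤ d) (h : S * d ≤ 1) :
    S ≤ 2 * gb K d := by
  have hK : 0 ≤ K := hS.trans hSK
  have h1 : 0 < 1 + K * d := by positivity
  unfold gb
  rw [← mul_div_assoc, le_div_iff₀ h1]
  nlinarith [mul_le_mul_of_nonneg_left h hK]

theorem geo (x y : ℕ) (hxy : x ≤ y) (γ : ℝ) (K : ℝ) (hK : ((y : ℝ) - x) ≤ K) :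
    ‖∑ n ∈ Ioc x y, ee (n * γ)‖ ≤ 2 * gb K (nd γ) := by
  refine gb_of (norm_nonneg _) ?_ (nd_nonneg γ) ?_
  · refine (norm_sum_le _ _).trans ?_
    simp only [norm_ee, Finset.sum_const, Nat.card_Ioc, nsmul_eq_mul, mul_one]
    rw [Nat.cast_sub hxy]
    exact hK
  · have h1 := congrArg norm (tele x y hxy γ)
    rw [norm_mul] at h1
    have h2 : ‖ee (((y : ℝ) + 1) * γ) - ee (((x : ℝ) + 1) * γ)‖ ≤ 1 + 1 := by
      refine (norm_sub_le _ _).trans ?_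
      rw [norm_ee, norm_ee]
    have h3 := nd_ee γ
    have h4 : 4 * nd γ * ‖∑ n ∈ Ioc x y, ee (n * γ)‖ ≤
        ‖ee γ - 1‖ * ‖∑ n ∈ Ioc x y, ee (n * γ)‖ :=
      mul_le_mul_of_nonneg_right h3 (norm_nonneg _)
    nlinarith

theorem geol (Y : ℕ) (γ : ℝ) (K : ℝ) (hK : (Y : ℝ) ≤ K) :
    ‖∑ n ∈ Icc 1 Y, ((Real.log n : ℝ) : ℂ) * ee (n * γ)‖ ≤ 4 * Real.log (Y + 1) * gb K (nd γ) := by
  have key : ∀ j : ℕ, j ≤ Y →
      ‖∑ n ∈ Icc 1 j, ((Real.log n : ℝ) : ℂ) * ee (n * γ) -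
        ((Real.log ((j : ℝ) + 1) : ℝ) : ℂ) * ∑ n ∈ Ioc 0 j, ee (n * γ)‖ ≤
      Real.log ((j : ℝ) + 1) * (2 * gb K (nd γ)) := by
    intro j
    induction j with
    | zero => intro _; simp
    | succ j ih =>
      intro hj
      have ih' := ih (by omega)
      have h1 : ‖∑ n ∈ Ioc 0 (j + 1), ee (n * γ)‖ ≤ 2 * gb K (nd γ) :=
        geo 0 (j + 1) (Nat.zero_le _) γ K (by
          have h2 : ((j + 1 : ℕ) : ℝ) ≤ Y := by exact_mod_cast hj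
          rw [Nat.cast_zero, sub_zero]
          exact h2.trans hK)
      have h3 : 0 ≤ Real.log (((j + 1 : ℕ) : ℝ) + 1) - Real.log ((j : ℝ) + 1) := by
        refine sub_nonneg.2 (Real.log_le_log (by positivity) ?_)
        push_cast
        linarith
      have e : ∑ n ∈ Icc 1 (j + 1), ((Real.log n : ℝ) : ℂ) * ee (n * γ) -
          ((Real.log (((j + 1 : ℕ) : ℝ) + 1) : ℝ) : ℂ) * ∑ n ∈ Ioc 0 (j + 1), ee (n * γ) =
          (∑ n ∈ Icc 1 j, ((Real.log n : ℝ) : ℂ) * ee (n * γ) -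
            ((Real.log ((j : ℝ) + 1) : ℝ) : ℂ) * ∑ n ∈ Ioc 0 j, ee (n * γ)) -
          ((Real.log (((j + 1 : ℕ) : ℝ) + 1) - Real.log ((j : ℝ) + 1) : ℝ) : ℂ) *
            ∑ n ∈ Ioc 0 (j + 1), ee (n * γ) := by
        rw [Finset.sum_Icc_succ_top (by omega), Finset.sum_Ioc_succ_top (Nat.zero_le j)]
        push_cast
        ring
      rw [e]
      refine (norm_sub_le _ _).trans ?_
      rw [norm_mul, Complex.norm_real, Real.norm_of_nonneg h3]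
      have h4 := mul_le_mul_of_nonneg_left h1 h3
      linarith
  have h1 := key Y le_rfl
  have h2 : ‖∑ n ∈ Ioc 0 Y, ee (n * γ)‖ ≤ 2 * gb K (nd γ) :=
    geo 0 Y (Nat.zero_le _) γ K (by rw [Nat.cast_zero, sub_zero]; exact hK)
  have h3 : 0 ≤ Real.log ((Y : ℝ) + 1) := Real.log_nonneg (by linarith [Nat.cast_nonneg (α := ℝ) Y])
  have h4 : ‖((Real.log ((Y : ℝ) + 1) : ℝ) : ℂ) * ∑ n ∈ Ioc 0 Y, ee (n * γ)‖ ≤
      Real.log ((Y : ℝ) + 1) * (2 * gb K (nd γ)) := by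
    rw [norm_mul, Complex.norm_real, Real.norm_of_nonneg h3]
    exact mul_le_mul_of_nonneg_left h2 h3
  have h5 := norm_add_le (∑ n ∈ Icc 1 Y, ((Real.log n : ℝ) : ℂ) * ee (n * γ) -
        ((Real.log ((Y : ℝ) + 1) : ℝ) : ℂ) * ∑ n ∈ Ioc 0 Y, ee (n * γ))
        (((Real.log ((Y : ℝ) + 1) : ℝ) : ℂ) * ∑ n ∈ Ioc 0 Y, ee (n * γ))
  rw [sub_add_cancel] at h5
  linarith

/-- one pair `j, j'` -/
private theorem pair (γ : ℝ) (Y M U1 U2 u : ℕ) (hM : 1 ≤ M) (hU1 : M ≤ U1) (hU2 : U2 ≤ 2 * M)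
    (b : ℕ → ℝ) (L : ℝ) (j j' : ℕ) (hj : 1 ≤ j) (hj' : 1 ≤ j') (hb : |b j| ≤ L) (hb' : |b j'| ≤ L) :
    ‖∑ m ∈ Ioc U1 U2, (if u < j ∧ m * j ≤ Y then ((b j : ℝ) : ℂ) * ee ((m * j : ℕ) * γ) else 0) *
      (starRingEnd ℂ) (if u < j' ∧ m * j' ≤ Y then ((b j' : ℝ) : ℂ) * ee ((m * j' : ℕ) * γ) else 0)‖ ≤
      L ^ 2 * (2 * gb M (nd (((j : ℤ) - (j' : ℕ) : ℤ) * γ))) := by
  have hL : 0 ≤ L := (abs_nonneg _).trans hb
  have hg : 0 ≤ gb (M : ℝ) (nd (((j : ℤ) - (j' : ℕ) : ℤ) * γ)) :=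
    gb_nonneg (Nat.cast_nonneg M) (nd_nonneg _)
  by_cases h : u < j ∧ u < j'
  · have e : ∑ m ∈ Ioc U1 U2,
        (if u < j ∧ m * j ≤ Y then ((b j : ℝ) : ℂ) * ee ((m * j : ℕ) * γ) else 0) *
        (starRingEnd ℂ) (if u < j' ∧ m * j' ≤ Y then ((b j' : ℝ) : ℂ) * ee ((m * j' : ℕ) * γ) else 0) =
        ((b j * b j' : ℝ) : ℂ) * ∑ m ∈ Ioc U1 (min U2 (min (Y / j) (Y / j'))),
          ee (m * ((((j : ℤ) - (j' : ℕ) : ℤ) : ℝ) * γ)) := by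
      have hset : Ioc U1 (min U2 (min (Y / j) (Y / j'))) =
          (Ioc U1 U2).filter fun m => m * j ≤ Y ∧ m * j' ≤ Y := by
        ext m
        rw [Finset.mem_filter, Finset.mem_Ioc, Finset.mem_Ioc, le_min_iff, le_min_iff,
          Nat.le_div_iff_mul_le (by omega), Nat.le_div_iff_mul_le (by omega)]
        tauto
      rw [hset, Finset.mul_sum, Finset.sum_filter]
      refine Finset.sum_congr rfl fun m _ => ?_
      by_cases h1 : m * j ≤ Y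
      · by_cases h2 : m * j' ≤ Y
        · rw [if_pos ⟨h.1, h1⟩, if_pos ⟨h.2, h2⟩, if_pos ⟨h1, h2⟩, map_mul, Complex.conj_ofReal,
            conj_ee]
          have h3 : ee (m * ((((j : ℤ) - (j' : ℕ) : ℤ) : ℝ) * γ)) =
              ee ((m * j : ℕ) * γ) * ee (-((m * j' : ℕ) * γ)) := by
            rw [← ee_add]
            congr 1
            push_cast
            ring
          rw [h3]
          push_cast
          ring
        · rw [if_neg (c := u < j' ∧ m * j' ≤ Y) (fun hh => h2 hh.2),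
            if_neg (c := m * j ≤ Y ∧ m * j' ≤ Y) (fun hh => h2 hh.2), _root_.map_zero, mul_zero]
      · rw [if_neg (c := u < j ∧ m * j ≤ Y) (fun hh => h1 hh.2),
          if_neg (c := m * j ≤ Y ∧ m * j' ≤ Y) (fun hh => h1 hh.1), zero_mul]
    rw [e, norm_mul, Complex.norm_real, Real.norm_eq_abs, abs_mul]
    refine mul_le_mul ?_ ?_ (norm_nonneg _) (by positivity)
    · rw [sq]
      exact mul_le_mul hb hb' (abs_nonneg _) hL
    · rcases le_or_gt U1 (min U2 (min (Y / j) (Y / j'))) with h4 | h4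
      · refine geo _ _ h4 _ _ ?_
        have h5 : min U2 (min (Y / j) (Y / j')) ≤ U2 := min_le_left _ _
        have h6 : ((min U2 (min (Y / j) (Y / j')) : ℕ) : ℝ) ≤ 2 * M := by
          exact_mod_cast h5.trans hU2
        have h7 : (M : ℝ) ≤ U1 := by exact_mod_cast hU1
        linarith
      · rw [Finset.Ioc_eq_empty_of_le h4.le, Finset.sum_empty, norm_zero]
        positivity
  · have e : ∑ m ∈ Ioc U1 U2,
        (if u < j ∧ m * j ≤ Y then ((b j : ℝ) : ℂ) * ee ((m * j : ℕ) * γ) else 0) *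
        (starRingEnd ℂ) (if u < j' ∧ m * j' ≤ Y then ((b j' : ℝ) : ℂ) * ee ((m * j' : ℕ) * γ) else 0) =
        0 := by
      refine Finset.sum_eq_zero fun m _ => ?_
      by_cases h1 : u < j
      · have h2 : ¬ u < j' := fun h2 => h ⟨h1, h2⟩
        rw [if_neg (c := u < j' ∧ m * j' ≤ Y) (fun hh => h2 hh.1), _root_.map_zero, mul_zero]
      · rw [if_neg (c := u < j ∧ m * j ≤ Y) (fun hh => h1 hh.1), zero_mul]
    rw [e, norm_zero]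
    positivity

/-- the bilinear sum over `m ∈ (M, 2M]` -/
theorem bil (k : ℕ) (a : ℤ) (γ : ℝ) (hk : 4 ≤ k) (hc : IsCoprime a (k : ℤ))
    (hγ : |γ - (a : ℝ) / k| ≤ 1 / (k : ℝ) ^ 2) (Y M N U1 U2 u : ℕ) (hM : 1 ≤ M) (hMN : M * N ≤ Y)
    (hU1 : M ≤ U1) (hU2 : U2 ≤ 2 * M) (hN : ∀ m ∈ Ioc U1 U2, Y / m ≤ N) (hkY : k ≤ Y)
    (c b : ℕ → ℝ) (hc1 : ∀ m, |c m| ≤ 1) (hb : ∀ j, |b j| ≤ Real.log j) :
    ‖∑ m ∈ Ioc U1 U2, ((c m : ℝ) : ℂ) * ∑ j ∈ Ioc u (Y / m), ((b j : ℝ) : ℂ) * ee ((m * j : ℕ) * γ)‖ ^ 2 ≤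
      400 * Y * (1 + Real.log Y) ^ 3 * ((Y : ℝ) / k + M + N + k) := by
  classical
  have hY1 : 1 ≤ Y := by omega
  have hk0 : (0 : ℝ) < k := by
    have h4 : 0 < k := by omega
    exact_mod_cast h4
  have hY1' : (1 : ℝ) ≤ Y := by exact_mod_cast hY1
  have hlY : 0 ≤ Real.log Y := Real.log_nonneg hY1'
  have hlk : Real.log k ≤ Real.log Y := Real.log_le_log hk0 (by exact_mod_cast hkY)
  have hlk0 : 0 ≤ Real.log k := Real.log_nonneg (by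
    have h4 : 1 ≤ k := by omega
    exact_mod_cast h4)
  have hNY : N ≤ Y := (Nat.le_mul_of_pos_left N (by omega)).trans hMN
  have hbL : ∀ j ∈ Icc 1 N, |b j| ≤ Real.log Y := by
    intro j hj
    rw [Finset.mem_Icc] at hj
    refine (hb j).trans (Real.log_le_log ?_ ?_)
    · have h4 : 0 < j := by omega
      exact_mod_cast h4
    · exact_mod_cast hj.2.trans hNY
  -- the inner sums
  obtain ⟨f, hf⟩ : ∃ f : ℕ → ℕ → ℂ, f = fun m j =>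
    if u < j ∧ m * j ≤ Y then ((b j : ℝ) : ℂ) * ee ((m * j : ℕ) * γ) else 0 := ⟨_, rfl⟩
  have hI : ∀ m ∈ Ioc U1 U2, ∑ j ∈ Ioc u (Y / m), ((b j : ℝ) : ℂ) * ee ((m * j : ℕ) * γ) =
      ∑ j ∈ Icc 1 N, f m j := by
    intro m hm
    have hm0 : 0 < m := by
      rw [Finset.mem_Ioc] at hm
      omega
    have hmN := hN m hm
    have hset : Ioc u (Y / m) = (Icc 1 N).filter fun j => u < j ∧ m * j ≤ Y := by
      ext j
      rw [Finset.mem_filter, Finset.mem_Ioc, Finset.mem_Icc, Nat.le_div_iff_mul_le hm0,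
        mul_comm j m]
      constructor
      · rintro ⟨h1, h2⟩
        refine ⟨⟨by omega, ?_⟩, h1, h2⟩
        have h3 : j ≤ Y / m := (Nat.le_div_iff_mul_le hm0).2 (by rw [mul_comm]; exact h2)
        omega
      · rintro ⟨_, h1, h2⟩
        exact ⟨h1, h2⟩
    rw [hset, Finset.sum_filter, hf]
  have hCS : ‖∑ m ∈ Ioc U1 U2, ((c m : ℝ) : ℂ) *
      ∑ j ∈ Ioc u (Y / m), ((b j : ℝ) : ℂ) * ee ((m * j : ℕ) * γ)‖ ^ 2 ≤
      M * ∑ m ∈ Ioc U1 U2, ‖∑ j ∈ Icc 1 N, f m j‖ ^ 2 := by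
    have h1 : ‖∑ m ∈ Ioc U1 U2, ((c m : ℝ) : ℂ) *
        ∑ j ∈ Ioc u (Y / m), ((b j : ℝ) : ℂ) * ee ((m * j : ℕ) * γ)‖ ≤
        ∑ m ∈ Ioc U1 U2, 1 * ‖∑ j ∈ Icc 1 N, f m j‖ := by
      refine (norm_sum_le _ _).trans (Finset.sum_le_sum fun m hm => ?_)
      rw [hI m hm, norm_mul, Complex.norm_real, Real.norm_eq_abs]
      exact mul_le_mul_of_nonneg_right (hc1 m) (norm_nonneg _)
    have h2 := Finset.sum_mul_sq_le_sq_mul_sq (Ioc U1 U2) (fun _ => (1 : ℝ))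
      (fun m => ‖∑ j ∈ Icc 1 N, f m j‖)
    have h3 : ∑ _m ∈ Ioc U1 U2, (1 : ℝ) ^ 2 ≤ M := by
      rw [Finset.sum_const, Nat.card_Ioc, one_pow, nsmul_eq_mul, mul_one]
      have h4 : U2 - U1 ≤ M := by omega
      exact_mod_cast h4
    calc _ ≤ (∑ m ∈ Ioc U1 U2, 1 * ‖∑ j ∈ Icc 1 N, f m j‖) ^ 2 :=
          pow_le_pow_left₀ (norm_nonneg _) h1 2
      _ ≤ _ := h2.trans (mul_le_mul_of_nonneg_right h3
          (Finset.sum_nonneg fun _ _ => sq_nonneg _))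
  have hexp : ((∑ m ∈ Ioc U1 U2, ‖∑ j ∈ Icc 1 N, f m j‖ ^ 2 : ℝ) : ℂ) =
      ∑ j ∈ Icc 1 N, ∑ j' ∈ Icc 1 N, ∑ m ∈ Ioc U1 U2, f m j * (starRingEnd ℂ) (f m j') := by
    have h1 : ∀ m, ((‖∑ j ∈ Icc 1 N, f m j‖ ^ 2 : ℝ) : ℂ) =
        ∑ j ∈ Icc 1 N, ∑ j' ∈ Icc 1 N, f m j * (starRingEnd ℂ) (f m j') := by
      intro m
      rw [← Finset.sum_mul_sum, ← map_sum, Complex.mul_conj, Complex.normSq_eq_norm_sq]
    rw [Complex.ofReal_sum, Finset.sum_congr rfl fun m _ => h1 m, Finset.sum_comm]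
    refine Finset.sum_congr rfl fun j _ => ?_
    rw [Finset.sum_comm]
  have hsum : ∑ m ∈ Ioc U1 U2, ‖∑ j ∈ Icc 1 N, f m j‖ ^ 2 ≤
      Real.log Y ^ 2 * (2 * (N * ((8 * N / k + 1) * (2 * M + 4 * k * (1 + Real.log k))))) := by
    have h0 : 0 ≤ ∑ m ∈ Ioc U1 U2, ‖∑ j ∈ Icc 1 N, f m j‖ ^ 2 :=
      Finset.sum_nonneg fun _ _ => sq_nonneg _
    have h1 : ∑ m ∈ Ioc U1 U2, ‖∑ j ∈ Icc 1 N, f m j‖ ^ 2 =
        ‖∑ j ∈ Icc 1 N, ∑ j' ∈ Icc 1 N, ∑ m ∈ Ioc U1 U2, f m j * (starRingEnd ℂ) (f m j')‖ := by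
      rw [← hexp, Complex.norm_real, Real.norm_of_nonneg h0]
    rw [h1]
    refine (norm_sum_le _ _).trans ?_
    have h2 : ∀ j ∈ Icc 1 N,
        ‖∑ j' ∈ Icc 1 N, ∑ m ∈ Ioc U1 U2, f m j * (starRingEnd ℂ) (f m j')‖ ≤
        Real.log Y ^ 2 * (2 * ((8 * N / k + 1) * (2 * M + 4 * k * (1 + Real.log k)))) := by
      intro j hj
      refine (norm_sum_le _ _).trans ?_
      have h3 : ∀ j' ∈ Icc 1 N, ‖∑ m ∈ Ioc U1 U2, f m j * (starRingEnd ℂ) (f m j')‖ ≤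
          Real.log Y ^ 2 * (2 * gb M (nd (((j : ℤ) - (j' : ℕ) : ℤ) * γ))) := by
        intro j' hj'
        rw [hf]
        exact pair γ Y M U1 U2 u hM hU1 hU2 b (Real.log Y) j j' (Finset.mem_Icc.1 hj).1
          (Finset.mem_Icc.1 hj').1 (hbL j hj) (hbL j' hj')
      refine (Finset.sum_le_sum h3).trans ?_
      rw [← Finset.mul_sum, ← Finset.mul_sum]
      refine mul_le_mul_of_nonneg_left (mul_le_mul_of_nonneg_left ?_ (by norm_num)) (sq_nonneg _)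
      exact sumII k a γ hk hc hγ M (Nat.cast_nonneg M) N j
    refine (Finset.sum_le_sum h2).trans ?_
    rw [Finset.sum_const, Nat.card_Icc, nsmul_eq_mul]
    refine le_of_eq ?_
    rw [Nat.add_sub_cancel]
    ring
  refine hCS.trans ((mul_le_mul_of_nonneg_left hsum (Nat.cast_nonneg M)).trans ?_)
  have hM0 : (0 : ℝ) ≤ M := Nat.cast_nonneg M
  have hN0 : (0 : ℝ) ≤ N := Nat.cast_nonneg N
  have hMN' : (M : ℝ) * N ≤ Y := by exact_mod_cast hMN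
  have a1 : (M : ℝ) * N * ((8 * N / k + 1) * (2 * M + 4 * k * (1 + Real.log k))) ≤
      Y * (32 * (1 + Real.log Y) * ((Y : ℝ) / k + M + N + k)) := by
    have b1 : (8 * (N : ℝ) / k + 1) * (2 * M + 4 * k * (1 + Real.log k)) =
        16 * (M * N) / k + 32 * N * (1 + Real.log k) + 2 * M + 4 * k * (1 + Real.log k) := by
      field_simp
      ring
    have b2 : (8 * (N : ℝ) / k + 1) * (2 * M + 4 * k * (1 + Real.log k)) ≤
        32 * (1 + Real.log Y) * ((Y : ℝ) / k + M + N + k) := by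
      rw [b1]
      have c1 : 16 * ((M : ℝ) * N) / k ≤ 16 * (Y / k) := by
        rw [← mul_div_assoc]
        exact div_le_div_of_nonneg_right (by linarith) hk0.le
      have c2 : 32 * (N : ℝ) * (1 + Real.log k) ≤ 32 * N * (1 + Real.log Y) :=
        mul_le_mul_of_nonneg_left (by linarith) (by positivity)
      have c3 : 4 * (k : ℝ) * (1 + Real.log k) ≤ 4 * k * (1 + Real.log Y) :=
        mul_le_mul_of_nonneg_left (by linarith) (by positivity)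
      have c4 : 0 ≤ (Y : ℝ) / k := by positivity
      have c5 : 0 ≤ Real.log Y * (Y / k) := by positivity
      have c6 : 0 ≤ Real.log Y * M := by positivity
      have c7 : 0 ≤ Real.log Y * k := by positivity
      nlinarith
    refine mul_le_mul hMN' b2 ?_ (by linarith)
    have c8 : 0 ≤ 1 + Real.log k := by linarith
    positivity
  have a2 : Real.log Y ^ 2 ≤ (1 + Real.log Y) ^ 2 :=
    pow_le_pow_left₀ hlY (by linarith) 2
  have a3 : 0 ≤ (M : ℝ) * N * ((8 * N / k + 1) * (2 * M + 4 * k * (1 + Real.log k))) := by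
    have c8 : 0 ≤ 1 + Real.log k := by linarith
    positivity
  calc (M : ℝ) * (Real.log Y ^ 2 * (2 * (N * ((8 * N / k + 1) * (2 * M + 4 * k * (1 + Real.log k)))))) =
        2 * (Real.log Y ^ 2 * (M * N * ((8 * N / k + 1) * (2 * M + 4 * k * (1 + Real.log k))))) := by
          ring
    _ ≤ 2 * ((1 + Real.log Y) ^ 2 * (Y * (32 * (1 + Real.log Y) * ((Y : ℝ) / k + M + N + k)))) :=
        mul_le_mul_of_nonneg_left (mul_le_mul a2 a1 a3 (sq_nonneg _)) (by norm_num)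
    _ = 64 * (Y * (1 + Real.log Y) ^ 3 * ((Y : ℝ) / k + M + N + k)) := by ring
    _ ≤ 400 * (Y * (1 + Real.log Y) ^ 3 * ((Y : ℝ) / k + M + N + k)) := by
        refine mul_le_mul_of_nonneg_right (by norm_num) ?_
        positivity
    _ = 400 * Y * (1 + Real.log Y) ^ 3 * ((Y : ℝ) / k + M + N + k) := by ring

end Pool.Agent.H95.RO
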