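import Pool.Agent.H95.RO.Vbi

/-!
# [H95 RO VIN] MP_8923e7_nt, THEOREM R: Vinogradov's bound

`|γ - a/k| ≤ 1/k^2`, `(a, k) = 1`, `4 ≤ k ≤ Y`: `|∑_(n ≤ Y) Λ(n) e(γ n)| ≤ C (Y k^(-1/2) + Y^(5/6) + (Y k)^(1/2)) (log Y)^4`.

PROOF. `ee`, `ee_add`, `norm_ee`, `ee_int`, `fej_low` (`4 |t| ≤ ‖ee t - 1‖` for `|t| ≤ 1/2`): H21/BV/Fej.
* `geo`: `‖∑_(n ∈ (x, y]) ee (n γ)‖ ≤ 2 gb K (nd γ)`, `K = y - x`: trivially `≤ K`; if `d = nd γ > 0`: geometric sum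
  `= ee((x+1)γ) (ee(K γ) - 1)/(ee γ - 1)`, `‖ee γ - 1‖ = ‖ee (γ - round γ) - 1‖ ≥ 4 d`, so `≤ 2/(4d)`. Now `min (K, 1/(2d)) ≤ 2 K/(1 + K d)`.
* `geol`: `‖∑_(n ≤ K) log n ee (n γ)‖ ≤ 4 (log K) gb K (nd γ)` by partial summation: `log n = ∑_(j < n, j ≥ 1) (log (j+1) - log j)`, so the sum is
  `∑_(1 ≤ j < K) (log(j+1) - log j) ∑_(n ∈ (j, K]) ee(n γ)`, each inner sum `≤ 2 gb K` (`gb_mono`), total `≤ 2 log K gb K (nd γ)`.
* `vaughan u` (H21/MT/Vau) with `u = ⌊Y^(1/3)⌋₊ ≥ 1`, `F n = ee (n γ)`: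
  - first sum `≤ ψ(u) ≤ u log u ≤ Y^(1/3) log Y`;
  - `∑_(m ≤ u) μ(m) ∑_(k' ≤ Y/m) log k' ee(m k' γ)`: by `geol` at `m γ` `≤ 4 log Y ∑_(m ≤ u) gb (Y/m) (nd (m γ))`, `sumI`;
  - `∑_(m ≤ u^2) c m ∑_(k' ≤ Y/m) ee(m k' γ)`, `|c m| ≤ log m`: `≤ 2 log Y ∑_(m ≤ u²) gb (Y/m) (nd (m γ))`, `sumI` with `M = u^2 ≤ Y^(2/3)`;
  - bilinear sum `∑_(u < m ≤ Y) μ(m) ∑_(u < k' ≤ Y/m) b k' ee(m k' γ)`, `|b k'| ≤ log k'`: only `m ≤ Y/u`. Dyadic `m ∈ (M, 2M]`, `M = 2^i u`, at most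
    `2 log Y + 1` values of `i`; `N = Y/M`. Cauchy-Schwarz: `|S_M|² ≤ M ∑_(m ∈ (M,2M]) |∑_(u < k' ≤ Y/m) b k' ee(m k' γ)|²
    = M ∑_(k',k'' ≤ N) b b ∑_(m ∈ (M, min(2M, Y/k', Y/k'')]) ee(m (k' - k'') γ) ≤ M (log Y)² ∑_(k' ≤ N) ∑_(k'' ≤ N) 2 gb M (nd ((k' - k'') γ))`
    `≤ 2 M N (log Y)² (8N/k + 1)(2M + 4k(1 + log k)) ≤ C Y (log Y)^3 (Y/k + M + N + k)` by `sumII` (`M N ≤ Y`). Square roots and
    `M, N ≤ Y/u ≤ 2 Y^(2/3)`: `|S_M| ≤ C (log Y)^(3/2) (Y/√k + Y^(5/6) + √(Y k))`.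
  (The dyadic decomposition: `Ioc u (Y/u) ⊆ ⋃_(i < I) Ioc (2^i u) (2^(i+1) u)`, or sum over `i` with the coefficient `if m ∈ Ioc (2^i u) (2^(i+1) u)`.)
Any absolute `C` and any power of the logarithm up to `4` will do.
-/

set_option autoImplicit false

namespace Pool.Agent.H95.RO

open Finset ArithmeticFunction Pool.Agent.H21.BV Pool.Agent.H21.MT

private theorem v_ee (m j : ℕ) (γ : ℝ) : ee (((m * j : ℕ) : ℝ) * γ) = ee ((j : ℝ) * ((m : ℝ) * γ)) := by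
  congr 1
  push_cast
  ring

private theorem v_L1 (Y : ℕ) (hY : 4 ≤ Y) : 1 ≤ Real.log Y := by
  have h1 : (4 : ℝ) ≤ Y := by exact_mod_cast hY
  have h2 : Real.log 4 ≤ Real.log Y := Real.log_le_log (by norm_num) h1
  have h3 : Real.log 4 = 2 * Real.log 2 := by
    rw [show (4 : ℝ) = 2 ^ 2 by norm_num, Real.log_pow]
    push_cast
    ring
  have h4 := Real.log_two_gt_d9
  rw [h3] at h2
  linarith

/-- numerical data: `Y = y^6`, `k = s^2` -/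
private theorem v_num (k Y : ℕ) (hk : 4 ≤ k) (hkY : k ≤ Y) : ∃ y s : ℝ, 1 ≤ y ∧ 1 ≤ s ∧ (Y : ℝ) = y ^ 6 ∧ (k : ℝ) = s ^ 2 ∧
    s ≤ y ^ 3 ∧ (Y : ℝ) / Real.sqrt k + (Y : ℝ) ^ (5 / 6 : ℝ) + Real.sqrt (Y * k) = y ^ 6 / s + y ^ 5 + y ^ 3 * s := by
  have hY : (4 : ℝ) ≤ Y := by exact_mod_cast hk.trans hkY
  have hY0 : (0 : ℝ) ≤ Y := by linarith
  have hk1 : (4 : ℝ) ≤ k := by exact_mod_cast hk
  have hkY' : (k : ℝ) ≤ Y := by exact_mod_cast hkY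
  obtain ⟨y, hy⟩ : ∃ y : ℝ, y = (Y : ℝ) ^ (1 / 6 : ℝ) := ⟨_, rfl⟩
  obtain ⟨s, hs⟩ : ∃ s : ℝ, s = Real.sqrt k := ⟨_, rfl⟩
  have hy1 : 1 ≤ y := by
    rw [hy]
    exact Real.one_le_rpow (by linarith) (by norm_num)
  have hs1 : 1 ≤ s := by
    rw [hs, Real.one_le_sqrt]
    linarith
  have hpow : ∀ n : ℕ, y ^ n = (Y : ℝ) ^ ((n : ℝ) / 6) := by
    intro n
    rw [hy, ← Real.rpow_natCast, ← Real.rpow_mul hY0]
    congr 1
    ring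
  have h6 : (Y : ℝ) = y ^ 6 := by
    rw [hpow 6]
    norm_num
  have h5 : (Y : ℝ) ^ (5 / 6 : ℝ) = y ^ 5 := by
    rw [hpow 5]
    norm_num
  have hk2 : (k : ℝ) = s ^ 2 := by
    rw [hs, Real.sq_sqrt (by linarith)]
  have hs0 : 0 ≤ s := by linarith
  have hy0 : 0 ≤ y ^ 3 := by positivity
  have hsy : s ≤ y ^ 3 := by
    refine le_of_sq_le_sq ?_ hy0
    calc s ^ 2 = k := hk2.symm
      _ ≤ Y := hkY'
      _ = (y ^ 3) ^ 2 := by rw [h6]; ring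
  refine ⟨y, s, hy1, hs1, h6, hk2, hsy, ?_⟩
  have h7 : Real.sqrt (Y * k) = y ^ 3 * s := by
    rw [h6, hk2, show y ^ 6 * s ^ 2 = (y ^ 3 * s) ^ 2 by ring, Real.sqrt_sq (by positivity)]
  rw [h5, h7, ← hs, h6]

/-- the bound for the sums of type I -/
private theorem v_I (k : ℕ) (a : ℤ) (γ : ℝ) (hk : 4 ≤ k) (hc : IsCoprime a (k : ℤ))
    (hγ : |γ - (a : ℝ) / k| ≤ 1 / (k : ℝ) ^ 2) (Y : ℕ) (hkY : k ≤ Y) (y s : ℝ) (hy : 1 ≤ y) (hs : 1 ≤ s)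
    (hY : (Y : ℝ) = y ^ 6) (hks : (k : ℝ) = s ^ 2) (hsy : s ≤ y ^ 3) (M : ℕ) (hM : 1 ≤ M) (hM2 : (M : ℝ) ≤ y ^ 4) :
    ∑ m ∈ Icc 1 M, gb ((Y : ℝ) / m) (nd (m * γ)) ≤
      256 * Real.log Y ^ 2 * (y ^ 6 / s + y ^ 5 + y ^ 3 * s) := by
  have h1 := sumI k a γ hk hc hγ (Y : ℝ) (Nat.cast_nonneg _) M hM
  have hL := v_L1 Y (hk.trans hkY)
  have hy0 : 0 < y := by linarith
  have hs0 : 0 < s := by linarith
  have hMY : (M : ℝ) ≤ Y := by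
    rw [hY]
    exact hM2.trans (pow_le_pow_right₀ hy (by norm_num))
  have hM1 : (1 : ℝ) ≤ M := by exact_mod_cast hM
  have hk1 : (1 : ℝ) ≤ k := by exact_mod_cast (by omega : 1 ≤ k)
  have l1 : Real.log M ≤ Real.log Y := Real.log_le_log (by linarith) hMY
  have l2 : Real.log k ≤ Real.log Y := Real.log_le_log (by linarith) (by exact_mod_cast hkY)
  have l3 : 0 ≤ Real.log M := Real.log_nonneg hM1
  have l4 : 0 ≤ Real.log k := Real.log_nonneg hk1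
  have q1 : (Y : ℝ) / k ≤ y ^ 6 / s := by
    rw [hY, hks]
    gcongr
    nlinarith
  have q2 : (M : ℝ) ≤ y ^ 5 := hM2.trans (pow_le_pow_right₀ hy (by norm_num))
  have q3 : (k : ℝ) ≤ y ^ 3 * s := by
    rw [hks]
    nlinarith
  have q4 : 0 ≤ (Y : ℝ) / k := by positivity
  refine h1.trans ?_
  calc 64 * ((Y : ℝ) / k + M + k) * (1 + Real.log M) * (1 + Real.log k)
      ≤ 64 * (y ^ 6 / s + y ^ 5 + y ^ 3 * s) * (2 * Real.log Y) * (2 * Real.log Y) := by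
        gcongr <;> linarith
    _ = 256 * Real.log Y ^ 2 * (y ^ 6 / s + y ^ 5 + y ^ 3 * s) := by ring

private theorem v_t1 (Y u : ℕ) (γ : ℝ) :
    ‖∑ n ∈ (Icc 1 Y).filter (fun n => n ≤ u), ((vonMangoldt n : ℝ) : ℂ) * ee (n * γ)‖ ≤ u * Real.log Y := by
  rcases Nat.eq_zero_or_pos Y with rfl | hY
  · simp
  have h0 : ∀ n ∈ (Icc 1 Y).filter (fun n => n ≤ u), ‖((vonMangoldt n : ℝ) : ℂ) * ee (n * γ)‖ ≤ Real.log Y := by
    intro n hn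
    rw [Finset.mem_filter, Finset.mem_Icc] at hn
    rw [norm_mul, norm_ee, mul_one, Complex.norm_real, Real.norm_eq_abs, abs_of_nonneg vonMangoldt_nonneg]
    refine vonMangoldt_le_log.trans (Real.log_le_log ?_ ?_)
    · exact_mod_cast hn.1.1
    · exact_mod_cast hn.1.2
  have h1 := Finset.sum_le_card_nsmul _ _ _ h0
  have h2 : ((Icc 1 Y).filter (fun n => n ≤ u)).card ≤ u := by
    have h3 : (Icc 1 Y).filter (fun n => n ≤ u) ⊆ Icc 1 u := by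
      intro n hn
      rw [Finset.mem_filter, Finset.mem_Icc] at hn
      rw [Finset.mem_Icc]
      exact ⟨hn.1.1, hn.2⟩
    have h4 := Finset.card_le_card h3
    rwa [Nat.card_Icc, Nat.add_sub_cancel] at h4
  have h5 : 0 ≤ Real.log Y := Real.log_natCast_nonneg Y
  refine (norm_sum_le _ _).trans (h1.trans ?_)
  rw [nsmul_eq_mul]
  have h6 : ((((Icc 1 Y).filter (fun n => n ≤ u)).card : ℕ) : ℝ) ≤ u := by exact_mod_cast h2
  exact mul_le_mul_of_nonneg_right h6 h5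

private theorem v_mu (m : ℕ) : ‖((moebius m : ℤ) : ℂ)‖ ≤ 1 := by
  rw [Complex.norm_intCast]
  exact_mod_cast abs_moebius_le_one

private theorem v_t2 (Y u : ℕ) (hY : 4 ≤ Y) (γ : ℝ) :
    ‖∑ m ∈ Icc 1 u, ((moebius m : ℤ) : ℂ) *
        ∑ j ∈ Icc 1 (Y / m), ((Real.log j : ℝ) : ℂ) * ee (((m * j : ℕ) : ℝ) * γ)‖ ≤
      8 * Real.log Y * ∑ m ∈ Icc 1 u, gb ((Y : ℝ) / m) (nd (m * γ)) := by
  have hY1 : (4 : ℝ) ≤ Y := by exact_mod_cast hY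
  rw [Finset.mul_sum]
  refine (norm_sum_le _ _).trans (Finset.sum_le_sum fun m hm => ?_)
  rw [Finset.mem_Icc] at hm
  have hm1 : (1 : ℝ) ≤ m := by exact_mod_cast hm.1
  have e1 : ∑ j ∈ Icc 1 (Y / m), ((Real.log j : ℝ) : ℂ) * ee (((m * j : ℕ) : ℝ) * γ) =
      ∑ j ∈ Icc 1 (Y / m), ((Real.log j : ℝ) : ℂ) * ee ((j : ℝ) * ((m : ℝ) * γ)) :=
    Finset.sum_congr rfl fun j _ => by rw [v_ee]
  have h1 := geol (Y / m) ((m : ℝ) * γ) ((Y : ℝ) / m) Nat.cast_div_le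
  rw [norm_mul, e1]
  have hg : 0 ≤ gb ((Y : ℝ) / m) (nd (m * γ)) := gb_nonneg (by positivity) (nd_nonneg _)
  have h2 : Real.log (((Y / m : ℕ) : ℝ) + 1) ≤ 2 * Real.log Y := by
    have h3 : ((Y / m : ℕ) : ℝ) + 1 ≤ (Y : ℝ) ^ 2 := by
      have h4 : ((Y / m : ℕ) : ℝ) ≤ Y := by exact_mod_cast Nat.div_le_self Y m
      nlinarith
    have h5 := Real.log_le_log (by positivity) h3
    rw [Real.log_pow] at h5
    push_cast at h5
    exact h5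
  calc ‖((moebius m : ℤ) : ℂ)‖ * ‖∑ j ∈ Icc 1 (Y / m), ((Real.log j : ℝ) : ℂ) * ee ((j : ℝ) * ((m : ℝ) * γ))‖
      ≤ 1 * (4 * Real.log (((Y / m : ℕ) : ℝ) + 1) * gb ((Y : ℝ) / m) (nd (m * γ))) :=
        mul_le_mul (v_mu m) h1 (norm_nonneg _) zero_le_one
    _ ≤ 1 * (4 * (2 * Real.log Y) * gb ((Y : ℝ) / m) (nd (m * γ))) := by gcongr
    _ = 8 * Real.log Y * gb ((Y : ℝ) / m) (nd (m * γ)) := by ring

private theorem v_t3 (Y u : ℕ) (hu : u ≤ Y) (c : ℕ → ℝ) (hc : ∀ m, |c m| ≤ Real.log m) (γ : ℝ) :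
    ‖∑ m ∈ Icc 1 u, ((c m : ℝ) : ℂ) * ∑ j ∈ Icc 1 (Y / m), ee (((m * j : ℕ) : ℝ) * γ)‖ ≤
      2 * Real.log Y * ∑ m ∈ Icc 1 u, gb ((Y : ℝ) / m) (nd (m * γ)) := by
  rw [Finset.mul_sum]
  refine (norm_sum_le _ _).trans (Finset.sum_le_sum fun m hm => ?_)
  rw [Finset.mem_Icc] at hm
  have hm1 : (1 : ℝ) ≤ m := by exact_mod_cast hm.1
  have e0 : Icc 1 (Y / m) = Ioc 0 (Y / m) := by
    ext x
    rw [Finset.mem_Icc, Finset.mem_Ioc]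
    exact Iff.rfl
  have e1 : ∑ j ∈ Icc 1 (Y / m), ee (((m * j : ℕ) : ℝ) * γ) =
      ∑ j ∈ Ioc 0 (Y / m), ee ((j : ℝ) * ((m : ℝ) * γ)) := by
    rw [e0]
    exact Finset.sum_congr rfl fun j _ => by rw [v_ee]
  have h1 := geo 0 (Y / m) (Nat.zero_le _) ((m : ℝ) * γ) ((Y : ℝ) / m) (by
    rw [Nat.cast_zero, sub_zero]
    exact Nat.cast_div_le)
  rw [norm_mul, e1, Complex.norm_real, Real.norm_eq_abs]
  have hg : 0 ≤ gb ((Y : ℝ) / m) (nd (m * γ)) := gb_nonneg (by positivity) (nd_nonneg _)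
  have h2 : |c m| ≤ Real.log Y := (hc m).trans (Real.log_le_log (by linarith) (by exact_mod_cast hm.2.trans hu))
  have h3 : 0 ≤ Real.log Y := Real.log_natCast_nonneg Y
  calc |c m| * ‖∑ j ∈ Ioc 0 (Y / m), ee ((j : ℝ) * ((m : ℝ) * γ))‖
      ≤ Real.log Y * (2 * gb ((Y : ℝ) / m) (nd (m * γ))) := mul_le_mul h2 h1 (norm_nonneg _) h3
    _ = 2 * Real.log Y * gb ((Y : ℝ) / m) (nd (m * γ)) := by ring

/-- dyadic decomposition -/
private theorem v_dy (u V : ℕ) (f : ℕ → ℂ) (I : ℕ) :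
    ∑ i ∈ range I, ∑ m ∈ Ioc (2 ^ i * u) (min (2 ^ (i + 1) * u) V), f m = ∑ m ∈ Ioc u (min (2 ^ I * u) V), f m := by
  induction I with
  | zero =>
    rw [Finset.sum_range_zero, pow_zero, one_mul, Finset.Ioc_eq_empty_of_le (min_le_left _ _), Finset.sum_empty]
  | succ I ih =>
    rw [Finset.sum_range_succ, ih]
    have h1 : u ≤ 2 ^ I * u := Nat.le_mul_of_pos_left _ (by positivity)
    have h2 : 2 ^ I * u ≤ 2 ^ (I + 1) * u := Nat.mul_le_mul_right _ (Nat.pow_le_pow_right (by norm_num) (Nat.le_succ I))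
    rcases le_total V (2 ^ I * u) with h | h
    · rw [min_eq_right h, min_eq_right (h.trans h2), Finset.Ioc_eq_empty_of_le h, Finset.sum_empty, add_zero]
    · rw [min_eq_left h]
      exact Finset.sum_Ioc_consecutive f h1 (le_min h2 h)

theorem vino_bd : ∃ C : ℝ, 0 < C ∧ ∀ (k : ℕ) (a : ℤ) (γ : ℝ), 4 ≤ k → IsCoprime a (k : ℤ) →
    |γ - (a : ℝ) / k| ≤ 1 / (k : ℝ) ^ 2 → ∀ Y : ℕ, k ≤ Y →
    ‖∑ n ∈ Icc 1 Y, ((vonMangoldt n : ℝ) : ℂ) * ee (n * γ)‖ ≤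
      C * ((Y : ℝ) / Real.sqrt k + (Y : ℝ) ^ (5 / 6 : ℝ) + Real.sqrt (Y * k)) * Real.log Y ^ 4 := by
  refine ⟨3000, by norm_num, ?_⟩
  intro k a γ hk hc hγ Y hkY
  obtain ⟨y, s, hy, hs, hYy, hks, hsy, hQ⟩ := v_num k Y hk hkY
  have hY4 : 4 ≤ Y := hk.trans hkY
  have hL := v_L1 Y hY4
  have hy0 : 0 < y := by linarith
  have hs0 : 0 < s := by linarith
  rw [hQ]
  obtain ⟨Q, hQQ⟩ : ∃ Q : ℝ, Q = y ^ 6 / s + y ^ 5 + y ^ 3 * s := ⟨_, rfl⟩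
  obtain ⟨L, hLL⟩ : ∃ L : ℝ, L = Real.log Y := ⟨_, rfl⟩
  have hQ5 : y ^ 5 ≤ Q := by
    have h1 : 0 ≤ y ^ 6 / s := by positivity
    have h2 : 0 ≤ y ^ 3 * s := by positivity
    linarith
  have hQ0 : 0 < Q := lt_of_lt_of_le (by positivity) hQ5
  rw [← hQQ, ← hLL]
  rw [← hLL] at hL
  -- the parameter
  obtain ⟨u, hu⟩ : ∃ u : ℕ, u = ⌊y ^ 2⌋₊ := ⟨_, rfl⟩
  have hy2 : 1 ≤ y ^ 2 := one_le_pow₀ hy
  have hu1 : 1 ≤ u := by
    rw [hu]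
    exact Nat.le_floor (by simpa using hy2)
  have hu2 : (u : ℝ) ≤ y ^ 2 := by
    rw [hu]
    exact Nat.floor_le (by positivity)
  have hu3 : y ^ 2 ≤ 2 * u := by
    have h1 : y ^ 2 < u + 1 := by
      rw [hu]
      exact Nat.lt_floor_add_one _
    have h2 : (1 : ℝ) ≤ u := by exact_mod_cast hu1
    linarith
  have hu0 : (0 : ℝ) < u := by exact_mod_cast hu1
  have huY : u ≤ Y := by
    have : (u : ℝ) ≤ Y := by
      rw [hYy]
      exact hu2.trans (pow_le_pow_right₀ hy (by norm_num))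
    exact_mod_cast this
  have huu : ((u * u : ℕ) : ℝ) ≤ y ^ 4 := by
    push_cast
    calc (u : ℝ) * u ≤ y ^ 2 * y ^ 2 := mul_le_mul hu2 hu2 hu0.le (by positivity)
      _ = y ^ 4 := by ring
  have huuY : u * u ≤ Y := by
    have : ((u * u : ℕ) : ℝ) ≤ Y := by
      rw [hYy]
      exact huu.trans (pow_le_pow_right₀ hy (by norm_num))
    exact_mod_cast this
  have hYu : ((Y / u : ℕ) : ℝ) ≤ 2 * y ^ 4 := by
    refine (Nat.cast_div_le).trans ?_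
    rw [hYy, div_le_iff₀ hu0]
    calc y ^ 6 = y ^ 4 * y ^ 2 := by ring
      _ ≤ y ^ 4 * (2 * u) := mul_le_mul_of_nonneg_left hu3 (by positivity)
      _ = 2 * y ^ 4 * u := by ring
  obtain ⟨c, b, hcm, hbm, hV⟩ := vaughan u hu1
  have hV1 := hV Y (fun n => ee (n * γ))
  rw [hV1]
  -- the four parts
  have t1 := v_t1 Y u γ
  have t2 := v_t2 Y u hY4 γ
  have t3 := v_t3 Y (u * u) huuY c hcm γ
  have i2 := v_I k a γ hk hc hγ Y hkY y s hy hs hYy hks hsy u hu1 (hu2.trans (pow_le_pow_right₀ hy (by norm_num)))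
  have i3 := v_I k a γ hk hc hγ Y hkY y s hy hs hYy hks hsy (u * u) (Nat.mul_pos hu1 hu1) huu
  rw [← hQQ, ← hLL] at i2 i3
  rw [← hLL] at t1 t2 t3
  have t1' : (u : ℝ) * L ≤ L ^ 3 * Q := by
    have h1 : (u : ℝ) ≤ Q := hu2.trans ((pow_le_pow_right₀ hy (by norm_num)).trans hQ5)
    have h2 : L ≤ L ^ 3 := le_self_pow₀ hL (by norm_num)
    calc (u : ℝ) * L ≤ Q * L ^ 3 := mul_le_mul h1 h2 (by linarith) hQ0.le
      _ = L ^ 3 * Q := by ring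
  have t2' : 8 * L * ∑ m ∈ Icc 1 u, gb ((Y : ℝ) / m) (nd (m * γ)) ≤ 2048 * (L ^ 3 * Q) := by
    calc 8 * L * ∑ m ∈ Icc 1 u, gb ((Y : ℝ) / m) (nd (m * γ)) ≤ 8 * L * (256 * L ^ 2 * Q) :=
          mul_le_mul_of_nonneg_left i2 (by linarith)
      _ = 2048 * (L ^ 3 * Q) := by ring
  have t3' : 2 * L * ∑ m ∈ Icc 1 (u * u), gb ((Y : ℝ) / m) (nd (m * γ)) ≤ 512 * (L ^ 3 * Q) := by
    calc 2 * L * ∑ m ∈ Icc 1 (u * u), gb ((Y : ℝ) / m) (nd (m * γ)) ≤ 2 * L * (256 * L ^ 2 * Q) :=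
          mul_le_mul_of_nonneg_left i3 (by linarith)
      _ = 512 * (L ^ 3 * Q) := by ring
  -- the bilinear part
  have t4 : ‖∑ m ∈ Ioc u Y, ((moebius m : ℤ) : ℂ) *
      ∑ j ∈ Ioc u (Y / m), ((b j : ℝ) : ℂ) * ee (((m * j : ℕ) : ℝ) * γ)‖ ≤ 300 * (L ^ 3 * Q) := by
    obtain ⟨f, hf⟩ : ∃ f : ℕ → ℂ, f = fun m => ((moebius m : ℤ) : ℂ) *
      ∑ j ∈ Ioc u (Y / m), ((b j : ℝ) : ℂ) * ee (((m * j : ℕ) : ℝ) * γ) := ⟨_, rfl⟩
    obtain ⟨V, hVd⟩ : ∃ V : ℕ, V = Y / u := ⟨_, rfl⟩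
    have hVY : V ≤ Y := by
      rw [hVd]
      exact Nat.div_le_self _ _
    have e1 : ∑ m ∈ Ioc u Y, f m = ∑ m ∈ Ioc u V, f m := by
      symm
      refine Finset.sum_subset (Finset.Ioc_subset_Ioc_right hVY) ?_
      intro m hm hm'
      rw [Finset.mem_Ioc] at hm hm'
      have h1 : V < m := by
        by_contra h2
        exact hm' ⟨hm.1, not_lt.1 h2⟩
      have h2 : Y / m ≤ u := by
        have h3 : Y < m * u := by
          rw [hVd, Nat.div_lt_iff_lt_mul hu1] at h1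
          exact h1
        have h4 : Y / m < u := by
          rw [Nat.div_lt_iff_lt_mul (by omega), mul_comm]
          exact h3
        exact h4.le
      rw [hf]
      show ((moebius m : ℤ) : ℂ) * ∑ j ∈ Ioc u (Y / m), _ = 0
      rw [Finset.Ioc_eq_empty_of_le h2, Finset.sum_empty, mul_zero]
    obtain ⟨I, hI⟩ : ∃ I : ℕ, I = Nat.log 2 Y + 1 := ⟨_, rfl⟩
    have hIV : min (2 ^ I * u) V = V := by
      apply min_eq_right
      have h1 : Y < 2 ^ I := by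
        rw [hI]
        exact Nat.lt_pow_succ_log_self (by norm_num) Y
      calc V ≤ Y := hVY
        _ ≤ 2 ^ I := h1.le
        _ ≤ 2 ^ I * u := Nat.le_mul_of_pos_right _ hu1
    have e2 : ∑ m ∈ Ioc u V, f m =
        ∑ i ∈ range I, ∑ m ∈ Ioc (2 ^ i * u) (min (2 ^ (i + 1) * u) V), f m := by
      rw [v_dy u V f I, hIV]
    have hblock : ∀ i ∈ range I, ‖∑ m ∈ Ioc (2 ^ i * u) (min (2 ^ (i + 1) * u) V), f m‖ ≤ 120 * L ^ 2 * Q := by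
      intro i _
      rcases le_total V (2 ^ i * u) with h | h
      · rw [Finset.Ioc_eq_empty_of_le ((min_le_right _ _).trans h), Finset.sum_empty, norm_zero]
        positivity
      · obtain ⟨M, hM⟩ : ∃ M : ℕ, M = 2 ^ i * u := ⟨_, rfl⟩
        have huM : u ≤ M := by
          rw [hM]
          exact Nat.le_mul_of_pos_left _ (by positivity)
        have hM1 : 1 ≤ M := hu1.trans huM
        rw [← hM] at h ⊢
        have hb := bil k a γ hk hc hγ Y M (Y / M) M (min (2 ^ (i + 1) * u) V) u hM1 (Nat.mul_div_le Y M) le_rfl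
          ((min_le_left _ _).trans (le_of_eq (by rw [hM]; ring)))
          (fun m hm => Nat.div_le_div_left (Finset.mem_Ioc.1 hm).1.le (by omega)) hkY
          (fun m => ((moebius m : ℤ) : ℝ)) b (fun m => by exact_mod_cast abs_moebius_le_one) hbm
        have e3 : ∑ m ∈ Ioc M (min (2 ^ (i + 1) * u) V), ((((moebius m : ℤ) : ℝ) : ℝ) : ℂ) *
            ∑ j ∈ Ioc u (Y / m), ((b j : ℝ) : ℂ) * ee (((m * j : ℕ) : ℝ) * γ) =
            ∑ m ∈ Ioc M (min (2 ^ (i + 1) * u) V), f m := by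
          refine Finset.sum_congr rfl fun m _ => ?_
          rw [hf]
          congr 1
        rw [e3, ← hLL] at hb
        have hMr : (M : ℝ) ≤ 2 * y ^ 4 := by
          refine le_trans ?_ hYu
          rw [← hVd]
          exact_mod_cast h
        have hNr : ((Y / M : ℕ) : ℝ) ≤ 2 * y ^ 4 := by
          refine le_trans ?_ hYu
          exact_mod_cast Nat.div_le_div_left huM (by omega)
        have hsq : 400 * (Y : ℝ) * (1 + L) ^ 3 * ((Y : ℝ) / k + M + ((Y / M : ℕ) : ℝ) + k) ≤ (120 * L ^ 2 * Q) ^ 2 := by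
          have h1 : (1 + L) ^ 3 ≤ 8 * L ^ 4 := by
            calc (1 + L) ^ 3 ≤ (2 * L) ^ 3 := by gcongr; linarith
              _ = 8 * L ^ 3 := by ring
              _ ≤ 8 * L ^ 4 := by
                have := pow_le_pow_right₀ hL (by norm_num : 3 ≤ 4)
                linarith
          have h2 : (Y : ℝ) * ((Y : ℝ) / k + M + ((Y / M : ℕ) : ℝ) + k) ≤ 4 * Q ^ 2 := by
            have h3 : (Y : ℝ) / k + M + ((Y / M : ℕ) : ℝ) + k ≤ y ^ 6 / s ^ 2 + 4 * y ^ 4 + s ^ 2 := by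
              have h4 : (Y : ℝ) / k = y ^ 6 / s ^ 2 := by rw [hYy, hks]
              rw [h4, ← hks]
              linarith
            calc (Y : ℝ) * ((Y : ℝ) / k + M + ((Y / M : ℕ) : ℝ) + k)
                ≤ (Y : ℝ) * (y ^ 6 / s ^ 2 + 4 * y ^ 4 + s ^ 2) := mul_le_mul_of_nonneg_left h3 (Nat.cast_nonneg _)
              _ = (y ^ 6 / s) ^ 2 + 4 * (y ^ 5) ^ 2 + (y ^ 3 * s) ^ 2 := by
                rw [hYy]
                field_simp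
              _ ≤ 4 * Q ^ 2 := by
                have g1 : 0 ≤ y ^ 6 / s := by positivity
                have g2 : 0 ≤ y ^ 5 := by positivity
                have g3 : 0 ≤ y ^ 3 * s := by positivity
                rw [hQQ]
                nlinarith [mul_nonneg g1 g2, mul_nonneg g1 g3, mul_nonneg g2 g3, sq_nonneg (y ^ 6 / s),
                  sq_nonneg (y ^ 3 * s)]
          have h5 : 0 ≤ (Y : ℝ) * ((Y : ℝ) / k + M + ((Y / M : ℕ) : ℝ) + k) := by positivity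
          calc 400 * (Y : ℝ) * (1 + L) ^ 3 * ((Y : ℝ) / k + M + ((Y / M : ℕ) : ℝ) + k)
              = 400 * ((1 + L) ^ 3) * ((Y : ℝ) * ((Y : ℝ) / k + M + ((Y / M : ℕ) : ℝ) + k)) := by ring
            _ ≤ 400 * (8 * L ^ 4) * (4 * Q ^ 2) := by gcongr
            _ = 12800 * (L ^ 4 * Q ^ 2) := by ring
            _ ≤ 14400 * (L ^ 4 * Q ^ 2) := by
              have : 0 ≤ L ^ 4 * Q ^ 2 := by positivity
              linarith
            _ = (120 * L ^ 2 * Q) ^ 2 := by ring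
        exact le_of_sq_le_sq (hb.trans hsq) (by positivity)
    have hcount : (I : ℝ) ≤ 5 / 2 * L := by
      rw [hI]
      push_cast
      have h1 := Real.natLog_le_logb Y 2
      have h2 : Real.logb (2 : ℕ) Y = L / Real.log 2 := by
        rw [hLL]
        push_cast
        rfl
      rw [h2] at h1
      have h3 := Real.log_two_gt_d9
      have h4 : L / Real.log 2 ≤ 3 / 2 * L := by
        rw [div_le_iff₀ (by linarith)]
        nlinarith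
      linarith
    have e3 : ∑ m ∈ Ioc u Y, ((moebius m : ℤ) : ℂ) *
        ∑ j ∈ Ioc u (Y / m), ((b j : ℝ) : ℂ) * ee (((m * j : ℕ) : ℝ) * γ) = ∑ m ∈ Ioc u Y, f m := by
      rw [hf]
    rw [e3, e1, e2]
    refine (norm_sum_le _ _).trans ((Finset.sum_le_card_nsmul _ _ _ hblock).trans ?_)
    rw [Finset.card_range, nsmul_eq_mul]
    calc (I : ℝ) * (120 * L ^ 2 * Q) ≤ (5 / 2 * L) * (120 * L ^ 2 * Q) :=
          mul_le_mul_of_nonneg_right hcount (by positivity)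
      _ = 300 * (L ^ 3 * Q) := by ring
  have n1 := norm_add_le (∑ n ∈ (Icc 1 Y).filter (fun n => n ≤ u), ((vonMangoldt n : ℝ) : ℂ) * ee (n * γ))
    (∑ m ∈ Icc 1 u, ((moebius m : ℤ) : ℂ) *
        ∑ j ∈ Icc 1 (Y / m), ((Real.log j : ℝ) : ℂ) * ee (((m * j : ℕ) : ℝ) * γ))
  have n2 := norm_sub_le (∑ n ∈ (Icc 1 Y).filter (fun n => n ≤ u), ((vonMangoldt n : ℝ) : ℂ) * ee (n * γ) +
    ∑ m ∈ Icc 1 u, ((moebius m : ℤ) : ℂ) *
        ∑ j ∈ Icc 1 (Y / m), ((Real.log j : ℝ) : ℂ) * ee (((m * j : ℕ) : ℝ) * γ))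
    (∑ m ∈ Icc 1 (u * u), ((c m : ℝ) : ℂ) * ∑ j ∈ Icc 1 (Y / m), ee (((m * j : ℕ) : ℝ) * γ))
  have n3 := norm_add_le (∑ n ∈ (Icc 1 Y).filter (fun n => n ≤ u), ((vonMangoldt n : ℝ) : ℂ) * ee (n * γ) +
    ∑ m ∈ Icc 1 u, ((moebius m : ℤ) : ℂ) *
        ∑ j ∈ Icc 1 (Y / m), ((Real.log j : ℝ) : ℂ) * ee (((m * j : ℕ) : ℝ) * γ) -
    ∑ m ∈ Icc 1 (u * u), ((c m : ℝ) : ℂ) * ∑ j ∈ Icc 1 (Y / m), ee (((m * j : ℕ) : ℝ) * γ))
    (∑ m ∈ Ioc u Y, ((moebius m : ℤ) : ℂ) *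
      ∑ j ∈ Ioc u (Y / m), ((b j : ℝ) : ℂ) * ee (((m * j : ℕ) : ℝ) * γ))
  have hfin : 2861 * (L ^ 3 * Q) ≤ 3000 * Q * L ^ 4 := by
    have h1 : L ^ 3 ≤ L ^ 4 := pow_le_pow_right₀ hL (by norm_num)
    have h2 : 0 ≤ L ^ 3 := by positivity
    have h3 : L ^ 3 * Q ≤ L ^ 4 * Q := mul_le_mul_of_nonneg_right h1 hQ0.le
    have h4 : 0 ≤ L ^ 4 * Q := by positivity
    nlinarith
  linarith

end Pool.Agent.H95.RO
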