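import Pool.Agent.H95.RO.Vin

/-!
# [H95 RO VPR] MP_8923e7_nt, THEOREM R: exponential sums over primes with a power saving

PROOF. Let `X = x^(1+c)`, `c = τ/40` (or smaller). For `y ≤ X`:
* `S(y) = ∑_(n ≤ y) Λ(n) ee(nγ)`: if `y ≤ x^(1 - τ/8)` trivially `|S(y)| ≤ y log y` (`ψ(y) ≤ y log y`: each term `≤ log y`); otherwise
  `k ≤ x^(1-τ/2) ≤ y` and `vino_bd`: `|S(y)| ≤ C (y k^(-1/2) + y^(5/6) + (y k)^(1/2)) (log y)^4` with exponents
  `1 + c - τ/4`, `5/6 (1 + c)`, `(1 + c + 1 - τ/2)/2`, all `≤ 1 - 3c`; so `|S(y)| ≤ x^(1 - 2c)` for large `x` (`4 ≤ k` since `x^(τ/2) → ∞`).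
* `T(y) = ∑_(p ≤ y) log p ee(pγ)`: `|S(y) - T(y)| ≤ ψ(y) - θ(y)`, the prime powers `p^j`, `j ≥ 2`: at most `√y log₂ y` of them
  (or Mathlib `Chebyshev.psi`/`theta` estimates), each weight `≤ log y`: `≤ 2 √y (log y)²`. `isPrimePow`: `Λ n ≠ 0` and `n` not prime implies `n = p^j`, `j ≥ 2`,
  `p ≤ √y`, `j ≤ log₂ y`: at most `√y log₂ y` values.
* `∑_(p ≤ Y) ee(pγ) = ∑_(2 ≤ n ≤ Y) (T(n) - T(n-1))/log n`; Abel: `≤ 2 max |T| / log 2` (`1/log n` is decreasing and positive on `n ≥ 2`).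
  (A general lemma: `f : ℕ → ℂ`, partial sums `≤ B`, `g` antitone and nonnegative: `‖∑ g n f n‖ ≤ 2 g(first) B`.)
-/

set_option autoImplicit false

namespace Pool.Agent.H95.RO

open Finset Filter ArithmeticFunction Pool.Agent.H21.BV

/-- Abel's inequality -/
theorem abel_bd (f : ℕ → ℂ) (g : ℕ → ℝ) (B G : ℝ) (Y : ℕ) (hB : ∀ y ≤ Y, ‖∑ n ∈ Icc 2 y, f n‖ ≤ B)
    (hg0 : ∀ n, 2 ≤ n → 0 ≤ g n) (hg : ∀ n, 2 ≤ n → g (n + 1) ≤ g n) (hG : g 2 ≤ G) :
    ‖∑ n ∈ Icc 2 Y, ((g n : ℝ) : ℂ) * f n‖ ≤ G * B := by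
  have hB0 : 0 ≤ B := (norm_nonneg _).trans (hB 0 (Nat.zero_le _))
  have hG0 : 0 ≤ G := (hg0 2 le_rfl).trans hG
  have key : ∀ y, 1 ≤ y → y ≤ Y →
      ‖∑ n ∈ Icc 2 y, ((g n : ℝ) : ℂ) * f n - ((g (y + 1) : ℝ) : ℂ) * ∑ n ∈ Icc 2 y, f n‖ ≤
        (g 2 - g (y + 1)) * B := by
    intro y hy1
    induction y, hy1 using Nat.le_induction with
    | base => intro _; simp
    | succ y hy1 ih =>
      intro hyY
      have h := ih (by omega)
      rw [Finset.sum_Icc_succ_top (by omega : 2 ≤ y + 1),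
        Finset.sum_Icc_succ_top (by omega : 2 ≤ y + 1)]
      have h2 := hB (y + 1) hyY
      rw [Finset.sum_Icc_succ_top (by omega : 2 ≤ y + 1)] at h2
      have hgd : 0 ≤ g (y + 1) - g (y + 1 + 1) := by
        have := hg (y + 1) (by omega)
        linarith
      have e : ∑ n ∈ Icc 2 y, ((g n : ℝ) : ℂ) * f n + ((g (y + 1) : ℝ) : ℂ) * f (y + 1) -
          ((g (y + 1 + 1) : ℝ) : ℂ) * (∑ n ∈ Icc 2 y, f n + f (y + 1)) =
          (∑ n ∈ Icc 2 y, ((g n : ℝ) : ℂ) * f n - ((g (y + 1) : ℝ) : ℂ) * ∑ n ∈ Icc 2 y, f n) +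
          ((g (y + 1) - g (y + 1 + 1) : ℝ) : ℂ) * (∑ n ∈ Icc 2 y, f n + f (y + 1)) := by
        push_cast
        ring
      rw [e]
      refine (norm_add_le _ _).trans ?_
      rw [norm_mul, Complex.norm_real, Real.norm_of_nonneg hgd]
      have h3 := mul_le_mul_of_nonneg_left h2 hgd
      nlinarith
  rcases Nat.lt_or_ge Y 1 with hY | hY
  · have : Y = 0 := by omega
    subst this
    simpa using mul_nonneg hG0 hB0
  · have h := key Y hY le_rfl
    have h2 := hB Y le_rfl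
    have hg1 : 0 ≤ g (Y + 1) := hg0 _ (by omega)
    have e : ∑ n ∈ Icc 2 Y, ((g n : ℝ) : ℂ) * f n =
        (∑ n ∈ Icc 2 Y, ((g n : ℝ) : ℂ) * f n - ((g (Y + 1) : ℝ) : ℂ) * ∑ n ∈ Icc 2 Y, f n) +
          ((g (Y + 1) : ℝ) : ℂ) * ∑ n ∈ Icc 2 Y, f n := by ring
    rw [e]
    refine (norm_add_le _ _).trans ?_
    rw [norm_mul, Complex.norm_real, Real.norm_of_nonneg hg1]
    have h3 := mul_le_mul_of_nonneg_left h2 hg1
    have h4 := mul_le_mul_of_nonneg_right hG hB0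
    nlinarith

/-- prime powers -/
theorem pp_bd (y : ℕ) (F : ℕ → ℂ) (hF : ∀ n, ‖F n‖ ≤ 1) :
    ‖∑ n ∈ Icc 1 y, ((vonMangoldt n : ℝ) : ℂ) * F n -
      ∑ n ∈ (Icc 1 y).filter Nat.Prime, ((Real.log n : ℝ) : ℂ) * F n‖ ≤
      2 * Real.sqrt y * Real.log (y + 1) ^ 2 := by
  rcases Nat.eq_zero_or_pos y with rfl | hy
  · simp
  have h1 : ∑ n ∈ Icc 1 y, ((vonMangoldt n : ℝ) : ℂ) * F n -
      ∑ n ∈ (Icc 1 y).filter Nat.Prime, ((Real.log n : ℝ) : ℂ) * F n =
      ∑ n ∈ (Icc 1 y).filter (fun n => ¬ n.Prime), ((vonMangoldt n : ℝ) : ℂ) * F n := by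
    rw [← Finset.sum_filter_add_sum_filter_not (Icc 1 y) Nat.Prime
      (fun n => ((vonMangoldt n : ℝ) : ℂ) * F n)]
    have : ∑ n ∈ (Icc 1 y).filter Nat.Prime, ((vonMangoldt n : ℝ) : ℂ) * F n =
        ∑ n ∈ (Icc 1 y).filter Nat.Prime, ((Real.log n : ℝ) : ℂ) * F n := by
      refine Finset.sum_congr rfl fun n hn => ?_
      rw [vonMangoldt_apply_prime (Finset.mem_filter.mp hn).2]
    rw [this]
    ring
  rw [h1]
  have h2 : ‖∑ n ∈ (Icc 1 y).filter (fun n => ¬ n.Prime), ((vonMangoldt n : ℝ) : ℂ) * F n‖ ≤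
      ∑ n ∈ (Icc 1 y).filter (fun n => ¬ n.Prime), vonMangoldt n := by
    refine (norm_sum_le _ _).trans (Finset.sum_le_sum fun n _ => ?_)
    rw [norm_mul, Complex.norm_real, Real.norm_of_nonneg vonMangoldt_nonneg]
    exact mul_le_of_le_one_right vonMangoldt_nonneg (hF n)
  refine h2.trans ?_
  have h3 : ∑ n ∈ (Icc 1 y).filter (fun n => ¬ n.Prime), vonMangoldt n =
      Chebyshev.psi (y : ℝ) - Chebyshev.theta (y : ℝ) := by
    rw [Chebyshev.psi_sub_theta_eq_sum_not_prime, Nat.floor_natCast]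
    rfl
  rw [h3]
  have hy1 : (1 : ℝ) ≤ (y : ℝ) := by exact_mod_cast hy
  refine (Chebyshev.psi_sub_theta_le hy1).trans ?_
  have h4 : Real.log y ≤ Real.log (y + 1) ^ 2 := by
    rcases Nat.lt_or_ge y 2 with h | h
    · have : y = 1 := by omega
      subst this
      simp only [Nat.cast_one, Real.log_one]
      positivity
    · have hy2 : (2 : ℝ) ≤ (y : ℝ) := by exact_mod_cast h
      have h5 : 1 ≤ Real.log (y + 1) := by
        rw [Real.le_log_iff_exp_le (by linarith)]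
        have := Real.exp_one_lt_d9
        linarith
      have h6 : Real.log y ≤ Real.log (y + 1) := Real.log_le_log (by linarith) (by linarith)
      nlinarith
  have h7 : 0 ≤ 2 * Real.sqrt y := by positivity
  exact mul_le_mul_of_nonneg_left h4 h7

/-- logarithms against powers -/
private theorem log_small (K ε : ℝ) (hε : 0 < ε) (n : ℕ) :
    ∀ᶠ x : ℝ in atTop, K * Real.log x ^ n ≤ x ^ ε := by
  have h := isLittleO_log_rpow_rpow_atTop (s := ε) (n : ℝ) hε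
  have h2 := h.bound (show (0 : ℝ) < 1 / (|K| + 1) by positivity)
  filter_upwards [h2, eventually_ge_atTop 1] with x hx hx1
  have hL : 0 ≤ Real.log x := Real.log_nonneg hx1
  rw [Real.rpow_natCast, Real.norm_of_nonneg (by positivity), Real.norm_of_nonneg (by positivity)] at hx
  have hK : K ≤ |K| + 1 := (le_abs_self K).trans (by linarith)
  have hp : 0 ≤ Real.log x ^ n := by positivity
  calc K * Real.log x ^ n ≤ (|K| + 1) * Real.log x ^ n := mul_le_mul_of_nonneg_right hK hp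
    _ ≤ (|K| + 1) * (1 / (|K| + 1) * x ^ ε) := mul_le_mul_of_nonneg_left hx (by positivity)
    _ = x ^ ε := by field_simp

/-- the sum over primes as a sum with partial summation -/
private theorem pri_eq (γ : ℝ) (Y : ℕ) :
    ∑ n ∈ (Icc 1 Y).filter Nat.Prime, ee (n * γ) =
      ∑ n ∈ Icc 2 Y, (((Real.log n)⁻¹ : ℝ) : ℂ) *
        (if n.Prime then ((Real.log n : ℝ) : ℂ) * ee (n * γ) else 0) := by
  have h : (Icc 1 Y).filter Nat.Prime = (Icc 2 Y).filter Nat.Prime := by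
    ext n
    simp only [Finset.mem_filter, Finset.mem_Icc]
    constructor
    · rintro ⟨⟨_, h2⟩, h3⟩
      exact ⟨⟨h3.two_le, h2⟩, h3⟩
    · rintro ⟨⟨h1, h2⟩, h3⟩
      exact ⟨⟨by omega, h2⟩, h3⟩
  rw [h, Finset.sum_filter]
  refine Finset.sum_congr rfl fun n hn => ?_
  split_ifs with hp
  · have hl : Real.log n ≠ 0 := by
      have : (1 : ℝ) < n := by exact_mod_cast hp.one_lt
      exact (Real.log_pos this).ne'
    rw [← mul_assoc, ← Complex.ofReal_mul, inv_mul_cancel₀ hl]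
    simp
  · simp

private theorem pri_part (γ : ℝ) (y : ℕ) :
    ∑ n ∈ Icc 2 y, (if n.Prime then ((Real.log n : ℝ) : ℂ) * ee (n * γ) else 0) =
      ∑ n ∈ (Icc 1 y).filter Nat.Prime, ((Real.log n : ℝ) : ℂ) * ee (n * γ) := by
  have h : (Icc 1 y).filter Nat.Prime = (Icc 2 y).filter Nat.Prime := by
    ext n
    simp only [Finset.mem_filter, Finset.mem_Icc]
    constructor
    · rintro ⟨⟨_, h2⟩, h3⟩
      exact ⟨⟨h3.two_le, h2⟩, h3⟩
    · rintro ⟨⟨h1, h2⟩, h3⟩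
      exact ⟨⟨by omega, h2⟩, h3⟩
  rw [h, Finset.sum_filter]

private theorem lam_triv (γ : ℝ) (y : ℕ) (hy : 1 ≤ y) :
    ‖∑ n ∈ Icc 1 y, ((vonMangoldt n : ℝ) : ℂ) * ee (n * γ)‖ ≤ y * Real.log y := by
  refine (norm_sum_le _ _).trans ?_
  have h : ∀ n ∈ Icc 1 y, ‖((vonMangoldt n : ℝ) : ℂ) * ee (n * γ)‖ ≤ Real.log y := by
    intro n hn
    rw [norm_mul, Complex.norm_real, Real.norm_of_nonneg vonMangoldt_nonneg, norm_ee, mul_one]
    refine vonMangoldt_le_log.trans ?_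
    have h1 := Finset.mem_Icc.mp hn
    have h2 : (1 : ℝ) ≤ n := by exact_mod_cast h1.1
    exact Real.log_le_log (by linarith) (by exact_mod_cast h1.2)
  refine (Finset.sum_le_card_nsmul _ _ _ h).trans ?_
  simp

theorem pri_bd (τ : ℝ) (hτ : 0 < τ) (hτ1 : τ ≤ 1 / 4) : ∃ c : ℝ, 0 < c ∧ ∀ᶠ x : ℝ in atTop,
    ∀ (γ : ℝ) (k : ℕ) (a : ℤ), IsCoprime a (k : ℤ) → |γ - (a : ℝ) / k| ≤ 1 / (k : ℝ) ^ 2 →
      x ^ (τ / 2) ≤ (k : ℝ) → (k : ℝ) ≤ x ^ (1 - τ / 2) → ∀ Y : ℕ, (Y : ℝ) ≤ x ^ (1 + c) →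
        ‖∑ n ∈ (Icc 1 Y).filter Nat.Prime, ee (n * γ)‖ ≤ x ^ (1 - c) := by
  obtain ⟨C, hC, hV⟩ := vino_bd
  refine ⟨τ / 40, by positivity, ?_⟩
  set c : ℝ := τ / 40 with hc
  have hc0 : 0 < c := by positivity
  have hc1 : c ≤ 1 / 160 := by rw [hc]; linarith
  have hτc : τ = 40 * c := by rw [hc]; ring
  have hbig : ∀ᶠ x : ℝ in atTop, (4 : ℝ) ≤ x ^ (τ / 2) :=
    (tendsto_rpow_atTop (by positivity)).eventually_ge_atTop 4
  filter_upwards [log_small (2 * (20 + 48 * C)) (4 * c) (by positivity) 4, hbig,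
    eventually_ge_atTop (Real.exp 1)] with x hx hx4 hxe γ k a hcop hγ hk1 hk2 Y hY
  have he := Real.exp_one_gt_d9
  have hx2 : (2 : ℝ) ≤ x := by linarith
  have hx1 : (1 : ℝ) ≤ x := by linarith
  have hx0 : (0 : ℝ) < x := by linarith
  have hL1 : 1 ≤ Real.log x := by
    rw [Real.le_log_iff_exp_le hx0]
    exact hxe
  set L := Real.log x with hL
  have hk4 : 4 ≤ k := by
    have : (4 : ℝ) ≤ (k : ℝ) := hx4.trans hk1
    exact_mod_cast this
  have hk0 : (0 : ℝ) < (k : ℝ) := by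
    have : 0 < k := by omega
    exact_mod_cast this
  -- bounds valid for all y at most Y
  have hy2 : ∀ y : ℕ, y ≤ Y → (y : ℝ) ≤ x ^ (1 + c) := fun y hy =>
    le_trans (by exact_mod_cast hy) hY
  have hlog : ∀ y : ℕ, 1 ≤ y → y ≤ Y → Real.log y ≤ 2 * L := by
    intro y hy1 hy
    have hy0 : (0 : ℝ) < (y : ℝ) := by exact_mod_cast hy1
    have h1 : Real.log y ≤ Real.log (x ^ (1 + c)) := Real.log_le_log hy0 (hy2 y hy)
    rw [Real.log_rpow hx0] at h1
    have : (1 + c) * Real.log x ≤ 2 * L := by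
      rw [← hL]
      nlinarith
    linarith
  have hlog1 : ∀ y : ℕ, y ≤ Y → Real.log (y + 1) ≤ 3 * L := by
    intro y hy
    have hy0 : (0 : ℝ) ≤ (y : ℝ) := by positivity
    have h2 : x ^ (1 + c) ≤ x ^ (2 : ℝ) := Real.rpow_le_rpow_of_exponent_le hx1 (by linarith)
    have h3 : (y : ℝ) + 1 ≤ x ^ (3 : ℝ) := by
      have h4 := hy2 y hy
      have e2 : x ^ (2 : ℝ) = x ^ 2 := by exact_mod_cast Real.rpow_natCast x 2
      have e3 : x ^ (3 : ℝ) = x ^ 3 := by exact_mod_cast Real.rpow_natCast x 3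
      rw [e2] at h2
      rw [e3]
      nlinarith [mul_nonneg (by linarith : (0:ℝ) ≤ x - 2) (by positivity : (0:ℝ) ≤ x ^ 2)]
    have h1 : Real.log (y + 1) ≤ Real.log (x ^ (3 : ℝ)) := Real.log_le_log (by linarith) h3
    rw [Real.log_rpow hx0] at h1
    exact h1
  have hL4 : L ≤ L ^ 4 := by
    have h2 : 1 ≤ L ^ 3 := one_le_pow₀ hL1
    have h3 : L ^ 4 = L * L ^ 3 := by ring
    rw [h3]
    nlinarith
  have hL24 : L ^ 2 ≤ L ^ 4 := pow_le_pow_right₀ hL1 (by norm_num)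
  have hP0 : 0 < x ^ (1 - 5 * c) := Real.rpow_pos_of_pos hx0 _
  -- the sum with the von Mangoldt function
  have hS : ∀ y : ℕ, 1 ≤ y → y ≤ Y → ‖∑ n ∈ Icc 1 y, ((vonMangoldt n : ℝ) : ℂ) * ee (n * γ)‖ ≤
      (2 + 48 * C) * x ^ (1 - 5 * c) * L ^ 4 := by
    intro y hy1 hy
    have hy0 : (0 : ℝ) < (y : ℝ) := by exact_mod_cast hy1
    rcases le_or_gt (y : ℝ) (x ^ (1 - 5 * c)) with h | h
    · refine (lam_triv γ y hy1).trans ?_
      have hl := hlog y hy1 hy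
      have hl0 : 0 ≤ Real.log y := Real.log_nonneg (by exact_mod_cast hy1)
      calc (y : ℝ) * Real.log y ≤ x ^ (1 - 5 * c) * (2 * L) := by
            exact mul_le_mul h hl hl0 hP0.le
        _ ≤ x ^ (1 - 5 * c) * (2 * L ^ 4) := by
            refine mul_le_mul_of_nonneg_left ?_ hP0.le
            linarith
        _ ≤ (2 + 48 * C) * x ^ (1 - 5 * c) * L ^ 4 := by
            have : 0 ≤ C * x ^ (1 - 5 * c) * L ^ 4 := by positivity
            nlinarith
    · have hky : k ≤ y := by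
        have h1 : (k : ℝ) ≤ x ^ (1 - 5 * c) := by
          refine hk2.trans (Real.rpow_le_rpow_of_exponent_le hx1 ?_)
          rw [hτc]
          linarith
        have h2 : (k : ℝ) < (y : ℝ) := lt_of_le_of_lt h1 h
        exact_mod_cast h2.le
      have hv := hV k a γ hk4 hcop hγ y hky
      refine hv.trans ?_
      have hyX := hy2 y hy
      have t1 : (y : ℝ) / Real.sqrt k ≤ x ^ (1 - 5 * c) := by
        have hsq : x ^ (10 * c) ≤ Real.sqrt k := by
          refine Real.le_sqrt_of_sq_le ?_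
          have e : (x ^ (10 * c)) ^ 2 = x ^ (τ / 2) := by
            rw [← Real.rpow_natCast, ← Real.rpow_mul hx0.le]
            congr 1
            rw [hτc]
            push_cast
            ring
          rw [e]
          exact hk1
        have hsq0 : 0 < Real.sqrt k := Real.sqrt_pos.mpr hk0
        rw [div_le_iff₀ hsq0]
        calc (y : ℝ) ≤ x ^ (1 + c) := hyX
          _ ≤ x ^ (1 + 5 * c) := Real.rpow_le_rpow_of_exponent_le hx1 (by linarith)
          _ = x ^ (1 - 5 * c) * x ^ (10 * c) := by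
              rw [← Real.rpow_add hx0]
              congr 1
              ring
          _ ≤ x ^ (1 - 5 * c) * Real.sqrt k := mul_le_mul_of_nonneg_left hsq hP0.le
      have t2 : (y : ℝ) ^ (5 / 6 : ℝ) ≤ x ^ (1 - 5 * c) := by
        calc (y : ℝ) ^ (5 / 6 : ℝ) ≤ (x ^ (1 + c)) ^ (5 / 6 : ℝ) :=
              Real.rpow_le_rpow hy0.le hyX (by norm_num)
          _ = x ^ ((1 + c) * (5 / 6)) := by rw [← Real.rpow_mul hx0.le]
          _ ≤ x ^ (1 - 5 * c) := Real.rpow_le_rpow_of_exponent_le hx1 (by linarith)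
      have t3 : Real.sqrt ((y : ℝ) * k) ≤ x ^ (1 - 5 * c) := by
        refine Real.sqrt_le_iff.mpr ⟨hP0.le, ?_⟩
        have e : (x ^ (1 - 5 * c)) ^ 2 = x ^ (1 + c) * x ^ (1 - 11 * c) := by
          rw [← Real.rpow_natCast, ← Real.rpow_mul hx0.le, ← Real.rpow_add hx0]
          congr 1
          push_cast
          ring
        rw [e]
        refine mul_le_mul hyX ?_ hk0.le (Real.rpow_pos_of_pos hx0 _).le
        refine hk2.trans (Real.rpow_le_rpow_of_exponent_le hx1 ?_)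
        rw [hτc]
        linarith
      have hl := hlog y hy1 hy
      have hl0 : 0 ≤ Real.log y := Real.log_nonneg (by exact_mod_cast hy1)
      have hl4 : Real.log y ^ 4 ≤ 16 * L ^ 4 := by
        calc Real.log y ^ 4 ≤ (2 * L) ^ 4 := pow_le_pow_left₀ hl0 hl 4
          _ = 16 * L ^ 4 := by ring
      calc C * ((y : ℝ) / Real.sqrt k + (y : ℝ) ^ (5 / 6 : ℝ) + Real.sqrt (y * k)) *
            Real.log y ^ 4
          ≤ C * (3 * x ^ (1 - 5 * c)) * (16 * L ^ 4) := by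
            refine mul_le_mul ?_ hl4 (by positivity) (by positivity)
            refine mul_le_mul_of_nonneg_left ?_ hC.le
            linarith
        _ ≤ (2 + 48 * C) * x ^ (1 - 5 * c) * L ^ 4 := by
            have : 0 ≤ x ^ (1 - 5 * c) * L ^ 4 := by positivity
            nlinarith
  -- the sum with log p
  have hT : ∀ y ≤ Y, ‖∑ n ∈ Icc 2 y,
      (if n.Prime then ((Real.log n : ℝ) : ℂ) * ee (n * γ) else 0)‖ ≤
      (20 + 48 * C) * x ^ (1 - 5 * c) * L ^ 4 := by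
    intro y hy
    rw [pri_part]
    rcases Nat.eq_zero_or_pos y with rfl | hy1
    · simp only [Finset.Icc_eq_empty (by norm_num : ¬ (1 : ℕ) ≤ 0), Finset.filter_empty,
        Finset.sum_empty, norm_zero]
      positivity
    have h1 := pp_bd y (fun n => ee (n * γ)) (fun n => (norm_ee _).le)
    have h2 := hS y hy1 hy
    have h3 : 2 * Real.sqrt y * Real.log (y + 1) ^ 2 ≤ 18 * x ^ (1 - 5 * c) * L ^ 4 := by
      have hs : Real.sqrt y ≤ x ^ (1 - 5 * c) := by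
        refine Real.sqrt_le_iff.mpr ⟨hP0.le, ?_⟩
        have e : (x ^ (1 - 5 * c)) ^ 2 = x ^ (2 - 10 * c) := by
          rw [← Real.rpow_natCast, ← Real.rpow_mul hx0.le]
          congr 1
          push_cast
          ring
        rw [e]
        exact (hy2 y hy).trans (Real.rpow_le_rpow_of_exponent_le hx1 (by linarith))
      have hl := hlog1 y hy
      have hl0 : 0 ≤ Real.log ((y : ℝ) + 1) := Real.log_nonneg (by
        have : (0 : ℝ) ≤ (y : ℝ) := by positivity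
        linarith)
      have hl2 : Real.log ((y : ℝ) + 1) ^ 2 ≤ 9 * L ^ 2 := by
        calc Real.log ((y : ℝ) + 1) ^ 2 ≤ (3 * L) ^ 2 := pow_le_pow_left₀ hl0 hl 2
          _ = 9 * L ^ 2 := by ring
      calc 2 * Real.sqrt y * Real.log (y + 1) ^ 2
          ≤ 2 * x ^ (1 - 5 * c) * (9 * L ^ 2) := by
            refine mul_le_mul ?_ hl2 (by positivity) (by positivity)
            linarith
        _ ≤ 2 * x ^ (1 - 5 * c) * (9 * L ^ 4) := by
            refine mul_le_mul_of_nonneg_left ?_ (by positivity)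
            linarith
        _ = 18 * x ^ (1 - 5 * c) * L ^ 4 := by ring
    have h4 : ‖∑ n ∈ (Icc 1 y).filter Nat.Prime, ((Real.log n : ℝ) : ℂ) * ee (n * γ)‖ ≤
        ‖∑ n ∈ Icc 1 y, ((vonMangoldt n : ℝ) : ℂ) * ee (n * γ)‖ +
        ‖∑ n ∈ Icc 1 y, ((vonMangoldt n : ℝ) : ℂ) * ee (n * γ) -
          ∑ n ∈ (Icc 1 y).filter Nat.Prime, ((Real.log n : ℝ) : ℂ) * ee (n * γ)‖ := by
      have e : ∑ n ∈ (Icc 1 y).filter Nat.Prime, ((Real.log n : ℝ) : ℂ) * ee (n * γ) =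
          ∑ n ∈ Icc 1 y, ((vonMangoldt n : ℝ) : ℂ) * ee (n * γ) -
          (∑ n ∈ Icc 1 y, ((vonMangoldt n : ℝ) : ℂ) * ee (n * γ) -
          ∑ n ∈ (Icc 1 y).filter Nat.Prime, ((Real.log n : ℝ) : ℂ) * ee (n * γ)) := by ring
      calc ‖∑ n ∈ (Icc 1 y).filter Nat.Prime, ((Real.log n : ℝ) : ℂ) * ee (n * γ)‖
          = ‖∑ n ∈ Icc 1 y, ((vonMangoldt n : ℝ) : ℂ) * ee (n * γ) -
          (∑ n ∈ Icc 1 y, ((vonMangoldt n : ℝ) : ℂ) * ee (n * γ) -
          ∑ n ∈ (Icc 1 y).filter Nat.Prime, ((Real.log n : ℝ) : ℂ) * ee (n * γ))‖ := by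
            rw [← e]
        _ ≤ _ := norm_sub_le _ _
    have h5 : (2 + 48 * C) * x ^ (1 - 5 * c) * L ^ 4 + 18 * x ^ (1 - 5 * c) * L ^ 4 =
        (20 + 48 * C) * x ^ (1 - 5 * c) * L ^ 4 := by ring
    have h1' := h1.trans h3
    linarith
  rw [pri_eq]
  have hlog2 : (1 : ℝ) / 2 ≤ Real.log 2 := by
    have := Real.log_two_gt_d9
    linarith
  have habel := abel_bd (fun n => if n.Prime then ((Real.log n : ℝ) : ℂ) * ee (n * γ) else 0)
    (fun n => (Real.log n)⁻¹) ((20 + 48 * C) * x ^ (1 - 5 * c) * L ^ 4) 2 Y hT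
    (fun n hn => by
      have : (1 : ℝ) ≤ (n : ℝ) := by exact_mod_cast (by omega : 1 ≤ n)
      exact inv_nonneg.mpr (Real.log_nonneg this))
    (fun n hn => by
      have h1 : (2 : ℝ) ≤ (n : ℝ) := by exact_mod_cast hn
      have h2 : 0 < Real.log n := Real.log_pos (by linarith)
      refine inv_anti₀ h2 (Real.log_le_log (by linarith) ?_)
      push_cast
      linarith)
    (by
      show (Real.log ((2 : ℕ) : ℝ))⁻¹ ≤ 2
      push_cast
      rw [inv_le_comm₀ (by linarith) (by norm_num)]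
      linarith)
  refine habel.trans ?_
  have e : x ^ (1 - c) = x ^ (1 - 5 * c) * x ^ (4 * c) := by
    rw [← Real.rpow_add hx0]
    congr 1
    ring
  rw [e]
  calc 2 * ((20 + 48 * C) * x ^ (1 - 5 * c) * L ^ 4)
      = x ^ (1 - 5 * c) * (2 * (20 + 48 * C) * L ^ 4) := by ring
    _ ≤ x ^ (1 - 5 * c) * x ^ (4 * c) := mul_le_mul_of_nonneg_left hx hP0.le

end Pool.Agent.H95.RO
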